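import Pool.Agent.RG.Defs
import Pool.Agent.Helper35.Primes

/-!
# RG / Mer: Mertens' theorems with error terms

`Pool.Agent.Helper35.mertens_lower/upper`: `log n - 3 ≤ ∑_{p ≤ n} log p / p ≤ log n + 2`.  Abel
summation with the weight `1 / log p` gives `|∑_{u < p ≤ v} 1/p - (loglog v - loglog u)| ≤ C / log u`
for `2 ≤ u ≤ v`; `log (1 - 1/p) = -1/p + O(1/p^2)` and `∑_{p > u} 1/p^2 ≤ 1/u ≤ C / log u`.
(`V` is over `p < n`, `prm w z` over `w < p ≤ z`: `V (z+1) = V (w+1) * pr (plist w z)`, `prod_plist`.)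
-/

set_option autoImplicit false

namespace Pool.Agent.RG

open Finset Real

/-- `A n = ∑_{p ≤ n} log p / p`. -/
noncomputable def mA (n : ℕ) : ℝ := ∑ p ∈ Pool.Agent.Helper35.prm 0 n, Real.log p / p

lemma mA_bound (n : ℕ) (hn : 1 ≤ n) : |mA n - log n| ≤ 3 := by
  have h1 := Pool.Agent.Helper35.mertens_lower n hn
  have h2 := Pool.Agent.Helper35.mertens_upper n hn
  unfold mA
  rw [abs_le]; constructor <;> linarith

lemma h35_prm_succ (n : ℕ) : Pool.Agent.Helper35.prm 0 (n + 1) =
    if (n + 1).Prime then insert (n + 1) (Pool.Agent.Helper35.prm 0 n)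
    else Pool.Agent.Helper35.prm 0 n := by
  ext p
  by_cases hp : (n + 1).Prime
  · rw [if_pos hp, mem_insert, Pool.Agent.Helper35.mem_prm, Pool.Agent.Helper35.mem_prm]
    constructor
    · rintro ⟨⟨h1, h2⟩, h3⟩
      rcases eq_or_ne p (n + 1) with h4 | h4
      · exact Or.inl h4
      · exact Or.inr ⟨⟨by omega, by omega⟩, h3⟩
    · rintro (h4 | ⟨⟨h1, h2⟩, h3⟩)
      · subst h4; exact ⟨⟨by omega, by omega⟩, hp⟩
      · exact ⟨⟨by omega, by omega⟩, h3⟩
  · rw [if_neg hp, Pool.Agent.Helper35.mem_prm, Pool.Agent.Helper35.mem_prm]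
    constructor
    · rintro ⟨⟨h1, h2⟩, h3⟩
      refine ⟨⟨h1, ?_⟩, h3⟩
      rcases eq_or_ne p (n + 1) with h4 | h4
      · subst h4; exact absurd h3 hp
      · omega
    · rintro ⟨⟨h1, h2⟩, h3⟩
      exact ⟨⟨by omega, by omega⟩, h3⟩

lemma mA_succ (n : ℕ) : mA (n + 1) =
    mA n + if (n + 1).Prime then log ((n + 1 : ℕ) : ℝ) / ((n + 1 : ℕ) : ℝ) else 0 := by
  unfold mA
  rw [h35_prm_succ]
  by_cases hp : (n + 1).Prime
  · rw [if_pos hp, if_pos hp, sum_insert (by rw [Pool.Agent.Helper35.mem_prm]; omega)]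
    ring
  · rw [if_neg hp, if_neg hp, add_zero]

lemma prm_succ_right (u n : ℕ) (h : u ≤ n) : prm u (n + 1) =
    if (n + 1).Prime then insert (n + 1) (prm u n) else prm u n := by
  ext p
  by_cases hp : (n + 1).Prime
  · rw [if_pos hp, mem_insert, mem_prm, mem_prm]
    constructor
    · rintro ⟨⟨h1, h2⟩, h3⟩
      rcases eq_or_ne p (n + 1) with h4 | h4
      · exact Or.inl h4
      · exact Or.inr ⟨⟨by omega, by omega⟩, h3⟩
    · rintro (h4 | ⟨⟨h1, h2⟩, h3⟩)
      · subst h4; exact ⟨⟨by omega, by omega⟩, hp⟩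
      · exact ⟨⟨by omega, by omega⟩, h3⟩
  · rw [if_neg hp, mem_prm, mem_prm]
    constructor
    · rintro ⟨⟨h1, h2⟩, h3⟩
      refine ⟨⟨h1, ?_⟩, h3⟩
      rcases eq_or_ne p (n + 1) with h4 | h4
      · subst h4; exact absurd h3 hp
      · omega
    · rintro ⟨⟨h1, h2⟩, h3⟩
      exact ⟨⟨by omega, by omega⟩, h3⟩

lemma sum_prm_succ (f : ℕ → ℝ) (u n : ℕ) (h : u ≤ n) :
    ∑ p ∈ prm u (n + 1), f p = ∑ p ∈ prm u n, f p + if (n + 1).Prime then f (n + 1) else 0 := by
  rw [prm_succ_right u n h]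
  by_cases hp : (n + 1).Prime
  · rw [if_pos hp, if_pos hp, sum_insert (by rw [mem_prm]; omega)]
    ring
  · rw [if_neg hp, if_neg hp, add_zero]

/-- One step of the comparison of `loglog`. -/
lemma loglog_step (n : ℕ) (hn : 2 ≤ n) :
    |(log ((n + 1 : ℕ) : ℝ) - log n) * (1 / log ((n + 1 : ℕ) : ℝ)) -
      (log (log ((n + 1 : ℕ) : ℝ)) - log (log n))| ≤ 1 / log n - 1 / log ((n + 1 : ℕ) : ℝ) := by
  have hn1 : (2 : ℝ) ≤ n := by exact_mod_cast hn
  have ha : 0 < log (n : ℝ) := log_pos (by linarith)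
  have hab : log (n : ℝ) < log ((n + 1 : ℕ) : ℝ) := log_lt_log (by linarith) (by push_cast; linarith)
  set a := log (n : ℝ) with ha'
  set b := log ((n + 1 : ℕ) : ℝ) with hb'
  have hb : 0 < b := ha.trans hab
  have hba : b - a ≤ 1 := by
    rw [hb', ha', ← log_div (by positivity) (by positivity)]
    have h2 : ((n + 1 : ℕ) : ℝ) / n ≤ 2 := by
      rw [div_le_iff₀ (by linarith)]; push_cast; linarith
    have h3 := log_le_sub_one_of_pos (x := ((n + 1 : ℕ) : ℝ) / n) (by positivity)
    linarith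
  have h1 : log b - log a ≤ (b - a) / a := by
    rw [← log_div hb.ne' ha.ne']
    have h3 := log_le_sub_one_of_pos (x := b / a) (by positivity)
    have h4 : b / a - 1 = (b - a) / a := by field_simp
    linarith
  have h2 : (b - a) / b ≤ log b - log a := by
    have h3 := log_le_sub_one_of_pos (x := a / b) (by positivity)
    rw [log_div ha.ne' hb.ne'] at h3
    have h4 : 1 - a / b = (b - a) / b := by field_simp
    linarith
  have h5 : (b - a) * (1 / b) = (b - a) / b := by ring
  have h6 : (b - a) / a - (b - a) / b ≤ 1 / a - 1 / b := by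
    have h7 : (b - a) / a - (b - a) / b = (b - a) * (1 / a - 1 / b) := by ring
    have h8 : 0 ≤ 1 / a - 1 / b := by
      have := one_div_le_one_div_of_le ha hab.le
      linarith
    rw [h7]
    nlinarith
  rw [h5, abs_le]
  constructor <;> linarith

theorem recip_bounds : ∃ C : ℝ, 0 < C ∧ ∀ u v : ℕ, 2 ≤ u → u ≤ v →
    |∑ p ∈ prm u v, 1 / (p : ℝ) - (log (log v) - log (log u))| ≤ C / log u := by
  refine ⟨10, by norm_num, ?_⟩
  intro u v hu huv
  have key : |∑ p ∈ prm u v, 1 / (p : ℝ) - (log (log v) - log (log u))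
      - (mA v - log v) * (1 / log v) + (mA u - log u) * (1 / log u)|
      ≤ 4 * (1 / log u - 1 / log v) := by
    induction v, huv using Nat.le_induction with
    | base => rw [prm_self]; simp
    | succ n hn ih =>
      have hn2 : 2 ≤ n := hu.trans hn
      have hs := loglog_step n hn2
      have hn1 : (2 : ℝ) ≤ n := by exact_mod_cast hn2
      have ha : 0 < log (n : ℝ) := log_pos (by linarith)
      have hab : log (n : ℝ) < log ((n + 1 : ℕ) : ℝ) :=
        log_lt_log (by linarith) (by push_cast; linarith)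
      have hE := mA_bound n (by omega)
      rw [sum_prm_succ (fun p => 1 / (p : ℝ)) u n hn, mA_succ]
      set a := log (n : ℝ) with ha'
      set b := log ((n + 1 : ℕ) : ℝ) with hb'
      have hb : 0 < b := ha.trans hab
      have h8 : 0 ≤ 1 / a - 1 / b := by
        have := one_div_le_one_div_of_le ha hab.le
        linarith
      have h9 : |(mA n - a) * (1 / a - 1 / b)| ≤ 3 * (1 / a - 1 / b) := by
        rw [abs_mul, abs_of_nonneg h8]
        exact mul_le_mul_of_nonneg_right hE h8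
      have hsplit : (∑ p ∈ prm u n, 1 / (p : ℝ)
            + if (n + 1).Prime then 1 / ((n + 1 : ℕ) : ℝ) else 0) - (log b - log (log (u : ℝ)))
          - ((mA n + if (n + 1).Prime then b / ((n + 1 : ℕ) : ℝ) else 0) - b) * (1 / b)
          + (mA u - log u) * (1 / log u)
          = (∑ p ∈ prm u n, 1 / (p : ℝ) - (log a - log (log u))
              - (mA n - a) * (1 / a) + (mA u - log u) * (1 / log u))
            + ((b - a) * (1 / b) - (log b - log a)) + (mA n - a) * (1 / a - 1 / b) := by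
        have hne : ((n + 1 : ℕ) : ℝ) ≠ 0 := by positivity
        split_ifs
        · field_simp
          ring
        · field_simp
          ring
      rw [hsplit]
      calc _ ≤ |∑ p ∈ prm u n, 1 / (p : ℝ) - (log a - log (log u))
              - (mA n - a) * (1 / a) + (mA u - log u) * (1 / log u)|
            + |(b - a) * (1 / b) - (log b - log a)| + |(mA n - a) * (1 / a - 1 / b)| :=
            abs_add_three _ _ _
        _ ≤ 4 * (1 / log u - 1 / a) + (1 / a - 1 / b) + 3 * (1 / a - 1 / b) := by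
            linarith [ih, hs, h9]
        _ = 4 * (1 / log u - 1 / b) := by ring
  have hu1 : (2 : ℝ) ≤ u := by exact_mod_cast hu
  have hlu : 0 < log (u : ℝ) := log_pos (by linarith)
  have hluv : log (u : ℝ) ≤ log v := log_le_log (by linarith) (by exact_mod_cast huv)
  have hlv : 0 < log (v : ℝ) := hlu.trans_le hluv
  have hEu := mA_bound u (by omega)
  have hEv := mA_bound v (by omega)
  have hinv : 1 / log (v : ℝ) ≤ 1 / log u := one_div_le_one_div_of_le hlu hluv
  have hiv : 0 < 1 / log (v : ℝ) := by positivity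
  have hiu : 0 < 1 / log (u : ℝ) := by positivity
  have h1 : |(mA v - log v) * (1 / log v)| ≤ 3 * (1 / log u) := by
    rw [abs_mul, abs_of_pos hiv]
    calc _ ≤ 3 * (1 / log (v : ℝ)) := mul_le_mul_of_nonneg_right hEv hiv.le
      _ ≤ _ := by linarith
  have h2 : |(mA u - log u) * (1 / log u)| ≤ 3 * (1 / log u) := by
    rw [abs_mul, abs_of_pos hiu]
    exact mul_le_mul_of_nonneg_right hEu hiu.le
  rw [abs_le] at key h1 h2 ⊢
  have h3 : (10 : ℝ) / log u = 10 * (1 / log u) := by ring
  rw [h3]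
  constructor <;> linarith [key.1, key.2, h1.1, h1.2, h2.1, h2.2]

theorem sq_sum (w z : ℕ) (hw : 1 ≤ w) : ∑ p ∈ prm w z, 1 / (p : ℝ) ^ 2 ≤ 1 / (w : ℝ) := by
  rcases le_total z w with h | h
  · have : prm w z = ∅ := by
      ext p; rw [mem_prm]; simp; omega
    rw [this]; simp
  · have h1 : ∑ p ∈ prm w z, 1 / (p : ℝ) ^ 2 ≤ ∑ p ∈ Ioc w z, ((p : ℝ) ^ 2)⁻¹ := by
      simp only [one_div]
      exact sum_le_sum_of_subset_of_nonneg (filter_subset _ _) (fun i _ _ => by positivity)
    have h2 := sum_Ioc_inv_sq_le_sub (α := ℝ) (k := w) (n := z) (by omega) h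
    have h3 : (0 : ℝ) ≤ (z : ℝ)⁻¹ := by positivity
    rw [one_div]
    linarith

lemma one_sub_lower (x : ℝ) (h0 : 0 ≤ x) (h1 : x ≤ 1 / 2) : exp (-(x + 2 * x ^ 2)) ≤ 1 - x := by
  have h2 : 0 < 1 - x := by linarith
  have h3 : 1 / (1 - x) ≤ exp (x + 2 * x ^ 2) := by
    have h4 : 1 / (1 - x) = x / (1 - x) + 1 := by field_simp; ring
    have h5 : x / (1 - x) ≤ x + 2 * x ^ 2 := by
      rw [div_le_iff₀ h2]
      nlinarith [mul_nonneg (sq_nonneg x) (by linarith : (0 : ℝ) ≤ 1 - 2 * x)]
    have h6 := add_one_le_exp (x / (1 - x))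
    have h7 := exp_le_exp.2 h5
    linarith
  rw [exp_neg]
  rw [div_le_iff₀ h2] at h3
  rw [inv_le_comm₀ (exp_pos _) h2, inv_eq_one_div, div_le_iff₀ h2]
  exact h3

lemma core : ∃ K : ℝ, 0 < K ∧ ∀ w z : ℕ, 2 ≤ w → w ≤ z →
    exp (-(K / log w)) * (log w / log z) ≤ ∏ p ∈ prm w z, (1 - 1 / (p : ℝ)) ∧
    ∏ p ∈ prm w z, (1 - 1 / (p : ℝ)) ≤ exp (K / log w) * (log w / log z) := by
  obtain ⟨C, hC, hrec⟩ := recip_bounds
  refine ⟨C + 2, by linarith, ?_⟩
  intro w z hw hwz
  have hw1 : (2 : ℝ) ≤ w := by exact_mod_cast hw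
  have hlw : 0 < log (w : ℝ) := log_pos (by linarith)
  have hlwz : log (w : ℝ) ≤ log z := log_le_log (by linarith) (by exact_mod_cast hwz)
  have hlz : 0 < log (z : ℝ) := hlw.trans_le hlwz
  have hr := abs_le.1 (hrec w z hw hwz)
  have hratio : log (w : ℝ) / log z = exp (-(log (log z) - log (log w))) := by
    rw [neg_sub, ← log_div hlw.ne' hlz.ne', exp_log (by positivity)]
  have hp : ∀ p ∈ prm w z, (2 : ℝ) ≤ p := fun p hp => by
    exact_mod_cast (mem_prm.1 hp).2.two_le
  have hsq := sq_sum w z (by omega)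
  have hwlog : 1 / (w : ℝ) ≤ 1 / log w := by
    apply one_div_le_one_div_of_le hlw
    have := log_le_sub_one_of_pos (x := (w : ℝ)) (by linarith)
    linarith
  have e1 : (C + 2) / log w = C / log w + 2 * (1 / log w) := by ring
  have hil : 0 < 1 / log (w : ℝ) := by positivity
  constructor
  · rw [hratio, ← exp_add]
    calc exp (-((C + 2) / log w) + -(log (log z) - log (log w)))
        ≤ exp (∑ p ∈ prm w z, -(1 / (p : ℝ) + 2 * (1 / (p : ℝ)) ^ 2)) := by
          apply exp_le_exp.2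
          rw [sum_neg_distrib, sum_add_distrib, ← mul_sum]
          have e2 : ∑ p ∈ prm w z, (1 / (p : ℝ)) ^ 2 = ∑ p ∈ prm w z, 1 / (p : ℝ) ^ 2 :=
            sum_congr rfl fun p _ => by rw [div_pow, one_pow]
          rw [e2, e1]
          linarith [hr.2]
      _ = ∏ p ∈ prm w z, exp (-(1 / (p : ℝ) + 2 * (1 / (p : ℝ)) ^ 2)) := exp_sum _ _
      _ ≤ ∏ p ∈ prm w z, (1 - 1 / (p : ℝ)) := by
          apply prod_le_prod (fun p _ => (exp_pos _).le)
          intro p hpp
          have h2 := hp p hpp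
          apply one_sub_lower _ (by positivity)
          exact one_div_le_one_div_of_le (by norm_num) h2
  · rw [hratio, ← exp_add]
    calc ∏ p ∈ prm w z, (1 - 1 / (p : ℝ)) ≤ ∏ p ∈ prm w z, exp (-(1 / (p : ℝ))) := by
          apply prod_le_prod
          · intro p hpp
            have h2 := hp p hpp
            have : 1 / (p : ℝ) ≤ 1 / 2 := one_div_le_one_div_of_le (by norm_num) h2
            linarith
          · intro p _
            have := add_one_le_exp (-(1 / (p : ℝ)))
            linarith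
      _ = exp (∑ p ∈ prm w z, -(1 / (p : ℝ))) := (exp_sum _ _).symm
      _ ≤ _ := by
          apply exp_le_exp.2
          rw [sum_neg_distrib, e1]
          linarith [hr.1]

theorem V_pos (n : ℕ) : 0 < V n := by
  unfold V
  refine prod_pos fun p hp => ?_
  have h1 : (1 : ℝ) < p := by exact_mod_cast (mem_filter.1 hp).2.one_lt
  have h2 : 1 / (p : ℝ) < 1 := by rw [div_lt_one (by linarith)]; exact h1
  linarith

lemma V_succ_mul (u v : ℕ) (h : u ≤ v) :
    V (v + 1) = V (u + 1) * ∏ p ∈ prm u v, (1 - 1 / (p : ℝ)) := by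
  unfold V
  rw [← prod_union]
  · refine prod_congr ?_ fun _ _ => rfl
    ext p
    simp only [mem_union, mem_filter, mem_range, mem_prm]
    constructor
    · rintro ⟨h1, h2⟩
      rcases lt_or_ge p (u + 1) with h3 | h3
      · exact Or.inl ⟨h3, h2⟩
      · exact Or.inr ⟨⟨by omega, by omega⟩, h2⟩
    · rintro (⟨h1, h2⟩ | ⟨⟨h1, h3⟩, h2⟩)
      · exact ⟨by omega, h2⟩
      · exact ⟨by omega, h2⟩
  · rw [disjoint_left]
    intro p h1 h2
    rw [mem_filter, mem_range] at h1
    rw [mem_prm] at h2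
    omega

lemma V_succ_le (n : ℕ) : V (n + 1) ≤ V n := by
  unfold V
  rw [range_add_one, filter_insert]
  split_ifs with hp
  · rw [prod_insert (by simp)]
    have h0 := V_pos n
    unfold V at h0
    have h1 : (1 : ℝ) < n := by exact_mod_cast hp.one_lt
    have h2 : 0 < 1 / (n : ℝ) := by positivity
    nlinarith
  · exact le_rfl

lemma V_le_succ (n : ℕ) (hn : 2 ≤ n) : V n ≤ exp (2 / n) * V (n + 1) := by
  have hn1 : (2 : ℝ) ≤ n := by exact_mod_cast hn
  have h0 := V_pos n
  have h2 : (1 : ℝ) ≤ exp (2 / n) := one_le_exp (by positivity)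
  have h4 : (1 : ℝ) ≤ exp (2 / n) * (1 - 1 / n) := by
    have h5 := add_one_le_exp (2 / (n : ℝ))
    have h6 : 1 / (n : ℝ) ≤ 1 / 2 := one_div_le_one_div_of_le (by norm_num) hn1
    have h7 : (1 : ℝ) ≤ (2 / (n : ℝ) + 1) * (1 - 1 / n) := by
      have h8 : (2 / (n : ℝ) + 1) * (1 - 1 / n) = 1 + 1 / n * (1 - 2 * (1 / n)) := by ring
      rw [h8]
      have h9 : (0 : ℝ) ≤ 1 / n := by positivity
      nlinarith
    have h10 : (0 : ℝ) ≤ 1 - 1 / n := by linarith
    nlinarith
  unfold V at h0 ⊢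
  rw [range_add_one, filter_insert]
  split_ifs with hp
  · rw [prod_insert (by simp)]
    nlinarith
  · nlinarith

theorem V_ratio : ∃ C : ℝ, 0 < C ∧ ∀ u v : ℕ, 2 ≤ u → u ≤ v →
    V u * log u ≤ (1 + C / log u) * (V v * log v) ∧
    V v * log v ≤ (1 + C / log u) * (V u * log u) := by
  obtain ⟨K, hK, hcore⟩ := core
  refine ⟨(K + 2) * exp ((K + 2) / log 2), by positivity, ?_⟩
  intro u v hu huv
  have hu1 : (2 : ℝ) ≤ u := by exact_mod_cast hu
  have huv1 : (u : ℝ) ≤ v := by exact_mod_cast huv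
  have hlu : 0 < log (u : ℝ) := log_pos (by linarith)
  have hl2 : 0 < log (2 : ℝ) := log_pos (by norm_num)
  have hl2u : log (2 : ℝ) ≤ log u := log_le_log (by norm_num) hu1
  have hluv : log (u : ℝ) ≤ log v := log_le_log (by linarith) huv1
  have hlv : 0 < log (v : ℝ) := hlu.trans_le hluv
  obtain ⟨h1, h2⟩ := hcore u v hu huv
  have hP : 0 < ∏ p ∈ prm u v, (1 - 1 / (p : ℝ)) := lt_of_lt_of_le (by positivity) h1
  have hV := V_succ_mul u v huv
  set P := ∏ p ∈ prm u v, (1 - 1 / (p : ℝ)) with hPdef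
  have hulog : 1 / (u : ℝ) ≤ 1 / log u := by
    apply one_div_le_one_div_of_le hlu
    have := log_le_sub_one_of_pos (x := (u : ℝ)) (by linarith)
    linarith
  have hvu : 1 / (v : ℝ) ≤ 1 / u := one_div_le_one_div_of_le (by linarith) huv1
  -- the exponential is at most `1 + C / log u`
  have hexp : exp ((K + 2) / log u) ≤ 1 + (K + 2) * exp ((K + 2) / log 2) / log u := by
    have h3 : (K + 2) / log u ≤ (K + 2) / log 2 := by
      apply div_le_div_of_nonneg_left (by linarith) hl2 hl2u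
    have h4 := add_one_le_exp (-((K + 2) / log u))
    have h5 : exp ((K + 2) / log u) * exp (-((K + 2) / log u)) = 1 := by
      rw [← exp_add]; simp
    have h6 := exp_pos ((K + 2) / log u)
    have h7 : exp ((K + 2) / log u) ≤ exp ((K + 2) / log 2) := exp_le_exp.2 h3
    have h8 : 0 < (K + 2) / log u := by positivity
    have h9 : exp ((K + 2) / log u) * (-((K + 2) / log u) + 1) ≤ 1 := by
      calc _ ≤ exp ((K + 2) / log u) * exp (-((K + 2) / log u)) :=
            mul_le_mul_of_nonneg_left h4 h6.le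
        _ = 1 := h5
    have h10 : (K + 2) / log u * exp ((K + 2) / log u) ≤ (K + 2) / log u * exp ((K + 2) / log 2) :=
      mul_le_mul_of_nonneg_left h7 h8.le
    have h11 : (K + 2) * exp ((K + 2) / log 2) / log u = (K + 2) / log u * exp ((K + 2) / log 2) := by
      ring
    rw [h11]
    linarith
  have hVu := V_pos u
  have hVv := V_pos v
  have hu2 := V_succ_le u
  have hv2 := V_succ_le v
  have hu3 := V_le_succ u hu
  have hv3 := V_le_succ v (hu.trans huv)
  have hVu1 := V_pos (u + 1)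
  have hVv1 := V_pos (v + 1)
  constructor
  · -- `V u ≤ exp (2/u) V (u+1)`, `V (u+1) = V (v+1) / P ≤ V v / P`
    have h3 : V (u + 1) * (exp (-(K / log u)) * (log u / log v)) ≤ V v := by
      calc _ ≤ V (u + 1) * P := mul_le_mul_of_nonneg_left h1 hVu1.le
        _ = V (v + 1) := hV.symm
        _ ≤ _ := hv2
    have h4 : V (u + 1) * log u ≤ exp (K / log u) * (V v * log v) := by
      have h5 : V (u + 1) * log u =
          exp (K / log u) * ((V (u + 1) * (exp (-(K / log u)) * (log u / log v))) * log v) := by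
        have h6 : exp (K / log u) * exp (-(K / log u)) = 1 := by rw [← exp_add]; simp
        calc V (u + 1) * log u = V (u + 1) * log u * (exp (K / log u) * exp (-(K / log u))) := by
              rw [h6, mul_one]
          _ = _ := by field_simp
      rw [h5]
      exact mul_le_mul_of_nonneg_left (mul_le_mul_of_nonneg_right h3 hlv.le) (exp_pos _).le
    calc V u * log u ≤ (exp (2 / u) * V (u + 1)) * log u := mul_le_mul_of_nonneg_right hu3 hlu.le
      _ = exp (2 / u) * (V (u + 1) * log u) := by ring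
      _ ≤ exp (2 / u) * (exp (K / log u) * (V v * log v)) :=
          mul_le_mul_of_nonneg_left h4 (exp_pos _).le
      _ = exp (2 / u + K / log u) * (V v * log v) := by rw [exp_add]; ring
      _ ≤ exp ((K + 2) / log u) * (V v * log v) := by
          apply mul_le_mul_of_nonneg_right _ (by positivity)
          apply exp_le_exp.2
          have e1 : (2 : ℝ) / u = 2 * (1 / u) := by ring
          have e2 : (K + 2) / log u = K / log u + 2 * (1 / log u) := by ring
          rw [e1, e2]; linarith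
      _ ≤ _ := mul_le_mul_of_nonneg_right hexp (by positivity)
  · calc V v * log v ≤ (exp (2 / v) * V (v + 1)) * log v :=
          mul_le_mul_of_nonneg_right hv3 hlv.le
      _ = exp (2 / v) * (V (u + 1) * P * log v) := by rw [hV]; ring
      _ ≤ exp (2 / v) * (V u * (exp (K / log u) * (log u / log v)) * log v) := by
          apply mul_le_mul_of_nonneg_left _ (exp_pos _).le
          apply mul_le_mul_of_nonneg_right _ hlv.le
          exact mul_le_mul hu2 h2 hP.le hVu.le
      _ = exp (2 / v + K / log u) * (V u * log u) := by rw [exp_add]; field_simp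
      _ ≤ exp ((K + 2) / log u) * (V u * log u) := by
          apply mul_le_mul_of_nonneg_right _ (by positivity)
          apply exp_le_exp.2
          have e1 : (2 : ℝ) / v = 2 * (1 / v) := by ring
          have e2 : (K + 2) / log u = K / log u + 2 * (1 / log u) := by ring
          rw [e1, e2]; linarith
      _ ≤ _ := mul_le_mul_of_nonneg_right hexp (by positivity)

theorem pr_bounds : ∃ c C : ℝ, 0 < c ∧ 0 < C ∧ ∀ w z : ℕ, 2 ≤ w → w ≤ z →
    c * (log w / log z) ≤ pr (plist w z) ∧ pr (plist w z) ≤ C * (log w / log z) := by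
  obtain ⟨K, hK, hcore⟩ := core
  refine ⟨exp (-(K / log 2)), exp (K / log 2), exp_pos _, exp_pos _, ?_⟩
  intro w z hw hwz
  have hw1 : (2 : ℝ) ≤ w := by exact_mod_cast hw
  have hlw : 0 < log (w : ℝ) := log_pos (by linarith)
  have hl2 : 0 < log (2 : ℝ) := log_pos (by norm_num)
  have hl2w : log (2 : ℝ) ≤ log w := log_le_log (by norm_num) hw1
  have hlwz : log (w : ℝ) ≤ log z := log_le_log (by linarith) (by exact_mod_cast hwz)
  have hlz : 0 < log (z : ℝ) := hlw.trans_le hlwz
  obtain ⟨h1, h2⟩ := hcore w z hw hwz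
  have hpr : pr (plist w z) = ∏ p ∈ prm w z, (1 - 1 / (p : ℝ)) := by
    unfold pr
    exact prod_plist (fun p => 1 - 1 / (p : ℝ)) w z hwz
  have h3 : K / log w ≤ K / log 2 := div_le_div_of_nonneg_left hK.le hl2 hl2w
  rw [hpr]
  constructor
  · refine le_trans ?_ h1
    apply mul_le_mul_of_nonneg_right _ (by positivity)
    exact exp_le_exp.2 (by linarith)
  · refine le_trans h2 ?_
    apply mul_le_mul_of_nonneg_right _ (by positivity)
    exact exp_le_exp.2 h3

lemma log_ratio (w n : ℕ) (hw : 2 ≤ w) (hn : w ≤ n) :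
    log n ≤ 7 * log w * √(√((n : ℝ) / w)) := by
  have hw1 : (2 : ℝ) ≤ w := by exact_mod_cast hw
  have hn1 : (w : ℝ) ≤ n := by exact_mod_cast hn
  set s := √(√((n : ℝ) / w)) with hs
  have hr : 1 ≤ (n : ℝ) / w := by rw [le_div_iff₀ (by linarith)]; linarith
  have hs1 : 1 ≤ s := by
    rw [hs]
    exact Real.one_le_sqrt.2 (Real.one_le_sqrt.2 hr)
  have hs4 : s ^ 4 = (n : ℝ) / w := by
    have h1 : s ^ 2 = √((n : ℝ) / w) := Real.sq_sqrt (Real.sqrt_nonneg _)
    calc s ^ 4 = (s ^ 2) ^ 2 := by ring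
      _ = _ := by rw [h1, Real.sq_sqrt (by linarith)]
  have hn' : (n : ℝ) = w * s ^ 4 := by rw [hs4]; field_simp
  have h2 : log (n : ℝ) = log w + 4 * log s := by
    rw [hn', log_mul (by positivity) (by positivity), log_pow]; norm_num
  have h3 := log_le_sub_one_of_pos (x := s) (by linarith)
  have h4 : (0.69 : ℝ) ≤ log w := by
    have h5 : log 2 ≤ log (w : ℝ) := log_le_log (by norm_num) hw1
    have := Real.log_two_gt_d9
    linarith
  rw [h2]
  nlinarith

lemma sqrt_sum (w z : ℕ) (hw : 1 ≤ w) (h : w ≤ z) :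
    ∑ n ∈ Ioc w z, √(n : ℝ) / (n : ℝ) ^ 2 ≤ 2 * (1 / √w - 1 / √z) := by
  induction z, h using Nat.le_induction with
  | base => simp
  | succ n hn ih =>
    rw [← Finset.insert_Ioc_right_eq_Ioc_add_one hn, sum_insert (by simp)]
    have hn1 : (1 : ℝ) ≤ n := by exact_mod_cast hw.trans hn
    have ha : 0 < √(n : ℝ) := Real.sqrt_pos.2 (by linarith)
    have hab : √(n : ℝ) ≤ √((n + 1 : ℕ) : ℝ) := Real.sqrt_le_sqrt (by push_cast; linarith)
    have hb2 : √((n + 1 : ℕ) : ℝ) ^ 2 = n + 1 := by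
      rw [Real.sq_sqrt (by positivity)]; push_cast; ring
    have ha2 : √(n : ℝ) ^ 2 = n := Real.sq_sqrt (by linarith)
    have hcast : ((n + 1 : ℕ) : ℝ) = √((n + 1 : ℕ) : ℝ) ^ 2 := by rw [hb2]; push_cast; ring
    set a := √(n : ℝ) with hadef
    set b := √((n + 1 : ℕ) : ℝ) with hbdef
    have hb : 0 < b := ha.trans_le hab
    have key : b / ((n + 1 : ℕ) : ℝ) ^ 2 ≤ 2 * (1 / a - 1 / b) := by
      rw [hcast]
      have hd : (b - a) * (b + a) = 1 := by nlinarith
      have e1 : 2 * (1 / a - 1 / b) = 2 * (b - a) / (a * b) := by field_simp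
      have e2 : b / (b ^ 2) ^ 2 = 1 / b ^ 3 := by field_simp
      rw [e1, e2, div_le_div_iff₀ (by positivity) (by positivity)]
      have h5 : 1 ≤ 2 * b * (b - a) := by nlinarith
      have h6 : a * b ≤ b ^ 2 := by nlinarith
      calc 1 * (a * b) ≤ b ^ 2 * 1 := by linarith
        _ ≤ b ^ 2 * (2 * b * (b - a)) := by
            apply mul_le_mul_of_nonneg_left h5 (by positivity)
        _ = 2 * (b - a) * b ^ 3 := by ring
    linarith

theorem log_sq_sum : ∃ C : ℝ, 0 < C ∧ ∀ w z : ℕ, 2 ≤ w →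
    ∑ p ∈ prm w z, (log p / p) ^ 2 ≤ C * (log w) ^ 2 / w := by
  refine ⟨98, by norm_num, ?_⟩
  intro w z hw
  have hw1 : (2 : ℝ) ≤ w := by exact_mod_cast hw
  have hlw : 0 < log (w : ℝ) := log_pos (by linarith)
  rcases le_total z w with h | h
  · have : prm w z = ∅ := by
      ext p; rw [mem_prm]; simp; omega
    rw [this, sum_empty]; positivity
  · have hsw : 0 < √(w : ℝ) := Real.sqrt_pos.2 (by linarith)
    have hsw2 : √(w : ℝ) * √(w : ℝ) = w := Real.mul_self_sqrt (by linarith)
    calc ∑ p ∈ prm w z, (log p / p) ^ 2 ≤ ∑ n ∈ Ioc w z, (log n / n) ^ 2 :=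
          sum_le_sum_of_subset_of_nonneg (filter_subset _ _) (fun i _ _ => by positivity)
      _ ≤ ∑ n ∈ Ioc w z, 49 * (log w) ^ 2 / √w * (√(n : ℝ) / (n : ℝ) ^ 2) := by
          apply sum_le_sum
          intro n hn
          rw [mem_Ioc] at hn
          have hn1 : (w : ℝ) ≤ n := by exact_mod_cast hn.1.le
          have h1 := log_ratio w n hw hn.1.le
          have hln : 0 ≤ log (n : ℝ) := log_nonneg (by linarith)
          have h2 : (log (n : ℝ)) ^ 2 ≤ (7 * log w * √(√((n : ℝ) / w))) ^ 2 :=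
            pow_le_pow_left₀ hln h1 2
          have h3 : (7 * log w * √(√((n : ℝ) / w))) ^ 2 = 49 * (log w) ^ 2 * (√(n : ℝ) / √w) := by
            rw [mul_pow, Real.sq_sqrt (Real.sqrt_nonneg _), Real.sqrt_div (by positivity)]
            ring
          rw [h3] at h2
          have hnp : (0 : ℝ) < n := by linarith
          rw [div_pow, div_le_iff₀ (by positivity)]
          calc (log (n : ℝ)) ^ 2 ≤ 49 * (log w) ^ 2 * (√(n : ℝ) / √w) := h2
            _ = _ := by field_simp
      _ = 49 * (log w) ^ 2 / √w * ∑ n ∈ Ioc w z, (√(n : ℝ) / (n : ℝ) ^ 2) := by rw [mul_sum]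
      _ ≤ 49 * (log w) ^ 2 / √w * (2 * (1 / √w)) := by
          apply mul_le_mul_of_nonneg_left _ (by positivity)
          have h1 := sqrt_sum w z (by omega) h
          have h2 : 0 ≤ 1 / √(z : ℝ) := by positivity
          linarith
      _ = 98 * (log w) ^ 2 / (√(w : ℝ) * √(w : ℝ)) := by
          field_simp; ring
      _ = 98 * (log w) ^ 2 / w := by rw [hsw2]

end Pool.Agent.RG
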