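import Mathlib

/-!
# RG / Ev: Bonferroni inequalities for events and for products
-/

set_option autoImplicit false

namespace Pool.Agent.RG

open Finset

/-- the truncated inclusion-exclusion sum -/
private lemma tsum_insert {ι : Type*} [DecidableEq ι] (s : Finset ι) (x : ι → ℝ) (a : ι)
    (ha : a ∉ s) (r : ℕ) :
    ∑ S ∈ (insert a s).powerset.filter (fun S => S.card ≤ r + 1), (-1 : ℝ) ^ S.card * ∏ i ∈ S, x i =
      ∑ S ∈ s.powerset.filter (fun S => S.card ≤ r + 1), (-1 : ℝ) ^ S.card * ∏ i ∈ S, x i -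
        x a * ∑ S ∈ s.powerset.filter (fun S => S.card ≤ r), (-1 : ℝ) ^ S.card * ∏ i ∈ S, x i := by
  rw [sum_filter, sum_filter, sum_filter, sum_powerset_insert ha, sub_eq_add_neg, mul_sum,
    ← sum_neg_distrib]
  congr 1
  refine sum_congr rfl fun t ht => ?_
  have hat : a ∉ t := fun h => ha (mem_powerset.1 ht h)
  rw [card_insert_of_notMem hat, prod_insert hat]
  by_cases h : t.card ≤ r
  · rw [if_pos (by omega), if_pos h, pow_succ]
    ring
  · rw [if_neg (by omega), if_neg h]
    ring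

private lemma prod_bonf {ι : Type*} [DecidableEq ι] (s : Finset ι) (x : ι → ℝ)
    (hx : ∀ i ∈ s, 0 ≤ x i ∧ x i ≤ 1) : ∀ r : ℕ,
    0 ≤ (-1 : ℝ) ^ r * (∑ S ∈ s.powerset.filter (fun S => S.card ≤ r),
      (-1 : ℝ) ^ S.card * ∏ i ∈ S, x i - ∏ i ∈ s, (1 - x i)) := by
  induction s using Finset.induction_on with
  | empty =>
    intro r
    have h0 : ((∅ : Finset ι).powerset.filter (fun S => S.card ≤ r)) = {∅} := by
      ext S
      simp only [mem_filter, mem_powerset, subset_empty, mem_singleton]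
      constructor
      · exact fun h => h.1
      · rintro rfl; exact ⟨rfl, by simp⟩
    rw [h0]
    simp
  | insert a s ha ih =>
    have ih' := ih fun i hi => hx i (mem_insert_of_mem hi)
    intro r
    rw [prod_insert ha]
    rcases r with _ | r
    · have h0 : ((insert a s).powerset.filter (fun S => S.card ≤ 0)) = {∅} := by
        ext S
        simp only [mem_filter, mem_powerset, nonpos_iff_eq_zero, card_eq_zero, mem_singleton]
        constructor
        · exact fun h => h.2
        · rintro rfl; exact ⟨empty_subset _, rfl⟩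
      rw [h0, sum_singleton]
      simp only [pow_zero, card_empty, prod_empty, one_mul]
      have h1 : ∏ i ∈ s, (1 - x i) ≤ 1 := prod_le_one
        (fun i hi => by linarith [(hx i (mem_insert_of_mem hi)).2])
        (fun i hi => by linarith [(hx i (mem_insert_of_mem hi)).1])
      have h2 : 0 ≤ ∏ i ∈ s, (1 - x i) := prod_nonneg
        (fun i hi => by linarith [(hx i (mem_insert_of_mem hi)).2])
      have h3 := hx a (mem_insert_self a s)
      nlinarith
    · rw [tsum_insert s x a ha r]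
      have h1 := ih' (r + 1)
      have h2 := ih' r
      have h3 := (hx a (mem_insert_self a s)).1
      have h4 := mul_nonneg h3 h2
      have h5 : (-1 : ℝ) ^ (r + 1) * (∑ S ∈ s.powerset.filter (fun S => S.card ≤ r + 1),
            (-1 : ℝ) ^ S.card * ∏ i ∈ S, x i -
          x a * ∑ S ∈ s.powerset.filter (fun S => S.card ≤ r), (-1 : ℝ) ^ S.card * ∏ i ∈ S, x i -
          (1 - x a) * ∏ i ∈ s, (1 - x i)) =
          (-1 : ℝ) ^ (r + 1) * (∑ S ∈ s.powerset.filter (fun S => S.card ≤ r + 1),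
            (-1 : ℝ) ^ S.card * ∏ i ∈ S, x i - ∏ i ∈ s, (1 - x i)) +
          x a * ((-1 : ℝ) ^ r * (∑ S ∈ s.powerset.filter (fun S => S.card ≤ r),
            (-1 : ℝ) ^ S.card * ∏ i ∈ S, x i - ∏ i ∈ s, (1 - x i))) := by
        rw [pow_succ]; ring
      rw [h5]
      exact add_nonneg h1 h4

/-- Bonferroni for products; induction on `s` (both parities together): for `insert a s` the sum is
`∑_{|S| ≤ r} - x_a ∑_{|S| ≤ r-1}` (sums over `S ⊆ s`). -/
theorem prod_even {ι : Type*} [DecidableEq ι] (s : Finset ι) (x : ι → ℝ)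
    (hx : ∀ i ∈ s, 0 ≤ x i ∧ x i ≤ 1) (r : ℕ) (hr : Even r) :
    ∏ i ∈ s, (1 - x i) ≤
      ∑ S ∈ s.powerset.filter (fun S => S.card ≤ r), (-1 : ℝ) ^ S.card * ∏ i ∈ S, x i := by
  have h := prod_bonf s x hx r
  rw [hr.neg_one_pow, one_mul] at h
  linarith

theorem prod_odd {ι : Type*} [DecidableEq ι] (s : Finset ι) (x : ι → ℝ)
    (hx : ∀ i ∈ s, 0 ≤ x i ∧ x i ≤ 1) (r : ℕ) (hr : Odd r) :
    ∑ S ∈ s.powerset.filter (fun S => S.card ≤ r), (-1 : ℝ) ^ S.card * ∏ i ∈ S, x i ≤
      ∏ i ∈ s, (1 - x i) := by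
  have h := prod_bonf s x hx r
  rw [hr.neg_one_pow] at h
  linarith

private lemma prod_ind {ι : Type*} (s : Finset ι) (B : ι → Prop) [DecidablePred B] :
    ∏ i ∈ s, (1 - (if B i then (1 : ℝ) else 0)) = if ∀ i ∈ s, ¬ B i then (1 : ℝ) else 0 := by
  rw [← prod_boole]
  refine prod_congr rfl fun i _ => ?_
  by_cases h : B i <;> simp [h]

/-- Pointwise Bonferroni, even: with `m = #{i ∈ s : B i}` the right side is
`∑_{j ≤ r} (-1)^j C(m, j) = (-1)^r C(m-1, r)` for `m ≥ 1` and `1` for `m = 0`. -/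
theorem ev_even {ι : Type*} [DecidableEq ι] (s : Finset ι) (B : ι → Prop) [DecidablePred B] (r : ℕ)
    (hr : Even r) :
    (if ∀ i ∈ s, ¬ B i then (1 : ℝ) else 0) ≤
      ∑ S ∈ s.powerset.filter (fun S => S.card ≤ r),
        (-1 : ℝ) ^ S.card * (if ∀ i ∈ S, B i then (1 : ℝ) else 0) := by
  have h := prod_even s (fun i => if B i then (1 : ℝ) else 0)
    (fun i _ => by by_cases h : B i <;> simp [h]) r hr
  rw [prod_ind] at h
  refine h.trans (le_of_eq ?_)
  refine sum_congr rfl fun S _ => ?_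
  rw [prod_boole]

theorem ev_odd {ι : Type*} [DecidableEq ι] (s : Finset ι) (B : ι → Prop) [DecidablePred B] (r : ℕ)
    (hr : Odd r) :
    ∑ S ∈ s.powerset.filter (fun S => S.card ≤ r),
        (-1 : ℝ) ^ S.card * (if ∀ i ∈ S, B i then (1 : ℝ) else 0) ≤
      (if ∀ i ∈ s, ¬ B i then (1 : ℝ) else 0) := by
  have h := prod_odd s (fun i => if B i then (1 : ℝ) else 0)
    (fun i _ => by by_cases h : B i <;> simp [h]) r hr
  rw [prod_ind] at h
  refine le_trans (le_of_eq ?_) h
  refine sum_congr rfl fun S _ => ?_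
  rw [prod_boole]

private lemma pow_bern (E x : ℝ) (hE : 0 ≤ E) (hx : 0 ≤ x) (r : ℕ) :
    E ^ (r + 1) + (r + 1) * x * E ^ r ≤ (E + x) ^ (r + 1) := by
  induction r with
  | zero => simp
  | succ r ih =>
    have h1 : (E + x) ^ (r + 1 + 1) = (E + x) * (E + x) ^ (r + 1) := by ring
    have h2 : (E + x) * (E ^ (r + 1) + (r + 1) * x * E ^ r) ≤ (E + x) * (E + x) ^ (r + 1) :=
      mul_le_mul_of_nonneg_left ih (by linarith)
    have h3 : 0 ≤ ((r : ℝ) + 1) * x ^ 2 * E ^ r := by positivity
    rw [h1]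
    refine le_trans ?_ h2
    have h4 : (E + x) * (E ^ (r + 1) + (r + 1) * x * E ^ r) =
        E ^ (r + 1 + 1) + ((r + 1 : ℕ) + 1) * x * E ^ (r + 1) + ((r : ℝ) + 1) * x ^ 2 * E ^ r := by
      push_cast
      ring
    rw [h4]
    push_cast
    linarith

/-- `∑_{S ⊆ s, |S| = r} ∏_{i ∈ S} x_i ≤ (∑ x_i)^r / r!` for `x ≥ 0`
(`Finset.prod_pow_...`/Maclaurin; e.g. by induction: `(r+1) e_{r+1} ≤ e_r e_1`). -/
theorem esymm_le {ι : Type*} [DecidableEq ι] (s : Finset ι) (x : ι → ℝ) (hx : ∀ i ∈ s, 0 ≤ x i)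
    (r : ℕ) :
    ∑ S ∈ s.powersetCard r, ∏ i ∈ S, x i ≤ (∑ i ∈ s, x i) ^ r / (r.factorial : ℝ) := by
  induction s using Finset.induction_on generalizing r with
  | empty =>
    rcases r with _ | r
    · simp
    · rw [powersetCard_eq_empty.2 (by simp)]
      simp
  | insert a s ha ih =>
    have ih' := ih fun i hi => hx i (mem_insert_of_mem hi)
    rcases r with _ | r
    · simp
    · rw [powersetCard_succ_insert ha, sum_union, sum_image, sum_insert ha]
      · have h1 : ∑ S ∈ s.powersetCard r, ∏ i ∈ insert a S, x i =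
            x a * ∑ S ∈ s.powersetCard r, ∏ i ∈ S, x i := by
          rw [mul_sum]
          refine sum_congr rfl fun S hS => ?_
          rw [prod_insert]
          exact fun h => ha ((mem_powersetCard.1 hS).1 h)
        rw [h1]
        have hE : 0 ≤ ∑ i ∈ s, x i := sum_nonneg fun i hi => hx i (mem_insert_of_mem hi)
        have hxa : 0 ≤ x a := hx a (mem_insert_self a s)
        have h2 := ih' (r + 1)
        have h3 := mul_le_mul_of_nonneg_left (ih' r) hxa
        have h4 := pow_bern (∑ i ∈ s, x i) (x a) hE hxa r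
        have hf : (0 : ℝ) < (r.factorial : ℝ) := by exact_mod_cast r.factorial_pos
        have hf' : ((r + 1).factorial : ℝ) = (r + 1) * (r.factorial : ℝ) := by
          rw [Nat.factorial_succ]; push_cast; ring
        rw [hf'] at h2 ⊢
        have h5 : x a * ((∑ i ∈ s, x i) ^ r / (r.factorial : ℝ)) =
            ((r + 1) * x a * (∑ i ∈ s, x i) ^ r) / ((r + 1) * (r.factorial : ℝ)) := by
          field_simp
        rw [h5] at h3
        refine (add_le_add h2 h3).trans ?_
        rw [← add_div, add_comm (x a)]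
        exact div_le_div_of_nonneg_right h4 (by positivity)
      · intro S hS T hT hST
        have hS' : a ∉ S := fun h => ha ((mem_powersetCard.1 hS).1 h)
        have hT' : a ∉ T := fun h => ha ((mem_powersetCard.1 hT).1 h)
        have := congrArg (fun U : Finset ι => U.erase a) hST
        simpa [erase_insert hS', erase_insert hT'] using this
      · rw [disjoint_left]
        intro S hS hS'
        obtain ⟨T, hT, rfl⟩ := mem_image.1 hS'
        exact ha ((mem_powersetCard.1 hS).1 (mem_insert_self a T))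

end Pool.Agent.RG
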