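import Pool.Agent.RG.Defs

/-!
# RG / LSD: definitions for the linear sieve
-/

set_option autoImplicit false

namespace Pool.Agent.RG

open Finset Real MeasureTheory Set

/-- comparison function for the lower bound sieve -/
noncomputable def bm (s : ℝ) : ℝ := exp (-s)

/-- comparison function for the upper bound sieve -/
noncomputable def bp (s : ℝ) : ℝ := 11 / 10 * exp (1 - max s 3) / min s 3

/-- The functions of the linear sieve: `F = 1 + fp`, `f = 1 - fm`. -/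
structure PhiProps (fp fm : ℝ → ℝ) (C : ℝ) : Prop where
  C_pos : 0 < C
  fp_nonneg : ∀ s, 1 ≤ s → 0 ≤ fp s
  fm_nonneg : ∀ s, 2 ≤ s → 0 ≤ fm s
  fp_le : ∀ s, 1 ≤ s → fp s ≤ C * bp s
  fm_le : ∀ s, 2 ≤ s → fm s ≤ C * bm s
  fp_anti : AntitoneOn fp (Ici 1)
  fm_anti : AntitoneOn fm (Ici 2)
  fp_int : IntegrableOn fp (Ioi 1)
  fm_int : IntegrableOn fm (Ioi 2)
  fm_eq : ∀ s, 2 ≤ s → s * fm s = ∫ x in Ioi (s - 1), fp x
  fp_eq : ∀ s, 1 ≤ s → s * fp s = (∫ x in Ioi (max s 3 - 1), fm x) + (3 - min s 3)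

/-- The integers of `(a, b]` (positive) without prime factors `< z`. -/
noncomputable def Sc (a b : ℝ) (z : ℕ) : ℕ :=
  ((Finset.Icc 1 ⌊b⌋₊).filter (fun n : ℕ => a < n ∧ ∀ p < z, p.Prime → ¬ p ∣ n)).card

/-- The number of squarefree `d ≤ D` all of whose prime factors lie in `[y, z)`. -/
noncomputable def Nd (D : ℝ) (y z : ℕ) : ℕ :=
  ((Finset.Icc 1 ⌊D⌋₊).filter (fun d : ℕ => Squarefree d ∧
    ∀ p ∈ d.primeFactors, y ≤ p ∧ p < z)).card

end Pool.Agent.RG
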