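import Pool.Agent.RG.LSD

/-!
# RG / Buch: Buchstab's identity

* `buchstab`: sort the integers counted in `Sc a b y` but not in `Sc a b z` by their smallest prime
  factor `p ∈ [y, z)`: `n = p m`, `a/p < m ≤ b/p`, `m` without prime factors `< p`.
* `Nd_rec`: `d = 1` or `d = p d'` with `p` the largest prime factor of `d`.
* `Sc_base`: the integers without prime factors `< y` are periodic mod `∏_{p < y} p` with density `V y`.
-/

set_option autoImplicit false

namespace Pool.Agent.RG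

open Finset

lemma filter_prime_Ico_succ (y z : ℕ) (hyz : y ≤ z) (f : ℕ → ℕ) :
    ∑ p ∈ (Ico y (z + 1)).filter Nat.Prime, f p =
      (∑ p ∈ (Ico y z).filter Nat.Prime, f p) + if z.Prime then f z else 0 := by
  rw [sum_filter, sum_filter, sum_Ico_succ_top hyz]

lemma Sc_step (a b : ℝ) (z : ℕ) (hz : 2 ≤ z) :
    Sc a b (z + 1) + (if z.Prime then Sc (a / z) (b / z) z else 0) = Sc a b z := by
  have hz0 : (0 : ℝ) < z := by exact_mod_cast (by omega : 0 < z)
  split_ifs with hp
  · unfold Sc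
    set A := (Finset.Icc 1 ⌊b⌋₊).filter (fun n : ℕ => a < n ∧ ∀ p < z, p.Prime → ¬ p ∣ n) with hA
    have h1 : (Finset.Icc 1 ⌊b⌋₊).filter (fun n : ℕ => a < n ∧ ∀ p < z + 1, p.Prime → ¬ p ∣ n) =
        A.filter (fun n => ¬ z ∣ n) := by
      ext n
      simp only [hA, mem_filter, mem_Icc]
      constructor
      · rintro ⟨h1, h2, h3⟩
        exact ⟨⟨h1, h2, fun p hp1 hp2 => h3 p (by omega) hp2⟩, h3 z (by omega) hp⟩
      · rintro ⟨⟨h1, h2, h3⟩, h4⟩
        refine ⟨h1, h2, fun p hp1 hp2 => ?_⟩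
        rcases Nat.lt_succ_iff_lt_or_eq.1 hp1 with h5 | h5
        · exact h3 p h5 hp2
        · subst h5; exact h4
    have h2 : ((Finset.Icc 1 ⌊b / z⌋₊).filter
        (fun n : ℕ => a / z < n ∧ ∀ p < z, p.Prime → ¬ p ∣ n)).card =
        (A.filter (fun n => z ∣ n)).card := by
      refine card_bij (fun m _ => z * m) ?_ ?_ ?_
      · intro m hm
        simp only [mem_filter, mem_Icc] at hm
        obtain ⟨⟨h3, h4⟩, h5, h6⟩ := hm
        simp only [hA, mem_filter, mem_Icc]
        refine ⟨⟨⟨Nat.mul_pos (by omega) (by omega), ?_⟩, ?_, ?_⟩, Dvd.intro _ rfl⟩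
        · rw [Nat.le_floor_iff' (Nat.mul_pos (by omega) (by omega)).ne']
          rw [Nat.le_floor_iff' (by omega)] at h4
          rw [le_div_iff₀ hz0] at h4
          push_cast; nlinarith
        · rw [div_lt_iff₀ hz0] at h5
          push_cast; nlinarith
        · intro p hp1 hp2 hp3
          rcases (Nat.Prime.dvd_mul hp2).1 hp3 with h7 | h7
          · rcases (Nat.dvd_prime hp).1 h7 with h8 | h8
            · exact hp2.one_lt.ne' h8
            · omega
          · exact h6 p hp1 hp2 h7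
      · intro m1 _ m2 _ h
        exact Nat.eq_of_mul_eq_mul_left (by omega) h
      · intro n hn
        simp only [hA, mem_filter, mem_Icc] at hn
        obtain ⟨⟨⟨h3, h4⟩, h5, h6⟩, m, rfl⟩ := hn
        have hm : 1 ≤ m := by
          rcases Nat.eq_zero_or_pos m with h | h
          · subst h; simp at h3
          · exact h
        refine ⟨m, ?_, rfl⟩
        simp only [mem_filter, mem_Icc]
        refine ⟨⟨hm, ?_⟩, ?_, ?_⟩
        · rw [Nat.le_floor_iff' (by omega), le_div_iff₀ hz0]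
          rw [Nat.le_floor_iff' (by omega)] at h4
          push_cast at h4; nlinarith
        · rw [div_lt_iff₀ hz0]
          push_cast at h5; nlinarith
        · intro p hp1 hp2 hp3
          exact h6 p hp1 hp2 (Dvd.dvd.mul_left hp3 z)
    rw [h1, h2, add_comm]
    exact card_filter_add_card_filter_not _
  · rw [add_zero]
    unfold Sc
    congr 1
    ext n
    simp only [mem_filter, mem_Icc]
    constructor
    · rintro ⟨h1, h2, h3⟩
      exact ⟨h1, h2, fun p hp1 hp2 => h3 p (by omega) hp2⟩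
    · rintro ⟨h1, h2, h3⟩
      refine ⟨h1, h2, fun p hp1 hp2 => ?_⟩
      rcases Nat.lt_succ_iff_lt_or_eq.1 hp1 with h5 | h5
      · exact h3 p h5 hp2
      · subst h5; exact absurd hp2 hp

theorem buchstab (a b : ℝ) (ha : 0 ≤ a) (hab : a ≤ b) (y z : ℕ) (hy : 2 ≤ y) (hyz : y ≤ z) :
    Sc a b z + ∑ p ∈ (Ico y z).filter Nat.Prime, Sc (a / p) (b / p) p = Sc a b y := by
  induction z, hyz using Nat.le_induction with
  | base => simp
  | succ z hyz ih =>
    rw [filter_prime_Ico_succ y z hyz (fun p => Sc (a / p) (b / p) p), ← ih,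
      ← Sc_step a b z (by omega)]
    ring

lemma Nd_step (D : ℝ) (y z : ℕ) (hy : 2 ≤ y) (hyz : y ≤ z) :
    Nd D y (z + 1) = Nd D y z + if z.Prime then Nd (D / z) y z else 0 := by
  have hz0 : (0 : ℝ) < z := by exact_mod_cast (by omega : 0 < z)
  split_ifs with hp
  · unfold Nd
    set A := (Finset.Icc 1 ⌊D⌋₊).filter (fun d : ℕ => Squarefree d ∧
      ∀ p ∈ d.primeFactors, y ≤ p ∧ p < z + 1) with hA
    have h1 : (Finset.Icc 1 ⌊D⌋₊).filter (fun d : ℕ => Squarefree d ∧
      ∀ p ∈ d.primeFactors, y ≤ p ∧ p < z) = A.filter (fun n => ¬ z ∣ n) := by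
      ext n
      simp only [hA, mem_filter, mem_Icc]
      constructor
      · rintro ⟨h1, h2, h3⟩
        refine ⟨⟨h1, h2, fun p hp1 => ⟨(h3 p hp1).1, by have := (h3 p hp1).2; omega⟩⟩, ?_⟩
        intro h4
        have := (h3 z (Nat.mem_primeFactors.2 ⟨hp, h4, by omega⟩)).2
        omega
      · rintro ⟨⟨h1, h2, h3⟩, h4⟩
        refine ⟨h1, h2, fun p hp1 => ⟨(h3 p hp1).1, ?_⟩⟩
        have h5 := (h3 p hp1).2
        rcases Nat.lt_succ_iff_lt_or_eq.1 h5 with h6 | h6
        · exact h6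
        · subst h6; exact absurd (Nat.dvd_of_mem_primeFactors hp1) h4
    have h2 : ((Finset.Icc 1 ⌊D / z⌋₊).filter (fun d : ℕ => Squarefree d ∧
        ∀ p ∈ d.primeFactors, y ≤ p ∧ p < z)).card = (A.filter (fun n => z ∣ n)).card := by
      refine card_bij (fun m _ => z * m) ?_ ?_ ?_
      · intro m hm
        simp only [mem_filter, mem_Icc] at hm
        obtain ⟨⟨h3, h4⟩, h5, h6⟩ := hm
        have hzm : ¬ z ∣ m := by
          intro h
          have := (h6 z (Nat.mem_primeFactors.2 ⟨hp, h, by omega⟩)).2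
          omega
        simp only [hA, mem_filter, mem_Icc]
        refine ⟨⟨⟨Nat.mul_pos (by omega) (by omega), ?_⟩, ?_, ?_⟩, Dvd.intro _ rfl⟩
        · rw [Nat.le_floor_iff' (Nat.mul_pos (by omega) (by omega)).ne']
          rw [Nat.le_floor_iff' (by omega)] at h4
          rw [le_div_iff₀ hz0] at h4
          push_cast; nlinarith
        · rw [Nat.squarefree_mul ((Nat.Prime.coprime_iff_not_dvd hp).2 hzm)]
          exact ⟨hp.squarefree, h5⟩
        · intro p hp1
          rw [Nat.primeFactors_mul (by omega) (by omega), mem_union] at hp1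
          rcases hp1 with h7 | h7
          · rw [hp.primeFactors, mem_singleton] at h7
            subst h7; exact ⟨hyz, by omega⟩
          · have := h6 p h7
            exact ⟨this.1, by omega⟩
      · intro m1 _ m2 _ h
        exact Nat.eq_of_mul_eq_mul_left (by omega) h
      · intro n hn
        simp only [hA, mem_filter, mem_Icc] at hn
        obtain ⟨⟨⟨h3, h4⟩, h5, h6⟩, m, rfl⟩ := hn
        have hm : 1 ≤ m := by
          rcases Nat.eq_zero_or_pos m with h | h
          · subst h; simp at h3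
          · exact h
        have hcop : Nat.Coprime z m := Nat.coprime_of_squarefree_mul h5
        refine ⟨m, ?_, rfl⟩
        simp only [mem_filter, mem_Icc]
        refine ⟨⟨hm, ?_⟩, ?_, ?_⟩
        · rw [Nat.le_floor_iff' (by omega), le_div_iff₀ hz0]
          rw [Nat.le_floor_iff' (by omega)] at h4
          push_cast at h4; nlinarith
        · exact ((Nat.squarefree_mul hcop).1 h5).2
        · intro p hp1
          have h7 := h6 p (by
            rw [Nat.primeFactors_mul (by omega) (by omega), mem_union]; exact Or.inr hp1)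
          refine ⟨h7.1, ?_⟩
          rcases Nat.lt_succ_iff_lt_or_eq.1 h7.2 with h8 | h8
          · exact h8
          · subst h8
            exact absurd (Nat.dvd_of_mem_primeFactors hp1) ((Nat.Prime.coprime_iff_not_dvd hp).1 hcop)
    rw [h1, h2, add_comm]
    exact (card_filter_add_card_filter_not _).symm
  · rw [add_zero]
    unfold Nd
    congr 1
    ext n
    simp only [mem_filter, mem_Icc]
    constructor
    · rintro ⟨h1, h2, h3⟩
      refine ⟨h1, h2, fun p hp1 => ⟨(h3 p hp1).1, ?_⟩⟩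
      rcases Nat.lt_succ_iff_lt_or_eq.1 (h3 p hp1).2 with h6 | h6
      · exact h6
      · subst h6; exact absurd (Nat.prime_of_mem_primeFactors hp1) hp
    · rintro ⟨h1, h2, h3⟩
      exact ⟨h1, h2, fun p hp1 => ⟨(h3 p hp1).1, by have := (h3 p hp1).2; omega⟩⟩

theorem Nd_rec (D : ℝ) (hD : 1 ≤ D) (y z : ℕ) (hy : 2 ≤ y) (hyz : y ≤ z) :
    Nd D y z = 1 + ∑ p ∈ (Ico y z).filter Nat.Prime, Nd (D / p) y p := by
  induction z, hyz using Nat.le_induction with
  | base =>
    simp only [Ico_self, filter_empty, sum_empty, add_zero]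
    unfold Nd
    rw [card_eq_one]
    refine ⟨1, ?_⟩
    ext n
    simp only [mem_filter, mem_Icc, mem_singleton]
    constructor
    · rintro ⟨h1, h2, h3⟩
      by_contra h4
      obtain ⟨p, hp, hpn⟩ := Nat.exists_prime_and_dvd h4
      have := h3 p (Nat.mem_primeFactors.2 ⟨hp, hpn, by omega⟩)
      omega
    · rintro rfl
      refine ⟨⟨le_refl _, ?_⟩, squarefree_one, by simp⟩
      rw [Nat.le_floor_iff' (by omega)]
      exact_mod_cast hD
  | succ z hyz ih =>
    rw [filter_prime_Ico_succ y z hyz (fun p => Nd (D / p) y p), Nd_step D y z hy hyz, ih]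
    ring

theorem Nd_le (D : ℝ) (hD : 0 ≤ D) (y z : ℕ) : (Nd D y z : ℝ) ≤ D := by
  have h1 : Nd D y z ≤ ⌊D⌋₊ := by
    unfold Nd
    refine (card_filter_le _ _).trans ?_
    simp
  calc (Nd D y z : ℝ) ≤ (⌊D⌋₊ : ℝ) := by exact_mod_cast h1
    _ ≤ D := Nat.floor_le hD

lemma V_succ (n : ℕ) : V (n + 1) = if n.Prime then V n * (1 - 1 / (n : ℝ)) else V n := by
  unfold V
  rw [range_add_one, filter_insert]
  split_ifs with h
  · rw [prod_insert (by simp), mul_comm]
  · rfl

/-- the product of the primes `< y` -/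
def Pq (y : ℕ) : ℕ := ∏ p ∈ (range y).filter Nat.Prime, p

lemma Pq_pos (y : ℕ) : 0 < Pq y :=
  prod_pos fun p hp => (mem_filter.1 hp).2.pos

lemma totient_Pq (y : ℕ) : ((Pq y).totient : ℝ) = Pq y * V y := by
  induction y with
  | zero => simp [Pq, V]
  | succ n ih =>
    rw [V_succ]
    by_cases hp : n.Prime
    · rw [if_pos hp]
      have h1 : Pq (n + 1) = n * Pq n := by
        unfold Pq
        rw [range_add_one, filter_insert, if_pos hp, prod_insert (by simp)]
      have h2 : ¬ n ∣ Pq n := by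
        intro h
        unfold Pq at h
        rw [Prime.dvd_finsetProd_iff hp.prime] at h
        obtain ⟨q, hq, hnq⟩ := h
        rw [mem_filter, mem_range] at hq
        rcases (Nat.dvd_prime hq.2).1 hnq with h3 | h3
        · exact hp.one_lt.ne' h3
        · omega
      rw [h1, Nat.totient_mul_of_prime_of_not_dvd hp h2]
      push_cast [Nat.cast_sub hp.one_lt.le]
      rw [ih]
      have : (n : ℝ) ≠ 0 := by exact_mod_cast hp.ne_zero
      field_simp
    · rw [if_neg hp]
      have h1 : Pq (n + 1) = Pq n := by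
        unfold Pq
        rw [range_add_one, filter_insert, if_neg hp]
      rw [h1, ih]

lemma coprime_Pq (y n : ℕ) : (Pq y).Coprime n ↔ ∀ p < y, p.Prime → ¬ p ∣ n := by
  unfold Pq
  rw [Nat.coprime_prod_left_iff]
  constructor
  · intro h p hp1 hp2
    exact (Nat.Prime.coprime_iff_not_dvd hp2).1 (h p (mem_filter.2 ⟨mem_range.2 hp1, hp2⟩))
  · intro h p hp
    rw [mem_filter, mem_range] at hp
    exact (Nat.Prime.coprime_iff_not_dvd hp.2).2 (h p hp.1 hp.2)

/-- the number of `1 ≤ n ≤ N` without prime factors `< y` -/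
def Fy (y N : ℕ) : ℕ := ((Ico 1 (1 + N)).filter (fun n => (Pq y).Coprime n)).card

lemma Fy_mul (y q : ℕ) : Fy y (Pq y * q) = q * (Pq y).totient := by
  induction q with
  | zero => simp [Fy]
  | succ q ih =>
    have h1 : Fy y (Pq y * (q + 1)) = Fy y (Pq y * q) +
        ((Ico (1 + Pq y * q) (1 + Pq y * q + Pq y)).filter (fun n => (Pq y).Coprime n)).card := by
      unfold Fy
      rw [← card_union_of_disjoint, ← filter_union, Ico_union_Ico_eq_Ico (by omega) (by omega)]
      · congr 3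
        ring
      · exact disjoint_filter_filter (Ico_disjoint_Ico_consecutive _ _ _)
    rw [h1, ih, Nat.filter_coprime_Ico_eq_totient]
    ring

lemma Fy_mono (y : ℕ) {M N : ℕ} (h : M ≤ N) : Fy y M ≤ Fy y N := by
  unfold Fy
  exact card_le_card (filter_subset_filter _ (Ico_subset_Ico_right (by omega)))

lemma Fy_bd (y N : ℕ) : |(Fy y N : ℝ) - N * V y| ≤ 2 * Pq y := by
  have hP := Pq_pos y
  have hPr : (0 : ℝ) < Pq y := by exact_mod_cast hP
  set q := N / Pq y with hq
  have h1 : Pq y * q ≤ N := Nat.mul_div_le N (Pq y)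
  have h2 : N ≤ Pq y * (q + 1) := (Nat.lt_mul_div_succ N hP).le
  have h3 : q * (Pq y).totient ≤ Fy y N := (Fy_mul y q) ▸ Fy_mono y h1
  have h4 : Fy y N ≤ (q + 1) * (Pq y).totient := (Fy_mul y (q + 1)) ▸ Fy_mono y h2
  have h1r : (Pq y : ℝ) * q ≤ N := by exact_mod_cast h1
  have h2r : (N : ℝ) ≤ (Pq y : ℝ) * (q + 1) := by exact_mod_cast h2
  have h3r : (q : ℝ) * (Pq y).totient ≤ Fy y N := by exact_mod_cast h3
  have h4r : (Fy y N : ℝ) ≤ (q + 1) * (Pq y).totient := by exact_mod_cast h4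
  have htot := totient_Pq y
  have hle : ((Pq y).totient : ℝ) ≤ Pq y := by exact_mod_cast Nat.totient_le _
  have hV0 : 0 ≤ V y := by
    by_contra h
    push Not at h
    have : ((Pq y).totient : ℝ) < 0 := by rw [htot]; exact mul_neg_of_pos_of_neg hPr h
    have h0 : (0 : ℝ) ≤ ((Pq y).totient : ℝ) := Nat.cast_nonneg _
    linarith
  have h5 : (N : ℝ) * V y ≤ (Pq y : ℝ) * (q + 1) * V y := mul_le_mul_of_nonneg_right h2r hV0
  have h6 : (Pq y : ℝ) * q * V y ≤ (N : ℝ) * V y := mul_le_mul_of_nonneg_right h1r hV0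
  have h7 : (q : ℝ) * (Pq y).totient = (Pq y : ℝ) * q * V y := by rw [htot]; ring
  have h8 : ((q : ℝ) + 1) * (Pq y).totient = (Pq y : ℝ) * (q + 1) * V y := by rw [htot]; ring
  have h9 : (Pq y : ℝ) * (q + 1) * V y = (Pq y : ℝ) * q * V y + (Pq y).totient := by
    rw [htot]; ring
  rw [abs_le]
  constructor <;> linarith

theorem Sc_base (y : ℕ) (hy : 2 ≤ y) : ∃ Q : ℝ, 0 < Q ∧ ∀ a b : ℝ, 0 ≤ a → a ≤ b →
    |(Sc a b y : ℝ) - (b - a) * V y| ≤ Q := by
  have hPr : (0 : ℝ) < Pq y := by exact_mod_cast Pq_pos y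
  refine ⟨4 * Pq y + 2 * |V y|, by positivity, ?_⟩
  intro a b ha hab
  have h1 : Sc a b y + Fy y ⌊a⌋₊ = Fy y ⌊b⌋₊ := by
    unfold Sc Fy
    rw [← card_union_of_disjoint]
    · congr 1
      ext n
      simp only [mem_union, mem_filter, mem_Icc, mem_Ico, ← coprime_Pq]
      constructor
      · rintro (⟨h1, h2, h3⟩ | ⟨h1, h2⟩)
        · exact ⟨⟨h1.1, by omega⟩, h3⟩
        · have := Nat.floor_mono hab
          exact ⟨⟨h1.1, by omega⟩, h2⟩
      · rintro ⟨h1, h2⟩
        by_cases h3 : a < n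
        · exact Or.inl ⟨⟨h1.1, by omega⟩, h3, h2⟩
        · push Not at h3
          have := Nat.le_floor h3
          exact Or.inr ⟨⟨h1.1, by omega⟩, h2⟩
    · rw [disjoint_left]
      intro n hn hn'
      simp only [mem_filter, mem_Icc, mem_Ico] at hn hn'
      have h3 : n ≤ ⌊a⌋₊ := by omega
      have h4 : (n : ℝ) ≤ a := (Nat.le_floor_iff ha).1 h3
      linarith [hn.2.1]
  have h2 := Fy_bd y ⌊a⌋₊
  have h3 := Fy_bd y ⌊b⌋₊
  have h4 : (Sc a b y : ℝ) = Fy y ⌊b⌋₊ - Fy y ⌊a⌋₊ := by
    have : (Sc a b y : ℝ) + Fy y ⌊a⌋₊ = Fy y ⌊b⌋₊ := by exact_mod_cast h1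
    linarith
  have h5 : |a - ⌊a⌋₊| ≤ 1 := by
    rw [abs_le]
    constructor
    · linarith [Nat.floor_le ha]
    · linarith [Nat.lt_floor_add_one a]
  have h6 : |b - ⌊b⌋₊| ≤ 1 := by
    rw [abs_le]
    constructor
    · linarith [Nat.floor_le (ha.trans hab)]
    · linarith [Nat.lt_floor_add_one b]
  have h7 : (Sc a b y : ℝ) - (b - a) * V y = ((Fy y ⌊b⌋₊ : ℝ) - ⌊b⌋₊ * V y) -
      ((Fy y ⌊a⌋₊ : ℝ) - ⌊a⌋₊ * V y) - (b - ⌊b⌋₊) * V y + (a - ⌊a⌋₊) * V y := by
    rw [h4]; ring
  have h8 : |(b - ⌊b⌋₊) * V y| ≤ |V y| := by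
    rw [abs_mul]; exact mul_le_of_le_one_left (abs_nonneg _) h6
  have h9 : |(a - ⌊a⌋₊) * V y| ≤ |V y| := by
    rw [abs_mul]; exact mul_le_of_le_one_left (abs_nonneg _) h5
  rw [h7]
  rw [abs_le] at *
  constructor <;> linarith [h2.1, h2.2, h3.1, h3.2, h8.1, h8.2, h9.1, h9.2]

theorem V_sum (y z : ℕ) (hyz : y ≤ z) :
    V y - ∑ p ∈ (Ico y z).filter Nat.Prime, V p / p = V z := by
  induction z, hyz using Nat.le_induction with
  | base => simp
  | succ z hyz ih =>
    rw [sum_filter] at ih ⊢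
    rw [sum_Ico_succ_top hyz, V_succ, ← ih]
    split_ifs with hp
    · ring
    · ring

end Pool.Agent.RG
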