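import Pool.Agent.RG.LSD

/-!
# RG / PhiB: the contraction inequality

* `K_bm`: the integral is `exp (1 - max s 3)`, and `(10/11) s (bp s) = exp (1 - max s 3) s / min s 3`.
* `K_bp`, `s ≥ 4`: the integral is `(11/30) e^(2-s)`, and `(11/30) e^2 ≤ (10/11) 4`.
* `K_bp`, `2 ≤ s ≤ 4`: the integral is `(11/10) e^(-2) (log (3/(s-1)) + 1/3)`; with `v = s - 2` one needs
  `e^v (log 3 - log (1+v) + 1/3) ≤ (100/121) (v+2)` on `[0, 2]`; with `log 3 ≤ 1.0987` and
  `log (1+v) ≥ 2v/(2+v)` it suffices `e^v (2.8641 - 0.5679 v) ≤ (100/121) (v+2)^2` (margin at least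
  `0.4` at `v = 2`; e.g. Taylor bounds for `e^v` on pieces).
-/

set_option autoImplicit false

namespace Pool.Agent.RG

open Real MeasureTheory Set

lemma bm_pos (s : ℝ) : 0 < bm s := exp_pos _

lemma bp_pos (s : ℝ) (hs : 0 < s) : 0 < bp s := by
  unfold bp
  have : 0 < min s 3 := lt_min hs (by norm_num)
  positivity

theorem bm_int (a : ℝ) : IntegrableOn bm (Ioi a) := integrableOn_exp_neg_Ioi a

theorem bp_int : IntegrableOn bp (Ioi 1) := by
  have h1 : IntegrableOn (fun x : ℝ => 11 / 10 * exp 1 * exp (-x)) (Ioi 1) :=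
    (integrableOn_exp_neg_Ioi 1).const_mul _
  refine Integrable.mono' h1 ?_ ?_
  · apply Measurable.aestronglyMeasurable
    unfold bp
    fun_prop
  · rw [ae_restrict_iff' measurableSet_Ioi]
    refine Filter.Eventually.of_forall fun x hx => ?_
    have hx1 : (1 : ℝ) < x := hx
    rw [Real.norm_of_nonneg (bp_pos x (by linarith)).le]
    unfold bp
    have h2 : (1 : ℝ) ≤ min x 3 := le_min hx1.le (by norm_num)
    rw [div_le_iff₀ (by linarith)]
    have h3 : exp (1 - max x 3) ≤ exp 1 * exp (-x) := by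
      rw [← exp_add]
      exact exp_le_exp.2 (by linarith [le_max_left x 3])
    have h4 : 0 < exp 1 * exp (-x) := by positivity
    nlinarith

theorem bp_anti : AntitoneOn bp (Ici 1) := by
  intro x hx y _ hxy
  have hx1 : (1 : ℝ) ≤ x := hx
  unfold bp
  have h1 : min x 3 ≤ min y 3 := min_le_min_right _ hxy
  have h2 : exp (1 - max y 3) ≤ exp (1 - max x 3) :=
    exp_le_exp.2 (by linarith [max_le_max_right 3 hxy])
  have h3 : (0 : ℝ) < min x 3 := lt_min (by linarith) (by norm_num)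
  gcongr

theorem K_bm (s : ℝ) (hs : 1 ≤ s) : ∫ x in Ioi (max s 3 - 1), bm x ≤ 10 / 11 * (s * bp s) := by
  have h1 : ∫ x in Ioi (max s 3 - 1), bm x = exp (1 - max s 3) := by
    unfold bm
    rw [integral_exp_neg_Ioi]
    congr 1
    ring
  rw [h1]
  have h2 : (0 : ℝ) < min s 3 := lt_min (by linarith) (by norm_num)
  unfold bp
  have h3 : 10 / 11 * (s * (11 / 10 * exp (1 - max s 3) / min s 3)) =
      exp (1 - max s 3) * (s / min s 3) := by
    field_simp
  rw [h3]
  have h4 : 1 ≤ s / min s 3 := by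
    rw [le_div_iff₀ h2, one_mul]
    exact min_le_left _ _
  nlinarith [exp_pos (1 - max s 3)]

/-- the numerical inequality -/
private lemma num_ineq (v : ℝ) (h0 : 0 ≤ v) (h2 : v ≤ 2) :
    exp v * (log 3 - log (1 + v) + 1 / 3) ≤ 100 / 121 * (v + 2) := by
  obtain ⟨x, rfl⟩ : ∃ x, v = 2 * x := ⟨v / 2, by ring⟩
  have hx0 : 0 ≤ x := by linarith
  have hx1 : x ≤ 1 := by linarith
  have hl3 : log 3 ≤ 1.0987 := (log_three_lt_d9.le).trans (by norm_num)
  have hl : 2 * (2 * x) / (2 * x + 2) ≤ log (1 + 2 * x) := le_log_one_add_of_nonneg h0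
  have hE : exp x ≤ 1 + x + x ^ 2 / 2 + x ^ 3 / 6 + x ^ 4 * (5 / 96) := by
    have := Real.exp_bound' hx0 hx1 (n := 4) (by norm_num)
    refine this.trans (le_of_eq ?_)
    simp [Finset.sum_range_succ, Nat.factorial]
    ring
  have hE2 : exp (2 * x) ≤ 1 + 2 * x + 2 * x ^ 2 + 4 / 3 * x ^ 3 + 1.0583 * x ^ 4 := by
    have h5 : exp (2 * x) = exp x ^ 2 := by rw [sq, ← exp_add]; congr 1; ring
    rw [h5]
    have h6 : exp x ^ 2 ≤ (1 + x + x ^ 2 / 2 + x ^ 3 / 6 + x ^ 4 * (5 / 96)) ^ 2 :=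
      pow_le_pow_left₀ (exp_pos x).le hE 2
    have p4 : 0 ≤ x ^ 4 := by positivity
    have p5 : x ^ 5 ≤ x ^ 4 := pow_le_pow_of_le_one hx0 hx1 (by norm_num)
    have p6 : x ^ 6 ≤ x ^ 4 := pow_le_pow_of_le_one hx0 hx1 (by norm_num)
    have p7 : x ^ 7 ≤ x ^ 4 := pow_le_pow_of_le_one hx0 hx1 (by norm_num)
    have p8 : x ^ 8 ≤ x ^ 4 := pow_le_pow_of_le_one hx0 hx1 (by norm_num)
    refine h6.trans ?_
    ring_nf
    nlinarith
  have hx2 : 0 < x + 1 := by linarith
  have hA : (log 3 - log (1 + 2 * x) + 1 / 3) * (x + 1) ≤ 1.43204 - 0.56796 * x := by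
    have h7 : 2 * (2 * x) / (2 * x + 2) = 2 * x / (x + 1) := by
      field_simp
    rw [h7] at hl
    have h9 : log 3 - log (1 + 2 * x) + 1 / 3 ≤ 1.43204 - 2 * x / (x + 1) := by
      have : (1.0987 : ℝ) + 1 / 3 ≤ 1.43204 := by norm_num
      linarith
    calc (log 3 - log (1 + 2 * x) + 1 / 3) * (x + 1)
        ≤ (1.43204 - 2 * x / (x + 1)) * (x + 1) := mul_le_mul_of_nonneg_right h9 hx2.le
      _ = 1.43204 - 0.56796 * x := by
          field_simp
          ring
  have hB : exp (2 * x) * (1.43204 - 0.56796 * x) ≤ 200 / 121 * (x + 1) ^ 2 := by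
    have hpos : (0 : ℝ) ≤ 1.43204 - 0.56796 * x := by linarith
    refine (mul_le_mul_of_nonneg_right hE2 hpos).trans ?_
    have p3 : x ^ 3 ≤ x := by
      have := pow_le_pow_of_le_one hx0 hx1 (show 1 ≤ 3 by norm_num)
      simpa using this
    have p2 : x ^ 2 ≤ 1 := pow_le_one₀ hx0 hx1
    have p31 : x ^ 3 ≤ 1 := pow_le_one₀ hx0 hx1
    have q4 : 2 * x ^ 4 ≤ x ^ 3 + x ^ 5 := by nlinarith [mul_nonneg (pow_nonneg hx0 3) (sq_nonneg (x - 1))]
    have p5 : 0 ≤ x ^ 5 := by positivity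
    nlinarith
  have hC : (exp (2 * x) * (log 3 - log (1 + 2 * x) + 1 / 3)) * (x + 1) ≤
      (100 / 121 * (2 * x + 2)) * (x + 1) := by
    calc (exp (2 * x) * (log 3 - log (1 + 2 * x) + 1 / 3)) * (x + 1)
        = exp (2 * x) * ((log 3 - log (1 + 2 * x) + 1 / 3) * (x + 1)) := by ring
      _ ≤ exp (2 * x) * (1.43204 - 0.56796 * x) :=
          mul_le_mul_of_nonneg_left hA (exp_pos _).le
      _ ≤ 200 / 121 * (x + 1) ^ 2 := hB
      _ = (100 / 121 * (2 * x + 2)) * (x + 1) := by ring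
  exact le_of_mul_le_mul_right hC hx2

/-- the tail from `3` on -/
private lemma tail_int (a : ℝ) (ha : 3 ≤ a) : ∫ x in Ioi a, bp x = 11 / 30 * exp (1 - a) := by
  have h1 : ∫ x in Ioi a, bp x = ∫ x in Ioi a, 11 / 30 * exp 1 * exp (-x) := by
    refine setIntegral_congr_fun measurableSet_Ioi fun x hx => ?_
    have hx1 : a < x := hx
    unfold bp
    rw [max_eq_left (by linarith), min_eq_right (by linarith), mul_assoc (11 / 30 : ℝ),
      ← exp_add, ← sub_eq_add_neg]
    ring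
  rw [h1, integral_const_mul, integral_exp_neg_Ioi, mul_assoc, ← exp_add, ← sub_eq_add_neg]

theorem K_bp (s : ℝ) (hs : 2 ≤ s) : ∫ x in Ioi (s - 1), bp x ≤ 10 / 11 * (s * bm s) := by
  unfold bm
  rcases le_total s 4 with h4 | h4
  · have hsub : IntegrableOn bp (Ioi (s - 1)) :=
      bp_int.mono_set (Ioi_subset_Ioi (by linarith))
    have h3 : IntegrableOn bp (Ioi 3) := bp_int.mono_set (Ioi_subset_Ioi (by norm_num))
    rw [← intervalIntegral.integral_interval_add_Ioi hsub h3, tail_int 3 le_rfl]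
    have h5 : ∫ x in (s - 1)..3, bp x = 11 / 10 * exp (-2) * (log 3 - log (s - 1)) := by
      have h6 : ∫ x in (s - 1)..3, bp x = ∫ x in (s - 1)..3, 11 / 10 * exp (-2) * x⁻¹ := by
        refine intervalIntegral.integral_congr fun x hx => ?_
        rw [uIcc_of_le (by linarith)] at hx
        have hx2 : x ≤ 3 := hx.2
        unfold bp
        rw [max_eq_right hx2, min_eq_left hx2, show (1 : ℝ) - 3 = -2 by norm_num, div_eq_mul_inv]
      rw [h6, intervalIntegral.integral_const_mul, integral_inv_of_pos (by linarith) (by norm_num),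
        log_div (by norm_num) (by linarith)]
    rw [h5]
    have h7 := num_ineq (s - 2) (by linarith) (by linarith)
    rw [show 1 + (s - 2) = s - 1 by ring, show s - 2 + 2 = s by ring] at h7
    have h8 : exp (-s) * exp (s - 2) = exp (-2) := by rw [← exp_add]; congr 1; ring
    have h9 := mul_le_mul_of_nonneg_left h7 (exp_pos (-s)).le
    rw [← mul_assoc, h8] at h9
    rw [show (1 : ℝ) - 3 = -2 by norm_num]
    nlinarith
  · rw [tail_int (s - 1) (by linarith)]
    have h1 : exp (1 - (s - 1)) = exp 1 ^ 2 * exp (-s) := by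
      rw [sq, ← exp_add, ← exp_add]; congr 1; ring
    rw [h1]
    have h2 : exp 1 < 2.7182818286 := exp_one_lt_d9
    have h3 : exp 1 ^ 2 ≤ 8 := by nlinarith [exp_pos 1]
    have h5 : 11 / 30 * exp 1 ^ 2 ≤ 10 / 11 * s := by linarith
    nlinarith [exp_pos (-s)]

end Pool.Agent.RG
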