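import Pool.Agent.RG.SumV
import Pool.Agent.RG.PhiB

/-!
# RG / SievA: the main term inequality for the lower bound

`sum_V_le` with `g(t) = fp (max t 2 - 1) + ε0 bp (max t 2 - 1)` (antitone, `t = log D/log p ≥ 2` as
`z^2 ≤ D`).  With `s = log D / log z ≥ 2`: `(1/s) ∫_{t>s} g = fm s + ε0 (1/s) ∫_{x>s-1} bp ≤
fm s + ε0 (10/11) bm s`, so with `ε1 = C/log Z1` the sum is at most
`V z ((1+ε1) (fm s + (10/11) ε0 bm s) + ε1 (fp (s-1) + ε0 bp (s-1)))`.  As `fm s ≤ Cφ bm s`,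
`fp (s-1) ≤ Cφ bp (s-1)`, `bp (s-1) ≤ C2 bm s` (`s ≥ 2`), this is `≤ V z (fm s + ε0 bm s)` if `ε1` is small
in terms of `ε0`, i.e. `Z1` large.
-/

set_option autoImplicit false

namespace Pool.Agent.RG

open Real

private lemma sa_bp_le (s : ℝ) (hs : 2 ≤ s) : bp (s - 1) ≤ 11 / 10 * exp 2 * bm s := by
  unfold bp bm
  have h1 : exp (1 - max (s - 1) 3) ≤ exp 2 * exp (-s) := by
    rw [← exp_add]
    apply exp_le_exp.2
    have := le_max_left (s - 1) 3
    linarith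
  have h2 : 1 ≤ min (s - 1) 3 := le_min (by linarith) (by norm_num)
  rw [div_le_iff₀ (by linarith)]
  have h3 : 0 < exp 2 * exp (-s) := by positivity
  nlinarith

private lemma sa_emb : MeasurableEmbedding (fun x : ℝ => x - 1) :=
  (Homeomorph.subRight (1 : ℝ)).measurableEmbedding

private lemma sa_pre (s : ℝ) : (fun x : ℝ => x - 1) ⁻¹' Set.Ioi (s - 1) = Set.Ioi s := by
  ext x
  simp

private lemma sa_shift (f : ℝ → ℝ) (s : ℝ) :
    ∫ t in Set.Ioi s, f (t - 1) = ∫ x in Set.Ioi (s - 1), f x := by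
  have := (MeasureTheory.measurePreserving_sub_right MeasureTheory.volume
    (1 : ℝ)).setIntegral_preimage_emb sa_emb f (Set.Ioi (s - 1))
  rw [sa_pre] at this
  exact this

private lemma sa_shift_int (f : ℝ → ℝ) (s : ℝ)
    (h : MeasureTheory.IntegrableOn f (Set.Ioi (s - 1))) :
    MeasureTheory.IntegrableOn (fun t => f (t - 1)) (Set.Ioi s) := by
  have := (MeasureTheory.measurePreserving_sub_right MeasureTheory.volume
    (1 : ℝ)).integrableOn_comp_preimage sa_emb (f := f) (s := Set.Ioi (s - 1))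
  rw [sa_pre] at this
  exact this.2 h

theorem LSA (fp fm : ℝ → ℝ) (Cφ : ℝ) (hΦ : PhiProps fp fm Cφ) (ε0 : ℝ) (hε0 : 0 < ε0) :
    ∃ Z0 : ℕ, 2 ≤ Z0 ∧ ∀ Z1 z : ℕ, Z0 ≤ Z1 → Z1 ≤ z → ∀ D : ℝ, (z : ℝ) ^ 2 ≤ D →
      ∑ p ∈ (Finset.Ico Z1 z).filter Nat.Prime,
        V p / p * (fp (log D / log p - 1) + ε0 * bp (log D / log p - 1)) ≤
      V z * (fm (log D / log z) + ε0 * bm (log D / log z)) := by
  obtain ⟨C, hC, hsum⟩ := sum_V_le
  have hCφ := hΦ.C_pos
  obtain ⟨C2, hC2⟩ : ∃ C2 : ℝ, C2 = 11 / 10 * exp 2 := ⟨_, rfl⟩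
  have hC20 : 0 < C2 := by rw [hC2]; positivity
  obtain ⟨Λ, hΛ⟩ : ∃ Λ : ℝ, Λ = 11 * (C * (Cφ + ε0 + (Cφ + ε0) * C2)) / ε0 := ⟨_, rfl⟩
  have hΛ0 : 0 < Λ := by rw [hΛ]; positivity
  refine ⟨max 2 ⌈exp Λ⌉₊, le_max_left _ _, ?_⟩
  intro Z1 z hZ1 hz D hD
  have hZ12 : 2 ≤ Z1 := (le_max_left _ _).trans hZ1
  have hZ1R : (2 : ℝ) ≤ Z1 := by exact_mod_cast hZ12
  have hzR : (Z1 : ℝ) ≤ z := by exact_mod_cast hz
  have hlogZ1 : Λ ≤ log Z1 := by
    rw [Real.le_log_iff_exp_le (by linarith)]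
    refine (Nat.le_ceil (exp Λ)).trans ?_
    exact_mod_cast (le_max_right 2 _).trans hZ1
  have hlogZ10 : 0 < log Z1 := lt_of_lt_of_le hΛ0 hlogZ1
  have hlogz : 0 < log z := Real.log_pos (by linarith)
  have hD4 : 4 ≤ D := by nlinarith
  have hlogD : 0 < log D := Real.log_pos (by linarith)
  obtain ⟨s, hs⟩ : ∃ s : ℝ, s = log D / log z := ⟨_, rfl⟩
  have hs2 : 2 ≤ s := by
    rw [hs, le_div_iff₀ hlogz]
    have hz0 : (0 : ℝ) < z := by linarith
    have h1 := Real.log_le_log (pow_pos hz0 2) hD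
    rw [Real.log_pow] at h1
    exact_mod_cast h1
  obtain ⟨g, hg⟩ : ∃ g : ℝ → ℝ, g = fun t => fp (max t 2 - 1) + ε0 * bp (max t 2 - 1) := ⟨_, rfl⟩
  have hmax : ∀ t : ℝ, 1 ≤ max t 2 - 1 := fun t => by linarith [le_max_right t 2]
  have hg0 : ∀ t, 0 ≤ g t := by
    intro t
    rw [hg]
    have h1 := hΦ.fp_nonneg _ (hmax t)
    have h2 := bp_pos (max t 2 - 1) (by linarith [hmax t])
    positivity
  have hganti : Antitone g := by
    intro t t' htt
    rw [hg]
    have h0 : max t 2 - 1 ≤ max t' 2 - 1 := by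
      have := max_le_max_right 2 htt
      linarith
    have h1 := hΦ.fp_anti (hmax t) (hmax t') h0
    have h2 := mul_le_mul_of_nonneg_left (bp_anti (hmax t) (hmax t') h0) hε0.le
    show fp (max t' 2 - 1) + ε0 * bp (max t' 2 - 1) ≤ fp (max t 2 - 1) + ε0 * bp (max t 2 - 1)
    linarith
  have hsub : Set.Ioi (s - 1) ⊆ Set.Ioi (1 : ℝ) := Set.Ioi_subset_Ioi (by linarith)
  have hfpint := sa_shift_int fp s (hΦ.fp_int.mono_set hsub)
  have hbpint := sa_shift_int bp s (bp_int.mono_set hsub)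
  have hgeq : Set.EqOn (fun t => fp (t - 1) + ε0 * bp (t - 1)) g (Set.Ioi s) := by
    intro t ht
    have ht' : s < t := ht
    rw [hg]
    simp only [max_eq_left (show (2 : ℝ) ≤ t by linarith)]
  have hgint : MeasureTheory.IntegrableOn g (Set.Ioi s) :=
    (hfpint.add (hbpint.const_mul ε0)).congr_fun hgeq measurableSet_Ioi
  have hgval : ∫ t in Set.Ioi s, g t ≤ s * fm s + ε0 * (10 / 11 * (s * bm s)) := by
    rw [← MeasureTheory.setIntegral_congr_fun measurableSet_Ioi hgeq,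
      MeasureTheory.integral_add hfpint (hbpint.const_mul ε0),
      MeasureTheory.integral_const_mul, sa_shift, sa_shift, ← hΦ.fm_eq s hs2]
    have := mul_le_mul_of_nonneg_left (K_bp s hs2) hε0.le
    linarith
  have hmain := hsum Z1 z hZ12 hz D (by linarith) g hg0 hganti (by rw [← hs]; exact hgint)
  rw [← hs] at hmain ⊢
  -- the sum
  have hsumeq : ∑ p ∈ (Finset.Ico Z1 z).filter Nat.Prime,
      V p / p * (fp (log D / log p - 1) + ε0 * bp (log D / log p - 1)) =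
      ∑ p ∈ (Finset.Ico Z1 z).filter Nat.Prime, V p / p * g (log D / log p) := by
    apply Finset.sum_congr rfl
    intro p hp
    rw [Finset.mem_filter, Finset.mem_Ico] at hp
    have hpR : (Z1 : ℝ) ≤ p := by exact_mod_cast hp.1.1
    have hpz : (p : ℝ) ≤ z := by exact_mod_cast hp.1.2.le
    have hlp : 0 < log p := Real.log_pos (by linarith)
    have h1 : s ≤ log D / log p := by
      rw [hs]
      exact div_le_div_of_nonneg_left hlogD.le hlp (Real.log_le_log (by linarith) hpz)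
    rw [hg]
    simp only [max_eq_left (show (2 : ℝ) ≤ log D / log p by linarith)]
  rw [hsumeq]
  refine hmain.trans ?_
  apply mul_le_mul_of_nonneg_left _ (V_pos z).le
  have hinv : log z / log D = 1 / s := by
    rw [hs]
    field_simp
  have hs0 : 0 < s := by linarith
  have hbm := bm_pos s
  have hfm0 := hΦ.fm_nonneg s hs2
  have hfm := hΦ.fm_le s hs2
  have hA : log z / log D * ∫ t in Set.Ioi s, g t ≤ fm s + ε0 * (10 / 11 * bm s) := by
    rw [hinv, one_div, inv_mul_le_iff₀ hs0]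
    linarith
  have hgs : g s ≤ (Cφ + ε0) * (C2 * bm s) := by
    rw [hg]
    simp only [max_eq_left hs2]
    have h1 := hΦ.fp_le (s - 1) (by linarith)
    have h2 := sa_bp_le s hs2
    rw [← hC2] at h2
    have h3 := bp_pos (s - 1) (by linarith)
    calc fp (s - 1) + ε0 * bp (s - 1) ≤ (Cφ + ε0) * bp (s - 1) := by linarith
      _ ≤ (Cφ + ε0) * (C2 * bm s) := mul_le_mul_of_nonneg_left h2 (by positivity)
  obtain ⟨e, he⟩ : ∃ e : ℝ, e = C / log Z1 := ⟨_, rfl⟩
  have he0 : 0 < e := by rw [he]; positivity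
  rw [← he]
  have he1 : e * (Cφ + ε0 + (Cφ + ε0) * C2) ≤ ε0 / 11 := by
    rw [he, div_mul_eq_mul_div, div_le_iff₀ hlogZ10]
    have h1 : ε0 / 11 * Λ = C * (Cφ + ε0 + (Cφ + ε0) * C2) := by
      rw [hΛ]
      field_simp
    rw [← h1]
    exact mul_le_mul_of_nonneg_left hlogZ1 (by positivity)
  calc (1 + e) * (log z / log D * ∫ t in Set.Ioi s, g t) + e * g s
      ≤ (1 + e) * (fm s + ε0 * (10 / 11 * bm s)) + e * ((Cφ + ε0) * (C2 * bm s)) := by
        gcongr
    _ ≤ fm s + ε0 * (10 / 11 * bm s) + (e * (Cφ + ε0 + (Cφ + ε0) * C2)) * bm s := by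
        have h1 : e * fm s ≤ e * (Cφ * bm s) := mul_le_mul_of_nonneg_left hfm he0.le
        have h2 : e * (ε0 * (10 / 11 * bm s)) ≤ e * (ε0 * bm s) := by
          have : 0 < e * ε0 * bm s := by positivity
          nlinarith
        nlinarith
    _ ≤ fm s + ε0 * (10 / 11 * bm s) + (ε0 / 11) * bm s := by
        have := mul_le_mul_of_nonneg_right he1 hbm.le
        linarith
    _ = fm s + ε0 * bm s := by ring

end Pool.Agent.RG
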