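import Pool.Agent.RG.SumV
import Pool.Agent.RG.Buch
import Pool.Agent.RG.PhiB

/-!
# RG / SievB: the main term inequality for the upper bound

Let `z' = ` the smallest integer with `D ≤ z'^3`, `z2 = max Z1 (min z z')`: the primes of the sum are those
of `[Z1, z2)`, and by `V_sum` the left side is `V z2 + ∑_{Z1 ≤ p < z2} V p/p (fm + ε0 bm)(log D/log p - 1)`.
Write `s = log D/log z`, `ε1 = C/log Z1` (`C` from `V_ratio`, `sum_V_le`);
`g(t) = (fm + ε0 bm)(max t 3 - 1)` is antitone and `∫_{t>3} g = ∫_{x>2} (fm + ε0 bm) = 3 fp 3 +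
ε0 ∫_{x>2} bm ≤ 3 fp 3 + (10/11) ε0 3 bp 3` (`fp_eq`, `K_bm`).
* `z2 = z` and `s ≥ 3`: `sum_V_le` at `z`: `(1/s) ∫_{t>s} g ≤ fp s + (10/11) ε0 bp s`, and
  `g s = (fm + ε0 bm)(s-1) ≤ C' bp s`.
* otherwise, `z2 ≤ z`, `s < 3` or `z2 = Z1`.  If `z2 = Z1` the sum is empty and
  `V Z1 ≤ (1+ε1) V z log z/log Z1 ≤ (1+ε1) V z (3/s)` because `D ≤ Z1^3`.  Else `z2 = z'`,
  `s2 = log D/log z2 ≤ 3`, `3 - s2 ≤ C''/log Z1` (`(z'-1)^3 < D`), `sum_V_le` at `z2` gives
  `V z2 (1 + fp 3 + (10/11) ε0 bp 3 + O(ε1))` and `V z2 ≤ (1+ε1) V z log z/log z2 ≤ (1+ε1) V z (3/s)`.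
  Finally `1 + fp s = (3/s)(1 + fp 3)` (`fp_eq`), `bp s = (3/s) bp 3` for `1 ≤ s ≤ 3`.
  (For `z2 = z < z'`... `s > 3`; the boundary cases `z2 = z = z'` are covered by the second case.)
-/

set_option autoImplicit false

namespace Pool.Agent.RG

open Real MeasureTheory Set

private theorem exists_Z (B : ℝ) : ∃ Z0 : ℕ, 2 ≤ Z0 ∧ ∀ Z : ℕ, Z0 ≤ Z → B ≤ log Z := by
  refine ⟨max 2 ⌈exp B⌉₊, le_max_left _ _, fun Z hZ => ?_⟩
  have h1 : exp B ≤ Z := (Nat.le_ceil _).trans (by exact_mod_cast (le_max_right _ _).trans hZ)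
  rw [← log_exp B]
  exact log_le_log (exp_pos B) h1

private noncomputable def gB (fm : ℝ → ℝ) (ε0 t : ℝ) : ℝ :=
  fm (max t 3 - 1) + ε0 * bm (max t 3 - 1)

private theorem gB_nonneg {fp fm : ℝ → ℝ} {Cφ : ℝ} (hΦ : PhiProps fp fm Cφ) {ε0 : ℝ}
    (hε0 : 0 < ε0) (t : ℝ) : 0 ≤ gB fm ε0 t := by
  have h1 : 3 ≤ max t 3 := le_max_right _ _
  have h2 := hΦ.fm_nonneg (max t 3 - 1) (by linarith)
  have h3 := bm_pos (max t 3 - 1)
  unfold gB
  positivity

private theorem gB_anti {fp fm : ℝ → ℝ} {Cφ : ℝ} (hΦ : PhiProps fp fm Cφ) {ε0 : ℝ}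
    (hε0 : 0 < ε0) : Antitone (gB fm ε0) := by
  intro a b hab
  have h1 : 3 ≤ max a 3 := le_max_right _ _
  have h2 : 3 ≤ max b 3 := le_max_right _ _
  have h3 : max a 3 ≤ max b 3 := max_le_max_right _ hab
  unfold gB
  refine add_le_add (hΦ.fm_anti ?_ ?_ ?_) (mul_le_mul_of_nonneg_left ?_ hε0.le)
  · show (2 : ℝ) ≤ _
    linarith
  · show (2 : ℝ) ≤ _
    linarith
  · linarith
  · unfold bm
    exact exp_le_exp.2 (by linarith)

private theorem shift_int (f : ℝ → ℝ) (s : ℝ) :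
    (∫ t in Ioi s, f (t - 1)) = ∫ x in Ioi (s - 1), f x := by
  have h1 := (measurePreserving_sub_right volume (1 : ℝ)).setIntegral_preimage_emb
    (MeasurableEquiv.subRight (1 : ℝ)).measurableEmbedding f (Ioi (s - 1))
  have h2 : (fun x : ℝ => x - 1) ⁻¹' Ioi (s - 1) = Ioi s := by
    ext x
    simp
  rw [h2] at h1
  exact h1

private theorem shift_integrable {f : ℝ → ℝ} {s : ℝ} (hf : IntegrableOn f (Ioi (s - 1))) :
    IntegrableOn (fun t => f (t - 1)) (Ioi s) := by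
  have h1 := ((measurePreserving_sub_right volume (1 : ℝ)).integrableOn_comp_preimage
    (MeasurableEquiv.subRight (1 : ℝ)).measurableEmbedding (f := f) (s := Ioi (s - 1))).2 hf
  have h2 : (fun x : ℝ => x - 1) ⁻¹' Ioi (s - 1) = Ioi s := by
    ext x
    simp
  rw [h2] at h1
  exact h1

/-- The integral of `gB` from `s ≥ 3`. -/
private theorem gB_int3 {fp fm : ℝ → ℝ} {Cφ : ℝ} (hΦ : PhiProps fp fm Cφ) {ε0 s : ℝ}
    (hs : 3 ≤ s) : IntegrableOn (gB fm ε0) (Ioi s) ∧ (∫ t in Ioi s, gB fm ε0 t) =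
      (∫ x in Ioi (s - 1), fm x) + ε0 * ∫ x in Ioi (s - 1), bm x := by
  have hfm : IntegrableOn fm (Ioi (s - 1)) := hΦ.fm_int.mono_set (Ioi_subset_Ioi (by linarith))
  have hbm : IntegrableOn bm (Ioi (s - 1)) := bm_int _
  have h1 := shift_integrable hfm
  have h2 := shift_integrable hbm
  have heq : EqOn (gB fm ε0) (fun t => fm (t - 1) + ε0 * bm (t - 1)) (Ioi s) := by
    intro t ht
    have h3 : max t 3 = t := max_eq_left (hs.trans (le_of_lt ht))
    show fm (max t 3 - 1) + ε0 * bm (max t 3 - 1) = _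
    rw [h3]
  have h4 : IntegrableOn (fun t => fm (t - 1) + ε0 * bm (t - 1)) (Ioi s) :=
    h1.add (h2.const_mul ε0)
  refine ⟨h4.congr_fun heq.symm measurableSet_Ioi, ?_⟩
  rw [setIntegral_congr_fun measurableSet_Ioi heq, integral_add h1 (h2.const_mul ε0),
    integral_const_mul, shift_int, shift_int]

/-- The integral of `gB` from `s ≤ 3`. -/
private theorem gB_int1 {fp fm : ℝ → ℝ} {Cφ : ℝ} (hΦ : PhiProps fp fm Cφ) {ε0 s : ℝ}
    (hs : s ≤ 3) : IntegrableOn (gB fm ε0) (Ioi s) ∧ (∫ t in Ioi s, gB fm ε0 t) =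
      (3 - s) * gB fm ε0 3 + ((∫ x in Ioi 2, fm x) + ε0 * ∫ x in Ioi 2, bm x) := by
  obtain ⟨h1, h2⟩ := gB_int3 hΦ (ε0 := ε0) (le_refl (3 : ℝ))
  have h3 : Ioi s = Ioc s 3 ∪ Ioi 3 := (Ioc_union_Ioi_eq_Ioi hs).symm
  have heq : EqOn (gB fm ε0) (fun _ => gB fm ε0 3) (Ioc s 3) := by
    intro t ht
    have h4 : max t 3 = 3 := max_eq_right ht.2
    show fm (max t 3 - 1) + ε0 * bm (max t 3 - 1) = fm (max 3 3 - 1) + ε0 * bm (max 3 3 - 1)
    rw [h4, max_self]
  have h5 : IntegrableOn (gB fm ε0) (Ioc s 3) :=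
    (integrableOn_const (by simp)).congr_fun heq.symm measurableSet_Ioc
  refine ⟨h3 ▸ h5.union h1, ?_⟩
  rw [h3, setIntegral_union (Set.Ioc_disjoint_Ioi le_rfl) measurableSet_Ioi h5 h1,
    setIntegral_congr_fun measurableSet_Ioc heq, setIntegral_const, smul_eq_mul, h2]
  congr 1
  · congr 1
    rw [measureReal_def, Real.volume_Ioc, ENNReal.toReal_ofReal (by linarith)]
  · norm_num

private theorem sum_split (fm : ℝ → ℝ) (ε0 D : ℝ) (Z1 z2 z : ℕ) (h1 : Z1 ≤ z2)
    (hp : ∀ p : ℕ, Z1 ≤ p → p.Prime → ((p < z ∧ (p : ℝ) ^ 3 < D) ↔ p < z2)) :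
    V Z1 - ∑ p ∈ (Finset.Ico Z1 z).filter (fun p : ℕ => p.Prime ∧ (p : ℝ) ^ 3 < D),
        V p / p * (1 - fm (log D / log p - 1) - ε0 * bm (log D / log p - 1)) =
      V z2 + ∑ p ∈ (Finset.Ico Z1 z2).filter Nat.Prime, V p / p * gB fm ε0 (log D / log p) := by
  have hS : (Finset.Ico Z1 z).filter (fun p : ℕ => p.Prime ∧ (p : ℝ) ^ 3 < D) =
      (Finset.Ico Z1 z2).filter Nat.Prime := by
    ext p
    simp only [Finset.mem_filter, Finset.mem_Ico]
    constructor
    · rintro ⟨⟨a, b⟩, c, d⟩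
      exact ⟨⟨a, (hp p a c).1 ⟨b, d⟩⟩, c⟩
    · rintro ⟨⟨a, b⟩, c⟩
      have := (hp p a c).2 b
      exact ⟨⟨a, this.1⟩, c, this.2⟩
  have hV := V_sum Z1 z2 h1
  rw [hS, ← hV, sub_add, ← Finset.sum_sub_distrib]
  congr 1
  refine Finset.sum_congr rfl fun p hp' => ?_
  simp only [Finset.mem_filter, Finset.mem_Ico] at hp'
  obtain ⟨⟨a, b⟩, c⟩ := hp'
  have hd := ((hp p a c).2 b).2
  have hp2 : (2 : ℝ) ≤ p := by exact_mod_cast c.two_le
  have hlp : 0 < log p := log_pos (by linarith)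
  have ht : 3 ≤ log D / log p := by
    rw [le_div_iff₀ hlp]
    have h2 : log ((p : ℝ) ^ 3) ≤ log D := log_le_log (by positivity) hd.le
    rwa [log_pow] at h2
  have h3 : max (log D / log p) 3 = log D / log p := max_eq_left ht
  unfold gB
  rw [h3]
  ring

private theorem int_A {fp fm : ℝ → ℝ} {Cφ : ℝ} (hΦ : PhiProps fp fm Cφ) {ε0 s : ℝ}
    (hε0 : 0 < ε0) (hs : 3 ≤ s) :
    1 / s * ((∫ x in Ioi (s - 1), fm x) + ε0 * ∫ x in Ioi (s - 1), bm x) ≤
      fp s + 10 / 11 * ε0 * bp s := by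
  have hmax : max s 3 = s := max_eq_left hs
  have hmin : min s 3 = 3 := min_eq_right hs
  have hs0 : 0 < s := by linarith
  have hfp := hΦ.fp_eq s (by linarith)
  rw [hmax, hmin, sub_self, add_zero] at hfp
  have hkb := K_bm s (by linarith)
  rw [hmax] at hkb
  rw [← hfp, one_div, inv_mul_le_iff₀ hs0]
  have h1 := mul_le_mul_of_nonneg_left hkb hε0.le
  have h2 : s * (fp s + 10 / 11 * ε0 * bp s) = s * fp s + ε0 * (10 / 11 * (s * bp s)) := by ring
  rw [h2]
  linarith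

private theorem gB_le {fp fm : ℝ → ℝ} {Cφ : ℝ} (hΦ : PhiProps fp fm Cφ) {ε0 s : ℝ}
    (hs : 3 ≤ s) : gB fm ε0 s ≤ 30 / 11 * (Cφ + ε0) * bp s := by
  have hmax : max s 3 = s := max_eq_left hs
  have hmin : min s 3 = 3 := min_eq_right hs
  have h12 := hΦ.fm_le (s - 1) (by linarith)
  have h13 : bm (s - 1) = 30 / 11 * bp s := by
    unfold bm bp
    rw [hmax, hmin]
    have : -(s - 1) = 1 - s := by ring
    rw [this]
    ring
  unfold gB
  rw [hmax]
  rw [h13] at h12 ⊢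
  have h14 : 30 / 11 * (Cφ + ε0) * bp s = Cφ * (30 / 11 * bp s) + ε0 * (30 / 11 * bp s) := by ring
  rw [h14]
  linarith

private theorem alg1 (η v s s2 δ A g : ℝ) (hs : s ≠ 0) (hs2 : s2 ≠ 0) :
    (1 + η) * (v * (s2 / s)) * (1 + ((1 + η) * (1 / s2 * (δ * g + A)) + η * g)) =
      v * (((1 + η) * (s2 + (1 + η) * (δ * g + A) + s2 * η * g)) / s) := by
  have h1 : s2 * (1 + ((1 + η) * (1 / s2 * (δ * g + A)) + η * g)) =
      s2 + (1 + η) * (δ * g + A) + s2 * η * g := by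
    have : s2 * (1 / s2) = 1 := mul_one_div_cancel hs2
    linear_combination ((1 + η) * (δ * g + A)) * this
  rw [← h1]
  ring

private theorem alg2 (η v lz lD l' : ℝ) (hlz : lz ≠ 0) (hlD : lD ≠ 0) (hl' : l' ≠ 0) :
    (1 + η) * (v * ((lD / l') / (lD / lz))) = ((1 + η) * (v * lz)) / l' := by
  field_simp

private theorem alg3 (η v lz lD : ℝ) (hlz : lz ≠ 0) (hlD : lD ≠ 0) :
    (1 + η) * (v * (3 / (lD / lz))) = ((1 + η) * (v * lz)) / (lD / 3) := by
  field_simp

private theorem eta_bounds {η a b : ℝ} (hη : 0 < η) (ha : 0 ≤ a) (hb : 0 ≤ b)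
    (h : η * (1 + a + b) ≤ 1) : η ≤ 1 ∧ η * a ≤ 1 ∧ η * b ≤ 1 := by
  have h1 := mul_nonneg hη.le ha
  have h2 := mul_nonneg hη.le hb
  have h3 : η * (1 + a + b) = η + η * a + η * b := by ring
  rw [h3] at h
  exact ⟨by linarith, by linarith, by linarith⟩

private theorem num_C {η M J x y : ℝ} (h4 : η * M ≤ x / 10) (h8 : η * 3 ≤ η * M) (hJ : 0 ≤ J)
    (hx : 0 < x) (hy : y = 11 / 10 * x) : (1 + η) * 3 ≤ 3 + J + y := by
  have h1 : (1 + η) * 3 = 3 + η * 3 := by ring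
  rw [h1, hy]
  linarith

private theorem num_A {η Cφ ε0 F B g : ℝ} (hη : 0 ≤ η) (hη2 : η * (44 * (Cφ + ε0)) ≤ ε0)
    (hF : F ≤ Cφ * B) (hB : 0 ≤ B) (hC : 0 < Cφ) (hε0 : 0 < ε0)
    (hg : g ≤ 30 / 11 * (Cφ + ε0) * B) :
    1 + ((1 + η) * (F + 10 / 11 * ε0 * B) + η * g) ≤ 1 + F + ε0 * B := by
  have h1 : η * F ≤ η * (Cφ * B) := mul_le_mul_of_nonneg_left hF hη
  have h2 : η * g ≤ η * (30 / 11 * (Cφ + ε0) * B) := mul_le_mul_of_nonneg_left hg hη
  have h3 : η * (44 * (Cφ + ε0)) * B ≤ ε0 * B := mul_le_mul_of_nonneg_right hη2 hB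
  have h4 : 0 ≤ η * Cφ * B := by positivity
  have h5 : 0 ≤ η * ε0 * B := by positivity
  nlinarith [h1, h2, h3, h4, h5]

private theorem num_B {η δ A g3 : ℝ} (hη : 0 ≤ η) (hη1 : η ≤ 1) (hδ : δ ≤ η)
    (hA : 0 ≤ A) (hg : 0 ≤ g3) :
    (1 + η) * (3 + (1 + η) * (δ * g3 + A) + 3 * η * g3) ≤ 3 + A + η * (3 + 3 * A + 10 * g3) := by
  have h1 : δ * g3 ≤ η * g3 := mul_le_mul_of_nonneg_right hδ hg
  have h2 : (1 + η) * (δ * g3 + A) ≤ (1 + η) * (η * g3 + A) :=
    mul_le_mul_of_nonneg_left (by linarith) (by linarith)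
  have h3 : (1 + η) * (3 + (1 + η) * (δ * g3 + A) + 3 * η * g3) ≤
      (1 + η) * (3 + (1 + η) * (η * g3 + A) + 3 * η * g3) :=
    mul_le_mul_of_nonneg_left (by linarith) (by linarith)
  refine h3.trans ?_
  have h4 : 0 ≤ η * g3 := mul_nonneg hη hg
  have h5 : η ^ 2 ≤ η := by nlinarith
  have h6 : η ^ 2 * g3 ≤ η * g3 := mul_le_mul_of_nonneg_right h5 hg
  have h7 : η ^ 3 * g3 ≤ η * g3 := by
    have : η ^ 3 ≤ η := by nlinarith
    exact mul_le_mul_of_nonneg_right this hg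
  have h8 : η ^ 2 * A ≤ η * A := mul_le_mul_of_nonneg_right h5 hA
  nlinarith [h4, h6, h7, h8]

theorem LSB (fp fm : ℝ → ℝ) (Cφ : ℝ) (hΦ : PhiProps fp fm Cφ) (ε0 : ℝ) (hε0 : 0 < ε0) :
    ∃ Z0 : ℕ, 2 ≤ Z0 ∧ ∀ Z1 z : ℕ, Z0 ≤ Z1 → Z1 ≤ z → ∀ D : ℝ, (z : ℝ) ≤ D →
      V Z1 - ∑ p ∈ (Finset.Ico Z1 z).filter (fun p : ℕ => p.Prime ∧ (p : ℝ) ^ 3 < D),
        V p / p * (1 - fm (log D / log p - 1) - ε0 * bm (log D / log p - 1)) ≤
      V z * (1 + fp (log D / log z) + ε0 * bp (log D / log z)) := by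
  obtain ⟨C1, hC1, hsum⟩ := sum_V_le
  obtain ⟨C2, hC2, hrat⟩ := V_ratio
  set J : ℝ := ∫ x in Ioi 2, fm x with hJ
  set K : ℝ := ∫ x in Ioi 2, bm x with hK
  set g3 : ℝ := gB fm ε0 3 with hg3
  have hJ0 : 0 ≤ J := setIntegral_nonneg measurableSet_Ioi fun x hx => hΦ.fm_nonneg x (le_of_lt hx)
  have hK0 : 0 ≤ K := setIntegral_nonneg measurableSet_Ioi fun x _ => (bm_pos x).le
  have hK1 : K ≤ exp (-2) := by
    have h1 := K_bm 3 (by norm_num)
    unfold bp at h1
    norm_num at h1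
    rw [hK]
    linarith
  have hg30 : 0 ≤ g3 := gB_nonneg hΦ hε0 3
  set A : ℝ := J + ε0 * K with hA
  have hA0 : 0 ≤ A := by positivity
  set e2 : ℝ := exp (-2) with he2
  have he20 : 0 < e2 := exp_pos _
  set M : ℝ := 3 + 3 * A + 10 * g3 with hM
  have hM3 : 3 ≤ M := by linarith
  set C3 : ℝ := C1 + C2 + 2 with hC3
  have hC30 : 0 < C3 := by positivity
  -- the lower bound for `log Z1`
  obtain ⟨Z0, hZ02, hZ0⟩ := exists_Z
    (C3 * (1 + 44 * (Cφ + ε0) / ε0 + 10 * M / (ε0 * e2)))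
  refine ⟨Z0, hZ02, fun Z1 z hZ1 hz D hD => ?_⟩
  have hZ12 : 2 ≤ Z1 := hZ02.trans hZ1
  have hz2 : 2 ≤ z := hZ12.trans hz
  have hz2' : (2 : ℝ) ≤ z := by exact_mod_cast hz2
  have hZ12' : (2 : ℝ) ≤ Z1 := by exact_mod_cast hZ12
  have hzz : (Z1 : ℝ) ≤ z := by exact_mod_cast hz
  have hD2 : 2 ≤ D := hz2'.trans hD
  have hlZ : 0 < log Z1 := log_pos (by linarith)
  have hlz : 0 < log z := log_pos (by linarith)
  have hlD : 0 < log D := log_pos (by linarith)
  have hC0 := hΦ.C_pos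
  set η : ℝ := C3 / log Z1 with hη
  have hη0 : 0 < η := div_pos hC30 hlZ
  have hbig := hZ0 Z1 hZ1
  have hT1 : 0 ≤ 44 * (Cφ + ε0) / ε0 := by positivity
  have hT2 : 0 ≤ 10 * M / (ε0 * e2) := by positivity
  have hη1 : η * (1 + 44 * (Cφ + ε0) / ε0 + 10 * M / (ε0 * e2)) ≤ 1 := by
    rw [hη, div_mul_eq_mul_div, div_le_one hlZ]
    exact hbig
  obtain ⟨hη2, hη5, hη6⟩ := eta_bounds hη0 hT1 hT2 hη1
  have hη3 : η * (44 * (Cφ + ε0)) ≤ ε0 := by
    have h2 := mul_le_mul_of_nonneg_right hη5 hε0.le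
    calc η * (44 * (Cφ + ε0)) = η * (44 * (Cφ + ε0) / ε0) * ε0 := by field_simp
      _ ≤ 1 * ε0 := h2
      _ = ε0 := one_mul _
  have hη4 : η * M ≤ ε0 * e2 / 10 := by
    have h2 := mul_le_mul_of_nonneg_right hη6 (show 0 ≤ ε0 * e2 / 10 by positivity)
    calc η * M = η * (10 * M / (ε0 * e2)) * (ε0 * e2 / 10) := by field_simp
      _ ≤ 1 * (ε0 * e2 / 10) := h2
      _ = _ := one_mul _
  have hc1 : C1 / log Z1 ≤ η := div_le_div_of_nonneg_right (by linarith) hlZ.le
  have hc2 : C2 / log Z1 ≤ η := div_le_div_of_nonneg_right (by linarith) hlZ.le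
  have hc3 : 2 / log Z1 ≤ η := div_le_div_of_nonneg_right (by linarith) hlZ.le
  set s : ℝ := log D / log z with hs
  have hs1 : 1 ≤ s := by
    rw [hs, le_div_iff₀ hlz, one_mul]
    exact log_le_log (by linarith) hD
  have hs0 : 0 < s := by linarith
  have hVz := V_pos z
  -- the bound for the sum, for any cut `z2`
  have hmain : ∀ z2 : ℕ, Z1 ≤ z2 → IntegrableOn (gB fm ε0) (Ioi (log D / log z2)) →
      V z2 + ∑ p ∈ (Finset.Ico Z1 z2).filter Nat.Prime, V p / p * gB fm ε0 (log D / log p) ≤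
      V z2 * (1 + ((1 + η) * (log z2 / log D * ∫ t in Ioi (log D / log z2), gB fm ε0 t) +
        η * gB fm ε0 (log D / log z2))) := by
    intro z2 h1 h2
    have h3 := hsum Z1 z2 hZ12 h1 D (by linarith) (gB fm ε0) (gB_nonneg hΦ hε0)
      (gB_anti hΦ hε0) h2
    have hz22 : (2 : ℝ) ≤ z2 := by exact_mod_cast hZ12.trans h1
    have hlz2 : 0 < log z2 := log_pos (by linarith)
    have h4 : 0 ≤ log z2 / log D * ∫ t in Ioi (log D / log z2), gB fm ε0 t :=
      mul_nonneg (by positivity) (setIntegral_nonneg measurableSet_Ioi fun x _ =>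
        gB_nonneg hΦ hε0 x)
    have h5 := gB_nonneg hΦ hε0 (log D / log z2)
    have h6 := mul_le_mul_of_nonneg_right hc1 h4
    have h7 := mul_le_mul_of_nonneg_right hc1 h5
    have h8 : (1 + C1 / log Z1) * (log z2 / log D * ∫ t in Ioi (log D / log z2), gB fm ε0 t) +
        C1 / log Z1 * gB fm ε0 (log D / log z2) ≤
        (1 + η) * (log z2 / log D * ∫ t in Ioi (log D / log z2), gB fm ε0 t) +
        η * gB fm ε0 (log D / log z2) := by linarith
    have h9 := mul_le_mul_of_nonneg_left h8 (V_pos z2).le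
    rw [mul_add, mul_one]
    linarith
  by_cases hcase : (z : ℝ) ^ 3 ≤ D
  · -- `s ≥ 3`
    have hs3 : 3 ≤ s := by
      rw [hs, le_div_iff₀ hlz]
      have h2 : log ((z : ℝ) ^ 3) ≤ log D := log_le_log (by positivity) hcase
      rwa [log_pow] at h2
    rw [sum_split fm ε0 D Z1 z z hz (by
      intro p _ _
      constructor
      · exact fun h => h.1
      · intro h
        refine ⟨h, lt_of_lt_of_le ?_ hcase⟩
        have : (p : ℝ) < z := by exact_mod_cast h
        exact pow_lt_pow_left₀ this (Nat.cast_nonneg p) (by norm_num))]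
    obtain ⟨hi1, hi2⟩ := gB_int3 hΦ (ε0 := ε0) hs3
    refine (hmain z hz hi1).trans (mul_le_mul_of_nonneg_left ?_ hVz.le)
    rw [← hs, hi2]
    have hbp0 : 0 ≤ bp s := (bp_pos s hs0).le
    have hls : log z / log D = 1 / s := by rw [hs, one_div_div]
    rw [hls]
    have h10 := int_A hΦ hε0 hs3
    have h11 := gB_le hΦ (ε0 := ε0) hs3
    have h14 := num_A hη0.le hη3 (hΦ.fp_le s hs1) hbp0 hC0 hε0 h11
    have h15 := mul_le_mul_of_nonneg_left h10 (show 0 ≤ 1 + η by linarith)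
    linarith
  · -- `s < 3`
    have hcase' : D < (z : ℝ) ^ 3 := not_le.1 hcase
    have hs3 : s < 3 := by
      rw [hs, div_lt_iff₀ hlz]
      have h2 : log D < log ((z : ℝ) ^ 3) := log_lt_log (by linarith) hcase'
      rwa [log_pow] at h2
    have hmax : max s 3 = 3 := max_eq_right hs3.le
    have hmin : min s 3 = s := min_eq_left hs3.le
    have hfp := hΦ.fp_eq s hs1
    rw [hmax, hmin] at hfp
    have hfp' : s * fp s = J + (3 - s) := by
      rw [hfp, hJ]
      norm_num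
    have hbp : s * bp s = 11 / 10 * e2 := by
      unfold bp
      rw [hmax, hmin, he2]
      have : (1 : ℝ) - 3 = -2 := by norm_num
      rw [this]
      field_simp
    have hgoal : V z * (1 + fp s + ε0 * bp s) = V z * ((3 + J + ε0 * (11 / 10 * e2)) / s) := by
      congr 1
      rw [eq_div_iff hs0.ne']
      have : (1 + fp s + ε0 * bp s) * s = s + s * fp s + ε0 * (s * bp s) := by ring
      rw [this, hfp', hbp]
      ring
    have hKA : A + ε0 * e2 / 10 ≤ J + ε0 * (11 / 10 * e2) := by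
      have := mul_le_mul_of_nonneg_left hK1 hε0.le
      rw [hA]
      linarith
    rw [hgoal]
    by_cases hD1 : D ≤ (Z1 : ℝ) ^ 3
    · -- the sum is empty
      rw [sum_split fm ε0 D Z1 Z1 z le_rfl (by
        intro p hp _
        constructor
        · rintro ⟨_, h⟩
          exfalso
          have h2 : (Z1 : ℝ) ^ 3 ≤ (p : ℝ) ^ 3 :=
            pow_le_pow_left₀ (by positivity) (by exact_mod_cast hp) 3
          linarith
        · intro h
          omega)]
      rw [Finset.Ico_self, Finset.filter_empty, Finset.sum_empty, add_zero]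
      have h1 := (hrat Z1 z hZ12 hz).1
      have h2 : V Z1 ≤ (1 + η) * (V z * (3 / s)) := by
        have h3 : V Z1 * log Z1 ≤ (1 + η) * (V z * log z) := by
          refine h1.trans (mul_le_mul_of_nonneg_right (by linarith) (by positivity))
        have h4 : log D ≤ 3 * log Z1 := by
          have := log_le_log (by linarith) hD1
          rwa [log_pow] at this
        have h5 : V Z1 * (log D / 3) ≤ (1 + η) * (V z * log z) :=
          le_trans (mul_le_mul_of_nonneg_left (by linarith) (V_pos Z1).le) h3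
        have h6 : (1 + η) * (V z * (3 / s)) = ((1 + η) * (V z * log z)) / (log D / 3) :=
          alg3 η (V z) (log z) (log D) hlz.ne' hlD.ne'
        rw [h6, le_div_iff₀ (by positivity)]
        exact h5
      refine h2.trans ?_
      have h7 : (1 + η) * (V z * (3 / s)) = V z * (((1 + η) * 3) / s) := by ring
      rw [h7]
      refine mul_le_mul_of_nonneg_left (div_le_div_of_nonneg_right ?_ hs0.le) hVz.le
      have h8 : η * 3 ≤ η * M := mul_le_mul_of_nonneg_left hM3 hη0.le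
      exact num_C hη4 h8 hJ0 (by positivity) (by ring)
    · have hD1' : (Z1 : ℝ) ^ 3 < D := not_le.1 hD1
      -- the cut
      set c : ℝ := D ^ ((1 : ℝ) / 3) with hc
      have hc0 : 0 ≤ c := by positivity
      have hc3' : c ^ 3 = D := by
        rw [hc, ← rpow_natCast, ← rpow_mul (by linarith)]
        norm_num
      set z' : ℕ := ⌈c⌉₊ with hz'
      have hlt : ∀ p : ℕ, p < z' ↔ (p : ℝ) ^ 3 < D := by
        intro p
        rw [hz', Nat.lt_ceil, ← hc3']
        exact (pow_lt_pow_iff_left₀ (Nat.cast_nonneg p) hc0 (by norm_num)).symm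
      have hZz' : Z1 < z' := (hlt Z1).2 hD1'
      have hz'z : z' ≤ z := by
        by_contra hcon
        exact lt_asymm ((hlt z).1 (not_le.1 hcon)) hcase'
      have hz'2 : (2 : ℝ) ≤ z' := by exact_mod_cast hZ12.trans hZz'.le
      have hz'3 : 3 ≤ z' := by omega
      have hDz' : D ≤ (z' : ℝ) ^ 3 := by
        by_contra hcon
        exact lt_irrefl _ ((hlt z').2 (not_le.1 hcon))
      have hlz' : 0 < log z' := log_pos (by linarith)
      have hlZz' : log Z1 ≤ log z' := log_le_log (by linarith) (by exact_mod_cast hZz'.le)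
      set s2 : ℝ := log D / log z' with hs2
      have hs20 : 0 < s2 := div_pos hlD hlz'
      have hs23 : s2 ≤ 3 := by
        rw [hs2, div_le_iff₀ hlz']
        have := log_le_log (by linarith) hDz'
        rwa [log_pow] at this
      have hδ : 3 - s2 ≤ η := by
        refine le_trans ?_ hc3
        have h1 : ((z' - 1 : ℕ) : ℝ) ^ 3 < D := (hlt (z' - 1)).1 (by omega)
        have h2 : ((z' - 1 : ℕ) : ℝ) = z' - 1 := by
          rw [Nat.cast_sub (by omega), Nat.cast_one]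
        rw [h2] at h1
        have hz'1 : (2 : ℝ) ≤ z' - 1 := by
          have : (3 : ℝ) ≤ z' := by exact_mod_cast hz'3
          linarith
        have h3 : 3 * log ((z' : ℝ) - 1) ≤ log D := by
          have := log_le_log (by positivity) h1.le
          rwa [log_pow] at this
        have h4 : log z' - log ((z' : ℝ) - 1) ≤ 1 / 2 := by
          rw [← log_div (by linarith) (by linarith)]
          have h5 := log_le_sub_one_of_pos (show 0 < (z' : ℝ) / (z' - 1) by positivity)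
          have h6 : (z' : ℝ) / (z' - 1) - 1 = 1 / (z' - 1) := by
            field_simp
            ring
          rw [h6] at h5
          exact h5.trans (one_div_le_one_div_of_le (by norm_num) hz'1)
        have h7 : 3 - s2 = (3 * log z' - log D) / log z' := by
          rw [hs2]
          field_simp
        rw [h7]
        calc (3 * log z' - log D) / log z' ≤ 2 / log z' :=
              div_le_div_of_nonneg_right (by linarith) hlz'.le
          _ ≤ 2 / log Z1 := div_le_div_of_nonneg_left (by norm_num) hlZ hlZz'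
      rw [sum_split fm ε0 D Z1 z' z hZz'.le (by
        intro p _ _
        constructor
        · rintro ⟨_, h⟩
          exact (hlt p).2 h
        · intro h
          exact ⟨by omega, (hlt p).1 h⟩)]
      obtain ⟨hi1, hi2⟩ := gB_int1 hΦ (ε0 := ε0) hs23
      refine (hmain z' hZz'.le hi1).trans ?_
      rw [← hs2, hi2]
      have hg2 : gB fm ε0 s2 = g3 := by
        rw [hg3]
        unfold gB
        rw [max_eq_right hs23, max_self]
      rw [hg2, ← hg3, ← hJ, ← hK, ← hA]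
      have hVz' : V z' ≤ (1 + η) * (V z * (s2 / s)) := by
        have h1 := (hrat z' z (by omega) hz'z).1
        have h2 : C2 / log z' ≤ η :=
          (div_le_div_of_nonneg_left hC2.le hlZ hlZz').trans hc2
        have h3 : V z' * log z' ≤ (1 + η) * (V z * log z) :=
          h1.trans (mul_le_mul_of_nonneg_right (by linarith) (by positivity))
        have h4 : (1 + η) * (V z * (s2 / s)) = ((1 + η) * (V z * log z)) / log z' :=
          alg2 η (V z) (log z) (log D) (log z') hlz.ne' hlD.ne' hlz'.ne'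
        rw [h4, le_div_iff₀ hlz']
        exact h3
      have hls : log z' / log D = 1 / s2 := by rw [hs2, one_div_div]
      rw [hls]
      have hδ0 : 0 ≤ 3 - s2 := by linarith
      have hpos : 0 ≤ 1 + ((1 + η) * (1 / s2 * ((3 - s2) * g3 + A)) + η * g3) := by positivity
      refine (mul_le_mul_of_nonneg_right hVz' hpos).trans ?_
      rw [alg1 η (V z) s s2 (3 - s2) A g3 hs0.ne' hs20.ne']
      refine mul_le_mul_of_nonneg_left (div_le_div_of_nonneg_right ?_ hs0.le) hVz.le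
      have h2 := num_B hη0.le hη2 hδ hA0 hg30
      have h3 : s2 * η * g3 ≤ 3 * η * g3 :=
        mul_le_mul_of_nonneg_right (mul_le_mul_of_nonneg_right hs23 hη0.le) hg30
      have h4 : (1 + η) * (s2 + (1 + η) * ((3 - s2) * g3 + A) + s2 * η * g3) ≤
          (1 + η) * (3 + (1 + η) * ((3 - s2) * g3 + A) + 3 * η * g3) :=
        mul_le_mul_of_nonneg_left (by linarith) (by linarith)
      rw [← hM] at h2
      linarith

end Pool.Agent.RG
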