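import Pool.Agent.RG.PhiB

/-!
# RG / PhiF: `f(2) = 0`

`A := 3 (1 + fp 3)`.  For `1 ≤ s ≤ 3`: `s (1 + fp s) = s + J + 3 - s = A`, `J = ∫_{x > 2} fm`.
For `2 ≤ s ≤ 4`: `s (1 - fm s) = s - ∫_{x > 1} fp + ∫_{1 < x ≤ s-1} (A/x - 1) dx = B + A log (s-1)` with
`B = 2 - ∫_{x > 1} fp`.  To show `B = 0`: let `Q = fp + fm` on `x ≥ 2`.  For `x ≥ 3`:
`x Q(x) = ∫_{v > x-1} Q(v) dv`.  Integrate over `x > 3` (Tonelli; everything is nonnegative and
exponentially small): `∫_{x>3} x Q(x) dx = ∫_{v>2} (v - 2) Q(v) dv`, hence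
`∫_{2<v≤3} v Q(v) dv = 2 ∫_{v>2} Q(v) dv = 2 * 3 Q(3)`.  On `[2, 3]`:
`v Q(v) = A - (B + A log (v-1))`, so the left side is `A - B - A (2 log 2 - 1)`, and
`3 Q(3) = A - B - A log 2`.  Hence `2A - B - 2 A log 2 = 2A - 2B - 2 A log 2`, i.e. `B = 0`.
-/

set_option autoImplicit false

namespace Pool.Agent.RG

open Real MeasureTheory Set

private lemma f2_exp_int : IntegrableOn (fun x : ℝ => x * exp (-x)) (Ioi 2) := by
  have h := (Real.GammaIntegral_convergent (s := 2) (by norm_num)).mono_set
    (Ioi_subset_Ioi (by norm_num : (0 : ℝ) ≤ 2))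
  refine h.congr_fun ?_ measurableSet_Ioi
  intro x hx
  show exp (-x) * x ^ ((2 : ℝ) - 1) = x * exp (-x)
  rw [show (2 : ℝ) - 1 = 1 by norm_num, rpow_one, mul_comm]

private lemma f2_swap (Q : ℝ → ℝ) (K : ℝ) (hQ0 : ∀ v, 2 < v → 0 ≤ Q v)
    (hQ : IntegrableOn Q (Ioi 2)) (hQK : ∀ v, 2 < v → Q v ≤ K * exp (-v)) :
    IntegrableOn (fun v => v * Q v) (Ioi 2) ∧
    ∫ x in Ioi 3, ∫ v in Ioi (x - 1), Q v = ∫ v in Ioi 2, (v - 2) * Q v := by
  have hvQ : IntegrableOn (fun v => v * Q v) (Ioi 2) := by
    have h1 : IntegrableOn (fun v : ℝ => K * (v * exp (-v))) (Ioi 2) := f2_exp_int.const_mul K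
    refine Integrable.mono' h1 ?_ ?_
    · exact aestronglyMeasurable_id.mul hQ.aestronglyMeasurable
    · refine ae_restrict_of_forall_mem measurableSet_Ioi ?_
      intro v hv
      have hv2 : (2 : ℝ) < v := hv
      rw [Real.norm_eq_abs, abs_of_nonneg (mul_nonneg (by linarith) (hQ0 v hv2))]
      have := mul_le_mul_of_nonneg_left (hQK v hv2) (by linarith : (0 : ℝ) ≤ v)
      linarith
  refine ⟨hvQ, ?_⟩
  have hv2Q : IntegrableOn (fun v => (v - 2) * Q v) (Ioi 2) := by
    have h1 := hvQ.sub (hQ.const_mul 2)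
    refine h1.congr (Filter.Eventually.of_forall fun v => ?_)
    show v * Q v - 2 * Q v = (v - 2) * Q v
    ring
  set f : ℝ → ℝ → ℝ := fun x v => (Ioi (x - 1)).indicator Q v with hf
  -- the inner integrals
  have hin1 : ∀ x ∈ Ioi (3 : ℝ), ∫ v in Ioi (x - 1), Q v = ∫ v in Ioi (2 : ℝ), f x v := by
    intro x hx
    have hx3 : (3 : ℝ) < x := hx
    rw [hf]
    show _ = ∫ v in Ioi (2 : ℝ), (Ioi (x - 1)).indicator Q v
    rw [setIntegral_indicator measurableSet_Ioi]
    congr 2
    ext v
    simp only [mem_inter_iff, mem_Ioi]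
    constructor
    · intro h; exact ⟨by linarith, h⟩
    · intro h; exact h.2
  have hind : ∀ v x : ℝ, f x v = (Iio (v + 1)).indicator (fun _ => Q v) x := by
    intro v x
    rw [hf]
    by_cases h : x - 1 < v
    · show (Ioi (x - 1)).indicator Q v = _
      rw [indicator_of_mem (by exact h), indicator_of_mem (by show x < v + 1; linarith)]
    · show (Ioi (x - 1)).indicator Q v = _
      rw [indicator_of_notMem (by exact h), indicator_of_notMem (by
        intro h'; apply h; have : x < v + 1 := h'; linarith)]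
  have hvol : ∀ v ∈ Ioi (2 : ℝ), volume.real (Ioi (3 : ℝ) ∩ Iio (v + 1)) = v - 2 := by
    intro v hv
    have hv2 : (2 : ℝ) < v := hv
    rw [Ioi_inter_Iio, Real.volume_real_Ioo_of_le (by linarith)]
    ring
  have hin2 : ∀ v ∈ Ioi (2 : ℝ), ∫ x in Ioi (3 : ℝ), f x v = (v - 2) * Q v := by
    intro v hv
    simp only [hind v]
    rw [setIntegral_indicator measurableSet_Iio, setIntegral_const, hvol v hv, smul_eq_mul]
  have hmeas : MeasurableSet {p : ℝ × ℝ | p.1 - 1 < p.2} :=
    measurableSet_lt (measurable_fst.sub_const 1) measurable_snd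
  have haes : AEStronglyMeasurable (Function.uncurry f)
      ((volume.restrict (Ioi 3)).prod (volume.restrict (Ioi 2))) := by
    have h1 : AEStronglyMeasurable (fun p : ℝ × ℝ => Q p.2)
        ((volume.restrict (Ioi 3)).prod (volume.restrict (Ioi 2))) :=
      hQ.aestronglyMeasurable.comp_snd
    have h2 : Function.uncurry f = {p : ℝ × ℝ | p.1 - 1 < p.2}.indicator (fun p => Q p.2) := by
      funext p
      show (Ioi (p.1 - 1)).indicator Q p.2 = _
      by_cases h : p.1 - 1 < p.2
      · rw [indicator_of_mem (by exact h), indicator_of_mem (by exact h)]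
      · rw [indicator_of_notMem (by exact h), indicator_of_notMem (by exact h)]
    rw [h2]
    exact h1.indicator hmeas
  have hint : Integrable (Function.uncurry f)
      ((volume.restrict (Ioi 3)).prod (volume.restrict (Ioi 2))) := by
    rw [integrable_prod_iff' haes]
    constructor
    · refine ae_restrict_of_forall_mem measurableSet_Ioi ?_
      intro v hv
      have h1 : (fun x => Function.uncurry f (x, v)) = (Iio (v + 1)).indicator (fun _ => Q v) := by
        funext x; exact hind v x
      rw [h1, integrable_indicator_iff measurableSet_Iio, IntegrableOn,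
        Measure.restrict_restrict measurableSet_Iio]
      have h2 : Iio (v + 1) ∩ Ioi 3 = Ioo (3 : ℝ) (v + 1) := by
        rw [inter_comm]; exact Ioi_inter_Iio
      rw [h2]
      exact integrable_const _
    · refine (integrable_congr ?_).2 hv2Q
      refine ae_restrict_of_forall_mem measurableSet_Ioi ?_
      intro v hv
      have hv2 : (2 : ℝ) < v := hv
      show ∫ x in Ioi (3 : ℝ), ‖f x v‖ = _
      have h1 : ∀ x, ‖f x v‖ = f x v := by
        intro x
        rw [Real.norm_eq_abs, abs_of_nonneg]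
        rw [hind]
        exact indicator_nonneg (fun _ _ => hQ0 v hv2) _
      simp only [h1]
      exact hin2 v hv
  calc ∫ x in Ioi 3, ∫ v in Ioi (x - 1), Q v = ∫ x in Ioi (3 : ℝ), ∫ v in Ioi (2 : ℝ), f x v :=
        setIntegral_congr_fun measurableSet_Ioi hin1
    _ = ∫ v in Ioi (2 : ℝ), ∫ x in Ioi (3 : ℝ), f x v := integral_integral_swap hint
    _ = ∫ v in Ioi 2, (v - 2) * Q v := setIntegral_congr_fun measurableSet_Ioi hin2

private lemma f2_log_int (A : ℝ) (s : ℝ) (hs : 2 ≤ s) :
    ∫ x in Ioc (1 : ℝ) (s - 1), (A / x - 1) = A * log (s - 1) - (s - 2) := by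
  rw [← intervalIntegral.integral_of_le (by linarith)]
  rw [intervalIntegral.integral_sub]
  · have h1 : ∫ x in (1 : ℝ)..(s - 1), A / x = A * log (s - 1) := by
      have : (fun x : ℝ => A / x) = fun x => A * (1 / x) := by funext x; ring
      rw [this, intervalIntegral.integral_const_mul, integral_one_div_of_pos (by norm_num) (by linarith)]
      simp
    rw [h1]
    simp
    ring
  · apply ContinuousOn.intervalIntegrable
    rw [uIcc_of_le (by linarith)]
    intro x hx
    exact (continuousAt_const.div continuousAt_id (by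
      have := hx.1
      simp only [id]
      linarith [hx.1])).continuousWithinAt
  · exact intervalIntegrable_const

theorem f_two (fp fm : ℝ → ℝ) (C : ℝ) (h : PhiProps fp fm C) :
    ∃ A : ℝ, 3 ≤ A ∧ (∀ s ∈ Icc (1 : ℝ) 3, s * (1 + fp s) = A) ∧
      ∀ s ∈ Icc (2 : ℝ) 4, s * (1 - fm s) = A * log (s - 1) := by
  set J := ∫ x in Ioi (2 : ℝ), fm x with hJ
  have hJ0 : 0 ≤ J := setIntegral_nonneg measurableSet_Ioi fun x hx =>
    h.fm_nonneg x (le_of_lt hx)
  set A := 3 + J with hA
  have hP : ∀ s ∈ Icc (1 : ℝ) 3, s * (1 + fp s) = A := by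
    intro s hs
    have h1 := h.fp_eq s hs.1
    rw [max_eq_right hs.2, min_eq_left hs.2, show (3 : ℝ) - 1 = 2 by norm_num, ← hJ] at h1
    rw [mul_add, h1]
    rw [hA]; ring
  set I1 := ∫ x in Ioi (1 : ℝ), fp x with hI1
  set B := 2 - I1 with hB
  have hM : ∀ s ∈ Icc (2 : ℝ) 4, s * (1 - fm s) = B + A * log (s - 1) := by
    intro s hs
    have h1 := h.fm_eq s hs.1
    have h2 : ∫ x in Ioi (1 : ℝ), fp x = (∫ x in Ioc (1 : ℝ) (s - 1), fp x) +
        ∫ x in Ioi (s - 1), fp x := by
      rw [← setIntegral_union (Ioc_disjoint_Ioi le_rfl) measurableSet_Ioi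
        (h.fp_int.mono_set Ioc_subset_Ioi_self)
        (h.fp_int.mono_set (Ioi_subset_Ioi (by linarith [hs.1]))),
        Ioc_union_Ioi_eq_Ioi (by linarith [hs.1])]
    have h3 : ∫ x in Ioc (1 : ℝ) (s - 1), fp x = A * log (s - 1) - (s - 2) := by
      rw [← f2_log_int A s hs.1]
      apply setIntegral_congr_fun measurableSet_Ioc
      intro x hx
      have hx1 : (1 : ℝ) < x := hx.1
      have hx3 : x ≤ 3 := by linarith [hx.2, hs.2]
      have h4 := hP x ⟨hx1.le, hx3⟩
      show fp x = A / x - 1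
      rw [← h4]
      field_simp
      ring
    rw [mul_sub, h1]
    rw [← hI1] at h2
    rw [hB, h2, h3]
    ring
  have hB0 : B = 0 := by
    set Q : ℝ → ℝ := fun v => fp v + fm v with hQdef
    have hC := h.C_pos
    have hQ0 : ∀ v, 2 < v → 0 ≤ Q v := fun v hv =>
      add_nonneg (h.fp_nonneg v (by linarith)) (h.fm_nonneg v hv.le)
    have hQi : IntegrableOn Q (Ioi 2) :=
      (h.fp_int.mono_set (Ioi_subset_Ioi (by norm_num))).add h.fm_int
    have hQK : ∀ v, 2 < v → Q v ≤ (C * (11 / 10 * exp 1) + C) * exp (-v) := by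
      intro v hv
      have h1 := h.fp_le v (by linarith)
      have h2 := h.fm_le v hv.le
      have h3 : bp v ≤ 11 / 10 * exp 1 * exp (-v) := by
        unfold bp
        have h4 : (1 : ℝ) ≤ min v 3 := le_min (by linarith) (by norm_num)
        have h5 : 11 / 10 * exp (1 - max v 3) / min v 3 ≤ 11 / 10 * exp (1 - max v 3) :=
          div_le_self (by positivity) h4
        have h6 : exp (1 - max v 3) ≤ exp 1 * exp (-v) := by
          rw [← exp_add]
          apply exp_le_exp.2
          linarith [le_max_left v 3]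
        linarith
      have h7 : bm v = exp (-v) := rfl
      rw [h7] at h2
      show fp v + fm v ≤ _
      have h8 := mul_le_mul_of_nonneg_left h3 hC.le
      have h9 : (C * (11 / 10 * exp 1) + C) * exp (-v) =
        C * (11 / 10 * exp 1 * exp (-v)) + C * exp (-v) := by ring
      rw [h9]
      linarith
    obtain ⟨hvQ, hswap⟩ := f2_swap Q _ hQ0 hQi hQK
    have hrec : ∀ x, 3 ≤ x → x * Q x = ∫ v in Ioi (x - 1), Q v := by
      intro x hx
      have h1 := h.fp_eq x (by linarith)
      have h2 := h.fm_eq x (by linarith)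
      rw [max_eq_left hx, min_eq_right hx, sub_self, add_zero] at h1
      show x * (fp x + fm x) = ∫ v in Ioi (x - 1), (fp v + fm v)
      rw [mul_add, h1, h2, integral_add
        (h.fp_int.mono_set (Ioi_subset_Ioi (by linarith)))
        (h.fm_int.mono_set (Ioi_subset_Ioi (by linarith)))]
      ring
    have e1 : ∫ x in Ioi (3 : ℝ), x * Q x = ∫ v in Ioi 2, (v - 2) * Q v := by
      rw [← hswap]
      apply setIntegral_congr_fun measurableSet_Ioi
      intro x hx
      exact hrec x (le_of_lt hx)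
    have e2 : ∫ v in Ioi (2 : ℝ), (v - 2) * Q v =
        (∫ v in Ioi (2 : ℝ), v * Q v) - 2 * ∫ v in Ioi (2 : ℝ), Q v := by
      rw [← integral_const_mul, ← integral_sub hvQ (hQi.const_mul 2)]
      apply setIntegral_congr_fun measurableSet_Ioi
      intro v _
      show (v - 2) * Q v = v * Q v - 2 * Q v
      ring
    have e3 : ∫ v in Ioi (2 : ℝ), v * Q v = (∫ v in Ioc (2 : ℝ) 3, v * Q v) +
        ∫ v in Ioi (3 : ℝ), v * Q v := by
      rw [← setIntegral_union (Ioc_disjoint_Ioi le_rfl) measurableSet_Ioi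
        (hvQ.mono_set Ioc_subset_Ioi_self)
        (hvQ.mono_set (Ioi_subset_Ioi (by norm_num))),
        Ioc_union_Ioi_eq_Ioi (by norm_num)]
    have e4 : ∫ v in Ioc (2 : ℝ) 3, v * Q v = 2 * ∫ v in Ioi (2 : ℝ), Q v := by linarith
    have e5 : ∫ v in Ioi (2 : ℝ), Q v = 3 * Q 3 := by
      have := hrec 3 le_rfl
      rw [show (3 : ℝ) - 1 = 2 by norm_num] at this
      exact this.symm
    have hvQ' : ∀ v ∈ Icc (2 : ℝ) 3, v * Q v = (A - B) - A * log (v - 1) := by
      intro v hv
      have h1 := hP v ⟨by linarith [hv.1], hv.2⟩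
      have h2 := hM v ⟨hv.1, by linarith [hv.2]⟩
      show v * (fp v + fm v) = _
      linarith
    have e6 : 3 * Q 3 = (A - B) - A * log 2 := by
      have := hvQ' 3 ⟨by norm_num, le_rfl⟩
      rw [show (3 : ℝ) - 1 = 2 by norm_num] at this
      exact this
    have e7 : ∫ v in Ioc (2 : ℝ) 3, v * Q v = (A - B) - A * (2 * log 2 - 1) := by
      have h1 : ∫ v in Ioc (2 : ℝ) 3, v * Q v = ∫ v in Ioc (2 : ℝ) 3, ((A - B) - A * log (v - 1)) := by
        apply setIntegral_congr_fun measurableSet_Ioc
        intro v hv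
        exact hvQ' v ⟨hv.1.le, hv.2⟩
      rw [h1, ← intervalIntegral.integral_of_le (by norm_num)]
      have hlog : ∫ v in (2 : ℝ)..3, log (v - 1) = 2 * log 2 - 1 := by
        rw [intervalIntegral.integral_comp_sub_right (fun v => log v) 1]
        rw [show (2 : ℝ) - 1 = 1 by norm_num, show (3 : ℝ) - 1 = 2 by norm_num, integral_log]
        rw [log_one]; ring
      have hii : IntervalIntegrable (fun v : ℝ => log (v - 1)) volume 2 3 := by
        apply ContinuousOn.intervalIntegrable
        rw [uIcc_of_le (by norm_num)]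
        intro x hx
        exact (ContinuousAt.log (continuousAt_id.sub continuousAt_const) (by
          show x - 1 ≠ 0
          linarith [hx.1])).continuousWithinAt
      rw [intervalIntegral.integral_sub intervalIntegrable_const (hii.const_mul A),
        intervalIntegral.integral_const, intervalIntegral.integral_const_mul, hlog]
      simp
      ring
    rw [e5, e6] at e4
    rw [e4] at e7
    linarith
  refine ⟨A, by linarith, hP, ?_⟩
  intro s hs
  rw [hM s hs, hB0, zero_add]

end Pool.Agent.RG
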