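import Pool.Agent.RG.PhiB

/-!
# RG / Phi: existence of the functions of the linear sieve (Knaster-Tarski)

On the complete lattice of pairs `(P, M)` of functions `ℝ → ℝ≥0∞` consider the monotone map
`Φ(P, M) = (s ↦ ((∫⁻ x in Ioi (max s 3 - 1), M x) + ofReal (3 - min s 3)) / ofReal s,
           s ↦ (∫⁻ x in Ioi (s - 1), P x) / ofReal s)` restricted to `s ≥ 1` resp. `s ≥ 2` (put `0`
elsewhere; no measurability needed for monotonicity: `lintegral_mono`).  Let `(P, M) = OrderHom.lfp Φ`.
`Φ (C bp, C bm) ≤ (C bp, C bm)` for large `C` by `K_bp`, `K_bm` (`(10/11) C + (3 - min s 3)/(s bp s) ≤ C`,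
where `3 - min s 3 = 0` for `s ≥ 3` and `s * bp s = (11/10) e^(-2)` for `s ≤ 3`), so
`P ≤ C bp`, `M ≤ C bm` by `OrderHom.lfp_le`; in particular they are finite.  The fixed point equations
show that `s P(s)` and `s M(s)` are integrals over decreasing sets plus a decreasing term, hence
antitone; so `P`, `M` are antitone (on `s ≥ 1`, `s ≥ 2`), measurable, and `fp = P.toReal`,
`fm = M.toReal` have all properties.
-/

set_option autoImplicit false

namespace Pool.Agent.RG

open Real MeasureTheory Set

/-- the monotone map whose least fixed point is the pair of functions. -/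
private noncomputable def phiMap : ((ℝ → ENNReal) × (ℝ → ENNReal)) →o ((ℝ → ENNReal) × (ℝ → ENNReal)) where
  toFun q := (fun s => if 1 ≤ s then
      ((∫⁻ x in Ioi (max s 3 - 1), q.2 x) + ENNReal.ofReal (3 - min s 3)) / ENNReal.ofReal s else 0,
    fun s => if 2 ≤ s then (∫⁻ x in Ioi (s - 1), q.1 x) / ENNReal.ofReal s else 0)
  monotone' := by
    intro a b hab
    refine Prod.mk_le_mk.2 ⟨?_, ?_⟩
    · intro s
      show (if 1 ≤ s then _ else _) ≤ (if 1 ≤ s then _ else _)
      by_cases h : 1 ≤ s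
      · rw [if_pos h, if_pos h]
        exact ENNReal.div_le_div_right (add_le_add_left (lintegral_mono fun x => hab.2 x) _) _
      · rw [if_neg h, if_neg h]
    · intro s
      show (if 2 ≤ s then _ else _) ≤ (if 2 ≤ s then _ else _)
      by_cases h : 2 ≤ s
      · rw [if_pos h, if_pos h]
        exact ENNReal.div_le_div_right (lintegral_mono fun x => hab.1 x) _
      · rw [if_neg h, if_neg h]

private lemma phi_bm (C a : ℝ) (hC : 0 < C) :
    ∫⁻ x in Ioi a, ENNReal.ofReal (C * bm x) = ENNReal.ofReal (C * ∫ x in Ioi a, bm x) := by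
  rw [← integral_const_mul, ofReal_integral_eq_lintegral_ofReal]
  · exact (bm_int a).const_mul C
  · exact Filter.Eventually.of_forall fun x => (mul_pos hC (bm_pos x)).le

private lemma phi_bp (C a : ℝ) (hC : 0 < C) (ha : 1 ≤ a) :
    ∫⁻ x in Ioi a, ENNReal.ofReal (C * bp x) = ENNReal.ofReal (C * ∫ x in Ioi a, bp x) := by
  rw [← integral_const_mul, ofReal_integral_eq_lintegral_ofReal]
  · exact (bp_int.mono_set (Ioi_subset_Ioi ha)).const_mul C
  · refine ae_restrict_of_forall_mem measurableSet_Ioi ?_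
    intro x hx
    exact (mul_pos hC (bp_pos x (by linarith [mem_Ioi.1 hx]))).le

private lemma phi_pre : phiMap (fun s => ENNReal.ofReal (20 * exp 2 * bp s),
      fun s => ENNReal.ofReal (20 * exp 2 * bm s)) ≤
    (fun s => ENNReal.ofReal (20 * exp 2 * bp s), fun s => ENNReal.ofReal (20 * exp 2 * bm s)) := by
  have hC : (0 : ℝ) < 20 * exp 2 := by positivity
  refine Prod.mk_le_mk.2 ⟨?_, ?_⟩
  · intro s
    show (if 1 ≤ s then _ else _) ≤ _
    by_cases h : 1 ≤ s
    · rw [if_pos h]
      show ((∫⁻ x in Ioi (max s 3 - 1), ENNReal.ofReal (20 * exp 2 * bm x)) +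
        ENNReal.ofReal (3 - min s 3)) / ENNReal.ofReal s ≤ _
      have hs0 : 0 < s := by linarith
      have h0 : 0 ≤ ∫ x in Ioi (max s 3 - 1), bm x := setIntegral_nonneg measurableSet_Ioi
        fun x _ => (bm_pos x).le
      have h3 : (0 : ℝ) ≤ 3 - min s 3 := by linarith [min_le_right s 3]
      rw [phi_bm _ _ hC, ← ENNReal.ofReal_add (by positivity) h3,
        ← ENNReal.ofReal_div_of_pos hs0]
      apply ENNReal.ofReal_le_ofReal
      rw [div_le_iff₀ hs0]
      have h4 := K_bm s h
      have h5 : 20 * exp 2 * ∫ x in Ioi (max s 3 - 1), bm x ≤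
        20 * exp 2 * (10 / 11 * (s * bp s)) := mul_le_mul_of_nonneg_left h4 hC.le
      have h6 : 3 - min s 3 ≤ 20 * exp 2 * (1 / 11 * (s * bp s)) := by
        have hb : 0 < bp s := bp_pos s hs0
        rcases le_or_gt s 3 with h7 | h7
        · have h8 : s * bp s = 11 / 10 * exp (-2) := by
            unfold bp
            rw [min_eq_left h7, max_eq_right h7]
            have e1 : (1 : ℝ) - 3 = -2 := by norm_num
            rw [e1]
            field_simp
          have h9 : exp 2 * exp (-2) = 1 := by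
            rw [← exp_add]; norm_num
          have h10 : 20 * exp 2 * (1 / 11 * (s * bp s)) = 2 * (exp 2 * exp (-2)) := by
            rw [h8]; ring
          rw [h10, h9, min_eq_left h7]
          linarith
        · rw [min_eq_right h7.le]
          have : 0 < 20 * exp 2 * (1 / 11 * (s * bp s)) := by positivity
          linarith
      nlinarith [h5, h6]
    · rw [if_neg h]
      exact bot_le
  · intro s
    show (if 2 ≤ s then _ else _) ≤ _
    by_cases h : 2 ≤ s
    · rw [if_pos h]
      show (∫⁻ x in Ioi (s - 1), ENNReal.ofReal (20 * exp 2 * bp x)) / ENNReal.ofReal s ≤ _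
      have hs0 : 0 < s := by linarith
      rw [phi_bp _ _ hC (by linarith), ← ENNReal.ofReal_div_of_pos hs0]
      apply ENNReal.ofReal_le_ofReal
      rw [div_le_iff₀ hs0]
      have h4 := K_bp s h
      have h5 : 20 * exp 2 * ∫ x in Ioi (s - 1), bp x ≤
        20 * exp 2 * (10 / 11 * (s * bm s)) := mul_le_mul_of_nonneg_left h4 hC.le
      have h6 : 0 < 20 * exp 2 * (s * bm s) := by
        have := bm_pos s
        positivity
      nlinarith [h5, h6]
    · rw [if_neg h]
      exact bot_le

theorem exists_phi : ∃ (fp fm : ℝ → ℝ) (C : ℝ), PhiProps fp fm C := by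
  have hC : (0 : ℝ) < 20 * exp 2 := by positivity
  obtain ⟨P, M, hPM⟩ : ∃ P M : ℝ → ENNReal, OrderHom.lfp phiMap = (P, M) := ⟨_, _, rfl⟩
  have hle : (P, M) ≤ (fun s => ENNReal.ofReal (20 * exp 2 * bp s),
      fun s => ENNReal.ofReal (20 * exp 2 * bm s)) := by
    rw [← hPM]
    exact OrderHom.lfp_le _ phi_pre
  have hfix : phiMap (P, M) = (P, M) := by
    rw [← hPM]
    exact OrderHom.map_lfp _
  have hP : ∀ s, P s ≤ ENNReal.ofReal (20 * exp 2 * bp s) := fun s => (Prod.mk_le_mk.1 hle).1 s
  have hM : ∀ s, M s ≤ ENNReal.ofReal (20 * exp 2 * bm s) := fun s => (Prod.mk_le_mk.1 hle).2 s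
  have hPt : ∀ s, P s ≠ ⊤ := fun s => ne_top_of_le_ne_top ENNReal.ofReal_ne_top (hP s)
  have hMt : ∀ s, M s ≠ ⊤ := fun s => ne_top_of_le_ne_top ENNReal.ofReal_ne_top (hM s)
  have eP : ∀ s, 1 ≤ s → P s = ((∫⁻ x in Ioi (max s 3 - 1), M x) +
      ENNReal.ofReal (3 - min s 3)) / ENNReal.ofReal s := by
    intro s hs
    have h1 := congrFun (congrArg Prod.fst hfix) s
    have h2 : (if 1 ≤ s then ((∫⁻ x in Ioi (max s 3 - 1), M x) +
      ENNReal.ofReal (3 - min s 3)) / ENNReal.ofReal s else 0) = P s := h1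
    rw [if_pos hs] at h2
    exact h2.symm
  have eM : ∀ s, 2 ≤ s → M s = (∫⁻ x in Ioi (s - 1), P x) / ENNReal.ofReal s := by
    intro s hs
    have h1 := congrFun (congrArg Prod.snd hfix) s
    have h2 : (if 2 ≤ s then (∫⁻ x in Ioi (s - 1), P x) / ENNReal.ofReal s else 0) = M s := h1
    rw [if_pos hs] at h2
    exact h2.symm
  have aP : AntitoneOn P (Ici 1) := by
    intro s hs t ht hst
    rw [eP s hs, eP t ht]
    refine ENNReal.div_le_div (add_le_add ?_ ?_) (ENNReal.ofReal_le_ofReal hst)
    · apply lintegral_mono_set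
      apply Ioi_subset_Ioi
      linarith [max_le_max_right 3 hst]
    · apply ENNReal.ofReal_le_ofReal
      linarith [min_le_min_right 3 hst]
  have aM : AntitoneOn M (Ici 2) := by
    intro s hs t ht hst
    rw [eM s hs, eM t ht]
    refine ENNReal.div_le_div ?_ (ENNReal.ofReal_le_ofReal hst)
    apply lintegral_mono_set
    apply Ioi_subset_Ioi
    linarith
  have mP : ∀ a, 1 ≤ a → AEMeasurable P (volume.restrict (Ioi a)) := by
    intro a ha
    exact aemeasurable_restrict_of_antitoneOn measurableSet_Ioi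
      (aP.mono fun x hx => le_of_lt (lt_of_le_of_lt ha hx))
  have mM : ∀ a, 2 ≤ a → AEMeasurable M (volume.restrict (Ioi a)) := by
    intro a ha
    exact aemeasurable_restrict_of_antitoneOn measurableSet_Ioi
      (aM.mono fun x hx => le_of_lt (lt_of_le_of_lt ha hx))
  have tP : ∀ a, 1 ≤ a → ∫ x in Ioi a, (P x).toReal = (∫⁻ x in Ioi a, P x).toReal := by
    intro a ha
    exact integral_toReal (mP a ha) (Filter.Eventually.of_forall fun x => (hPt x).lt_top)
  have tM : ∀ a, 2 ≤ a → ∫ x in Ioi a, (M x).toReal = (∫⁻ x in Ioi a, M x).toReal := by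
    intro a ha
    exact integral_toReal (mM a ha) (Filter.Eventually.of_forall fun x => (hMt x).lt_top)
  have bP : ∀ s, 1 ≤ s → (P s).toReal ≤ 20 * exp 2 * bp s := by
    intro s hs
    have hb := bp_pos s (by linarith)
    exact ENNReal.toReal_le_of_le_ofReal (by positivity) (hP s)
  have bM : ∀ s, (M s).toReal ≤ 20 * exp 2 * bm s := by
    intro s
    have hb := bm_pos s
    exact ENNReal.toReal_le_of_le_ofReal (by positivity) (hM s)
  have lM : ∀ a, 2 ≤ a → ∫⁻ x in Ioi a, M x ≠ ⊤ := by
    intro a ha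
    have h1 : ∫⁻ x in Ioi a, M x ≤ ∫⁻ x in Ioi a, ENNReal.ofReal (20 * exp 2 * bm x) :=
      lintegral_mono fun x => hM x
    rw [phi_bm _ _ hC] at h1
    exact ne_top_of_le_ne_top ENNReal.ofReal_ne_top h1
  refine ⟨fun s => (P s).toReal, fun s => (M s).toReal, 20 * exp 2, ?_⟩
  refine ⟨hC, fun s _ => ENNReal.toReal_nonneg, fun s _ => ENNReal.toReal_nonneg, bP,
    fun s _ => bM s, ?_, ?_, ?_, ?_, ?_, ?_⟩
  · intro s hs t ht hst
    exact ENNReal.toReal_mono (hPt s) (aP hs ht hst)
  · intro s hs t ht hst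
    exact ENNReal.toReal_mono (hMt s) (aM hs ht hst)
  · refine Integrable.mono' (bp_int.const_mul (20 * exp 2)) ?_ ?_
    · exact (mP 1 le_rfl).ennreal_toReal.aestronglyMeasurable
    · refine ae_restrict_of_forall_mem measurableSet_Ioi ?_
      intro x hx
      rw [Real.norm_of_nonneg ENNReal.toReal_nonneg]
      exact bP x (le_of_lt hx)
  · refine Integrable.mono' ((bm_int 2).const_mul (20 * exp 2)) ?_ ?_
    · exact (mM 2 le_rfl).ennreal_toReal.aestronglyMeasurable
    · refine Filter.Eventually.of_forall ?_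
      intro x
      rw [Real.norm_of_nonneg ENNReal.toReal_nonneg]
      exact bM x
  · intro s hs
    show s * (M s).toReal = ∫ x in Ioi (s - 1), (P x).toReal
    rw [tP (s - 1) (by linarith), eM s hs, ENNReal.toReal_div,
      ENNReal.toReal_ofReal (by linarith)]
    have : s ≠ 0 := by linarith
    field_simp
  · intro s hs
    show s * (P s).toReal = (∫ x in Ioi (max s 3 - 1), (M x).toReal) + (3 - min s 3)
    have h3 : (0 : ℝ) ≤ 3 - min s 3 := by linarith [min_le_right s 3]
    have h4 : 2 ≤ max s 3 - 1 := by linarith [le_max_right s 3]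
    rw [tM _ h4, eP s hs, ENNReal.toReal_div, ENNReal.toReal_ofReal (by linarith),
      ENNReal.toReal_add (lM _ h4) ENNReal.ofReal_ne_top, ENNReal.toReal_ofReal h3]
    have : s ≠ 0 := by linarith
    field_simp

end Pool.Agent.RG
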