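import Pool.Agent.RG.Defs

/-!
# RG / Avg: averages over residues (CRT)

`crt_split`: the bijection `a ↦ (a mod Q1, a mod Q2)`.
`crt_avg`: induction from large to small primes (`prm_induction`): for a new prime `p` and the product
`Q'` of the larger primes, `PP = p Q'`, the survivors of `i` are those `t` with `t ≢ -i mod p` and
`∀ p' , ¬ p' ∣ (i mod Q') + t`; as `i mod p` runs over all residues so does `c = -i mod p`.
-/

set_option autoImplicit false

namespace Pool.Agent.RG

open Finset

theorem crt_split (Q1 Q2 : ℕ) (h : Nat.Coprime Q1 Q2) (h1 : 0 < Q1) (h2 : 0 < Q2)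
    (g : ℕ → ℕ → ℝ) :
    ∑ a ∈ range (Q1 * Q2), g (a % Q1) (a % Q2) = ∑ i ∈ range Q1, ∑ j ∈ range Q2, g i j := by
  rw [← Finset.sum_product']
  refine Finset.sum_nbij (fun a => (a % Q1, a % Q2)) ?_ ?_ ?_ ?_
  · intro a _
    rw [mem_product, mem_range, mem_range]
    exact ⟨Nat.mod_lt _ h1, Nat.mod_lt _ h2⟩
  · intro a ha b hb hab
    have ha' : a < Q1 * Q2 := by simpa using ha
    have hb' : b < Q1 * Q2 := by simpa using hb
    have e1 : a ≡ b [MOD Q1] := (Prod.ext_iff.1 hab).1
    have e2 : a ≡ b [MOD Q2] := (Prod.ext_iff.1 hab).2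
    have e3 : a ≡ b [MOD Q1 * Q2] := (Nat.modEq_and_modEq_iff_modEq_mul h).1 ⟨e1, e2⟩
    exact Nat.ModEq.eq_of_lt_of_lt e3 ha' hb'
  · rintro ⟨i, j⟩ hij
    have hi : i < Q1 := by
      have := (mem_product.1 (Finset.mem_coe.1 hij)).1; simpa using this
    have hj : j < Q2 := by
      have := (mem_product.1 (Finset.mem_coe.1 hij)).2; simpa using this
    refine ⟨(Nat.chineseRemainder h i j : ℕ), ?_, ?_⟩
    · rw [Finset.mem_coe, mem_range]
      exact Nat.chineseRemainder_lt_mul h i j h1.ne' h2.ne'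
    · have hc := (Nat.chineseRemainder h i j).2
      have h3 : (Nat.chineseRemainder h i j : ℕ) % Q1 = i % Q1 := hc.1
      have h4 : (Nat.chineseRemainder h i j : ℕ) % Q2 = j % Q2 := hc.2
      rw [Nat.mod_eq_of_lt hi] at h3
      rw [Nat.mod_eq_of_lt hj] at h4
      exact Prod.ext h3 h4
  · intro a _
    rfl

private lemma dvd_mod_add (q Q i t : ℕ) (h : q ∣ Q) : q ∣ i % Q + t ↔ q ∣ i + t := by
  have h1 : i % Q + t + Q * (i / Q) = i + t := by
    have := Nat.mod_add_div i Q
    omega
  rw [← h1]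
  exact (Nat.dvd_add_iff_left (h.mul_right _))

private lemma prm_dvd_PP {a b q : ℕ} (h : q ∈ prm a b) : q ∣ PP a b :=
  Finset.dvd_prod_of_mem _ h

private lemma PP_pos (a b : ℕ) : 0 < PP a b :=
  Finset.prod_pos fun p hp => (mem_prm.1 hp).2.pos

private lemma neg_mod_iff (p r t : ℕ) (hr : r < p) : p ∣ r + t ↔ t % p = (p - r) % p := by
  have hp : 0 < p := by omega
  constructor
  · intro h
    have h1 : t % p < p := Nat.mod_lt _ hp
    have h2 : p ∣ r + t % p := by
      rw [Nat.dvd_iff_mod_eq_zero, Nat.add_mod_mod, ← Nat.dvd_iff_mod_eq_zero]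
      exact h
    obtain ⟨k, hk⟩ := h2
    rcases Nat.eq_zero_or_pos r with hr0 | hr0
    · subst hr0
      rw [Nat.sub_zero, Nat.mod_self]
      have : k < 1 := by
        by_contra hk1
        have : p * 1 ≤ p * k := Nat.mul_le_mul_left p (by omega)
        omega
      interval_cases k
      omega
    · rw [Nat.mod_eq_of_lt (by omega : p - r < p)]
      have hk2 : k = 1 := by
        have h3 : k < 2 := by
          by_contra hk1
          have : p * 2 ≤ p * k := Nat.mul_le_mul_left p (by omega)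
          omega
        have h4 : k ≠ 0 := by
          rintro rfl
          omega
        omega
      subst hk2
      omega
  · intro h
    rw [Nat.dvd_iff_mod_eq_zero, ← Nat.add_mod_mod, h, Nat.add_mod_mod,
      Nat.add_sub_cancel' hr.le, Nat.mod_self]

private lemma sum_neg (p : ℕ) (hp : 0 < p) (F : ℕ → ℝ) :
    ∑ r ∈ range p, F ((p - r) % p) = ∑ c ∈ range p, F c := by
  have key : ∀ r, r < p → (p - (p - r) % p) % p = r := by
    intro r hr
    rcases Nat.eq_zero_or_pos r with h0 | h0
    · subst h0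
      simp
    · rw [Nat.mod_eq_of_lt (by omega : p - r < p), Nat.sub_sub_self hr.le, Nat.mod_eq_of_lt hr]
  refine Finset.sum_nbij' (fun r => (p - r) % p) (fun r => (p - r) % p) ?_ ?_ ?_ ?_ ?_
  · intro r _; exact mem_range.2 (Nat.mod_lt _ hp)
  · intro r _; exact mem_range.2 (Nat.mod_lt _ hp)
  · intro r hr; exact key r (mem_range.1 hr)
  · intro r hr; exact key r (mem_range.1 hr)
  · intro r _; rfl

theorem crt_avg (x : ℝ) (a b : ℕ) (hab : a ≤ b) (T : Finset ℕ) :
    (1 / (PP a b : ℝ)) * ∑ i ∈ range (PP a b),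
      x ^ (T.filter (fun t => ∀ p ∈ prm a b, ¬ p ∣ i + t)).card = U x (plist a b) T := by
  revert T
  refine prm_induction (b := b) (P := fun a => ∀ T : Finset ℕ,
    (1 / (PP a b : ℝ)) * ∑ i ∈ range (PP a b),
      x ^ (T.filter (fun t => ∀ p ∈ prm a b, ¬ p ∣ i + t)).card = U x (plist a b) T) a hab ?_ ?_ ?_
  · intro T
    have h1 : PP b b = 1 := by unfold PP; rw [prm_self]; simp
    rw [h1, plist_self]
    have h2 : ∀ i, T.filter (fun t => ∀ p ∈ prm b b, ¬ p ∣ i + t) = T := by
      intro i
      refine filter_true_of_mem ?_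
      intro t _ p hp
      rw [prm_self] at hp
      simp at hp
    simp only [h2]
    simp [U]
  · intro a hab hp ih T
    have hP : PP a b = (a + 1) * PP (a + 1) b := by
      unfold PP
      rw [prm_rec a b hab, if_pos hp, prod_insert (by rw [mem_prm]; omega)]
    have hcop : Nat.Coprime (a + 1) (PP (a + 1) b) := by
      unfold PP
      refine Nat.Coprime.prod_right ?_
      intro q hq
      rw [mem_prm] at hq
      exact (Nat.coprime_primes hp hq.2).2 (by omega)
    have hpos : 0 < PP (a + 1) b := PP_pos _ _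
    have hpr : prm a b = insert (a + 1) (prm (a + 1) b) := by rw [prm_rec a b hab, if_pos hp]
    rw [plist_rec a b hab, if_pos hp]
    show _ = (1 / ((a + 1 : ℕ) : ℝ)) * ∑ c ∈ range (a + 1),
      U x (plist (a + 1) b) (T.filter (fun t => t % (a + 1) ≠ c))
    have e1 : ∑ i ∈ range (PP a b), x ^ (T.filter (fun t => ∀ p ∈ prm a b, ¬ p ∣ i + t)).card =
        ∑ r ∈ range (a + 1), ∑ j ∈ range (PP (a + 1) b),
          x ^ (T.filter (fun t => ¬ (a + 1) ∣ r + t ∧
            ∀ p ∈ prm (a + 1) b, ¬ p ∣ j + t)).card := by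
      rw [hP, ← crt_split (a + 1) (PP (a + 1) b) hcop hp.pos hpos (fun r j =>
        x ^ (T.filter (fun t => ¬ (a + 1) ∣ r + t ∧
            ∀ p ∈ prm (a + 1) b, ¬ p ∣ j + t)).card)]
      refine sum_congr rfl ?_
      intro i _
      congr 2
      refine filter_congr ?_
      intro t _
      rw [dvd_mod_add (a + 1) (a + 1) i t dvd_rfl]
      constructor
      · intro h
        refine ⟨h (a + 1) (by rw [hpr]; exact mem_insert_self _ _), ?_⟩
        intro p hp'
        rw [dvd_mod_add p _ i t (prm_dvd_PP hp')]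
        exact h p (by rw [hpr]; exact mem_insert_of_mem hp')
      · rintro ⟨h1, h2⟩ p hp'
        rw [hpr, mem_insert] at hp'
        rcases hp' with hp' | hp'
        · rw [hp']; exact h1
        · rw [← dvd_mod_add p _ i t (prm_dvd_PP hp')]
          exact h2 p hp'
    rw [e1]
    have e2 : ∀ r ∈ range (a + 1), ∑ j ∈ range (PP (a + 1) b),
          x ^ (T.filter (fun t => ¬ (a + 1) ∣ r + t ∧
            ∀ p ∈ prm (a + 1) b, ¬ p ∣ j + t)).card =
        (PP (a + 1) b : ℝ) * U x (plist (a + 1) b)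
          (T.filter (fun t => t % (a + 1) ≠ (a + 1 - r) % (a + 1))) := by
      intro r hr
      rw [← ih]
      have hne : (PP (a + 1) b : ℝ) ≠ 0 := by exact_mod_cast hpos.ne'
      rw [← mul_assoc, mul_one_div_cancel hne, one_mul]
      refine sum_congr rfl ?_
      intro j _
      rw [filter_filter]
      congr 2
      refine filter_congr ?_
      intro t _
      rw [neg_mod_iff (a + 1) r t (mem_range.1 hr)]
    rw [sum_congr rfl e2, ← mul_sum,
      sum_neg (a + 1) hp.pos (fun c => U x (plist (a + 1) b) (T.filter (fun t => t % (a + 1) ≠ c))),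
      hP]
    have hne : (PP (a + 1) b : ℝ) ≠ 0 := by exact_mod_cast hpos.ne'
    have hne2 : ((a + 1 : ℕ) : ℝ) ≠ 0 := by exact_mod_cast hp.ne_zero
    rw [Nat.cast_mul]
    field_simp
  · intro a hab hp ih T
    have hpr : prm a b = prm (a + 1) b := by rw [prm_rec a b hab, if_neg hp]
    have hP : PP a b = PP (a + 1) b := by unfold PP; rw [hpr]
    rw [plist_rec a b hab, if_neg hp, ← ih T, hP, hpr]

end Pool.Agent.RG
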