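import Pool.Agent.RG.Defs

/-!
# RG / Bonf: Bonferroni inequalities for `U 0`

By induction on the list: `1 - ν_p(A)/p = (1/p) #{c < p : A ∩ (c mod p) = ∅}`, so that
`rho (p :: l) A = (1/p) ∑_c [A ⊆ T \ c] rho l A` for `A ⊆ T` and both sides satisfy the same
recursion; for the empty list the sum is `∑_{j ≤ k} (-1)^j C(|T|, j) = (-1)^k C(|T| - 1, k)` for
`T ≠ ∅` (`Int.alternating_sum_range_choose...`), and `1` for `T = ∅`.
-/

set_option autoImplicit false

namespace Pool.Agent.RG

open Finset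

lemma nu_le_card (p : ℕ) (A : Finset ℕ) : nu p A ≤ A.card := card_image_le

lemma nu_le (p : ℕ) (hp : 0 < p) (A : Finset ℕ) : nu p A ≤ p := by
  unfold nu
  calc _ ≤ (range p).card := card_le_card (by
        intro x hx
        rw [mem_image] at hx
        obtain ⟨t, _, rfl⟩ := hx
        exact mem_range.2 (Nat.mod_lt _ hp))
    _ = p := card_range p

lemma rho_nonneg (l : List ℕ) (hl : ∀ p ∈ l, 0 < p) (A : Finset ℕ) : 0 ≤ rho l A := by
  unfold rho
  refine List.prod_nonneg ?_
  intro x hx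
  rw [List.mem_map] at hx
  obtain ⟨p, hp, rfl⟩ := hx
  have h1 : (0 : ℝ) < p := by exact_mod_cast hl p hp
  have h2 : (nu p A : ℝ) ≤ p := by exact_mod_cast nu_le p (hl p hp) A
  rw [sub_nonneg, div_le_one h1]
  exact h2

/-- truncated alternating sums over subsets -/
lemma sum_trunc (T : Finset ℕ) (k : ℕ) :
    ∑ A ∈ T.powerset.filter (fun A => A.card ≤ k), (-1 : ℝ) ^ A.card =
      ∑ j ∈ range (k + 1), (-1 : ℝ) ^ j * (T.card.choose j : ℝ) := by
  rw [← sum_fiberwise_of_maps_to (s := T.powerset.filter (fun A => A.card ≤ k))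
    (t := range (k + 1)) (g := fun A => A.card)]
  · refine sum_congr rfl fun j hj => ?_
    rw [mem_range] at hj
    have h1 : (T.powerset.filter (fun A => A.card ≤ k)).filter (fun A => A.card = j) =
        T.powersetCard j := by
      rw [powersetCard_eq_filter, filter_filter]
      refine filter_congr fun A _ => ?_
      constructor
      · rintro ⟨_, h⟩; exact h
      · intro h; exact ⟨by omega, h⟩
    rw [h1, sum_congr rfl (g := fun _ => (-1 : ℝ) ^ j)
      (fun A hA => by rw [(mem_powersetCard.1 hA).2]), sum_const, card_powersetCard]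
    simp [mul_comm]
  · intro A hA
    rw [mem_filter] at hA
    rw [mem_range]; omega

lemma sum_trunc_eq (T : Finset ℕ) (k : ℕ) (hT : T.card ≠ 0) :
    ∑ A ∈ T.powerset.filter (fun A => A.card ≤ k), (-1 : ℝ) ^ A.card =
      (-1 : ℝ) ^ k * ((T.card - 1).choose k : ℝ) := by
  rw [sum_trunc]
  obtain ⟨n, hn⟩ : ∃ n, T.card = n + 1 := ⟨T.card - 1, by omega⟩
  rw [hn, Nat.add_sub_cancel]
  have := Int.alternating_sum_range_choose_eq_choose (n := n) (m := k)
  exact_mod_cast this

lemma sum_trunc_zero (T : Finset ℕ) (k : ℕ) (hT : T.card = 0) :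
    ∑ A ∈ T.powerset.filter (fun A => A.card ≤ k), (-1 : ℝ) ^ A.card = 1 := by
  rw [card_eq_zero] at hT
  subst hT
  have : (∅ : Finset ℕ).powerset.filter (fun A => A.card ≤ k) = {∅} := by
    ext A
    simp only [mem_filter, mem_powerset, subset_empty, mem_singleton]
    constructor
    · rintro ⟨h, _⟩; exact h
    · rintro rfl; exact ⟨rfl, by simp⟩
  rw [this]; simp

/-- the recursion of the truncated sums -/
lemma sum_rec (p : ℕ) (hp : 0 < p) (l : List ℕ) (T : Finset ℕ) (k : ℕ) :
    ∑ A ∈ T.powerset.filter (fun A => A.card ≤ k), (-1 : ℝ) ^ A.card * rho (p :: l) A =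
      (1 / (p : ℝ)) * ∑ c ∈ range p,
        ∑ A ∈ (T.filter (fun t => t % p ≠ c)).powerset.filter (fun A => A.card ≤ k),
          (-1 : ℝ) ^ A.card * rho l A := by
  have hp0 : (p : ℝ) ≠ 0 := by exact_mod_cast hp.ne'
  have h1 : ∀ c, ∑ A ∈ (T.filter (fun t => t % p ≠ c)).powerset.filter (fun A => A.card ≤ k),
      (-1 : ℝ) ^ A.card * rho l A = ∑ A ∈ T.powerset.filter (fun A => A.card ≤ k),
        (if ∀ t ∈ A, t % p ≠ c then (-1 : ℝ) ^ A.card * rho l A else 0) := by
    intro c
    rw [← sum_filter]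
    refine sum_congr ?_ fun _ _ => rfl
    ext A
    simp only [mem_filter, mem_powerset, subset_iff]
    constructor
    · rintro ⟨h2, h3⟩
      exact ⟨⟨fun t ht => (h2 ht).1, h3⟩, fun t ht => (h2 ht).2⟩
    · rintro ⟨⟨h2, h3⟩, h4⟩
      exact ⟨fun t ht => ⟨h2 ht, h4 t ht⟩, h3⟩
  rw [sum_congr rfl fun c _ => h1 c, sum_comm, mul_sum]
  refine sum_congr rfl fun A _ => ?_
  rw [← sum_filter, sum_const]
  have h2 : ((range p).filter (fun c => ∀ t ∈ A, t % p ≠ c)).card = p - nu p A := by
    have h3 : (range p).filter (fun c => ∀ t ∈ A, t % p ≠ c) =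
        range p \ A.image (fun t => t % p) := by
      ext c
      simp only [mem_filter, mem_range, mem_sdiff, mem_image, not_exists, not_and]
    rw [h3, card_sdiff_of_subset, card_range]
    · rfl
    · intro x hx
      rw [mem_image] at hx
      obtain ⟨t, _, rfl⟩ := hx
      exact mem_range.2 (Nat.mod_lt _ hp)
  rw [h2, nsmul_eq_mul, Nat.cast_sub (nu_le p hp A)]
  have h4 : rho (p :: l) A = (1 - (nu p A : ℝ) / p) * rho l A := by
    unfold rho; rw [List.map_cons, List.prod_cons]
  rw [h4]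
  field_simp

theorem bonf_even (l : List ℕ) (hl : ∀ p ∈ l, 0 < p) (T : Finset ℕ) (k : ℕ) (hk : Even k) :
    U 0 l T ≤ ∑ A ∈ T.powerset.filter (fun A => A.card ≤ k), (-1 : ℝ) ^ A.card * rho l A := by
  induction l generalizing T with
  | nil =>
    have h1 : ∀ A, rho [] A = 1 := fun A => by simp [rho]
    simp only [U, h1, mul_one]
    rcases eq_or_ne T.card 0 with h | h
    · rw [sum_trunc_zero T k h, h, pow_zero]
    · rw [sum_trunc_eq T k h, zero_pow h, hk.neg_one_pow, one_mul]
      positivity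
  | cons p l ih =>
    have hp : 0 < p := hl p (by simp)
    rw [sum_rec p hp, U]
    apply mul_le_mul_of_nonneg_left _ (by positivity)
    exact sum_le_sum fun c _ => ih (fun q hq => hl q (by simp [hq])) _

theorem bonf_odd (l : List ℕ) (hl : ∀ p ∈ l, 0 < p) (T : Finset ℕ) (k : ℕ) (hk : Odd k) :
    ∑ A ∈ T.powerset.filter (fun A => A.card ≤ k), (-1 : ℝ) ^ A.card * rho l A ≤ U 0 l T := by
  induction l generalizing T with
  | nil =>
    have h1 : ∀ A, rho [] A = 1 := fun A => by simp [rho]
    simp only [U, h1, mul_one]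
    rcases eq_or_ne T.card 0 with h | h
    · rw [sum_trunc_zero T k h, h, pow_zero]
    · rw [sum_trunc_eq T k h, zero_pow h, hk.neg_one_pow, neg_one_mul]
      simp
  | cons p l ih =>
    have hp : 0 < p := hl p (by simp)
    rw [sum_rec p hp, U]
    apply mul_le_mul_of_nonneg_left _ (by positivity)
    exact sum_le_sum fun c _ => ih (fun q hq => hl q (by simp [hq])) _

end Pool.Agent.RG
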