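import Pool.Agent.RG.Defs

/-!
# RG / Crt: counting in an interval with prescribed classes

For `p ∤ Q` the condition `∃ t ∈ A, p ∣ a + t + Q n` says that `n mod p` lies in a set of `nu p A`
classes (`n ≡ -(a + t) Q⁻¹`; `t ↦` class is injective on `t mod p`).  By CRT the condition for all
`p ∈ S` is a union of `∏ nu p A` classes mod `D = ∏ p`, each of which has `Y/D + θ`, `|θ| ≤ 1`, elements
in `[0, Y)`.
-/

set_option autoImplicit false

namespace Pool.Agent.RG

open Finset

/-- the classes mod `p` -/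
private lemma card_res (p : ℕ) (hp : p.Prime) (Q : ℕ) (hQ : ¬ p ∣ Q) (a : ℕ) (A : Finset ℕ) :
    ((range p).filter (fun c => ∃ t ∈ A, p ∣ a + t + Q * c)).card = nu p A := by
  have : Fact p.Prime := ⟨hp⟩
  have hQ0 : (Q : ZMod p) ≠ 0 := by
    intro h
    exact hQ ((ZMod.natCast_eq_zero_iff Q p).1 h)
  unfold nu
  refine card_bij (fun c _ => (-((a : ZMod p) + Q * c)).val) ?_ ?_ ?_
  · intro c hc
    obtain ⟨-, t, ht, hd⟩ := mem_filter.1 hc
    rw [mem_image]
    refine ⟨t, ht, ?_⟩
    have h1 : ((a + t + Q * c : ℕ) : ZMod p) = 0 := (ZMod.natCast_eq_zero_iff _ p).2 hd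
    have h2 : -((a : ZMod p) + Q * c) = ((t : ℕ) : ZMod p) := by
      push_cast at h1
      linear_combination -h1
    rw [h2, ZMod.val_natCast]
  · intro c hc c' hc' h
    have h1 := ZMod.val_injective p h
    have h2 : (Q : ZMod p) * c = Q * c' := by linear_combination -h1
    have h3 := mul_left_cancel₀ hQ0 h2
    have h4 : c % p = c' % p := by
      have := (ZMod.natCast_eq_natCast_iff c c' p).1 h3
      exact this
    rwa [Nat.mod_eq_of_lt (mem_range.1 (mem_filter.1 hc).1),
      Nat.mod_eq_of_lt (mem_range.1 (mem_filter.1 hc').1)] at h4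
  · intro u hu
    obtain ⟨t, ht, rfl⟩ := mem_image.1 hu
    set c : ZMod p := -((a : ZMod p) + t) / Q with hc
    have hcc : ((c.val : ℕ) : ZMod p) = c := ZMod.natCast_zmod_val c
    have hQc : (Q : ZMod p) * c = -((a : ZMod p) + t) := by
      rw [hc]; field_simp
    refine ⟨c.val, ?_, ?_⟩
    · rw [mem_filter, mem_range]
      refine ⟨ZMod.val_lt c, t, ht, ?_⟩
      rw [← ZMod.natCast_eq_zero_iff]
      push_cast
      rw [hcc, hQc]
      ring
    · beta_reduce
      rw [hcc, hQc]
      have : -((a : ZMod p) + -((a : ZMod p) + t)) = ((t : ℕ) : ZMod p) := by ring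
      rw [this, ZMod.val_natCast]

/-- counting in classes mod `p` -/
private lemma card_split (p : ℕ) (hp : 0 < p) (M : ℕ) (P : ℕ → Prop) [DecidablePred P] :
    ((range (p * M)).filter P).card =
      ∑ c ∈ range p, ((range M).filter (fun n => P (c + p * n))).card := by
  rw [card_eq_sum_card_fiberwise (f := fun n => n % p) (t := range p)
    (fun n _ => mem_coe.2 (mem_range.2 (Nat.mod_lt _ hp)))]
  refine sum_congr rfl fun c hc => ?_
  have hcp := mem_range.1 hc
  refine card_bij' (fun n _ => n / p) (fun n _ => c + p * n) ?_ ?_ ?_ ?_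
  · intro n hn
    obtain ⟨h1, h2⟩ := mem_filter.1 hn
    obtain ⟨h3, h4⟩ := mem_filter.1 h1
    have h5 : c + p * (n / p) = n := by
      beta_reduce at h2
      rw [← h2]; exact Nat.mod_add_div n p
    rw [mem_filter, mem_range]
    refine ⟨Nat.div_lt_of_lt_mul (mem_range.1 h3), ?_⟩
    rw [h5]; exact h4
  · intro n hn
    obtain ⟨h1, h2⟩ := mem_filter.1 hn
    have h3 := mem_range.1 h1
    rw [mem_filter, mem_filter, mem_range]
    refine ⟨⟨?_, h2⟩, ?_⟩
    · have : p * (n + 1) ≤ p * M := Nat.mul_le_mul_left p h3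
      rw [mul_add] at this
      omega
    · rw [Nat.add_mul_mod_self_left, Nat.mod_eq_of_lt hcp]
  · intro n hn
    obtain ⟨h1, h2⟩ := mem_filter.1 hn
    beta_reduce at h2
    rw [← h2]; exact Nat.mod_add_div n p
  · intro n hn
    beta_reduce
    rw [Nat.add_mul_div_left _ _ hp, Nat.div_eq_of_lt hcp, zero_add]

private lemma card_full (S : Finset ℕ) (hS : ∀ p ∈ S, p.Prime) (A : Finset ℕ) :
    ∀ (Q : ℕ) (_ : ∀ p ∈ S, ¬ p ∣ Q) (a k : ℕ),
      ((range ((∏ p ∈ S, p) * k)).filter (fun n => ∀ p ∈ S, ∃ t ∈ A, p ∣ a + t + Q * n)).card =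
        k * ∏ p ∈ S, nu p A := by
  induction S using Finset.induction_on with
  | empty =>
    intro Q _ a k
    simp
  | insert p S hpS ih =>
    intro Q hQ a k
    have hp := hS p (mem_insert_self p S)
    have ih' := ih fun q hq => hS q (mem_insert_of_mem hq)
    rw [prod_insert hpS, mul_assoc, card_split p hp.pos, prod_insert hpS]
    have h1 : ∀ c ∈ range p, ((range ((∏ q ∈ S, q) * k)).filter
        (fun n => ∀ q ∈ insert p S, ∃ t ∈ A, q ∣ a + t + Q * (c + p * n))).card =
        if (∃ t ∈ A, p ∣ a + t + Q * c) then k * ∏ q ∈ S, nu q A else 0 := by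
      intro c _
      split_ifs with h
      · rw [← ih' (Q * p) (fun q hq hd => by
          have hqp := hS q (mem_insert_of_mem hq)
          rcases hqp.dvd_mul.1 hd with h2 | h2
          · exact hQ q (mem_insert_of_mem hq) h2
          · rw [Nat.prime_dvd_prime_iff_eq hqp hp] at h2
            exact hpS (h2 ▸ hq)) (a + Q * c) k]
        congr 1
        refine filter_congr fun n _ => ?_
        rw [forall_mem_insert]
        constructor
        · rintro ⟨_, h3⟩ q hq
          obtain ⟨t, ht, hd⟩ := h3 q hq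
          refine ⟨t, ht, ?_⟩
          have : a + Q * c + t + Q * p * n = a + t + Q * (c + p * n) := by ring
          rwa [this]
        · intro h3
          refine ⟨?_, fun q hq => ?_⟩
          · obtain ⟨t, ht, hd⟩ := h
            refine ⟨t, ht, ?_⟩
            have : a + t + Q * (c + p * n) = (a + t + Q * c) + p * (Q * n) := by ring
            rw [this]
            exact dvd_add hd (dvd_mul_right _ _)
          · obtain ⟨t, ht, hd⟩ := h3 q hq
            refine ⟨t, ht, ?_⟩
            have : a + Q * c + t + Q * p * n = a + t + Q * (c + p * n) := by ring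
            rwa [this] at hd
      · rw [card_eq_zero, filter_eq_empty_iff]
        intro n _ h3
        apply h
        obtain ⟨t, ht, hd⟩ := h3 p (mem_insert_self p S)
        refine ⟨t, ht, ?_⟩
        have : a + t + Q * (c + p * n) = (a + t + Q * c) + p * (Q * n) := by ring
        rw [this] at hd
        exact (Nat.dvd_add_left (dvd_mul_right _ _)).1 hd
    rw [sum_congr rfl h1, ← sum_filter, sum_const, smul_eq_mul,
      card_res p hp Q (hQ p (mem_insert_self p S)) a A]
    ring

theorem count_classes (S : Finset ℕ) (hS : ∀ p ∈ S, p.Prime) (Q : ℕ) (hQ : ∀ p ∈ S, ¬ p ∣ Q)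
    (a : ℕ) (A : Finset ℕ) (Y : ℕ) :
    |(((range Y).filter (fun n => ∀ p ∈ S, ∃ t ∈ A, p ∣ a + t + Q * n)).card : ℝ) -
      Y * ∏ p ∈ S, ((nu p A : ℝ) / p)| ≤ ∏ p ∈ S, (nu p A : ℝ) := by
  set D := ∏ p ∈ S, p with hD
  have hDpos : 0 < D := prod_pos fun p hp => (hS p hp).pos
  set N := ∏ p ∈ S, nu p A with hN
  have hND : ∏ p ∈ S, ((nu p A : ℝ) / p) = (N : ℝ) / D := by
    rw [prod_div_distrib, hN, hD]; push_cast; rfl
  have hNr : ∏ p ∈ S, (nu p A : ℝ) = (N : ℝ) := by
    rw [hN]; push_cast; rfl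
  rw [hND, hNr]
  set k := Y / D with hk
  have h1 : D * k ≤ Y := Nat.mul_div_le Y D
  have h2 : Y < D * (k + 1) := Nat.lt_mul_div_succ Y hDpos
  have h3 := card_full S hS A Q hQ a k
  have h4 := card_full S hS A Q hQ a (k + 1)
  rw [← hD, ← hN] at h3 h4
  set g := ((range Y).filter (fun n => ∀ p ∈ S, ∃ t ∈ A, p ∣ a + t + Q * n)).card with hg
  have h5 : k * N ≤ g := by
    rw [← h3]
    exact card_le_card (filter_subset_filter _ (range_subset_range.2 h1))
  have h6 : g ≤ (k + 1) * N := by
    rw [← h4]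
    exact card_le_card (filter_subset_filter _ (range_subset_range.2 h2.le))
  have hDr : (0 : ℝ) < D := by exact_mod_cast hDpos
  have h1' : (D : ℝ) * k ≤ Y := by exact_mod_cast h1
  have h2' : (Y : ℝ) ≤ D * (k + 1) := by exact_mod_cast h2.le
  have h5' : (k : ℝ) * N ≤ g := by exact_mod_cast h5
  have h6' : (g : ℝ) ≤ (k + 1) * N := by exact_mod_cast h6
  have hN0 : (0 : ℝ) ≤ N := Nat.cast_nonneg N
  have h7 : (k : ℝ) * N ≤ Y * (N / D) := by
    rw [mul_div_assoc', le_div_iff₀ hDr]
    nlinarith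
  have h8 : (Y : ℝ) * (N / D) ≤ (k + 1) * N := by
    rw [mul_div_assoc', div_le_iff₀ hDr]
    nlinarith
  rw [abs_le]
  constructor <;> nlinarith

end Pool.Agent.RG
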