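import Mathlib

/-!
# RG / Defs: rough numbers in almost all windows, definitions
-/

set_option autoImplicit false

namespace Pool.Agent.RG

open Finset

/-- `n` has no prime factor `≤ z`. -/
def Rough (z : ℝ) (n : ℕ) : Prop := ∀ p : ℕ, p.Prime → (p : ℝ) ≤ z → ¬ p ∣ n

/-- `r < r'` are consecutive `z`-rough integers. -/
def Consec (z : ℝ) (r r' : ℕ) : Prop :=
  Rough z r ∧ Rough z r' ∧ r < r' ∧ ∀ m, r < m → m < r' → ¬ Rough z m

/-- The largest gap between consecutive `z`-rough integers of the window `[n, n + L]` exists and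
lies in `[g, G]`. -/
def GapIn (z L g G : ℝ) (n : ℕ) : Prop :=
  (∀ r r' : ℕ, (n : ℝ) ≤ r → (r' : ℝ) ≤ n + L → Consec z r r' → (r' : ℝ) - r ≤ G) ∧
  ∃ r r' : ℕ, (n : ℝ) ≤ r ∧ (r' : ℝ) ≤ n + L ∧ Consec z r r' ∧ g ≤ (r' : ℝ) - r

/-- The primes in `(a, b]`. -/
def prm (a b : ℕ) : Finset ℕ := (Ioc a b).filter Nat.Prime

lemma mem_prm {a b p : ℕ} : p ∈ prm a b ↔ (a < p ∧ p ≤ b) ∧ p.Prime := by
  simp [prm, mem_filter, mem_Ioc]

/-- The increasing list of the primes in `(a, b]`. -/
def plist (a b : ℕ) : List ℕ := (List.range' (a + 1) (b - a)).filter (fun p => decide p.Prime)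

lemma plist_self (a : ℕ) : plist a a = [] := by
  simp [plist]

/-- The head of the list is the smallest prime, the tail are the larger primes. -/
lemma plist_rec (a b : ℕ) (h : a < b) :
    plist a b = if (a + 1).Prime then (a + 1) :: plist (a + 1) b else plist (a + 1) b := by
  unfold plist
  obtain ⟨k, rfl⟩ : ∃ k, b = a + 1 + k := ⟨b - (a + 1), by omega⟩
  rw [show a + 1 + k - a = k + 1 by omega, show a + 1 + k - (a + 1) = k by omega,
    List.range'_succ, List.filter_cons]
  by_cases hp : (a + 1).Prime <;> simp [hp]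

lemma prm_self (a : ℕ) : prm a a = ∅ := by
  simp [prm]

lemma prm_rec (a b : ℕ) (h : a < b) :
    prm a b = if (a + 1).Prime then insert (a + 1) (prm (a + 1) b) else prm (a + 1) b := by
  ext p
  by_cases hp : (a + 1).Prime
  · rw [if_pos hp, mem_insert, mem_prm, mem_prm]
    constructor
    · rintro ⟨⟨h1, h2⟩, h3⟩
      rcases eq_or_ne p (a + 1) with h4 | h4
      · exact Or.inl h4
      · exact Or.inr ⟨⟨by omega, h2⟩, h3⟩
    · rintro (h4 | ⟨⟨h1, h2⟩, h3⟩)
      · subst h4; exact ⟨⟨by omega, by omega⟩, hp⟩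
      · exact ⟨⟨by omega, h2⟩, h3⟩
  · rw [if_neg hp, mem_prm, mem_prm]
    constructor
    · rintro ⟨⟨h1, h2⟩, h3⟩
      refine ⟨⟨?_, h2⟩, h3⟩
      rcases eq_or_ne p (a + 1) with h4 | h4
      · subst h4; exact absurd h3 hp
      · omega
    · rintro ⟨⟨h1, h2⟩, h3⟩
      exact ⟨⟨by omega, h2⟩, h3⟩

/-- Induction from large primes to small primes. -/
lemma prm_induction {b : ℕ} {P : ℕ → Prop} (a : ℕ) (hab : a ≤ b) (h0 : P b)
    (h1 : ∀ a, a < b → (a + 1).Prime → P (a + 1) → P a)
    (h2 : ∀ a, a < b → ¬ (a + 1).Prime → P (a + 1) → P a) : P a := by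
  obtain ⟨k, hk⟩ : ∃ k, k = b - a := ⟨_, rfl⟩
  induction k generalizing a with
  | zero => rwa [show a = b by omega]
  | succ k ih =>
    have h3 := ih (a + 1) (by omega) (by omega)
    by_cases hp : (a + 1).Prime
    · exact h1 a (by omega) hp h3
    · exact h2 a (by omega) hp h3

lemma prod_plist (f : ℕ → ℝ) (a b : ℕ) (h : a ≤ b) :
    ((plist a b).map f).prod = ∏ p ∈ prm a b, f p := by
  refine prm_induction (P := fun a => ((plist a b).map f).prod = ∏ p ∈ prm a b, f p) a h ?_ ?_ ?_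
  · rw [plist_self, prm_self]; simp
  · intro a hab hp ih
    rw [plist_rec a b hab, prm_rec a b hab, if_pos hp, if_pos hp, List.map_cons, List.prod_cons,
      prod_insert (by rw [mem_prm]; omega), ih]
  · intro a hab hp ih
    rw [plist_rec a b hab, prm_rec a b hab, if_neg hp, if_neg hp, ih]

/-- The product of the primes in `(a, b]`. -/
def PP (a b : ℕ) : ℕ := ∏ p ∈ prm a b, p

lemma PP_le (w : ℕ) : PP 0 w ≤ 4 ^ w := by
  refine le_trans (le_of_eq ?_) (primorial_le_four_pow w)
  unfold PP primorial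
  refine prod_congr ?_ fun _ _ => rfl
  ext p
  rw [mem_prm]
  simp only [mem_filter, mem_range]
  constructor
  · rintro ⟨⟨_, h2⟩, h3⟩; exact ⟨by omega, h3⟩
  · rintro ⟨h2, h3⟩; exact ⟨⟨h3.pos, by omega⟩, h3⟩

/-- `∏ (1 - 1/p)` over a list. -/
noncomputable def pr (l : List ℕ) : ℝ := (l.map (fun p : ℕ => 1 - 1 / (p : ℝ))).prod

/-- `1 - (1 - x) ∏ (1 - 1/p)`. -/
noncomputable def qq (x : ℝ) (l : List ℕ) : ℝ := 1 - (1 - x) * pr l

/-- The expectation of `x ^ (number of elements of T that survive)` if for every `p` in the list a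
uniformly random residue class mod `p` is removed (independently). For `x = 0` (`0 ^ 0 = 1`): the
probability that all elements of `T` are removed. -/
noncomputable def U (x : ℝ) : List ℕ → Finset ℕ → ℝ
  | [], T => x ^ T.card
  | p :: l, T => (1 / (p : ℝ)) * ∑ c ∈ range p, U x l (T.filter (fun t => t % p ≠ c))

/-- The size of the class `c` mod `p` in `T`. -/
def cl (p c : ℕ) (T : Finset ℕ) : ℕ := (T.filter (fun t => t % p = c)).card

/-- The sum of the squares of the sizes `≥ 2` of the classes mod `p` of `T`. -/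
noncomputable def S2 (p : ℕ) (T : Finset ℕ) : ℝ :=
  ∑ c ∈ range p, if 2 ≤ cl p c T then (cl p c T : ℝ) ^ 2 else 0

/-- The number of classes mod `p` met by `A`. -/
def nu (p : ℕ) (A : Finset ℕ) : ℕ := (A.image (fun t => t % p)).card

/-- The probability that all elements of `A` survive. -/
noncomputable def rho (l : List ℕ) (A : Finset ℕ) : ℝ :=
  (l.map (fun p : ℕ => 1 - (nu p A : ℝ) / p)).prod

/-- `∏_{p < n} (1 - 1/p)`. -/
noncomputable def V (n : ℕ) : ℝ := ∏ p ∈ (range n).filter Nat.Prime, (1 - 1 / (p : ℝ))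

end Pool.Agent.RG
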