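import Pool.Agent.RG.Defs

/-!
# RG / Par: parameters and elementary asymptotics

`ℓ` is `log X`.
-/

set_option autoImplicit false

namespace Pool.Agent.RG

open Finset Real Filter

/-- admissible exponents -/
structure Par (θ γ ε ω : ℝ) : Prop where
  hε : 0 < ε
  hγ : 4 * ε ≤ γ
  hγθ : γ ≤ θ
  hω : θ + γ + 4 * ε ≤ ω
  hω1 : ω < 1

/-- the primes up to `Wn` are treated exactly -/
noncomputable def Wn (ω ℓ : ℝ) : ℕ := ⌊ℓ ^ ω⌋₊

/-- the sifting limit `z` -/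
noncomputable def Zn (θ ℓ : ℝ) : ℕ := ⌊exp (ℓ ^ θ)⌋₊

/-- window length for the upper half -/
noncomputable def hU (θ γ ε ℓ : ℝ) : ℕ := ⌊ℓ ^ (θ + γ + ε)⌋₊

/-- number of survivors kept in the upper half -/
noncomputable def mU (θ γ ε ℓ : ℝ) : ℕ := ⌈ℓ ^ (θ + γ + ε / 2)⌉₊

/-- window length for the lower half -/
noncomputable def hL (θ γ ε ℓ : ℝ) : ℕ := ⌊ℓ ^ (θ + γ - ε)⌋₊ + 1

/-- number of windows for the lower half -/
noncomputable def RL (γ ε ℓ : ℝ) : ℕ := ⌊exp (ℓ ^ (γ - ε / 3))⌋₊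

/-- the windows of the lower half -/
noncomputable def win (θ γ ε ℓ : ℝ) (i : ℕ) : Finset ℕ :=
  Ico (RL γ ε ℓ + i * hL θ γ ε ℓ) (RL γ ε ℓ + (i + 1) * hL θ γ ε ℓ)

/-- the cost of a collision -/
noncomputable def zet (θ γ ε ω ℓ : ℝ) : ℝ := ℓ ^ (γ - θ - ω - ε / 2)

/-- second limit for the primes with collisions -/
noncomputable def Wp (ℓ : ℝ) : ℕ := ⌊ℓ ^ (10 : ℕ)⌋₊

/-- every interval of length `g` starting in `[n, n + L]` contains a `z`-rough integer -/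
def Dens (z L g : ℝ) (n : ℕ) : Prop :=
  ∀ s : ℕ, (s : ℝ) ≤ L → ∃ t : ℕ, s ≤ t ∧ (t : ℝ) < s + g ∧ Rough z (n + t)

/-- there is an interval of length `g` in `[n + A, n + B]` without `z`-rough integers -/
def Emp (z A B g : ℝ) (n : ℕ) : Prop :=
  ∃ s : ℕ, A ≤ s ∧ (s : ℝ) + g ≤ B ∧ ∀ t : ℕ, s ≤ t → (t : ℝ) ≤ s + g → ¬ Rough z (n + t)

/-- `C ℓ^a (log ℓ)^k ≤ ℓ^b` for `a < b` and large `ℓ`. -/
theorem asy (a b C : ℝ) (k : ℕ) (hab : a < b) :
    ∀ᶠ ℓ : ℝ in atTop, C * ℓ ^ a * (log ℓ) ^ k ≤ ℓ ^ b := by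
  have h1 : (fun x : ℝ => (log x) ^ k) =o[atTop] fun x : ℝ => x ^ ((b - a) / 2) := by
    simpa using isLittleO_log_rpow_rpow_atTop (k : ℝ) (by linarith : 0 < (b - a) / 2)
  have h2 := h1.bound (by norm_num : (0 : ℝ) < 1)
  have h3 : Tendsto (fun x : ℝ => x ^ ((b - a) / 2)) atTop atTop :=
    tendsto_rpow_atTop (by linarith)
  filter_upwards [h2, h3.eventually_ge_atTop |C|, eventually_gt_atTop 1] with x hx1 hx2 hx3
  have hx0 : 0 < x := by linarith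
  have hlog : 0 ≤ log x := log_nonneg hx3.le
  rw [norm_of_nonneg (by positivity), norm_of_nonneg (by positivity), one_mul] at hx1
  have e : x ^ b = x ^ ((b - a) / 2) * x ^ a * x ^ ((b - a) / 2) := by
    rw [← rpow_add hx0, ← rpow_add hx0]; congr 1; ring
  rw [e]
  have hC : C ≤ x ^ ((b - a) / 2) := le_trans (le_abs_self C) hx2
  have hxa : 0 < x ^ a := rpow_pos_of_pos hx0 _
  have hxb : 0 < x ^ ((b - a) / 2) := rpow_pos_of_pos hx0 _
  calc C * x ^ a * log x ^ k ≤ x ^ ((b - a) / 2) * x ^ a * log x ^ k := by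
        apply mul_le_mul_of_nonneg_right _ (by positivity)
        exact mul_le_mul_of_nonneg_right hC hxa.le
    _ ≤ _ := by
        apply mul_le_mul_of_nonneg_left hx1 (by positivity)

/-- `C ℓ^a ≤ ℓ^b` for `a < b` and large `ℓ`. -/
theorem asy0 (a b C : ℝ) (hab : a < b) : ∀ᶠ ℓ : ℝ in atTop, C * ℓ ^ a ≤ ℓ ^ b := by
  filter_upwards [asy a b C 0 hab] with x hx
  simpa using hx

/-- number of integers in `[1, X]` with `P`, by residues mod `Q` -/
theorem split_count (Q X : ℕ) (hQ : 0 < Q) (P : ℕ → Prop) [DecidablePred P] :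
    ((Icc 1 X).filter P).card ≤
      ∑ a ∈ range Q, ((range (X / Q + 1)).filter (fun n => P (a + Q * n))).card := by
  rw [← card_sigma]
  refine card_le_card_of_injOn (fun n => ⟨n % Q, n / Q⟩) ?_ ?_
  · intro n hn
    rw [mem_coe, mem_filter, mem_Icc] at hn
    rw [mem_coe, mem_sigma]
    refine ⟨mem_range.2 (Nat.mod_lt _ hQ), ?_⟩
    rw [mem_filter, mem_range, Nat.mod_add_div]
    exact ⟨Nat.lt_succ_of_le (Nat.div_le_div_right hn.1.2), hn.2⟩
  · intro a _ b _ hab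
    simp only [Sigma.mk.inj_iff, heq_eq_eq] at hab
    rw [← Nat.mod_add_div a Q, ← Nat.mod_add_div b Q, hab.1, hab.2]

end Pool.Agent.RG
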