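import Pool.Agent.RG.Kpt
import Pool.Agent.RG.Mer
import Pool.Agent.RG.Par

/-!
# RG / Eta: the error in the `K`-point correlations

`kpoint` with `s = prm W Z`, `Q = PP 0 W` (`p > W` does not divide it), `K = ⌊3 ℓ^(γ+ε)⌋`,
`r = 2 ⌈ℓ^(γ+2ε)⌉`; `∏ (1 - nu/p) = rho (plist W Z) A` (`prod_plist`).  First term:
`1 + K |s| ≤ exp (2 ℓ^θ)`, `(..)^(r+1) ≤ exp (2 ℓ^θ * 4 ℓ^(γ+2ε)) ≤ exp (ℓ/4)` because `θ + γ + 2ε < 1`;
`Y ≥ exp (ℓ/2)`.  Second term: `∑ 1/p ≤ C log ℓ` (`recip_bounds`), `x^n/n! ≤ (e x/n)^n ≤ e^(-n)` if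
`e^2 x ≤ n`, `n = r + 1`.
-/

set_option autoImplicit false

namespace Pool.Agent.RG

open Finset Real Filter

private lemma eta_poly_exp (θ C s : ℝ) (hθ : 0 < θ) :
    ∀ᶠ ℓ : ℝ in atTop, C * ℓ ^ s ≤ exp (ℓ ^ θ) := by
  have h1 : (fun x : ℝ => x ^ (s / θ)) =o[atTop] exp := isLittleO_rpow_exp_atTop (s / θ)
  have h2 : Tendsto (fun ℓ : ℝ => ℓ ^ θ) atTop atTop := tendsto_rpow_atTop hθ
  have h3 := (h1.comp_tendsto h2).bound (show (0 : ℝ) < 1 / (|C| + 1) by positivity)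
  filter_upwards [h3, eventually_gt_atTop 0] with ℓ hℓ h0
  simp only [Function.comp] at hℓ
  rw [← rpow_mul h0.le, mul_div_cancel₀ _ hθ.ne', norm_of_nonneg (by positivity),
    norm_of_nonneg (by positivity), one_div, ← div_eq_inv_mul, le_div_iff₀ (by positivity)] at hℓ
  have h4 : 0 < ℓ ^ s := rpow_pos_of_pos h0 _
  have h5 : C ≤ |C| + 1 := (le_abs_self C).trans (by linarith)
  nlinarith

private lemma eta_not_dvd {W Z p : ℕ} (hp : p ∈ prm W Z) : ¬ p ∣ PP 0 W := by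
  rw [mem_prm] at hp
  intro h
  unfold PP at h
  rw [hp.2.prime.dvd_finsetProd_iff] at h
  obtain ⟨q, hq, hpq⟩ := h
  rw [mem_prm] at hq
  have := (Nat.prime_dvd_prime_iff_eq hp.2 hq.2).1 hpq
  omega

private lemma eta_fact (x : ℝ) (n : ℕ) (hx : 0 ≤ x) (h : exp 2 * x ≤ n) :
    x ^ n / (n.factorial : ℝ) ≤ exp (-n) := by
  have h1 : (n : ℝ) ^ n / (n.factorial : ℝ) ≤ exp n := pow_div_factorial_le_exp _ (by positivity) n
  have h2 : (exp 2 * x) ^ n ≤ (n : ℝ) ^ n := pow_le_pow_left₀ (by positivity) h n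
  have h3 : (exp 2 * x) ^ n / (n.factorial : ℝ) ≤ exp n :=
    (div_le_div_of_nonneg_right h2 (by positivity)).trans h1
  have h4 : (exp 2 * x) ^ n / (n.factorial : ℝ) = exp (2 * n) * (x ^ n / n.factorial) := by
    rw [mul_pow, ← exp_nat_mul, mul_comm (n : ℝ) 2]
    ring
  rw [h4] at h3
  have h5 : exp (-(n : ℝ)) = exp n / exp (2 * n) := by
    rw [← exp_sub]
    congr 1
    ring
  rw [h5, le_div_iff₀ (exp_pos _)]
  linarith

theorem eta_bound (θ γ ε ω : ℝ) (hP : Par θ γ ε ω) : ∀ᶠ ℓ : ℝ in atTop,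
    ∀ (a Y : ℕ) (A : Finset ℕ), (A.card : ℝ) ≤ 3 * ℓ ^ (γ + ε) → exp (ℓ / 2) ≤ Y →
    |(((range Y).filter (fun n => ∀ p ∈ prm (Wn ω ℓ) (Zn θ ℓ), ∀ t ∈ A,
        ¬ p ∣ a + t + PP 0 (Wn ω ℓ) * n)).card : ℝ) / Y -
      rho (plist (Wn ω ℓ) (Zn θ ℓ)) A| ≤ exp (-ℓ ^ (γ + 3 * ε / 2)) := by
  obtain ⟨hε, hγ, hγθ, hω, hω1⟩ := hP
  have hγ0 : 0 < γ := by linarith
  have hθ0 : 0 < θ := by linarith
  have hω0 : 0 < ω := by linarith
  obtain ⟨C, hC, hrec⟩ := recip_bounds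
  obtain ⟨C1, hC1⟩ : ∃ C1 : ℝ, C1 = 1 + 2 * C := ⟨_, rfl⟩
  have hC10 : 0 < C1 := by rw [hC1]; positivity
  have E1 : ∀ᶠ ℓ : ℝ in atTop, 2 ≤ ℓ ^ ω := (tendsto_rpow_atTop hω0).eventually_ge_atTop 2
  have E2 := eta_poly_exp θ 1 ω hθ0
  have E3 := eta_poly_exp θ 4 (γ + ε) hθ0
  have E4 := asy0 (θ + γ + 2 * ε) 1 40 (by linarith)
  have E5 := asy0 (γ + 3 * ε / 2) 1 8 (by linarith)
  have E6 := asy (γ + ε) (γ + 2 * ε) (exp 2 * 3 * (θ + C1)) 1 (by linarith)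
  have E7 := asy0 (γ + 3 * ε / 2) (γ + 2 * ε) 2 (by linarith)
  filter_upwards [E1, E2, E3, E4, E5, E6, E7, eventually_ge_atTop (exp 1)] with
    ℓ h1 h2 h3 h4 h5 h6 h7 h8 a Y A hA hY
  have hl1 : 1 ≤ ℓ := le_trans (by have := Real.add_one_le_exp (1 : ℝ); linarith) h8
  have hl0 : 0 < ℓ := by linarith
  have hlog1 : 1 ≤ log ℓ := by rw [Real.le_log_iff_exp_le hl0]; exact h8
  obtain ⟨W, hW⟩ : ∃ W, W = Wn ω ℓ := ⟨_, rfl⟩
  obtain ⟨Z, hZ⟩ : ∃ Z, Z = Zn θ ℓ := ⟨_, rfl⟩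
  rw [← hW, ← hZ]
  have hW2 : 2 ≤ W := by rw [hW]; exact Nat.le_floor (by exact_mod_cast h1)
  have hWZ : W ≤ Z := by
    rw [hW, hZ]
    apply Nat.floor_mono
    linarith
  have hZe : (Z : ℝ) ≤ exp (ℓ ^ θ) := by rw [hZ]; exact Nat.floor_le (exp_pos _).le
  have hθ1 : 1 ≤ ℓ ^ θ := one_le_rpow hl1 hθ0.le
  obtain ⟨K, hK⟩ : ∃ K : ℕ, K = ⌊3 * ℓ ^ (γ + ε)⌋₊ := ⟨_, rfl⟩
  have hKle : (K : ℝ) ≤ 3 * ℓ ^ (γ + ε) := by rw [hK]; exact Nat.floor_le (by positivity)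
  have hAK : A.card ≤ K := by rw [hK]; exact Nat.le_floor hA
  obtain ⟨r, hr⟩ : ∃ r : ℕ, r = 2 * ⌈ℓ ^ (γ + 2 * ε)⌉₊ := ⟨_, rfl⟩
  have hr1 : 2 * ℓ ^ (γ + 2 * ε) ≤ r := by
    rw [hr]
    push_cast
    linarith [Nat.le_ceil (ℓ ^ (γ + 2 * ε))]
  have hr2 : (r : ℝ) ≤ 2 * ℓ ^ (γ + 2 * ε) + 2 := by
    rw [hr]
    push_cast
    linarith [Nat.ceil_lt_add_one (show 0 ≤ ℓ ^ (γ + 2 * ε) by positivity)]
  have hYpos : 0 < Y := by
    have : (0 : ℝ) < Y := lt_of_lt_of_le (exp_pos _) hY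
    exact_mod_cast this
  have hkp := kpoint (prm W Z) (fun p hp => (mem_prm.1 hp).2) (PP 0 W)
    (fun p hp => eta_not_dvd hp) a A K hAK Y hYpos r (by rw [hr]; exact even_two_mul _)
  have hrho : rho (plist W Z) A = ∏ p ∈ prm W Z, (1 - (nu p A : ℝ) / p) := by
    unfold rho
    exact prod_plist (fun p : ℕ => 1 - (nu p A : ℝ) / p) W Z hWZ
  rw [hrho]
  refine hkp.trans ?_
  -- first term
  have hcard : ((prm W Z).card : ℝ) ≤ exp (ℓ ^ θ) := by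
    refine le_trans ?_ hZe
    have : (prm W Z).card ≤ Z := by
      unfold prm
      refine (card_filter_le _ _).trans ?_
      rw [Nat.card_Ioc]
      omega
    exact_mod_cast this
  have hgε : 1 ≤ ℓ ^ (γ + ε) := one_le_rpow hl1 (by linarith)
  have hg2ε : 1 ≤ ℓ ^ (γ + 2 * ε) := one_le_rpow hl1 (by linarith)
  have hg3ε : 1 ≤ ℓ ^ (γ + 3 * ε / 2) := one_le_rpow hl1 (by linarith)
  have hbase : 1 + (K : ℝ) * (prm W Z).card ≤ exp (2 * ℓ ^ θ) := by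
    have e1 : exp (2 * ℓ ^ θ) = exp (ℓ ^ θ) * exp (ℓ ^ θ) := by
      rw [← exp_add]; congr 1; ring
    have e2 : (K : ℝ) * (prm W Z).card ≤ 3 * ℓ ^ (γ + ε) * exp (ℓ ^ θ) :=
      mul_le_mul hKle hcard (by positivity) (by positivity)
    have e3 : 1 ≤ exp (ℓ ^ θ) := Real.one_le_exp (by positivity)
    have e4 : 4 * ℓ ^ (γ + ε) * exp (ℓ ^ θ) ≤ exp (ℓ ^ θ) * exp (ℓ ^ θ) :=
      mul_le_mul_of_nonneg_right h3 (exp_pos _).le
    rw [e1]
    nlinarith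
  have hfirst : (1 + (K : ℝ) * (prm W Z).card) ^ (r + 1) / Y ≤ exp (-(ℓ / 4)) := by
    have e1 : (1 + (K : ℝ) * (prm W Z).card) ^ (r + 1) ≤ exp (ℓ / 4) := by
      refine (pow_le_pow_left₀ (by positivity) hbase _).trans ?_
      rw [← exp_nat_mul]
      apply exp_le_exp.2
      push_cast
      have e2 : ℓ ^ (θ + γ + 2 * ε) = ℓ ^ θ * ℓ ^ (γ + 2 * ε) := by
        rw [← rpow_add hl0]; congr 1; ring
      rw [rpow_one, e2] at h4
      have e3 : ((r : ℝ) + 1) * (2 * ℓ ^ θ) ≤ (5 * ℓ ^ (γ + 2 * ε)) * (2 * ℓ ^ θ) := by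
        apply mul_le_mul_of_nonneg_right _ (by positivity)
        linarith
      linarith
    rw [div_le_iff₀ (by exact_mod_cast hYpos)]
    refine e1.trans ?_
    have e4 : exp (ℓ / 4) = exp (-(ℓ / 4)) * exp (ℓ / 2) := by
      rw [← exp_add]; congr 1; ring
    rw [e4]
    exact mul_le_mul_of_nonneg_left hY (exp_pos _).le
  have hfirst2 : exp (-(ℓ / 4)) ≤ exp (-ℓ ^ (γ + 3 * ε / 2)) / 2 := by
    have e1 : exp (-(ℓ / 4)) ≤ exp (-ℓ ^ (γ + 3 * ε / 2) - log 2) := by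
      apply exp_le_exp.2
      rw [rpow_one] at h5
      have := Real.log_two_lt_d9
      linarith
    rw [exp_sub, exp_log (by norm_num)] at e1
    exact e1
  -- second term
  have hlogW : log 2 ≤ log W := Real.log_le_log (by norm_num) (by exact_mod_cast hW2)
  have hl2 := Real.log_two_gt_d9
  have hsum : ∑ p ∈ prm W Z, 1 / (p : ℝ) ≤ θ * log ℓ + C1 := by
    have e1 := (abs_le.1 (hrec W Z hW2 hWZ)).2
    have e2 : C / log W ≤ 2 * C := by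
      rw [div_le_iff₀ (by linarith)]
      nlinarith
    have e3 : log (log Z) ≤ θ * log ℓ := by
      have hZpos : (0 : ℝ) < Z := by
        have : 0 < Z := by omega
        exact_mod_cast this
      have e4 : log Z ≤ ℓ ^ θ := by
        rw [Real.log_le_iff_le_exp hZpos]; exact hZe
      have e5 : 0 < log Z := by
        apply Real.log_pos
        have : 1 < Z := by omega
        exact_mod_cast this
      refine (Real.log_le_log e5 e4).trans ?_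
      rw [Real.log_rpow hl0]
    have e6 : -1 ≤ log (log W) := by
      have e7 : 1 / 2 ≤ log W := by linarith
      have e8 : log (1 / 2) ≤ log (log W) := Real.log_le_log (by norm_num) e7
      have e9 : log (1 / 2) = - log 2 := by rw [one_div, Real.log_inv]
      have := Real.log_two_lt_d9
      rw [e9] at e8
      linarith
    linarith
  have hsum0 : 0 ≤ ∑ p ∈ prm W Z, 1 / (p : ℝ) := sum_nonneg fun p _ => by positivity
  have hx : exp 2 * ((K : ℝ) * ∑ p ∈ prm W Z, 1 / (p : ℝ)) ≤ ((r + 1 : ℕ) : ℝ) := by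
    have e1 : (K : ℝ) * ∑ p ∈ prm W Z, 1 / (p : ℝ) ≤ 3 * ℓ ^ (γ + ε) * ((θ + C1) * log ℓ) := by
      apply mul_le_mul hKle _ hsum0 (by positivity)
      refine hsum.trans ?_
      nlinarith
    have e2 := mul_le_mul_of_nonneg_left e1 (exp_pos 2).le
    rw [pow_one] at h6
    have e3 : exp 2 * (3 * ℓ ^ (γ + ε) * ((θ + C1) * log ℓ)) =
        exp 2 * 3 * (θ + C1) * ℓ ^ (γ + ε) * log ℓ := by ring
    rw [e3] at e2
    push_cast
    have e4 : 0 ≤ ℓ ^ (γ + 2 * ε) := by positivity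
    linarith
  have hsecond := eta_fact _ (r + 1) (mul_nonneg (Nat.cast_nonneg K) hsum0) hx
  have hsecond2 : exp (-((r + 1 : ℕ) : ℝ)) ≤ exp (-ℓ ^ (γ + 3 * ε / 2)) / 2 := by
    have e1 : exp (-((r + 1 : ℕ) : ℝ)) ≤ exp (-ℓ ^ (γ + 3 * ε / 2) - log 2) := by
      apply exp_le_exp.2
      push_cast
      have := Real.log_two_lt_d9
      linarith
    rw [exp_sub, exp_log (by norm_num)] at e1
    exact e1
  linarith

end Pool.Agent.RG
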