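import Pool.Agent.RG.LowA

/-!
# RG / Lower: the lower half

As in `Upper` (`split_count`, `Q = PP 0 W`, `Y = X/Q + 1`, `Q Y ≤ 2 X`); if the event of `lowA` fails
for `n`, some window `win i` contains no `t` with `N + t` rough, `N = a + Q n`; take
`s = RL + i hL`: `s ≥ RL ≥ exp (ℓ^(γ-ε/3))/2`, `s + ℓ^(θ+γ-ε) ≤ 2 RL hL ≤ exp (ℓ^(γ-ε/4))`, and
`t ≤ s + ℓ^(θ+γ-ε)` implies `t < s + hL`.
-/

set_option autoImplicit false

namespace Pool.Agent.RG

open Finset Real Filter Topology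

private lemma lo_PP_pos (W : ℕ) : 0 < PP 0 W := by
  unfold PP
  exact prod_pos fun p hp => (mem_prm.1 hp).2.pos

private lemma lo_scale (ω : ℝ) (hω0 : 0 < ω) (hω1 : ω < 1) : ∀ᶠ X : ℕ in atTop, 1 ≤ X ∧
    PP 0 (Wn ω (log X)) * (X / PP 0 (Wn ω (log X)) + 1) ≤ 2 * X ∧
    exp (log X / 2) ≤ ((X / PP 0 (Wn ω (log X)) + 1 : ℕ) : ℝ) := by
  have hlog : Tendsto (fun X : ℕ => log (X : ℝ)) atTop atTop :=
    tendsto_log_atTop.comp tendsto_natCast_atTop_atTop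
  have h1 := hlog.eventually (asy0 ω 1 (4 * log 4) hω1)
  filter_upwards [h1, eventually_ge_atTop 1] with X hX hX1
  have hX0 : (0 : ℝ) < X := by exact_mod_cast hX1
  set l := log (X : ℝ) with hl
  have hl0 : 0 ≤ l := log_nonneg (by exact_mod_cast hX1)
  have hXe : exp l = X := exp_log hX0
  set Q := PP 0 (Wn ω l) with hQ
  have hQ0 : 0 < Q := lo_PP_pos _
  have hQ1 : (Q : ℝ) ≤ exp (l / 4) := by
    have e1 : (Q : ℝ) ≤ (4 : ℝ) ^ (Wn ω l) := by exact_mod_cast PP_le (Wn ω l)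
    refine e1.trans ?_
    have e2 : (4 : ℝ) ^ (Wn ω l) = exp (Wn ω l * log 4) := by
      rw [mul_comm, exp_mul, exp_log (by norm_num), rpow_natCast]
    rw [e2]
    apply exp_le_exp.2
    have e3 : (Wn ω l : ℝ) ≤ l ^ ω := Nat.floor_le (by positivity)
    have e4 : 0 < log 4 := log_pos (by norm_num)
    rw [rpow_one] at hX
    nlinarith
  have hQX : Q ≤ X := by
    have : (Q : ℝ) ≤ X := by
      rw [← hXe]
      exact hQ1.trans (exp_le_exp.2 (by linarith))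
    exact_mod_cast this
  refine ⟨hX1, ?_, ?_⟩
  · have := Nat.mul_div_le X Q
    rw [mul_add, mul_one]
    omega
  · have h2 : (X : ℝ) ≤ Q * ((X / Q + 1 : ℕ) : ℝ) := by
      exact_mod_cast (Nat.lt_mul_div_succ X hQ0).le
    rw [← hXe] at h2
    have h3 : exp l ≤ exp (l / 4) * ((X / Q + 1 : ℕ) : ℝ) :=
      h2.trans (mul_le_mul_of_nonneg_right hQ1 (by positivity))
    have h4 : exp (l / 4) * exp (l / 2) ≤ exp l := by
      rw [← exp_add]
      exact exp_le_exp.2 (by linarith)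
    exact le_of_mul_le_mul_left (h4.trans h3) (exp_pos _)

/-- A rough number is not killed. -/
private lemma lo_rough (z : ℝ) (W Z : ℕ) (hz : ∀ p : ℕ, p ≤ Z → (p : ℝ) ≤ z) (hWZ : W ≤ Z)
    (a n t : ℕ) (h : Rough z (a + PP 0 W * n + t)) :
    (∀ p ∈ prm 0 W, ¬ p ∣ a + t) ∧ ∀ p ∈ prm W Z, ¬ p ∣ a + t + PP 0 W * n := by
  refine ⟨fun p hp hd => ?_, fun p hp hd => ?_⟩
  · have h1 := mem_prm.1 hp
    refine h p h1.2 (hz p (h1.1.2.trans hWZ)) ?_
    have h2 : p ∣ PP 0 W := dvd_prod_of_mem _ hp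
    rw [show a + PP 0 W * n + t = a + t + PP 0 W * n by ring]
    exact dvd_add hd (h2.mul_right n)
  · have h1 := mem_prm.1 hp
    refine h p h1.2 (hz p h1.1.2) ?_
    rwa [show a + PP 0 W * n + t = a + t + PP 0 W * n by ring]

open Classical in
private lemma lo_core (W Z X Y R h : ℕ) (z A B g δ : ℝ) (hWZ : W ≤ Z)
    (hY : Y = X / PP 0 W + 1) (hz : ∀ p : ℕ, p ≤ Z → (p : ℝ) ≤ z) (hg : g < h)
    (hA : A ≤ R) (hB : ∀ i < R, ((R + i * h : ℕ) : ℝ) + g ≤ B)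
    (h1 : ∀ a : ℕ, (((range Y).filter (fun n => ∀ i < R, ∃ t ∈ Ico (R + i * h) (R + (i + 1) * h),
      (∀ p ∈ prm 0 W, ¬ p ∣ a + t) ∧
      ∀ p ∈ prm W Z, ¬ p ∣ a + t + PP 0 W * n)).card : ℝ) ≤ δ * Y) :
    (((Icc 1 X).filter (fun n : ℕ => ¬ Emp z A B g n)).card : ℝ) ≤ δ * (PP 0 W * Y) := by
  have hQ0 : 0 < PP 0 W := lo_PP_pos _
  have hc := split_count (PP 0 W) X hQ0 (fun n : ℕ => ¬ Emp z A B g n)
  rw [← hY] at hc
  have hwin : ∀ n : ℕ, ¬ Emp z A B g n → ∀ i < R, ∃ t ∈ Ico (R + i * h) (R + (i + 1) * h),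
      Rough z (n + t) := by
    intro n hn i hi
    by_contra hcon
    push Not at hcon
    refine hn ⟨R + i * h, ?_, hB i hi, ?_⟩
    · push_cast
      have : (0 : ℝ) ≤ (i : ℝ) * h := by positivity
      linarith
    · intro t ht1 ht2
      refine hcon t (mem_Ico.2 ⟨ht1, ?_⟩)
      have e1 : (t : ℝ) < ((R + i * h : ℕ) : ℝ) + h := by linarith
      have e2 : t < R + i * h + h := by exact_mod_cast e1
      have e3 : R + (i + 1) * h = R + i * h + h := by ring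
      omega
  have hsub : ∀ a ∈ range (PP 0 W), (((range Y).filter
      (fun n => ¬ Emp z A B g (a + PP 0 W * n))).card : ℝ) ≤ δ * Y := by
    intro a _
    refine le_trans ?_ (h1 a)
    have : (range Y).filter (fun n => ¬ Emp z A B g (a + PP 0 W * n)) ⊆
        (range Y).filter (fun n => ∀ i < R, ∃ t ∈ Ico (R + i * h) (R + (i + 1) * h),
          (∀ p ∈ prm 0 W, ¬ p ∣ a + t) ∧ ∀ p ∈ prm W Z, ¬ p ∣ a + t + PP 0 W * n) := by
      intro n hn
      rw [mem_filter] at hn ⊢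
      refine ⟨hn.1, fun i hi => ?_⟩
      obtain ⟨t, ht, hr⟩ := hwin _ hn.2 i hi
      exact ⟨t, ht, lo_rough z W Z hz hWZ a n t hr⟩
    exact_mod_cast card_le_card this
  calc (((Icc 1 X).filter (fun n : ℕ => ¬ Emp z A B g n)).card : ℝ)
      ≤ ∑ a ∈ range (PP 0 W), (((range Y).filter
          (fun n => ¬ Emp z A B g (a + PP 0 W * n))).card : ℝ) := by exact_mod_cast hc
    _ ≤ ∑ _a ∈ range (PP 0 W), δ * Y := sum_le_sum hsub
    _ = δ * (PP 0 W * Y) := by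
        rw [sum_const, card_range, nsmul_eq_mul]
        ring

/-- The size of the windows. -/
private lemma lo_size (θ γ ε ω : ℝ) (hP : Par θ γ ε ω) : ∀ᶠ l : ℝ in atTop,
    Wn ω l ≤ Zn θ l ∧ exp (l ^ (γ - ε / 3)) / 2 ≤ RL γ ε l ∧
    2 * exp (l ^ (γ - ε / 3)) * (2 * l ^ (θ + γ - ε)) + l ^ (θ + γ - ε) ≤
      exp (l ^ (γ - ε / 4)) := by
  obtain ⟨hε, hγ, hγθ, hω, hω1⟩ := hP
  have a1 := asy0 (γ - ε / 3) (γ - ε / 4) 2 (by linarith)
  have a2 := asy0 0 (θ) 1 (by linarith)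
  have b1 : Tendsto (fun l : ℝ => l ^ (γ - ε / 3)) atTop atTop :=
    tendsto_rpow_atTop (by linarith)
  have a3 : ∀ᶠ l : ℝ in atTop, 5 * l ^ (θ + γ - ε) ≤ exp (l ^ (γ - ε / 3)) := by
    have b2 := (isLittleO_pow_exp_atTop (n := ⌈(θ + γ - ε) / (γ - ε / 3)⌉₊)).bound
      (by norm_num : (0 : ℝ) < 1 / 5)
    filter_upwards [b1.eventually b2, b1.eventually_ge_atTop 1, eventually_ge_atTop 1]
      with l hl hl1 hl2
    have hl0 : (0 : ℝ) ≤ l := by linarith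
    rw [norm_of_nonneg (by positivity), norm_of_nonneg (by positivity)] at hl
    have b3 : l ^ (θ + γ - ε) ≤ (l ^ (γ - ε / 3)) ^ ⌈(θ + γ - ε) / (γ - ε / 3)⌉₊ := by
      rw [← rpow_natCast, ← rpow_mul hl0]
      apply rpow_le_rpow_of_exponent_le hl2
      have b4 := Nat.le_ceil ((θ + γ - ε) / (γ - ε / 3))
      have b5 : 0 < γ - ε / 3 := by linarith
      rw [div_le_iff₀ b5] at b4
      linarith
    linarith
  have a4 : ∀ᶠ l : ℝ in atTop, l ≤ exp (l ^ θ) := by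
    have c1 : Tendsto (fun l : ℝ => l ^ θ) atTop atTop := tendsto_rpow_atTop (by linarith)
    have b2 := (isLittleO_pow_exp_atTop (n := ⌈1 / θ⌉₊)).bound
      (by norm_num : (0 : ℝ) < 1)
    filter_upwards [c1.eventually b2, eventually_ge_atTop 1] with l hl hl2
    have hl0 : (0 : ℝ) ≤ l := by linarith
    rw [norm_of_nonneg (by positivity), norm_of_nonneg (by positivity)] at hl
    have b3 : l ^ (1 : ℝ) ≤ (l ^ θ) ^ ⌈1 / θ⌉₊ := by
      rw [← rpow_natCast, ← rpow_mul hl0]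
      apply rpow_le_rpow_of_exponent_le hl2
      have b4 := Nat.le_ceil (1 / θ)
      have b5 : 0 < θ := by linarith
      rw [div_le_iff₀ b5] at b4
      linarith
    rw [rpow_one] at b3
    linarith
  filter_upwards [a1, a3, a4, b1.eventually_ge_atTop 1, eventually_ge_atTop 1]
    with l a1 a3 a4 b1 hl
  have hl0 : (0 : ℝ) ≤ l := by linarith
  refine ⟨?_, ?_, ?_⟩
  · unfold Wn Zn
    apply Nat.floor_le_floor
    refine le_trans ?_ a4
    calc l ^ ω ≤ l ^ (1 : ℝ) := rpow_le_rpow_of_exponent_le hl hω1.le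
      _ = l := rpow_one l
  · unfold RL
    have e1 := Nat.lt_floor_add_one (exp (l ^ (γ - ε / 3)))
    have e2 := add_one_le_exp (l ^ (γ - ε / 3))
    linarith
  · have e1 : exp (2 * l ^ (γ - ε / 3)) ≤ exp (l ^ (γ - ε / 4)) := exp_le_exp.2 a1
    refine le_trans ?_ e1
    rw [two_mul (l ^ (γ - ε / 3)), exp_add]
    have e3 : 1 ≤ exp (l ^ (γ - ε / 3)) := one_le_exp (by positivity)
    have e4 : 0 ≤ l ^ (θ + γ - ε) := by positivity
    nlinarith [mul_le_mul_of_nonneg_left a3 (le_trans zero_le_one e3),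
      mul_le_mul_of_nonneg_right e3 e4]

open Classical in
theorem lower_half (θ γ ε ω : ℝ) (hP : Par θ γ ε ω) :
    Tendsto (fun X : ℕ => (((Icc 1 X).filter (fun n : ℕ =>
      ¬ Emp (exp (log X ^ θ)) (exp (log X ^ (γ - ε / 3)) / 2) (exp (log X ^ (γ - ε / 4)))
        (log X ^ (θ + γ - ε)) n)).card : ℝ) / X) atTop (𝓝 0) := by
  obtain ⟨hε, hγ, hγθ, hω, hω1⟩ := id hP
  have hlog : Tendsto (fun X : ℕ => log (X : ℝ)) atTop atTop :=
    tendsto_log_atTop.comp tendsto_natCast_atTop_atTop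
  rw [Metric.tendsto_atTop']
  intro e he
  have k1 := hlog.eventually (lowA θ γ ε ω hP (e / 4) (by linarith))
  have k2 := hlog.eventually (lo_size θ γ ε ω hP)
  have k3 := lo_scale ω (by linarith) hω1
  have k5 := hlog.eventually_ge_atTop 1
  have key := (k1.and (k2.and (k3.and k5)))
  rw [eventually_atTop] at key
  obtain ⟨N, hN⟩ := key
  refine ⟨N, fun X hX => ?_⟩
  obtain ⟨k1, ⟨k2, k2', k2''⟩, ⟨hX1, hX2, hX3⟩, k5⟩ := hN X hX.le
  have hX0 : (0 : ℝ) < X := by exact_mod_cast hX1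
  set l := log (X : ℝ) with hl
  have hl0 : 0 ≤ l := by linarith
  have hcore := lo_core (Wn ω l) (Zn θ l) X _ (RL γ ε l) (hL θ γ ε l)
    (exp (l ^ θ)) (exp (l ^ (γ - ε / 3)) / 2) (exp (l ^ (γ - ε / 4))) (l ^ (θ + γ - ε)) (e / 4)
    k2 rfl ?_ ?_ k2' ?_ (fun a => k1 a _ hX3)
  · rw [dist_zero_right, norm_of_nonneg (by positivity), div_lt_iff₀ hX0]
    refine hcore.trans_lt ?_
    have hX2' : ((PP 0 (Wn ω l) : ℝ) * ((X / PP 0 (Wn ω l) + 1 : ℕ) : ℝ)) ≤ 2 * X := by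
      exact_mod_cast hX2
    nlinarith
  · intro p hp
    have e1 : (p : ℝ) ≤ Zn θ l := by exact_mod_cast hp
    exact e1.trans (Nat.floor_le (exp_pos _).le)
  · unfold hL
    push_cast
    exact Nat.lt_floor_add_one _
  · intro i hi
    have e1 : (RL γ ε l : ℝ) ≤ exp (l ^ (γ - ε / 3)) := Nat.floor_le (exp_pos _).le
    have e2 : (hL θ γ ε l : ℝ) ≤ 2 * l ^ (θ + γ - ε) := by
      unfold hL
      push_cast
      have := Nat.floor_le (show 0 ≤ l ^ (θ + γ - ε) by positivity)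
      have := one_le_rpow k5 (show 0 ≤ θ + γ - ε by linarith)
      linarith
    have e3 : (i : ℝ) ≤ exp (l ^ (γ - ε / 3)) := by
      have : (i : ℝ) ≤ RL γ ε l := by exact_mod_cast hi.le
      linarith
    have e4 : 1 ≤ 2 * l ^ (θ + γ - ε) := by
      have := one_le_rpow k5 (show 0 ≤ θ + γ - ε by linarith)
      linarith
    have e5 : (i : ℝ) * hL θ γ ε l ≤ exp (l ^ (γ - ε / 3)) * (2 * l ^ (θ + γ - ε)) :=
      mul_le_mul e3 e2 (by positivity) (exp_pos _).le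
    have e6 : exp (l ^ (γ - ε / 3)) * 1 ≤ exp (l ^ (γ - ε / 3)) * (2 * l ^ (θ + γ - ε)) :=
      mul_le_mul_of_nonneg_left e4 (exp_pos _).le
    push_cast
    linarith

end Pool.Agent.RG
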