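import Pool.Agent.RG.Upper
import Pool.Agent.RG.Lower

/-!
# RG / Final: the exponent law
-/

set_option autoImplicit false

namespace Pool.Agent.RG

open Finset Real Filter Topology

/-- From `Dens` and `Emp` to consecutive rough integers. -/
theorem gap_of (z L A B g g1 G : ℝ) (n : ℕ) (hg : 0 ≤ g) (hg1 : 1 ≤ g1) (hA : g1 + 1 ≤ A)
    (hB : B + g1 + 1 ≤ L) (hG : g1 + 1 ≤ G) (h1 : Dens z L g1 n) (h2 : Emp z A B g n) :
    GapIn z L g G n := by
  classical
  refine ⟨?_, ?_⟩
  · rintro r r' hr hr' ⟨hrr, hrr', hlt, hc⟩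
    have hnr : n ≤ r := by exact_mod_cast hr
    have hlt' : (r : ℝ) + 1 ≤ r' := by exact_mod_cast hlt
    obtain ⟨t, ht1, ht2, ht3⟩ := h1 (r + 1 - n) (by
      rw [Nat.cast_sub (by omega)]; push_cast; linarith)
    rw [Nat.cast_sub (by omega)] at ht2
    push_cast at ht2
    have h3 : r' ≤ n + t := by
      by_contra hne
      push Not at hne
      exact hc (n + t) (by omega) hne ht3
    have h4 : (r' : ℝ) ≤ n + t := by exact_mod_cast h3
    linarith
  · obtain ⟨s0, hs0, hs0B, hs⟩ := h2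
    -- a rough integer before
    have hs1 : (0 : ℝ) ≤ s0 - g1 := by linarith
    obtain ⟨t, ht1, ht2, ht3⟩ := h1 ⌊(s0 : ℝ) - g1⌋₊ (le_trans (Nat.floor_le hs1) (by linarith))
    have hts : t < s0 := by
      have h3 := Nat.floor_le hs1
      have : (t : ℝ) < s0 := by linarith
      exact_mod_cast this
    -- a rough integer after
    have hs2 : (0 : ℝ) ≤ s0 + g := by positivity
    have hf := Nat.floor_le hs2
    have hf2 := Nat.lt_floor_add_one ((s0 : ℝ) + g)
    obtain ⟨u, hu1, hu2, hu3⟩ := h1 (⌊(s0 : ℝ) + g⌋₊ + 1) (by push_cast; linarith)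
    have husg : (s0 : ℝ) + g < u := by
      have : ((⌊(s0 : ℝ) + g⌋₊ + 1 : ℕ) : ℝ) ≤ u := by exact_mod_cast hu1
      push_cast at this
      linarith
    -- the last one before, the first one after
    let F : Finset ℕ := (Finset.range s0).filter (fun t => Rough z (n + t))
    have hF : F.Nonempty := ⟨t, by
      rw [mem_filter, mem_range]; exact ⟨hts, ht3⟩⟩
    have hmax := F.max'_mem hF
    rw [mem_filter, mem_range] at hmax
    have hex : ∃ u : ℕ, (s0 : ℝ) + g < u ∧ Rough z (n + u) := ⟨u, husg, hu3⟩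
    have hfind := Nat.find_spec hex
    have hmin : Nat.find hex ≤ u := Nat.find_min' hex ⟨husg, hu3⟩
    have hbig : (Nat.find hex : ℝ) ≤ u := by exact_mod_cast hmin
    refine ⟨n + F.max' hF, n + Nat.find hex, ?_, ?_, ⟨hmax.2, hfind.2, ?_, ?_⟩, ?_⟩
    · push_cast; linarith [(Nat.cast_nonneg (F.max' hF) : (0 : ℝ) ≤ _)]
    · push_cast at hu2 ⊢
      linarith
    · have h3 : (F.max' hF : ℝ) < s0 := by exact_mod_cast hmax.1
      have h4 : (F.max' hF : ℝ) < Nat.find hex := by linarith [hfind.1]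
      have h5 : F.max' hF < Nat.find hex := by exact_mod_cast h4
      omega
    · intro m hm1 hm2 hm3
      obtain ⟨k, rfl⟩ : ∃ k, m = n + k := ⟨m - n, by omega⟩
      have hk1 : F.max' hF < k := by omega
      have hk2 : k < Nat.find hex := by omega
      rcases lt_or_ge k s0 with h3 | h3
      · have h4 := F.le_max' k (by rw [mem_filter, mem_range]; exact ⟨h3, hm3⟩)
        omega
      · rcases le_or_gt (k : ℝ) (s0 + g) with h4 | h4
        · exact hs k h3 h4 hm3
        · exact Nat.find_min hex hk2 ⟨h4, hm3⟩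
    · push_cast
      have h3 : (F.max' hF : ℝ) < s0 := by exact_mod_cast hmax.1
      linarith [hfind.1]

open Classical in
theorem exponent_law (θ γ c : ℝ) (hγ : 0 < γ) (hγθ : γ ≤ θ) (h1 : θ + γ < 1) (hc : 0 < c)
    (ε : ℝ) (hε : 0 < ε) :
    Tendsto (fun X : ℕ => (((Icc 1 X).filter (fun n : ℕ =>
      ¬ GapIn (exp (log X ^ θ)) (exp (c * log X ^ γ)) (log X ^ (θ + γ - ε))
        (log X ^ (θ + γ + ε)) n)).card : ℝ) / X) atTop (𝓝 0) := by
  obtain ⟨e, he0, he1, he2, he3⟩ : ∃ e : ℝ, 0 < e ∧ e ≤ ε / 2 ∧ 4 * e ≤ γ ∧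
      8 * e ≤ 1 - θ - γ := by
    refine ⟨min (ε / 2) (min (γ / 4) ((1 - θ - γ) / 8)), ?_, min_le_left _ _, ?_, ?_⟩
    · refine lt_min (by linarith) (lt_min (by linarith) (by linarith))
    · have := (min_le_right (ε / 2) (min (γ / 4) ((1 - θ - γ) / 8))).trans (min_le_left _ _)
      linarith
    · have := (min_le_right (ε / 2) (min (γ / 4) ((1 - θ - γ) / 8))).trans (min_le_right _ _)
      linarith
  have hP : Par θ γ e ((1 + θ + γ) / 2) :=
    ⟨he0, he2, hγθ, by linarith, by linarith⟩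
  have hU := upper_half θ γ e _ hP c hc
  have hL := lower_half θ γ e _ hP
  have hsum := hU.add hL
  rw [add_zero] at hsum
  -- the deterministic conditions
  have hlog : Tendsto (fun X : ℕ => log (X : ℝ)) atTop atTop :=
    tendsto_log_atTop.comp tendsto_natCast_atTop_atTop
  have hdet : ∀ᶠ l : ℝ in atTop, 1 ≤ l ∧ 2 * l ^ (θ + γ + e) + 1 ≤ exp (l ^ (γ - e / 3)) / 2 ∧
      exp (l ^ (γ - e / 4)) + 2 * l ^ (θ + γ + e) + 1 ≤ exp (c * l ^ γ) ∧
      2 * l ^ (θ + γ + e) + 1 ≤ l ^ (θ + γ + ε) := by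
    have a1 := asy0 (θ + γ + e) (θ + γ + ε) 3 (by linarith)
    have a2 := asy0 (γ - e / 4) γ (1 / c) (by linarith)
    have a3 : ∀ᶠ l : ℝ in atTop, 8 * l ^ (θ + γ + e) ≤ exp (l ^ (γ - e / 3)) := by
      have b1 : Tendsto (fun l : ℝ => l ^ (γ - e / 3)) atTop atTop :=
        tendsto_rpow_atTop (by linarith)
      have b2 := (isLittleO_pow_exp_atTop (n := ⌈(θ + γ + e) / (γ - e / 3)⌉₊)).bound
        (by norm_num : (0 : ℝ) < 1 / 8)
      filter_upwards [b1.eventually b2, b1.eventually_ge_atTop 1, eventually_ge_atTop 1]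
        with l hl hl1 hl2
      have hl0 : (0 : ℝ) ≤ l := by linarith
      rw [norm_of_nonneg (by positivity), norm_of_nonneg (by positivity)] at hl
      have b3 : l ^ (θ + γ + e) ≤ (l ^ (γ - e / 3)) ^ ⌈(θ + γ + e) / (γ - e / 3)⌉₊ := by
        rw [← rpow_natCast, ← rpow_mul hl0]
        apply rpow_le_rpow_of_exponent_le hl2
        have b4 := Nat.le_ceil ((θ + γ + e) / (γ - e / 3))
        have b5 : 0 < γ - e / 3 := by linarith
        rw [div_le_iff₀ b5] at b4
        linarith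
      linarith
    have a4 : ∀ᶠ l : ℝ in atTop, 1 ≤ (c / 2) * l ^ γ := by
      have : Tendsto (fun l : ℝ => (c / 2) * l ^ γ) atTop atTop :=
        (tendsto_rpow_atTop hγ).const_mul_atTop (by linarith)
      exact this.eventually_ge_atTop 1
    have a5 := asy0 (γ - e / 4) γ (2 / c) (by linarith)
    filter_upwards [a1, a2, a3, a4, a5, eventually_ge_atTop 1] with l h1 h2 h3 h4 h5 h6
    have hl0 : (0 : ℝ) < l := by linarith
    have k1 : 1 ≤ l ^ (θ + γ + e) := one_le_rpow h6 (by linarith)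
    have k2 : exp (l ^ (γ - e / 3)) ≤ exp (l ^ (γ - e / 4)) := by
      apply exp_le_exp.2
      exact rpow_le_rpow_of_exponent_le h6 (by linarith)
    have k3 : 2 * exp (l ^ (γ - e / 4)) ≤ exp (c * l ^ γ) := by
      have k4 : l ^ (γ - e / 4) ≤ (c / 2) * l ^ γ := by
        rw [div_mul_eq_mul_div, div_le_iff₀ hc] at h5
        linarith
      have k5 : 2 ≤ exp ((c / 2) * l ^ γ) := by
        have := add_one_le_exp ((c / 2) * l ^ γ)
        linarith
      calc 2 * exp (l ^ (γ - e / 4)) ≤ exp ((c / 2) * l ^ γ) * exp ((c / 2) * l ^ γ) :=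
            mul_le_mul k5 (exp_le_exp.2 k4) (exp_pos _).le (exp_pos _).le
        _ = _ := by rw [← exp_add]; congr 1; ring
    refine ⟨h6, by linarith, by linarith, by linarith⟩
  have hev := hlog.eventually hdet
  refine squeeze_zero' (Eventually.of_forall fun X => by positivity) ?_ hsum
  filter_upwards [hev, eventually_ge_atTop 1] with X hX hX1
  obtain ⟨k1, k2, k3, k4⟩ := hX
  have hX0 : (0 : ℝ) < X := by exact_mod_cast hX1
  rw [← add_div]
  apply div_le_div_of_nonneg_right _ hX0.le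
  rw [← Nat.cast_add]
  have hsub : ((Icc 1 X).filter (fun n : ℕ =>
      ¬ GapIn (exp (log X ^ θ)) (exp (c * log X ^ γ)) (log X ^ (θ + γ - ε))
        (log X ^ (θ + γ + ε)) n)) ⊆
      ((Icc 1 X).filter (fun n : ℕ =>
        ¬ Dens (exp (log X ^ θ)) (exp (c * log X ^ γ)) (2 * log X ^ (θ + γ + e)) n)) ∪
      ((Icc 1 X).filter (fun n : ℕ =>
        ¬ Emp (exp (log X ^ θ)) (exp (log X ^ (γ - e / 3)) / 2) (exp (log X ^ (γ - e / 4)))
        (log X ^ (θ + γ - e)) n)) := by
    intro n hn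
    rw [mem_filter] at hn
    rw [mem_union, mem_filter, mem_filter]
    by_contra hcon
    push Not at hcon
    apply hn.2
    have hD := hcon.1 hn.1
    have hE := hcon.2 hn.1
    have h3 := gap_of _ _ _ _ _ _ (log X ^ (θ + γ + ε)) n (by positivity)
      (by linarith [one_le_rpow k1 (by linarith : 0 ≤ θ + γ + e)]) (by linarith) (by linarith)
      (by linarith) hD hE
    refine ⟨h3.1, ?_⟩
    obtain ⟨r, r', m1, m2, m3, m4⟩ := h3.2
    refine ⟨r, r', m1, m2, m3, le_trans ?_ m4⟩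
    exact rpow_le_rpow_of_exponent_le k1 (by linarith)
  exact_mod_cast (card_le_card hsub).trans (card_union_le _ _)

end Pool.Agent.RG
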