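import Pool.Agent.RG.Ev
import Pool.Agent.RG.Crt
import Pool.Agent.RG.Bonf

/-!
# RG / Kpt: correlations of `K` points (Brun's pure sieve)

Let `P_S` be the proportion of `n < Y` with `∀ p ∈ S, ∃ t ∈ A, p ∣ a + t + Q n`; `C` the proportion in
the theorem.  `ev_even`, `ev_odd` summed over `n` (with `B p n := ∃ t ∈ A, p ∣ a + t + Q n`):
`∑_{|S| ≤ r+1} (-1)^|S| P_S ≤ C ≤ ∑_{|S| ≤ r} (-1)^|S| P_S` (`r` even); `prod_even`, `prod_odd` give the
same for `∏ (1 - ν_p/p)` and `P'_S = ∏_{p ∈ S} ν_p/p`.  Hence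
`|C - ∏| ≤ ∑_{|S| ≤ r+1} |P_S - P'_S| + ∑_{|S| = r+1} P'_S`, `|P_S - P'_S| ≤ ∏ ν_p / Y ≤ K^|S| / Y`
(`count_classes`), `∑_{|S| ≤ r+1} K^|S| ≤ (1 + K |s|)^(r+1)` and `esymm_le` with `x_p = K/p`.
-/

set_option autoImplicit false

namespace Pool.Agent.RG

open Finset

private lemma sum_le_succ (s : Finset ℕ) (f : Finset ℕ → ℝ) (R : ℕ) :
    ∑ S ∈ s.powerset.filter (fun S => S.card ≤ R + 1), f S =
      ∑ S ∈ s.powerset.filter (fun S => S.card ≤ R), f S + ∑ S ∈ s.powersetCard (R + 1), f S := by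
  rw [← sum_union]
  · refine sum_congr ?_ fun _ _ => rfl
    ext S
    simp only [mem_filter, mem_powerset, mem_union, mem_powersetCard]
    constructor
    · rintro ⟨h1, h2⟩
      rcases Nat.lt_or_ge R S.card with h | h
      · exact Or.inr ⟨h1, by omega⟩
      · exact Or.inl ⟨h1, h⟩
    · rintro (⟨h1, h2⟩ | ⟨h1, h2⟩)
      · exact ⟨h1, by omega⟩
      · exact ⟨h1, by omega⟩
  · rw [disjoint_left]
    intro S h1 h2
    have h3 := (mem_filter.1 h1).2
    have h4 := (mem_powersetCard.1 h2).2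
    omega

private lemma sum_pow_card_le (s : Finset ℕ) (K : ℝ) (hK : 0 ≤ K) (R : ℕ) :
    ∑ S ∈ s.powerset.filter (fun S => S.card ≤ R), K ^ S.card ≤ (1 + K * s.card) ^ R := by
  induction R with
  | zero =>
    have h0 : (s.powerset.filter (fun S => S.card ≤ 0)) = {∅} := by
      ext S
      simp only [mem_filter, mem_powerset, nonpos_iff_eq_zero, card_eq_zero, mem_singleton]
      constructor
      · exact fun h => h.2
      · rintro rfl; exact ⟨empty_subset _, rfl⟩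
    rw [h0]
    simp
  | succ R ih =>
    rw [sum_le_succ]
    have h1 : ∑ S ∈ s.powersetCard (R + 1), K ^ S.card ≤ (K * s.card) ^ (R + 1) := by
      have h2 : ∑ S ∈ s.powersetCard (R + 1), K ^ S.card =
          (s.card.choose (R + 1) : ℝ) * K ^ (R + 1) := by
        rw [sum_congr rfl (fun S hS => by rw [(mem_powersetCard.1 hS).2]), sum_const,
          card_powersetCard, nsmul_eq_mul]
      rw [h2, mul_pow, mul_comm]
      refine mul_le_mul_of_nonneg_left ?_ (pow_nonneg hK _)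
      have h3 : s.card.choose (R + 1) ≤ s.card ^ (R + 1) := Nat.choose_le_pow _ _
      exact_mod_cast h3
    have hm : 0 ≤ K * (s.card : ℝ) := mul_nonneg hK (Nat.cast_nonneg _)
    have h4 : (K * (s.card : ℝ)) ^ (R + 1) ≤ (1 + K * s.card) ^ R * (K * s.card) := by
      rw [pow_succ]
      refine mul_le_mul_of_nonneg_right ?_ hm
      exact pow_le_pow_left₀ hm (by linarith) R
    calc _ ≤ (1 + K * (s.card : ℝ)) ^ R + (1 + K * s.card) ^ R * (K * s.card) :=
          add_le_add ih (h1.trans h4)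
      _ = _ := by rw [pow_succ]; ring

theorem kpoint (s : Finset ℕ) (hs : ∀ p ∈ s, p.Prime) (Q : ℕ) (hQ : ∀ p ∈ s, ¬ p ∣ Q) (a : ℕ)
    (A : Finset ℕ) (K : ℕ) (hA : A.card ≤ K) (Y : ℕ) (hY : 0 < Y) (r : ℕ) (hr : Even r) :
    |(((range Y).filter (fun n => ∀ p ∈ s, ∀ t ∈ A, ¬ p ∣ a + t + Q * n)).card : ℝ) / Y -
      ∏ p ∈ s, (1 - (nu p A : ℝ) / p)| ≤
      (1 + (K : ℝ) * s.card) ^ (r + 1) / Y +
        ((K : ℝ) * ∑ p ∈ s, 1 / (p : ℝ)) ^ (r + 1) / ((r + 1).factorial : ℝ) := by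
  have hYr : (0 : ℝ) < Y := by exact_mod_cast hY
  have hr1 : Odd (r + 1) := hr.add_one
  -- the proportions
  set g : Finset ℕ → ℝ := fun S =>
    (((range Y).filter (fun n => ∀ p ∈ S, ∃ t ∈ A, p ∣ a + t + Q * n)).card : ℝ) / Y with hg
  set g' : Finset ℕ → ℝ := fun S => ∏ p ∈ S, ((nu p A : ℝ) / p) with hg'
  set C : ℝ := (((range Y).filter (fun n => ∀ p ∈ s, ∀ t ∈ A, ¬ p ∣ a + t + Q * n)).card : ℝ) / Y
    with hC
  have hCsum : C * Y = ∑ n ∈ range Y,
      (if ∀ p ∈ s, ¬ (∃ t ∈ A, p ∣ a + t + Q * n) then (1 : ℝ) else 0) := by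
    rw [hC, div_mul_cancel₀ _ hYr.ne', sum_boole]
    congr 2
    refine filter_congr fun n _ => ?_
    push Not
    rfl
  have hEsum : ∀ R : ℕ, ∑ n ∈ range Y, ∑ S ∈ s.powerset.filter (fun S => S.card ≤ R),
      (-1 : ℝ) ^ S.card * (if ∀ p ∈ S, (∃ t ∈ A, p ∣ a + t + Q * n) then (1 : ℝ) else 0) =
      (∑ S ∈ s.powerset.filter (fun S => S.card ≤ R), (-1 : ℝ) ^ S.card * g S) * Y := by
    intro R
    rw [sum_comm, sum_mul]
    refine sum_congr rfl fun S _ => ?_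
    rw [← mul_sum, sum_boole, hg]
    field_simp
  have hup : C ≤ ∑ S ∈ s.powerset.filter (fun S => S.card ≤ r), (-1 : ℝ) ^ S.card * g S := by
    have h1 : C * Y ≤ (∑ S ∈ s.powerset.filter (fun S => S.card ≤ r), (-1 : ℝ) ^ S.card * g S) * Y := by
      rw [hCsum, ← hEsum]
      refine sum_le_sum fun n _ => ?_
      exact ev_even s (fun p => ∃ t ∈ A, p ∣ a + t + Q * n) r hr
    exact le_of_mul_le_mul_right h1 hYr
  have hlo : ∑ S ∈ s.powerset.filter (fun S => S.card ≤ r + 1), (-1 : ℝ) ^ S.card * g S ≤ C := by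
    have h1 : (∑ S ∈ s.powerset.filter (fun S => S.card ≤ r + 1), (-1 : ℝ) ^ S.card * g S) * Y ≤
        C * Y := by
      rw [hCsum, ← hEsum]
      refine sum_le_sum fun n _ => ?_
      exact ev_odd s (fun p => ∃ t ∈ A, p ∣ a + t + Q * n) (r + 1) hr1
    exact le_of_mul_le_mul_right h1 hYr
  have hx : ∀ p ∈ s, 0 ≤ (nu p A : ℝ) / p ∧ (nu p A : ℝ) / p ≤ 1 := by
    intro p hp
    have hpp := (hs p hp).pos
    have hp0 : (0 : ℝ) < p := by exact_mod_cast hpp
    refine ⟨by positivity, ?_⟩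
    rw [div_le_one hp0]
    exact_mod_cast nu_le p hpp A
  have hup' := prod_even s (fun p => (nu p A : ℝ) / p) hx r hr
  have hlo' := prod_odd s (fun p => (nu p A : ℝ) / p) hx (r + 1) hr1
  set Pi0 := ∏ p ∈ s, (1 - (nu p A : ℝ) / p) with hPi0
  -- the differences
  have hdiff : ∀ S ∈ s.powerset, |g S - g' S| ≤ (K : ℝ) ^ S.card / Y := by
    intro S hS
    have hSs := mem_powerset.1 hS
    have h1 := count_classes S (fun p hp => hs p (hSs hp)) Q (fun p hp => hQ p (hSs hp)) a A Y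
    have h2 : g S - g' S = ((((range Y).filter
        (fun n => ∀ p ∈ S, ∃ t ∈ A, p ∣ a + t + Q * n)).card : ℝ) -
        Y * ∏ p ∈ S, ((nu p A : ℝ) / p)) / Y := by
      rw [hg, hg', sub_div, mul_div_cancel_left₀ _ hYr.ne']
    rw [h2, abs_div, abs_of_pos hYr]
    refine div_le_div_of_nonneg_right (h1.trans ?_) hYr.le
    rw [← prod_const]
    refine prod_le_prod (fun p _ => Nat.cast_nonneg _) fun p _ => ?_
    exact_mod_cast (nu_le_card p A).trans hA
  have hdsum : ∀ R : ℕ, |∑ S ∈ s.powerset.filter (fun S => S.card ≤ R), (-1 : ℝ) ^ S.card * g S -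
      ∑ S ∈ s.powerset.filter (fun S => S.card ≤ R), (-1 : ℝ) ^ S.card * g' S| ≤
      (1 + (K : ℝ) * s.card) ^ R / Y := by
    intro R
    rw [← sum_sub_distrib]
    refine (abs_sum_le_sum_abs _ _).trans ?_
    refine le_trans ?_ (div_le_div_of_nonneg_right
      (sum_pow_card_le s K (Nat.cast_nonneg K) R) hYr.le)
    rw [sum_div]
    refine sum_le_sum fun S hS => ?_
    rw [← mul_sub, abs_mul, abs_pow, abs_neg, abs_one, one_pow, one_mul]
    exact hdiff S (mem_filter.1 hS).1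
  -- the last term
  have hlast : ∑ S ∈ s.powersetCard (r + 1), g' S ≤
      ((K : ℝ) * ∑ p ∈ s, 1 / (p : ℝ)) ^ (r + 1) / ((r + 1).factorial : ℝ) := by
    have h1 := esymm_le s (fun p => (K : ℝ) / p) (fun p _ => by positivity) (r + 1)
    have h2 : ∑ p ∈ s, (K : ℝ) / p = (K : ℝ) * ∑ p ∈ s, 1 / (p : ℝ) := by
      rw [mul_sum]
      exact sum_congr rfl fun p _ => by ring
    rw [h2] at h1
    refine le_trans (sum_le_sum fun S hS => ?_) h1
    refine prod_le_prod (fun p _ => by positivity) fun p _ => ?_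
    refine div_le_div_of_nonneg_right ?_ (Nat.cast_nonneg p)
    exact_mod_cast (nu_le_card p A).trans hA
  have hstep : ∑ S ∈ s.powerset.filter (fun S => S.card ≤ r + 1), (-1 : ℝ) ^ S.card * g' S =
      ∑ S ∈ s.powerset.filter (fun S => S.card ≤ r), (-1 : ℝ) ^ S.card * g' S -
        ∑ S ∈ s.powersetCard (r + 1), g' S := by
    rw [sum_le_succ, sub_eq_add_neg, ← sum_neg_distrib]
    congr 1
    refine sum_congr rfl fun S hS => ?_
    rw [(mem_powersetCard.1 hS).2, hr1.neg_one_pow, neg_one_mul]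
  have hmono : (1 + (K : ℝ) * s.card) ^ r / Y ≤ (1 + (K : ℝ) * s.card) ^ (r + 1) / Y := by
    refine div_le_div_of_nonneg_right ?_ hYr.le
    refine pow_le_pow_right₀ ?_ (Nat.le_succ r)
    have : (0 : ℝ) ≤ (K : ℝ) * s.card := by positivity
    linarith
  have hd1 := abs_le.1 (hdsum r)
  have hd2 := abs_le.1 (hdsum (r + 1))
  have e1 : ∑ S ∈ s.powerset.filter (fun S => S.card ≤ r), (-1 : ℝ) ^ S.card * g' S =
      ∑ S ∈ s.powerset.filter (fun S => S.card ≤ r), (-1 : ℝ) ^ S.card *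
        ∏ p ∈ S, ((nu p A : ℝ) / p) := rfl
  have e2 : ∑ S ∈ s.powerset.filter (fun S => S.card ≤ r + 1), (-1 : ℝ) ^ S.card * g' S =
      ∑ S ∈ s.powerset.filter (fun S => S.card ≤ r + 1), (-1 : ℝ) ^ S.card *
        ∏ p ∈ S, ((nu p A : ℝ) / p) := rfl
  rw [← e1] at hup'
  rw [← e2] at hlo'
  rw [abs_le]
  constructor
  · linarith [hd2.1, hd2.2]
  · linarith [hd1.1, hd1.2]

end Pool.Agent.RG
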