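import Pool.Agent.RG.PairN
import Pool.Agent.RG.Mer
import Pool.Agent.RG.Par

/-!
# RG / PairA: the average over pairs, asymptotics

`pair_avg` with `h = hL`, `R = RL`, `w = Wn`, `w' = Wp`, `ζ = zet`, `r0 = ⌊ℓ^(γ - ε/2)⌋`.
`w'^r0 ≤ exp (10 log ℓ ℓ^(γ-ε/2)) ≤ RL`.  `nk ≤ 2 h log (2 R h)/log w ≤ ℓ^(θ + 2γ - 5ε/4)` (`nk_le`), so
`6 ζ nk ≤ 6 ℓ^(3γ - ω - 7ε/4) ≤ r0`, because `2γ ≤ θ + γ ≤ ω - 4ε`.  `∑_{W<p≤Wp} 1/p ≤ C`
(`recip_bounds`), `h ζ ≤ 2 ℓ^(2γ - ω - 3ε/2) → 0`, `r0 → ∞`.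
-/

set_option autoImplicit false

namespace Pool.Agent.RG

open Finset Real Filter

private lemma sum_recip_le (u v : ℕ) : ∑ p ∈ prm u v, 1 / (p : ℝ) ≤ 1 + log v := by
  have h1 : ∑ p ∈ prm u v, 1 / (p : ℝ) ≤ ∑ n ∈ Icc 1 v, 1 / (n : ℝ) := by
    apply sum_le_sum_of_subset_of_nonneg
    · intro p hp
      rw [mem_prm] at hp
      rw [mem_Icc]
      exact ⟨hp.2.one_le, hp.1.2⟩
    · intro n _ _
      positivity
  have h2 : ∑ n ∈ Icc 1 v, 1 / (n : ℝ) = ((harmonic v : ℚ) : ℝ) := by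
    rw [harmonic_eq_sum_Icc]
    push_cast
    exact sum_congr rfl fun n _ => one_div _
  rw [h2] at h1
  exact h1.trans (harmonic_le_one_add_log v)

theorem pairA (θ γ ε ω : ℝ) (hP : Par θ γ ε ω) (δ : ℝ) (hδ : 0 < δ) : ∀ᶠ ℓ : ℝ in atTop,
    ∑ k ∈ Icc 1 (RL γ ε ℓ), (1 + zet θ γ ε ω ℓ) ^ nk (hL θ γ ε ℓ) (Wn ω ℓ) (Wp ℓ) k ≤
      (1 + δ) * RL γ ε ℓ := by
  obtain ⟨hε, hγ, hγθ, hω, hω1⟩ := hP
  set y0 := log (1 + δ / 4) with hy0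
  have hy0pos : 0 < y0 := log_pos (by linarith)
  have e1 := asy0 (θ + γ - ε) ω 2 (by linarith)
  have e2 := asy (γ - ε / 2) (γ - ε / 3) 10 1 (by linarith)
  have e3 := asy0 (3 * γ - ω - 11 * ε / 6) (γ - ε / 2) 96 (by linarith)
  have e4 := asy0 0 (γ - ε / 2) 2 (by linarith)
  have e5 := asy (2 * γ - ω - 3 * ε / 2) 0 (44 / y0) 1 (by linarith)
  have e6 := asy 0 (γ - ε / 3) 2 1 (by linarith)
  have e7 : ∀ᶠ ℓ : ℝ in atTop, ((1 : ℝ) / 2) ^ ⌊ℓ ^ (γ - ε / 2)⌋₊ < δ / 2 := by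
    have h1 : Tendsto (fun ℓ : ℝ => ⌊ℓ ^ (γ - ε / 2)⌋₊) atTop atTop :=
      tendsto_nat_floor_atTop.comp (tendsto_rpow_atTop (by linarith))
    have h2 : Tendsto (fun n : ℕ => ((1 : ℝ) / 2) ^ n) atTop (nhds 0) :=
      tendsto_pow_atTop_nhds_zero_of_lt_one (by norm_num) (by norm_num)
    exact (h2.comp h1).eventually_lt_const (by linarith)
  have e8 := asy0 0 ω 3 (by linarith)
  filter_upwards [e1, e2, e3, e4, e5, e6, e7, e8, eventually_ge_atTop (exp 1)] with ℓ h1 h2 h3 h4 h5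
    h6 h7 h8 hℓ
  have hexp1 : (1 : ℝ) < exp 1 := by
    have := add_one_lt_exp (x := (1 : ℝ)) (by norm_num)
    linarith
  have hℓ1 : 1 < ℓ := lt_of_lt_of_le hexp1 hℓ
  have hℓ0 : 0 < ℓ := by linarith
  have hlog1 : 1 ≤ log ℓ := by
    rw [← log_exp 1]
    exact log_le_log (exp_pos 1) hℓ
  simp only [rpow_zero, mul_one, pow_one] at h2 h4 h5 h6 h8
  set a := ℓ ^ (θ + γ - ε) with ha
  set L1 := ℓ ^ (γ - ε / 3) with hL1
  set x := ℓ ^ (γ - ε / 2) with hx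
  have ha1 : 1 ≤ a := one_le_rpow hℓ1.le (by linarith)
  have hL1pos : 0 < L1 := rpow_pos_of_pos hℓ0 _
  have hh : (hL θ γ ε ℓ : ℝ) ≤ 2 * a := by
    unfold hL
    push_cast
    have := Nat.floor_le (show 0 ≤ ℓ ^ (θ + γ - ε) by positivity)
    linarith
  have hhpos : 0 < hL θ γ ε ℓ := Nat.succ_pos _
  have hhpos' : (1 : ℝ) ≤ hL θ γ ε ℓ := by exact_mod_cast hhpos
  have hωℓ : ℓ ^ ω ≤ ℓ := by
    calc ℓ ^ ω ≤ ℓ ^ (1 : ℝ) := rpow_le_rpow_of_exponent_le hℓ1.le hω1.le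
      _ = ℓ := rpow_one _
  have hζ0 : 0 ≤ zet θ γ ε ω ℓ := by
    unfold zet
    positivity
  have hW3 : 3 ≤ Wn ω ℓ := by
    unfold Wn
    apply Nat.le_floor
    push_cast
    linarith
  have hlogW : 1 ≤ log (Wn ω ℓ) := by
    have h9 : exp 1 ≤ Wn ω ℓ := by
      have h10 : (3 : ℝ) ≤ Wn ω ℓ := by exact_mod_cast hW3
      have := exp_one_lt_d9
      linarith
    rw [← log_exp 1]
    exact log_le_log (exp_pos 1) h9
  have hRle : (RL γ ε ℓ : ℝ) ≤ exp L1 := Nat.floor_le (exp_pos _).le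
  -- the hypotheses of `pair_avg`
  have hw : hL θ γ ε ℓ ≤ Wn ω ℓ := by
    unfold Wn
    apply Nat.le_floor
    linarith
  have hR : Wp ℓ ^ ⌊x⌋₊ ≤ RL γ ε ℓ := by
    unfold RL
    apply Nat.le_floor
    have h9 : (Wp ℓ : ℝ) ≤ ℓ ^ 10 := Nat.floor_le (by positivity)
    have h10 : (⌊x⌋₊ : ℝ) ≤ x := Nat.floor_le (by positivity)
    push_cast
    calc (Wp ℓ : ℝ) ^ ⌊x⌋₊ ≤ (ℓ ^ 10) ^ ⌊x⌋₊ := pow_le_pow_left₀ (Nat.cast_nonneg _) h9 _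
      _ = exp ((⌊x⌋₊ : ℝ) * (10 * log ℓ)) := by
          rw [exp_nat_mul]
          congr 1
          have : (10 : ℝ) * log ℓ = ((10 : ℕ) : ℝ) * log ℓ := by norm_num
          rw [this, exp_nat_mul, exp_log hℓ0]
      _ ≤ exp L1 := by
          apply exp_le_exp.2
          calc (⌊x⌋₊ : ℝ) * (10 * log ℓ) ≤ x * (10 * log ℓ) :=
                mul_le_mul_of_nonneg_right h10 (by positivity)
            _ = 10 * x * log ℓ := by ring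
            _ ≤ L1 := h2
  have hn : ∀ k ∈ Icc 1 (RL γ ε ℓ), 6 * zet θ γ ε ω ℓ *
      nk (hL θ γ ε ℓ) (Wn ω ℓ) (Wp ℓ) k ≤ ⌊x⌋₊ := by
    intro k hk
    rw [mem_Icc] at hk
    have hk1 : (1 : ℝ) ≤ k := by exact_mod_cast hk.1
    have hkR : (k : ℝ) ≤ exp L1 := le_trans (by exact_mod_cast hk.2) hRle
    have h9 := nk_le (hL θ γ ε ℓ) (Wn ω ℓ) (Wp ℓ) k (by omega) hk.1 hhpos
    have h10 : log (2 * k * hL θ γ ε ℓ) ≤ 2 * L1 := by
      have h11 : 2 * (k : ℝ) * hL θ γ ε ℓ ≤ 2 * exp L1 * ℓ := by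
        apply mul_le_mul (by linarith) (by linarith) (by positivity) (by positivity)
      have h12 := log_le_log (by positivity) h11
      rw [log_mul (by positivity) hℓ0.ne', log_mul (by norm_num) (exp_pos _).ne', log_exp] at h12
      have h13 : log 2 ≤ 1 := by
        have := log_two_lt_d9
        linarith
      linarith
    have h10' : 0 ≤ log (2 * k * hL θ γ ε ℓ) := log_nonneg (by nlinarith)
    have h11 : (nk (hL θ γ ε ℓ) (Wn ω ℓ) (Wp ℓ) k : ℝ) ≤ 8 * a * L1 := by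
      calc (nk (hL θ γ ε ℓ) (Wn ω ℓ) (Wp ℓ) k : ℝ)
          ≤ 2 * hL θ γ ε ℓ * log (2 * k * hL θ γ ε ℓ) / log (Wn ω ℓ) := h9
        _ ≤ 2 * hL θ γ ε ℓ * log (2 * k * hL θ γ ε ℓ) := div_le_self (by positivity) hlogW
        _ ≤ 2 * (2 * a) * (2 * L1) :=
            mul_le_mul (by linarith) h10 h10' (by positivity)
        _ = 8 * a * L1 := by ring
    have h12 : zet θ γ ε ω ℓ * (a * L1) = ℓ ^ (3 * γ - ω - 11 * ε / 6) := by
      unfold zet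
      rw [ha, hL1, ← rpow_add hℓ0, ← rpow_add hℓ0]
      congr 1
      ring
    have h13 : x / 2 ≤ ⌊x⌋₊ := by
      have := Nat.lt_floor_add_one x
      linarith
    calc 6 * zet θ γ ε ω ℓ * nk (hL θ γ ε ℓ) (Wn ω ℓ) (Wp ℓ) k
        ≤ 6 * zet θ γ ε ω ℓ * (8 * a * L1) := mul_le_mul_of_nonneg_left h11 (by positivity)
      _ = 48 * (zet θ γ ε ω ℓ * (a * L1)) := by ring
      _ ≤ x / 2 := by
          rw [h12]
          linarith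
      _ ≤ ⌊x⌋₊ := h13
  have hmain := pair_avg (hL θ γ ε ℓ) (RL γ ε ℓ) (Wn ω ℓ) (Wp ℓ) ⌊x⌋₊ (zet θ γ ε ω ℓ) hζ0 hhpos hw
    hR hn
  refine hmain.trans ?_
  rw [mul_comm]
  apply mul_le_mul_of_nonneg_right _ (Nat.cast_nonneg _)
  -- the exponent is small
  have hσ : ∑ p ∈ prm (Wn ω ℓ) (Wp ℓ), 1 / (p : ℝ) ≤ 11 * log ℓ := by
    refine (sum_recip_le _ _).trans ?_
    have h9 : log (Wp ℓ) ≤ 10 * log ℓ := by
      have h10 : (Wp ℓ : ℝ) ≤ ℓ ^ 10 := Nat.floor_le (by positivity)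
      rcases Nat.eq_zero_or_pos (Wp ℓ) with h0 | h0
      · rw [h0, Nat.cast_zero, log_zero]
        positivity
      · have h11 := log_le_log (by exact_mod_cast h0) h10
        rw [log_pow] at h11
        exact_mod_cast h11
    linarith
  have hσ0 : 0 ≤ ∑ p ∈ prm (Wn ω ℓ) (Wp ℓ), 1 / (p : ℝ) := sum_nonneg fun p _ => by positivity
  have hy : 2 * (hL θ γ ε ℓ : ℝ) * zet θ γ ε ω ℓ * ∑ p ∈ prm (Wn ω ℓ) (Wp ℓ), 1 / (p : ℝ) ≤ y0 := by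
    have h9 : a * zet θ γ ε ω ℓ = ℓ ^ (2 * γ - ω - 3 * ε / 2) := by
      unfold zet
      rw [ha, ← rpow_add hℓ0]
      congr 1
      ring
    calc 2 * (hL θ γ ε ℓ : ℝ) * zet θ γ ε ω ℓ * ∑ p ∈ prm (Wn ω ℓ) (Wp ℓ), 1 / (p : ℝ)
        ≤ 2 * (2 * a) * zet θ γ ε ω ℓ * (11 * log ℓ) := by
          apply mul_le_mul _ hσ hσ0 (by positivity)
          exact mul_le_mul_of_nonneg_right (by linarith) hζ0
      _ = 44 * (a * zet θ γ ε ω ℓ) * log ℓ := by ring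
      _ ≤ y0 := by
          rw [h9]
          have h10 : 44 / y0 * ℓ ^ (2 * γ - ω - 3 * ε / 2) * log ℓ =
              (44 * ℓ ^ (2 * γ - ω - 3 * ε / 2) * log ℓ) / y0 := by ring
          rw [h10, div_le_one hy0pos] at h5
          exact h5
  have hexp : exp (2 * (hL θ γ ε ℓ : ℝ) * zet θ γ ε ω ℓ *
      ∑ p ∈ prm (Wn ω ℓ) (Wp ℓ), 1 / (p : ℝ)) ≤ 1 + δ / 4 := by
    calc _ ≤ exp y0 := exp_le_exp.2 hy
      _ = 1 + δ / 4 := exp_log (by linarith)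
  linarith

end Pool.Agent.RG
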