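import Pool.Agent.RG.Defs

/-!
# RG / UUp: the upper bound `U ≤ q^|T| ∏ (1 + e_p)`

Induction from large to small primes (`prm_induction`, `plist_rec`, `prm_rec`), for all `T` at once
(the hypotheses are inherited by subsets `T' ⊆ T`: `cl` and `S2` are monotone).  Step: let `q` be the
value of `qq x` for the larger primes, `m = |T|`, `k_c = cl p c T`, `y = (1 - q)/q`.  With
`q' = q + (1 - q)/p` (the new value of `qq x`):
`U(p :: l, T) = (1/p) ∑_c U(l, T \ c) ≤ (1/p) ∑_c q^(m - k_c) Π`, `Π = ∏ (1 + e)` over the larger primes.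
* No collisions (all `k_c ≤ 1`): `= ((1 - m/p) q^m + (m/p) q^(m-1)) Π ≤ (q + (1 - q)/p)^m Π`
  (Bernoulli: `(q + b)^m ≥ q^m + m b q^(m-1)` with `b = (1 - q)/p`, by induction on `m`; valid also
  for `q = 0`).
* Otherwise `q ≥ 1/2`, `y ≤ 2 (1 - q)`, `k_c y ≤ 1` and
  `q^(-k) = (1 + y)^k ≤ 1 + k y + [k ≥ 2] (k y)^2` (as `(1+y)^k ≤ e^(ky) ≤ 1 + ky + (ky)^2` for
  `ky ≤ 1`; for `k ≤ 1` exact), so the sum is
  `≤ q^m (1 + m y/p + y^2 S2/p) Π ≤ q^m (1 + y/p)^m (1 + e_p) Π = q'^m (1 + e_p) Π`.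
-/

set_option autoImplicit false

namespace Pool.Agent.RG

open Finset

lemma cl_mono (p c : ℕ) {T' T : Finset ℕ} (h : T' ⊆ T) : cl p c T' ≤ cl p c T :=
  card_le_card (filter_subset_filter _ h)

lemma S2_mono (p : ℕ) {T' T : Finset ℕ} (h : T' ⊆ T) : S2 p T' ≤ S2 p T := by
  unfold S2
  refine sum_le_sum fun c _ => ?_
  have h1 := cl_mono p c h
  have h2 : (cl p c T' : ℝ) ≤ cl p c T := by exact_mod_cast h1
  split_ifs with h3 h4 h4
  · exact pow_le_pow_left₀ (Nat.cast_nonneg _) h2 2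
  · omega
  · positivity
  · exact le_rfl

lemma sum_cl (p : ℕ) (hp : 0 < p) (T : Finset ℕ) : ∑ c ∈ range p, cl p c T = T.card := by
  unfold cl
  rw [← card_eq_sum_card_fiberwise]
  intro t _
  exact mem_range.2 (Nat.mod_lt _ hp)

lemma card_del (p c : ℕ) (T : Finset ℕ) :
    (T.filter (fun t => t % p ≠ c)).card = T.card - cl p c T := by
  have h1 := card_filter_add_card_filter_not (s := T) (fun t => t % p = c)
  have h2 : (T.filter (fun t => ¬ (t % p = c))).card = (T.filter (fun t => t % p ≠ c)).card := rfl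
  unfold cl
  omega

lemma cl_le_card (p c : ℕ) (T : Finset ℕ) : cl p c T ≤ T.card := card_filter_le _ _

/-- Bernoulli -/
lemma bern (q b : ℝ) (hq : 0 ≤ q) (hb : 0 ≤ b) (m : ℕ) :
    q ^ m + m * b * q ^ (m - 1) ≤ (q + b) ^ m := by
  induction m with
  | zero => simp
  | succ m ih =>
    rw [Nat.add_sub_cancel]
    have h1 : (q ^ m + m * b * q ^ (m - 1)) * (q + b) ≤ (q + b) ^ m * (q + b) :=
      mul_le_mul_of_nonneg_right ih (by positivity)
    rw [← pow_succ] at h1
    refine le_trans ?_ h1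
    rcases Nat.eq_zero_or_pos m with h | h
    · subst h; simp
    · obtain ⟨k, rfl⟩ : ∃ k, m = k + 1 := ⟨m - 1, by omega⟩
      rw [Nat.add_sub_cancel]
      have h2 : 0 ≤ ((k : ℝ) + 1) * b * q ^ k * b := by positivity
      push_cast
      ring_nf
      ring_nf at h2
      nlinarith

/-- the step without collisions -/
lemma step_nocol (p : ℕ) (hp : 0 < p) (T : Finset ℕ) (q : ℝ) (hq : 0 ≤ q) (hq1 : q ≤ 1)
    (h : ∀ c ∈ range p, cl p c T ≤ 1) :
    (1 / (p : ℝ)) * ∑ c ∈ range p, q ^ (T.card - cl p c T) ≤ (q + (1 - q) / p) ^ T.card := by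
  have hp0 : (0 : ℝ) < p := by exact_mod_cast hp
  have h1 : ∀ c ∈ range p, q ^ (T.card - cl p c T) =
      q ^ T.card + (cl p c T : ℝ) * (q ^ (T.card - 1) - q ^ T.card) := by
    intro c hc
    have h2 := h c hc
    interval_cases h3 : cl p c T
    · simp
    · simp
  rw [sum_congr rfl h1, sum_add_distrib, sum_const, card_range, ← sum_mul, ← Nat.cast_sum,
    sum_cl p hp, nsmul_eq_mul]
  refine le_trans (le_of_eq ?_) (bern q ((1 - q) / p) hq (div_nonneg (by linarith) hp0.le) T.card)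
  rcases Nat.eq_zero_or_pos T.card with h4 | h4
  · rw [h4]; field_simp; simp
  · obtain ⟨k, hk⟩ : ∃ k, T.card = k + 1 := ⟨T.card - 1, by omega⟩
    rw [hk, Nat.add_sub_cancel, pow_succ]
    field_simp

/-- the step with collisions -/
lemma step_col (p : ℕ) (hp : 0 < p) (T : Finset ℕ) (q e : ℝ) (hq : 1 / 2 ≤ q) (hq1 : q ≤ 1)
    (h : ∀ c ∈ range p, (cl p c T : ℝ) * (2 * (1 - q)) ≤ 1)
    (he : (2 * (1 - q)) ^ 2 / p * S2 p T ≤ e) :
    (1 / (p : ℝ)) * ∑ c ∈ range p, q ^ (T.card - cl p c T) ≤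
      (q + (1 - q) / p) ^ T.card * (1 + e) := by
  have hp0 : (0 : ℝ) < p := by exact_mod_cast hp
  have hq0 : 0 < q := by linarith
  obtain ⟨y, hy⟩ : ∃ y, y = (1 - q) / q := ⟨_, rfl⟩
  have hy0 : 0 ≤ y := by rw [hy]; exact div_nonneg (by linarith) hq0.le
  have hy1 : y ≤ 2 * (1 - q) := by
    rw [hy, div_le_iff₀ hq0]; nlinarith
  have hqy : q * (1 + y) = 1 := by rw [hy]; field_simp; ring
  have hS2 : 0 ≤ S2 p T := by
    unfold S2
    refine sum_nonneg fun c _ => ?_
    split_ifs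
    · positivity
    · exact le_rfl
  have h1 : ∀ c ∈ range p, q ^ (T.card - cl p c T) ≤ q ^ T.card * (1 + (cl p c T : ℝ) * y +
      y ^ 2 * (if 2 ≤ cl p c T then (cl p c T : ℝ) ^ 2 else 0)) := by
    intro c hc
    have h2 : q ^ (T.card - cl p c T) = q ^ T.card * (1 + y) ^ cl p c T := by
      obtain ⟨k, hk⟩ : ∃ k, T.card = k + cl p c T :=
        ⟨T.card - cl p c T, by have := cl_le_card p c T; omega⟩
      rw [hk, Nat.add_sub_cancel, pow_add, mul_assoc, ← mul_pow, hqy, one_pow, mul_one]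
    rw [h2]
    apply mul_le_mul_of_nonneg_left _ (by positivity)
    have h3 : (cl p c T : ℝ) * y ≤ 1 :=
      le_trans (mul_le_mul_of_nonneg_left hy1 (Nat.cast_nonneg _)) (h c hc)
    by_cases h4 : 2 ≤ cl p c T
    · rw [if_pos h4]
      have h5 : (1 + y) ^ cl p c T ≤ Real.exp ((cl p c T : ℝ) * y) := by
        rw [mul_comm, Real.exp_mul, Real.rpow_natCast]
        apply pow_le_pow_left₀ (by positivity)
        linarith [Real.add_one_le_exp y]
      have h6 : 0 ≤ (cl p c T : ℝ) * y := by positivity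
      have h7 : |(cl p c T : ℝ) * y| ≤ 1 := by rw [abs_of_nonneg h6]; exact h3
      have h8 := Real.abs_exp_sub_one_sub_id_le h7
      have h9 := le_abs_self (Real.exp ((cl p c T : ℝ) * y) - 1 - (cl p c T : ℝ) * y)
      nlinarith
    · rw [if_neg h4]
      push Not at h4
      interval_cases h5 : cl p c T
      · simp
      · simp
  have h2 : (1 / (p : ℝ)) * ∑ c ∈ range p, q ^ (T.card - cl p c T) ≤
      q ^ T.card * (1 + T.card * (y / p) + y ^ 2 / p * S2 p T) := by
    calc _ ≤ (1 / (p : ℝ)) * ∑ c ∈ range p, q ^ T.card * (1 + (cl p c T : ℝ) * y +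
          y ^ 2 * (if 2 ≤ cl p c T then (cl p c T : ℝ) ^ 2 else 0)) :=
          mul_le_mul_of_nonneg_left (sum_le_sum h1) (by positivity)
      _ = _ := by
          rw [← mul_sum, sum_add_distrib, sum_add_distrib, sum_const, card_range, ← sum_mul,
            ← Nat.cast_sum, sum_cl p hp, ← mul_sum, nsmul_eq_mul]
          change _ = q ^ T.card * (1 + T.card * (y / p) + y ^ 2 / p *
            (∑ c ∈ range p, if 2 ≤ cl p c T then (cl p c T : ℝ) ^ 2 else 0))
          field_simp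
  refine le_trans h2 ?_
  have h3 : y ^ 2 / p * S2 p T ≤ e := by
    refine le_trans ?_ he
    apply mul_le_mul_of_nonneg_right _ hS2
    apply div_le_div_of_nonneg_right _ hp0.le
    exact pow_le_pow_left₀ hy0 hy1 2
  have h4 : 1 + T.card * (y / p) ≤ (1 + y / p) ^ T.card := by
    have := one_add_mul_le_pow (a := y / p) (by
      have : 0 ≤ y / p := by positivity
      linarith) T.card
    exact this
  have h5 : q * (1 + y / p) = q + (1 - q) / p := by
    rw [hy]; field_simp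
  have he0 : 0 ≤ e := le_trans (by positivity) h3
  have h6 : 0 ≤ y / p := by positivity
  calc q ^ T.card * (1 + T.card * (y / p) + y ^ 2 / p * S2 p T)
      ≤ q ^ T.card * ((1 + y / p) ^ T.card * (1 + e)) := by
        apply mul_le_mul_of_nonneg_left _ (by positivity)
        have h7 : 1 ≤ (1 + y / p) ^ T.card := one_le_pow₀ (by linarith)
        nlinarith
    _ = _ := by rw [← mul_assoc, ← mul_pow, h5]

lemma pr_nonneg (l : List ℕ) (hl : ∀ p ∈ l, 0 < p) : 0 ≤ pr l ∧ pr l ≤ 1 := by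
  induction l with
  | nil => simp [pr]
  | cons p l ih =>
    have h1 := ih (fun q hq => hl q (by simp [hq]))
    have hp : (1 : ℝ) ≤ p := by exact_mod_cast hl p (by simp)
    have h2 : pr (p :: l) = (1 - 1 / (p : ℝ)) * pr l := by
      unfold pr; rw [List.map_cons, List.prod_cons]
    have h3 : 0 ≤ 1 / (p : ℝ) := by positivity
    have h4 : 1 / (p : ℝ) ≤ 1 := by rw [div_le_one (by linarith)]; exact hp
    rw [h2]
    constructor
    · exact mul_nonneg (by linarith) h1.1
    · nlinarith [h1.1, h1.2]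

lemma plist_pos (a b : ℕ) : ∀ p ∈ plist a b, 0 < p := by
  intro p hp
  unfold plist at hp
  rw [List.mem_filter] at hp
  exact (of_decide_eq_true hp.2 : p.Prime).pos

lemma qq_cons (x : ℝ) (p : ℕ) (hp : 0 < p) (l : List ℕ) :
    qq x (p :: l) = qq x l + (1 - qq x l) / p := by
  have hp0 : (p : ℝ) ≠ 0 := by exact_mod_cast hp.ne'
  unfold qq
  have h2 : pr (p :: l) = (1 - 1 / (p : ℝ)) * pr l := by
    unfold pr; rw [List.map_cons, List.prod_cons]
  rw [h2]
  field_simp
  ring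

lemma qq_nonneg (x : ℝ) (hx0 : 0 ≤ x) (hx1 : x ≤ 1) (l : List ℕ) (hl : ∀ p ∈ l, 0 < p) :
    0 ≤ qq x l ∧ qq x l ≤ 1 := by
  have h := pr_nonneg l hl
  unfold qq
  constructor
  · nlinarith [h.1, h.2]
  · nlinarith [h.1, h.2]

theorem U_le_range (x : ℝ) (hx0 : 0 ≤ x) (hx1 : x ≤ 1) (e : ℕ → ℝ) (he : ∀ p, 0 ≤ e p)
    (T : Finset ℕ) (a b : ℕ) (hab : a ≤ b)
    (h : ∀ p ∈ prm a b, (∀ c ∈ range p, cl p c T ≤ 1) ∨
      (1 / 2 ≤ qq x (plist p b) ∧
        (∀ c ∈ range p, (cl p c T : ℝ) * (2 * (1 - qq x (plist p b))) ≤ 1) ∧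
        (2 * (1 - qq x (plist p b))) ^ 2 / p * S2 p T ≤ e p)) :
    U x (plist a b) T ≤ qq x (plist a b) ^ T.card * ∏ p ∈ prm a b, (1 + e p) := by
  revert T
  refine prm_induction (P := fun a => ∀ T : Finset ℕ,
    (∀ p ∈ prm a b, (∀ c ∈ range p, cl p c T ≤ 1) ∨
      (1 / 2 ≤ qq x (plist p b) ∧
        (∀ c ∈ range p, (cl p c T : ℝ) * (2 * (1 - qq x (plist p b))) ≤ 1) ∧
        (2 * (1 - qq x (plist p b))) ^ 2 / p * S2 p T ≤ e p)) →
    U x (plist a b) T ≤ qq x (plist a b) ^ T.card * ∏ p ∈ prm a b, (1 + e p)) a hab ?_ ?_ ?_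
  · intro T _
    rw [plist_self, prm_self]
    simp [U, qq, pr]
  · intro a hab hp ih T h
    rw [plist_rec a b hab, prm_rec a b hab, if_pos hp, if_pos hp, U,
      prod_insert (by rw [mem_prm]; omega)]
    rw [prm_rec a b hab, if_pos hp] at h
    have hq := qq_nonneg x hx0 hx1 (plist (a + 1) b) (plist_pos _ _)
    obtain ⟨q, hqdef⟩ : ∃ q, q = qq x (plist (a + 1) b) := ⟨_, rfl⟩
    have hPi : 0 ≤ ∏ p ∈ prm (a + 1) b, (1 + e p) :=
      prod_nonneg fun p _ => by linarith [he p]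
    have h1 : ∀ c ∈ range (a + 1),
        U x (plist (a + 1) b) (T.filter (fun t => t % (a + 1) ≠ c)) ≤
        q ^ (T.card - cl (a + 1) c T) * ∏ p ∈ prm (a + 1) b, (1 + e p) := by
      intro c _
      have h2 := ih (T.filter (fun t => t % (a + 1) ≠ c)) (by
        intro p hp'
        rcases h p (mem_insert_of_mem hp') with h3 | ⟨h3, h4, h5⟩
        · exact Or.inl fun c' hc' => le_trans (cl_mono p c' (filter_subset _ _)) (h3 c' hc')
        · refine Or.inr ⟨h3, fun c' hc' => le_trans ?_ (h4 c' hc'), le_trans ?_ h5⟩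
          · have hq' := qq_nonneg x hx0 hx1 (plist p b) (plist_pos _ _)
            apply mul_le_mul_of_nonneg_right _ (by linarith [hq'.2])
            exact_mod_cast cl_mono p c' (filter_subset _ _)
          · apply mul_le_mul_of_nonneg_left (S2_mono p (filter_subset _ _)) (by positivity))
      rwa [card_del, ← hqdef] at h2
    have h2 : (1 / ((a + 1 : ℕ) : ℝ)) * ∑ c ∈ range (a + 1),
        U x (plist (a + 1) b) (T.filter (fun t => t % (a + 1) ≠ c)) ≤
        ((1 / ((a + 1 : ℕ) : ℝ)) * ∑ c ∈ range (a + 1), q ^ (T.card - cl (a + 1) c T)) *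
          ∏ p ∈ prm (a + 1) b, (1 + e p) := by
      rw [mul_assoc, sum_mul]
      exact mul_le_mul_of_nonneg_left (sum_le_sum h1) (by positivity)
    refine le_trans h2 ?_
    rw [qq_cons x (a + 1) (by omega), ← hqdef, ← mul_assoc]
    apply mul_le_mul_of_nonneg_right _ hPi
    rw [← hqdef] at hq
    rcases h (a + 1) (mem_insert_self _ _) with h3 | ⟨h3, h4, h5⟩
    · have h6 := step_nocol (a + 1) (by omega) T q hq.1 hq.2 h3
      refine le_trans h6 ?_
      have h7 : 0 ≤ (q + (1 - q) / ((a + 1 : ℕ) : ℝ)) ^ T.card := by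
        apply pow_nonneg
        have : 0 ≤ (1 - q) / ((a + 1 : ℕ) : ℝ) := div_nonneg (by linarith [hq.2]) (by positivity)
        linarith [hq.1]
      nlinarith [he (a + 1)]
    · rw [← hqdef] at h3 h4 h5
      exact step_col (a + 1) (by omega) T q (e (a + 1)) h3 hq.2 h4 h5
  · intro a hab hp ih T h
    rw [plist_rec a b hab, prm_rec a b hab, if_neg hp, if_neg hp]
    rw [prm_rec a b hab, if_neg hp] at h
    exact ih T h

end Pool.Agent.RG
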