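import Pool.Agent.RG.PairN
import Pool.Agent.RG.UUp
import Pool.Agent.RG.Mer
import Pool.Agent.RG.Par

/-!
# RG / PairC: the cost of collisions for a pair of windows

`U_le_range` with `x = 0`, `a = W`, `b = Z`.  A class mod `p > W ≥ h` contains at most one element of
each window (so `cl ≤ 2`), and a collision needs `t ∈ win i`, `u ∈ win j`, `p ∣ u - t = (j-i) h + s`,
`|s| < h`, i.e. `hit h p (j-i)`, and then `p ≤ 2 R h` (`0 < u - t ≤ 2Rh`).  For such `p`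
`ρ = 1 - qq 0 (plist p Z) = pr (plist p Z) ≤ C log p/log Z ≤ 2 C log p/ℓ^θ → 0` (`log (2Rh) ~ ℓ^(γ-ε/3)`), so
`qq ≥ 1/2`, `2 * 2ρ ≤ 1`, `S2 ≤ 4 h`, cost `≤ 16 h ρ^2/p ≤ 64 C^2 h (log p)^2/(p ℓ^(2θ))`: take
`e p = zet` for hit `p ≤ Wp`, (`(log p)^2/p ≤ (10 log ℓ)^2/(ℓ^ω/2)`), and for hit `p > Wp = ⌊ℓ^10⌋`
`e p ≤ ℓ^(-8)`, at most `2 h log (2Rh)/log 2 ≤ ℓ^3` primes (`nk_le` with `w = Wp`), product
`≤ exp (ℓ^(-5)) ≤ 1 + ℓ⁻¹`; `e p = 0` for the other `p`.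
-/

set_option autoImplicit false

namespace Pool.Agent.RG

open Finset Real Filter

/-- two elements of a window in the same class. -/
private lemma pc_same {A h p t u : ℕ} (hp : h ≤ p) (ht : t ∈ Ico A (A + h)) (hu : u ∈ Ico A (A + h))
    (htu : t % p = u % p) : t = u := by
  rw [mem_Ico] at ht hu
  have key : ∀ a b : ℕ, a ≤ b → a % p = b % p → b < a + p → a = b := by
    intro a b hab hmod hlt
    have h1 : p ∣ b - a := (Nat.modEq_iff_dvd' hab).1 hmod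
    have h2 : b - a = 0 := Nat.eq_zero_of_dvd_of_lt h1 (by omega)
    omega
  rcases le_total t u with h1 | h1
  · exact key t u h1 htu (by omega)
  · exact (key u t h1 htu.symm (by omega)).symm

private lemma pc_hit {R h i j p t u : ℕ} (hp : h ≤ p) (hij : i < j)
    (ht : t ∈ Ico (R + i * h) (R + (i + 1) * h) ∪ Ico (R + j * h) (R + (j + 1) * h))
    (hu : u ∈ Ico (R + i * h) (R + (i + 1) * h) ∪ Ico (R + j * h) (R + (j + 1) * h))
    (hne : t ≠ u) (htu : t % p = u % p) : hit h p (j - i) := by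
  have ei : R + (i + 1) * h = (R + i * h) + h := by ring
  have ej : R + (j + 1) * h = (R + j * h) + h := by ring
  rw [ei, ej, mem_union] at ht hu
  have key : ∀ a b : ℕ, a % p = b % p → a ∈ Ico (R + i * h) (R + i * h + h) →
      b ∈ Ico (R + j * h) (R + j * h + h) → hit h p (j - i) := by
    intro a b hab ha hb
    rw [mem_Ico] at ha hb
    refine ⟨(b : ℤ) - a - ((j - i : ℕ) : ℤ) * h, ?_, ?_⟩
    · rw [Nat.cast_sub hij.le]
      have h1 : ((R + i * h : ℕ) : ℤ) ≤ a := by exact_mod_cast ha.1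
      have h2 : (a : ℤ) < ((R + i * h + h : ℕ) : ℤ) := by exact_mod_cast ha.2
      have h3 : ((R + j * h : ℕ) : ℤ) ≤ b := by exact_mod_cast hb.1
      have h4 : (b : ℤ) < ((R + j * h + h : ℕ) : ℤ) := by exact_mod_cast hb.2
      push_cast at h1 h2 h3 h4
      rw [abs_lt]
      constructor
      · linarith
      · linarith
    · have h1 : ((j - i : ℕ) : ℤ) * h + ((b : ℤ) - a - ((j - i : ℕ) : ℤ) * h) = (b : ℤ) - a := by
        ring
      rw [h1]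
      exact (Nat.modEq_iff_dvd.1 hab)
  rcases ht with ht | ht <;> rcases hu with hu | hu
  · exact absurd (pc_same hp ht hu htu) hne
  · exact key t u htu ht hu
  · exact key u t htu.symm hu ht
  · exact absurd (pc_same hp ht hu htu) hne

private lemma pc_cl {R h i j p c : ℕ} (hp : h ≤ p) (T : Finset ℕ)
    (hT : T ⊆ Ico (R + i * h) (R + (i + 1) * h) ∪ Ico (R + j * h) (R + (j + 1) * h)) :
    cl p c T ≤ 2 := by
  have ei : R + (i + 1) * h = (R + i * h) + h := by ring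
  have ej : R + (j + 1) * h = (R + j * h) + h := by ring
  rw [ei, ej] at hT
  have one : ∀ A : ℕ, ((Ico A (A + h)).filter (fun t => t % p = c)).card ≤ 1 := by
    intro A
    rw [card_le_one]
    intro a ha b hb
    rw [mem_filter] at ha hb
    exact pc_same hp ha.1 hb.1 (by rw [ha.2, hb.2])
  unfold cl
  calc (T.filter (fun t => t % p = c)).card
      ≤ (((Ico (R + i * h) (R + i * h + h)).filter (fun t => t % p = c)) ∪
        ((Ico (R + j * h) (R + j * h + h)).filter (fun t => t % p = c))).card := by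
        apply card_le_card
        intro t ht
        rw [mem_filter] at ht
        rw [mem_union, mem_filter, mem_filter]
        rcases mem_union.1 (hT ht.1) with h1 | h1
        · exact Or.inl ⟨h1, ht.2⟩
        · exact Or.inr ⟨h1, ht.2⟩
    _ ≤ _ := card_union_le _ _
    _ ≤ 1 + 1 := add_le_add (one _) (one _)

private lemma pc_S2 {R h i j p : ℕ} (hp0 : 0 < p) (hp : h ≤ p) (T : Finset ℕ)
    (hT : T ⊆ Ico (R + i * h) (R + (i + 1) * h) ∪ Ico (R + j * h) (R + (j + 1) * h)) :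
    S2 p T ≤ 4 * h := by
  have h1 : T.card ≤ 2 * h := by
    calc T.card ≤ _ := card_le_card hT
      _ ≤ _ := card_union_le _ _
      _ ≤ 2 * h := by
        rw [Nat.card_Ico, Nat.card_Ico]
        have ei : R + (i + 1) * h = (R + i * h) + h := by ring
        have ej : R + (j + 1) * h = (R + j * h) + h := by ring
        rw [ei, ej]
        omega
  have h2 : T.card = ∑ c ∈ range p, cl p c T :=
    card_eq_sum_card_fiberwise fun x _ => mem_coe.2 (mem_range.2 (Nat.mod_lt _ hp0))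
  unfold S2
  calc (∑ c ∈ range p, if 2 ≤ cl p c T then (cl p c T : ℝ) ^ 2 else 0)
      ≤ ∑ c ∈ range p, 2 * (cl p c T : ℝ) := by
        refine sum_le_sum fun c _ => ?_
        have h3 : (cl p c T : ℝ) ≤ 2 := by exact_mod_cast pc_cl hp T hT
        have h4 : (0 : ℝ) ≤ cl p c T := Nat.cast_nonneg _
        split_ifs
        · nlinarith
        · positivity
    _ = 2 * (T.card : ℝ) := by
        rw [← mul_sum, h2]
        push_cast
        rfl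
    _ ≤ 4 * h := by
        have : (T.card : ℝ) ≤ 2 * h := by exact_mod_cast h1
        linarith

private lemma pc_pr_nonneg (a b : ℕ) (hab : a ≤ b) : 0 ≤ pr (plist a b) := by
  unfold pr
  rw [prod_plist _ a b hab]
  refine prod_nonneg fun p hp => ?_
  have h1 : (1 : ℝ) ≤ p := by exact_mod_cast (mem_prm.1 hp).2.one_le
  have h2 : 1 / (p : ℝ) ≤ 1 := by rw [div_le_one (by linarith)]; exact h1
  linarith

private lemma pc_prod (h W Z Wq k : ℕ) (ζ η : ℝ) (hζ : 0 ≤ ζ) (hη : 0 ≤ η) (e : ℕ → ℝ)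
    (he0 : ∀ p, ¬ hit h p k → e p = 0) (he1 : ∀ p, hit h p k → p ≤ Wq → e p = ζ)
    (he2 : ∀ p, hit h p k → Wq < p → e p = η) :
    ∏ p ∈ prm W Z, (1 + e p) ≤ (1 + ζ) ^ nk h W Wq k * (1 + η) ^ nk h Wq Z k := by
  classical
  have h1 : ∀ p ∈ prm W Z, (1 + e p) = (if hit h p k ∧ p ≤ Wq then 1 + ζ else 1) *
      (if hit h p k ∧ Wq < p then 1 + η else 1) := by
    intro p _
    by_cases hh : hit h p k
    · rcases le_or_gt p Wq with h2 | h2
      · rw [he1 p hh h2, if_pos ⟨hh, h2⟩, if_neg (fun h3 => absurd h3.2 (not_lt.2 h2)), mul_one]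
      · rw [he2 p hh h2, if_neg (fun h3 : hit h p k ∧ p ≤ Wq => absurd h3.2 (not_le.2 h2)),
          if_pos (⟨hh, h2⟩ : hit h p k ∧ Wq < p), one_mul]
    · rw [he0 p hh, if_neg (fun h3 => hh h3.1), if_neg (fun h3 => hh h3.1)]
      ring
  rw [prod_congr rfl h1, prod_mul_distrib, ← prod_filter, ← prod_filter, prod_const, prod_const]
  refine mul_le_mul (pow_le_pow_right₀ (by linarith) ?_) (pow_le_pow_right₀ (by linarith) ?_)
    (by positivity) (by positivity)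
  · unfold nk
    apply card_le_card
    intro p hp
    rw [mem_filter, mem_prm] at hp
    rw [mem_filter, mem_prm]
    exact ⟨⟨⟨hp.1.1.1, hp.2.2⟩, hp.1.2⟩, hp.2.1⟩
  · unfold nk
    apply card_le_card
    intro p hp
    rw [mem_filter, mem_prm] at hp
    rw [mem_filter, mem_prm]
    exact ⟨⟨⟨hp.2.2, hp.1.1.2⟩, hp.1.2⟩, hp.2.1⟩

/-- the deterministic inequality. -/
private theorem pc_det (h R W Z Wq i j : ℕ) (ζ η : ℝ) (hζ : 0 ≤ ζ) (hη : 0 ≤ η) (hW : h ≤ W)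
    (hWZ : W ≤ Z) (hij : i < j) (T : Finset ℕ)
    (hT : T ⊆ Ico (R + i * h) (R + (i + 1) * h) ∪ Ico (R + j * h) (R + (j + 1) * h))
    (hρ : ∀ p ∈ prm W Z, hit h p (j - i) → pr (plist p Z) ≤ 1 / 4)
    (h1 : ∀ p ∈ prm W Z, hit h p (j - i) → p ≤ Wq → 16 * h * (pr (plist p Z)) ^ 2 / p ≤ ζ)
    (h2 : ∀ p ∈ prm W Z, hit h p (j - i) → Wq < p → 16 * h * (pr (plist p Z)) ^ 2 / p ≤ η) :
    U 0 (plist W Z) T ≤ qq 0 (plist W Z) ^ T.card *
      ((1 + ζ) ^ nk h W Wq (j - i) * (1 + η) ^ nk h Wq Z (j - i)) := by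
  classical
  have hrW : 0 ≤ pr (plist W Z) := pc_pr_nonneg W Z hWZ
  have hrW1 : pr (plist W Z) ≤ 1 := by
    unfold pr
    rw [prod_plist _ W Z hWZ]
    refine prod_le_one ?_ ?_
    · intro p hp
      have h1 : (1 : ℝ) ≤ p := by exact_mod_cast (mem_prm.1 hp).2.one_le
      have h2 : 1 / (p : ℝ) ≤ 1 := by rw [div_le_one (by linarith)]; exact h1
      linarith
    · intro p hp
      have h1 : (0 : ℝ) ≤ 1 / (p : ℝ) := by positivity
      linarith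
  have hq : 0 ≤ qq 0 (plist W Z) := by
    unfold qq
    linarith
  refine (U_le_range 0 le_rfl zero_le_one
    (fun p => if hit h p (j - i) then (if p ≤ Wq then ζ else η) else 0) ?_ T W Z hWZ ?_).trans ?_
  · intro p
    show 0 ≤ (if hit h p (j - i) then (if p ≤ Wq then ζ else η) else 0)
    split_ifs
    · exact hζ
    · exact hη
    · exact le_rfl
  · intro p hp
    have hpW : W < p := (mem_prm.1 hp).1.1
    have hpZ : p ≤ Z := (mem_prm.1 hp).1.2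
    have hpp : p.Prime := (mem_prm.1 hp).2
    have hp0 : (0 : ℝ) < p := by exact_mod_cast hpp.pos
    by_cases hh : hit h p (j - i)
    · right
      have hr := hρ p hp hh
      have hr0 : 0 ≤ pr (plist p Z) := pc_pr_nonneg p Z hpZ
      have hqq : 1 - qq 0 (plist p Z) = pr (plist p Z) := by
        unfold qq
        ring
      have hS := pc_S2 hpp.pos (hW.trans hpW.le) T hT
      refine ⟨by linarith, ?_, ?_⟩
      · intro c _
        rw [hqq]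
        have h3 : (cl p c T : ℝ) ≤ 2 := by exact_mod_cast pc_cl (hW.trans hpW.le) T hT
        have h4 : (cl p c T : ℝ) * (2 * pr (plist p Z)) ≤ 2 * (2 * pr (plist p Z)) :=
          mul_le_mul_of_nonneg_right h3 (by positivity)
        linarith
      · rw [hqq]
        have h5 : (2 * pr (plist p Z)) ^ 2 / p * S2 p T ≤ (2 * pr (plist p Z)) ^ 2 / p * (4 * h) :=
          mul_le_mul_of_nonneg_left hS (by positivity)
        have h6 : (2 * pr (plist p Z)) ^ 2 / p * (4 * h) = 16 * h * (pr (plist p Z)) ^ 2 / p := by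
          ring
        rw [h6] at h5
        refine h5.trans ?_
        show _ ≤ (if hit h p (j - i) then (if p ≤ Wq then ζ else η) else 0)
        rw [if_pos hh]
        by_cases h7 : p ≤ Wq
        · rw [if_pos h7]
          exact h1 p hp hh h7
        · rw [if_neg h7]
          exact h2 p hp hh (not_le.1 h7)
    · left
      intro c _
      by_contra h3
      rw [not_le] at h3
      obtain ⟨t, ht, u, hu, htu⟩ := one_lt_card.1 h3
      rw [mem_filter] at ht hu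
      exact hh (pc_hit (hW.trans hpW.le) hij (hT ht.1) (hT hu.1) htu (by rw [ht.2, hu.2]))
  · refine mul_le_mul_of_nonneg_left ?_ (pow_nonneg hq _)
    refine pc_prod h W Z Wq (j - i) ζ η hζ hη _ ?_ ?_ ?_
    · intro p hp
      exact if_neg hp
    · intro p hp hpW
      show (if hit h p (j - i) then (if p ≤ Wq then ζ else η) else 0) = ζ
      rw [if_pos hp, if_pos hpW]
    · intro p hp hpW
      show (if hit h p (j - i) then (if p ≤ Wq then ζ else η) else 0) = η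
      rw [if_pos hp, if_neg (not_le.2 hpW)]

/-- a hit prime is small. -/
private lemma pc_lt {h R p k : ℕ} (hk : 1 ≤ k) (hkR : k < R) (hh : hit h p k) : p < R * h := by
  obtain ⟨s, hs, hd⟩ := hh
  rw [abs_lt] at hs
  have hk1 : (1 : ℤ) ≤ k := by exact_mod_cast hk
  have hkR1 : (k : ℤ) + 1 ≤ R := by exact_mod_cast hkR
  have hh0 : (0 : ℤ) ≤ h := Int.natCast_nonneg h
  have h1 : (0 : ℤ) < k * h + s := by nlinarith
  have h2 := Int.le_of_dvd h1 hd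
  have h3 : (k : ℤ) * h + s < R * h := by nlinarith
  have h4 : (p : ℤ) < ((R * h : ℕ) : ℤ) := by
    push_cast
    linarith
  exact_mod_cast h4

theorem pairC (θ γ ε ω : ℝ) (hP : Par θ γ ε ω) : ∀ᶠ ℓ : ℝ in atTop,
    ∀ i j : ℕ, i < j → j < RL γ ε ℓ → ∀ T ⊆ win θ γ ε ℓ i ∪ win θ γ ε ℓ j,
      U 0 (plist (Wn ω ℓ) (Zn θ ℓ)) T ≤ qq 0 (plist (Wn ω ℓ) (Zn θ ℓ)) ^ T.card *
        ((1 + zet θ γ ε ω ℓ) ^ nk (hL θ γ ε ℓ) (Wn ω ℓ) (Wp ℓ) (j - i) * (1 + ℓ⁻¹)) := by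
  obtain ⟨hε, hγ, hγθ, hω, hω1⟩ := hP
  obtain ⟨c, C, hc, hC, hpr⟩ := pr_bounds
  filter_upwards [eventually_ge_atTop (2 : ℝ), asy0 (θ + γ - ε) ω 3 (by linarith),
    asy 0 θ 1 1 (by linarith), asy0 0 θ 2 (by linarith), asy 0 (γ - ε / 3) 2 1 (by linarith),
    asy0 0 (γ - ε / 3) 6 (by linarith), asy0 (γ - ε / 3) θ (16 * C) (by linarith),
    asy (γ - θ - ω - ε) (γ - θ - ω - ε / 2) (12800 * C ^ 2) 2 (by linarith),
    asy0 (3 * γ - θ - 5 * ε / 3) 2 (512 * C ^ 2) (by linarith),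
    asy0 (θ + γ - ε + (γ - ε / 3)) 2 16 (by linarith)]
    with ℓ E1 E3 E4 E5 E6a E6b E7 E8 E9 E10
  have hℓ0 : 0 < ℓ := by linarith
  have hℓ1 : 1 ≤ ℓ := by linarith
  have hlog : 0 ≤ log ℓ := log_nonneg hℓ1
  rw [rpow_zero, mul_one, one_mul, pow_one] at E4
  rw [rpow_zero, mul_one] at E5 E6b
  rw [rpow_zero, mul_one, pow_one] at E6a
  rw [rpow_two] at E9 E10
  have hx1 : 1 ≤ ℓ ^ (θ + γ - ε) := one_le_rpow hℓ1 (by linarith)
  have hg0 : 0 < ℓ ^ (γ - ε / 3) := rpow_pos_of_pos hℓ0 _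
  have hθ0 : 0 < ℓ ^ θ := rpow_pos_of_pos hℓ0 _
  have hω0 : 0 < ℓ ^ ω := rpow_pos_of_pos hℓ0 _
  have hh1 : (hL θ γ ε ℓ : ℝ) ≤ ℓ ^ (θ + γ - ε) + 1 := by
    unfold hL
    push_cast
    linarith [Nat.floor_le (by linarith : 0 ≤ ℓ ^ (θ + γ - ε))]
  have hh2 : (hL θ γ ε ℓ : ℝ) ≤ 2 * ℓ ^ (θ + γ - ε) := by linarith
  have hh3 : 1 ≤ hL θ γ ε ℓ := by
    unfold hL
    omega
  have hhr : (1 : ℝ) ≤ (hL θ γ ε ℓ : ℝ) := by exact_mod_cast hh3
  have hhW : hL θ γ ε ℓ ≤ Wn ω ℓ := by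
    unfold Wn
    apply Nat.le_floor
    linarith
  have hWZ : Wn ω ℓ ≤ Zn θ ℓ := by
    unfold Wn Zn
    apply Nat.floor_le_floor
    rw [rpow_def_of_pos hℓ0 ω]
    apply exp_le_exp.2
    nlinarith
  -- the logarithm of `Z`
  have hZ1 : exp (ℓ ^ θ / 2) ≤ (Zn θ ℓ : ℝ) := by
    have h1 : exp (ℓ ^ θ) < (Zn θ ℓ : ℝ) + 1 := Nat.lt_floor_add_one _
    have h2 : exp (ℓ ^ θ) = exp (ℓ ^ θ / 2) * exp (ℓ ^ θ / 2) := by
      rw [← exp_add]; congr 1; ring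
    have h3 : ℓ ^ θ / 2 + 1 ≤ exp (ℓ ^ θ / 2) := add_one_le_exp _
    nlinarith
  have hZ0 : (0 : ℝ) < (Zn θ ℓ : ℝ) := lt_of_lt_of_le (exp_pos _) hZ1
  have hlZ : ℓ ^ θ / 2 ≤ log (Zn θ ℓ : ℝ) := (le_log_iff_exp_le hZ0).2 hZ1
  intro i j hij hjR T hT
  have hk1 : 1 ≤ j - i := by omega
  have hkR : j - i < RL γ ε ℓ := by omega
  have hR0 : (1 : ℝ) ≤ (RL γ ε ℓ : ℝ) := by
    have : 1 ≤ RL γ ε ℓ := by omega
    exact_mod_cast this
  have hR1 : log (RL γ ε ℓ : ℝ) ≤ ℓ ^ (γ - ε / 3) := by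
    rw [log_le_iff_le_exp (by linarith)]
    exact Nat.floor_le (exp_pos _).le
  have hlh : log (hL θ γ ε ℓ : ℝ) ≤ 1 + log ℓ := by
    have h1 : log (hL θ γ ε ℓ : ℝ) ≤ log (2 * ℓ ^ (θ + γ - ε)) := log_le_log (by linarith) hh2
    rw [log_mul (by norm_num) (by positivity), log_rpow hℓ0] at h1
    have h2 := log_two_lt_d9
    nlinarith
  have hlRh : log (2 * (RL γ ε ℓ : ℝ) * (hL θ γ ε ℓ : ℝ)) ≤ 2 * ℓ ^ (γ - ε / 3) := by
    rw [log_mul (by positivity) (by positivity), log_mul (by norm_num) (by positivity)]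
    have h2 := log_two_lt_d9
    linarith
  -- hit primes
  have hlp : ∀ p : ℕ, p.Prime → hit (hL θ γ ε ℓ) p (j - i) → log (p : ℝ) ≤ 2 * ℓ ^ (γ - ε / 3) := by
    intro p hp hh
    have h1 := pc_lt hk1 hkR hh
    have h2 : (p : ℝ) ≤ (RL γ ε ℓ : ℝ) * (hL θ γ ε ℓ : ℝ) := by exact_mod_cast h1.le
    have hp0 : (0 : ℝ) < p := by exact_mod_cast hp.pos
    refine (log_le_log hp0 ?_).trans hlRh
    have h3 : 0 ≤ (RL γ ε ℓ : ℝ) * (hL θ γ ε ℓ : ℝ) := by positivity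
    nlinarith
  have hρ1 : ∀ p ∈ prm (Wn ω ℓ) (Zn θ ℓ), ∀ y : ℝ, log (p : ℝ) ≤ y →
      pr (plist p (Zn θ ℓ)) ≤ 2 * C * y / ℓ ^ θ := by
    intro p hp y hy
    have hpp := (mem_prm.1 hp).2
    have h1 := (hpr p (Zn θ ℓ) hpp.two_le (mem_prm.1 hp).1.2).2
    refine h1.trans ?_
    have h2 : 0 ≤ log (p : ℝ) := log_nonneg (by exact_mod_cast hpp.one_le)
    have h3 : log (p : ℝ) / log (Zn θ ℓ : ℝ) ≤ y / (ℓ ^ θ / 2) := by
      apply div_le_div₀ (h2.trans hy) hy (by positivity) hlZ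
    calc C * (log (p : ℝ) / log (Zn θ ℓ : ℝ)) ≤ C * (y / (ℓ ^ θ / 2)) :=
          mul_le_mul_of_nonneg_left h3 hC.le
      _ = 2 * C * y / ℓ ^ θ := by field_simp
  -- the second power of `η`
  have hη0 : (0 : ℝ) ≤ ℓ ^ 2 / ℓ ^ 10 := by positivity
  have hζ0 : 0 ≤ zet θ γ ε ω ℓ := rpow_nonneg hℓ0.le _
  have hdet := pc_det (hL θ γ ε ℓ) (RL γ ε ℓ) (Wn ω ℓ) (Zn θ ℓ) (Wp ℓ) i j (zet θ γ ε ω ℓ)
    (ℓ ^ 2 / ℓ ^ 10) hζ0 hη0 hhW hWZ hij T hT ?_ ?_ ?_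
  rotate_left
  · intro p hp hh
    have h1 := hρ1 p hp _ (hlp p (mem_prm.1 hp).2 hh)
    refine h1.trans ?_
    rw [div_le_iff₀ hθ0]
    linarith
  · -- small hit primes
    intro p hp hh hpW
    have hpp := (mem_prm.1 hp).2
    have hp0 : (0 : ℝ) < p := by exact_mod_cast hpp.pos
    have h2 : (p : ℝ) ≤ ℓ ^ 10 := (Nat.cast_le.2 hpW).trans (Nat.floor_le (by positivity))
    have h3 : log (p : ℝ) ≤ 10 * log ℓ := by
      have h4 := log_le_log hp0 h2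
      rw [log_pow] at h4
      exact_mod_cast h4
    have h5 := hρ1 p hp _ h3
    have h6 : ℓ ^ ω < p := Nat.lt_of_floor_lt (mem_prm.1 hp).1.1
    have h7 : 0 ≤ pr (plist p (Zn θ ℓ)) := pc_pr_nonneg p _ (mem_prm.1 hp).1.2
    have h8 : (pr (plist p (Zn θ ℓ))) ^ 2 ≤ (2 * C * (10 * log ℓ) / ℓ ^ θ) ^ 2 :=
      pow_le_pow_left₀ h7 h5 2
    calc 16 * (hL θ γ ε ℓ : ℝ) * (pr (plist p (Zn θ ℓ))) ^ 2 / p
        ≤ 16 * (2 * ℓ ^ (θ + γ - ε)) * (2 * C * (10 * log ℓ) / ℓ ^ θ) ^ 2 / ℓ ^ ω := by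
          apply div_le_div₀ (by positivity) _ hω0 h6.le
          apply mul_le_mul _ h8 (by positivity) (by positivity)
          linarith
      _ = 12800 * C ^ 2 * ℓ ^ (γ - θ - ω - ε) * log ℓ ^ 2 := by
          have e1 : ℓ ^ (γ - θ - ω - ε) = ℓ ^ (θ + γ - ε) / (ℓ ^ θ) ^ 2 / ℓ ^ ω := by
            rw [← rpow_natCast, ← rpow_mul hℓ0.le, ← rpow_sub hℓ0, ← rpow_sub hℓ0]
            congr 1
            push_cast
            ring
          rw [e1]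
          field_simp
          ring
      _ ≤ _ := E8
  · intro p hp hh hpW
    have hpp := (mem_prm.1 hp).2
    have hp0 : (0 : ℝ) < p := by exact_mod_cast hpp.pos
    have h5 := hρ1 p hp _ (hlp p (mem_prm.1 hp).2 hh)
    have h6 : ℓ ^ 10 < p := Nat.lt_of_floor_lt hpW
    have h7 : 0 ≤ pr (plist p (Zn θ ℓ)) := pc_pr_nonneg p _ (mem_prm.1 hp).1.2
    have h8 : (pr (plist p (Zn θ ℓ))) ^ 2 ≤ (2 * C * (2 * ℓ ^ (γ - ε / 3)) / ℓ ^ θ) ^ 2 :=
      pow_le_pow_left₀ h7 h5 2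
    calc 16 * (hL θ γ ε ℓ : ℝ) * (pr (plist p (Zn θ ℓ))) ^ 2 / p
        ≤ 16 * (2 * ℓ ^ (θ + γ - ε)) * (2 * C * (2 * ℓ ^ (γ - ε / 3)) / ℓ ^ θ) ^ 2 / ℓ ^ 10 := by
          apply div_le_div₀ (by positivity) _ (by positivity) h6.le
          apply mul_le_mul _ h8 (by positivity) (by positivity)
          linarith
      _ = (512 * C ^ 2 * ℓ ^ (3 * γ - θ - 5 * ε / 3)) / ℓ ^ 10 := by
          have e1 : ℓ ^ (3 * γ - θ - 5 * ε / 3) =
              ℓ ^ (θ + γ - ε) * (ℓ ^ (γ - ε / 3)) ^ 2 / (ℓ ^ θ) ^ 2 := by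
            rw [← rpow_natCast, ← rpow_natCast, ← rpow_mul hℓ0.le, ← rpow_mul hℓ0.le,
              ← rpow_add hℓ0, ← rpow_sub hℓ0]
            congr 1
            push_cast
            ring
          rw [e1]
          field_simp
          ring
      _ ≤ _ := div_le_div_of_nonneg_right E9 (by positivity)
  -- the large hit primes
  have hWp : 2 ≤ Wp ℓ := by
    unfold Wp
    apply Nat.le_floor
    calc ((2 : ℕ) : ℝ) = 2 := by norm_num
      _ ≤ ℓ := E1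
      _ = ℓ ^ 1 := (pow_one ℓ).symm
      _ ≤ ℓ ^ 10 := pow_le_pow_right₀ hℓ1 (by norm_num)
  have hn1 := nk_le (hL θ γ ε ℓ) (Wp ℓ) (Zn θ ℓ) (j - i) hWp hk1 hh3
  have hn2 : (nk (hL θ γ ε ℓ) (Wp ℓ) (Zn θ ℓ) (j - i) : ℝ) ≤ ℓ ^ 2 := by
    refine hn1.trans ?_
    have h1 : log (2 : ℝ) ≤ log (Wp ℓ : ℝ) := log_le_log (by norm_num) (by exact_mod_cast hWp)
    have h2 := log_two_gt_d9
    have h3 : (1 : ℝ) / 2 ≤ log (Wp ℓ : ℝ) := by linarith
    have hkr : ((j - i : ℕ) : ℝ) ≤ (RL γ ε ℓ : ℝ) := by exact_mod_cast hkR.le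
    have hkr1 : (1 : ℝ) ≤ ((j - i : ℕ) : ℝ) := by exact_mod_cast hk1
    have h4 : log (2 * ((j - i : ℕ) : ℝ) * (hL θ γ ε ℓ : ℝ)) ≤ 2 * ℓ ^ (γ - ε / 3) := by
      refine (log_le_log (by positivity) ?_).trans hlRh
      gcongr
    have h5 : 0 ≤ log (2 * ((j - i : ℕ) : ℝ) * (hL θ γ ε ℓ : ℝ)) := by
      apply log_nonneg
      nlinarith
    calc 2 * (hL θ γ ε ℓ : ℝ) * log (2 * ((j - i : ℕ) : ℝ) * (hL θ γ ε ℓ : ℝ)) / log (Wp ℓ : ℝ)
        ≤ 2 * (2 * ℓ ^ (θ + γ - ε)) * (2 * ℓ ^ (γ - ε / 3)) / (1 / 2) := by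
          apply div_le_div₀ (by positivity) _ (by norm_num) h3
          apply mul_le_mul _ h4 h5 (by positivity)
          linarith
      _ = 16 * ℓ ^ (θ + γ - ε + (γ - ε / 3)) := by
          rw [rpow_add hℓ0]
          ring
      _ ≤ _ := E10
  have hn3 : (1 + ℓ ^ 2 / ℓ ^ 10) ^ nk (hL θ γ ε ℓ) (Wp ℓ) (Zn θ ℓ) (j - i) ≤ 1 + ℓ⁻¹ := by
    have hp4 : (0 : ℝ) < ℓ ^ 10 := by positivity
    have h1 : (1 + ℓ ^ 2 / ℓ ^ 10) ≤ exp (ℓ ^ 2 / ℓ ^ 10) := by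
      rw [add_comm]
      exact add_one_le_exp _
    have h2 : (1 + ℓ ^ 2 / ℓ ^ 10) ^ nk (hL θ γ ε ℓ) (Wp ℓ) (Zn θ ℓ) (j - i)
        ≤ exp ((nk (hL θ γ ε ℓ) (Wp ℓ) (Zn θ ℓ) (j - i) : ℝ) * (ℓ ^ 2 / ℓ ^ 10)) := by
      rw [exp_nat_mul]
      exact pow_le_pow_left₀ (by positivity) h1 _
    have h3 : (nk (hL θ γ ε ℓ) (Wp ℓ) (Zn θ ℓ) (j - i) : ℝ) * (ℓ ^ 2 / ℓ ^ 10)
        ≤ (ℓ⁻¹) ^ 6 := by
      calc (nk (hL θ γ ε ℓ) (Wp ℓ) (Zn θ ℓ) (j - i) : ℝ) * (ℓ ^ 2 / ℓ ^ 10)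
          ≤ ℓ ^ 2 * (ℓ ^ 2 / ℓ ^ 10) := mul_le_mul_of_nonneg_right hn2 hη0
        _ = (ℓ⁻¹) ^ 6 := by
          field_simp
    have hi0 : 0 < ℓ⁻¹ := inv_pos.2 hℓ0
    have hi1 : ℓ⁻¹ ≤ 1 / 2 := by
      rw [inv_le_comm₀ hℓ0 (by norm_num)]
      norm_num
      exact E1
    have h4 : (ℓ⁻¹) ^ 6 ≤ ℓ⁻¹ / 2 := by
      have h5 : (ℓ⁻¹) ^ 5 ≤ (1 / 2) ^ 5 := pow_le_pow_left₀ hi0.le hi1 5
      have h6 : (ℓ⁻¹) ^ 6 = ℓ⁻¹ * (ℓ⁻¹) ^ 5 := by ring
      rw [h6]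
      nlinarith
    have h5 : |exp ((ℓ⁻¹) ^ 6) - 1| ≤ 2 * |(ℓ⁻¹) ^ 6| := by
      apply abs_exp_sub_one_le
      rw [abs_of_nonneg (by positivity)]
      linarith
    rw [abs_of_nonneg (by positivity : (0 : ℝ) ≤ (ℓ⁻¹) ^ 6)] at h5
    have h6 := (abs_le.1 h5).2
    have h7 := exp_le_exp.2 h3
    linarith
  refine hdet.trans ?_
  have hq0 : 0 ≤ qq 0 (plist (Wn ω ℓ) (Zn θ ℓ)) := by
    have hrW1 : pr (plist (Wn ω ℓ) (Zn θ ℓ)) ≤ 1 := by
      unfold pr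
      rw [prod_plist _ _ _ hWZ]
      refine prod_le_one ?_ ?_
      · intro p hp
        have h1 : (1 : ℝ) ≤ p := by exact_mod_cast (mem_prm.1 hp).2.one_le
        have h2 : 1 / (p : ℝ) ≤ 1 := by rw [div_le_one (by linarith)]; exact h1
        linarith
      · intro p hp
        have h1 : (0 : ℝ) ≤ 1 / (p : ℝ) := by positivity
        linarith
    unfold qq
    linarith
  refine mul_le_mul_of_nonneg_left ?_ (pow_nonneg hq0 _)
  exact mul_le_mul_of_nonneg_left hn3 (pow_nonneg (by linarith) _)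

end Pool.Agent.RG
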