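import Mathlib

/-!
# RG / SecM: weighted second moment

`Z(n) = ∑_i q^(-m_i) 1[n ∈ E_i]`.  `E Z ≥ (1-δ) R`, `E Z^2 ≤ ∑_i q^(-2 m_i) + (1+δ) R^2 ≤ (1+2δ) R^2`,
Cauchy-Schwarz: `(E Z)^2 ≤ E(Z^2) P(Z > 0)`.
-/

set_option autoImplicit false

namespace Pool.Agent.RG

open Finset

theorem second_moment (R Y : ℕ) (hR : 0 < R) (hY : 0 < Y) (E : ℕ → Finset ℕ)
    (hE : ∀ i < R, E i ⊆ range Y) (m : ℕ → ℕ) (q : ℝ) (hq : 0 < q) (hq1 : q ≤ 1)
    (δ : ℝ) (hδ0 : 0 ≤ δ) (hδ : δ < 1)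
    (hlow : ∀ i < R, (1 - δ) * q ^ m i ≤ ((E i).card : ℝ) / Y)
    (hup : ∑ i ∈ range R, ∑ j ∈ range R, (if i = j then (0 : ℝ) else
      ((E i ∩ E j).card : ℝ) / Y / (q ^ m i * q ^ m j)) ≤ (1 + δ) * R ^ 2)
    (hdiag : ∀ i < R, 1 / q ^ (2 * m i) ≤ δ * R) :
    (((range Y).filter (fun n => ∀ i < R, n ∉ E i)).card : ℝ) ≤
      (1 - (1 - δ) ^ 2 / (1 + 2 * δ)) * Y := by
  classical
  have hY' : (0 : ℝ) < Y := by exact_mod_cast hY
  have hR' : (0 : ℝ) < R := by exact_mod_cast hR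
  set w : ℕ → ℝ := fun n => ∑ i ∈ range R, if n ∈ E i then (q ^ m i)⁻¹ else 0 with hw
  set G := (range Y).filter (fun n => ∃ i < R, n ∈ E i) with hG
  have hcard : (((range Y).filter (fun n => ∀ i < R, n ∉ E i)).card : ℝ) + G.card = Y := by
    have h := Finset.card_filter_add_card_filter_not (s := range Y)
      (fun n => ∀ i < R, n ∉ E i)
    rw [card_range] at h
    have h2 : (range Y).filter (fun n => ¬ ∀ i < R, n ∉ E i) = G := by
      rw [hG]
      apply Finset.filter_congr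
      intro n _
      push Not
      rfl
    rw [h2] at h
    exact_mod_cast h
  have hcnt : ∀ s : Finset ℕ, s ⊆ range Y → ∑ n ∈ range Y, (if n ∈ s then (1 : ℝ) else 0) =
      s.card := by
    intro s hs
    rw [← Finset.sum_filter, Finset.sum_const, nsmul_eq_mul, mul_one]
    congr 2
    ext n
    simp only [mem_filter]
    exact ⟨fun h => h.2, fun h => ⟨hs h, h⟩⟩
  have hzero : ∀ n ∈ range Y, n ∉ G → w n = 0 := by
    intro n hn hnG
    rw [hw]
    refine Finset.sum_eq_zero fun i hi => ?_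
    rw [if_neg]
    intro h
    exact hnG (by rw [hG, mem_filter]; exact ⟨hn, i, mem_range.1 hi, h⟩)
  have hGs : G ⊆ range Y := Finset.filter_subset _ _
  -- first moment
  have h1 : (1 - δ) * R * Y ≤ ∑ n ∈ G, w n := by
    have e1 : ∑ n ∈ G, w n = ∑ n ∈ range Y, w n := Finset.sum_subset hGs hzero
    have e2 : ∑ n ∈ range Y, w n = ∑ i ∈ range R, (q ^ m i)⁻¹ * (E i).card := by
      rw [hw, Finset.sum_comm]
      refine Finset.sum_congr rfl fun i hi => ?_
      rw [← hcnt (E i) (hE i (mem_range.1 hi)), Finset.mul_sum]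
      refine Finset.sum_congr rfl fun n _ => ?_
      split_ifs <;> simp
    rw [e1, e2]
    have e3 : (1 - δ) * R * Y = ∑ i ∈ range R, (1 - δ) * Y := by
      rw [Finset.sum_const, card_range, nsmul_eq_mul]; ring
    rw [e3]
    refine Finset.sum_le_sum fun i hi => ?_
    have hq' : 0 < q ^ m i := pow_pos hq _
    have := hlow i (mem_range.1 hi)
    rw [le_div_iff₀ hY'] at this
    rw [← div_eq_inv_mul, le_div_iff₀ hq']
    nlinarith
  -- second moment
  have h2 : ∑ n ∈ G, w n ^ 2 ≤ (1 + 2 * δ) * R ^ 2 * Y := by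
    have e1 : ∑ n ∈ G, w n ^ 2 = ∑ n ∈ range Y, w n ^ 2 :=
      Finset.sum_subset hGs fun n hn hnG => by rw [hzero n hn hnG]; norm_num
    have e2 : ∑ n ∈ range Y, w n ^ 2 = ∑ i ∈ range R, ∑ j ∈ range R,
        (q ^ m i * q ^ m j)⁻¹ * (E i ∩ E j).card := by
      have : ∀ n ∈ range Y, w n ^ 2 = ∑ i ∈ range R, ∑ j ∈ range R,
          (q ^ m i * q ^ m j)⁻¹ * (if n ∈ E i ∩ E j then (1 : ℝ) else 0) := by
        intro n _
        rw [sq, hw]
        simp only []
        rw [Finset.sum_mul_sum]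
        refine Finset.sum_congr rfl fun i _ => Finset.sum_congr rfl fun j _ => ?_
        by_cases hi : n ∈ E i <;> by_cases hj : n ∈ E j <;> simp [hi, hj, mul_comm]
      rw [Finset.sum_congr rfl this, Finset.sum_comm]
      refine Finset.sum_congr rfl fun i hi => ?_
      rw [Finset.sum_comm]
      refine Finset.sum_congr rfl fun j _ => ?_
      rw [← hcnt (E i ∩ E j) (Finset.inter_subset_left.trans (hE i (mem_range.1 hi))),
        Finset.mul_sum]
    rw [e1, e2]
    have e3 : ∑ i ∈ range R, ∑ j ∈ range R, (q ^ m i * q ^ m j)⁻¹ * ((E i ∩ E j).card : ℝ) ≤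
        ∑ i ∈ range R, ((∑ j ∈ range R, (if i = j then (0 : ℝ) else
          ((E i ∩ E j).card : ℝ) / Y / (q ^ m i * q ^ m j)) * Y) + δ * R * Y) := by
      refine Finset.sum_le_sum fun i hi => ?_
      have hiR := mem_range.1 hi
      have e4 : ∀ j ∈ range R, (q ^ m i * q ^ m j)⁻¹ * ((E i ∩ E j).card : ℝ) =
          (if i = j then (0 : ℝ) else ((E i ∩ E j).card : ℝ) / Y / (q ^ m i * q ^ m j)) * Y +
          (if i = j then (q ^ m i * q ^ m j)⁻¹ * ((E i ∩ E j).card : ℝ) else 0) := by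
        intro j _
        split_ifs with h
        · simp
        · rw [add_zero]
          field_simp
      rw [Finset.sum_congr rfl e4, Finset.sum_add_distrib, Finset.sum_ite_eq (range R) i,
        if_pos hi]
      refine add_le_add le_rfl ?_
      rw [Finset.inter_self]
      have h5 := hdiag i hiR
      have h6 : ((E i).card : ℝ) ≤ Y := by
        have := Finset.card_le_card (hE i hiR)
        rw [card_range] at this
        exact_mod_cast this
      have h7 : (q ^ m i * q ^ m i)⁻¹ = 1 / q ^ (2 * m i) := by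
        rw [← pow_add, two_mul, one_div]
      rw [h7]
      exact mul_le_mul h5 h6 (Nat.cast_nonneg _) (by positivity)
    refine e3.trans ?_
    rw [Finset.sum_add_distrib, Finset.sum_const, card_range, nsmul_eq_mul]
    have e5 : ∑ i ∈ range R, ∑ j ∈ range R, (if i = j then (0 : ℝ) else
        ((E i ∩ E j).card : ℝ) / Y / (q ^ m i * q ^ m j)) * Y =
        (∑ i ∈ range R, ∑ j ∈ range R, (if i = j then (0 : ℝ) else
        ((E i ∩ E j).card : ℝ) / Y / (q ^ m i * q ^ m j))) * Y := by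
      rw [Finset.sum_mul]
      refine Finset.sum_congr rfl fun i _ => ?_
      rw [Finset.sum_mul]
    rw [e5]
    nlinarith [mul_le_mul_of_nonneg_right hup hY'.le]
  -- Cauchy-Schwarz
  have h3 : (∑ n ∈ G, w n) ^ 2 ≤ G.card * ∑ n ∈ G, w n ^ 2 := sq_sum_le_card_mul_sum_sq
  have h4 : ((1 - δ) * R * Y) ^ 2 ≤ G.card * ((1 + 2 * δ) * R ^ 2 * Y) := by
    have ha : 0 ≤ (1 - δ) * R * Y := by
      have : 0 < 1 - δ := by linarith
      positivity
    calc ((1 - δ) * R * Y) ^ 2 ≤ (∑ n ∈ G, w n) ^ 2 := pow_le_pow_left₀ ha h1 2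
      _ ≤ G.card * ∑ n ∈ G, w n ^ 2 := h3
      _ ≤ _ := mul_le_mul_of_nonneg_left h2 (Nat.cast_nonneg _)
  have h5 : (1 - δ) ^ 2 * Y ≤ G.card * (1 + 2 * δ) := by
    have h6 : ((1 - δ) ^ 2 * Y) * (R ^ 2 * Y) ≤ (G.card * (1 + 2 * δ)) * (R ^ 2 * Y) := by
      nlinarith
    exact le_of_mul_le_mul_right h6 (by positivity)
  have h6 : (0 : ℝ) < 1 + 2 * δ := by linarith
  have h7 : (1 - δ) ^ 2 / (1 + 2 * δ) * Y ≤ G.card := by
    rw [div_mul_eq_mul_div, div_le_iff₀ h6]
    exact h5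
  nlinarith

end Pool.Agent.RG
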