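import Pool.Agent.RG.ULow
import Pool.Agent.RG.Mer
import Pool.Agent.RG.Par

/-!
# RG / Single: lower bound for one window

`q_bounds`: `1 - qq = pr (plist W Z) ≤ C ω log ℓ/ℓ^θ * 2 → 0` (`pr_bounds`), `qq^(2h) ≥ exp (-4 h (1-qq))`,
`h (1-qq) ~ ℓ^(γ-ε) log ℓ`.
`single`: `U_ge_range` (no collisions, `|T| ≤ h ≤ W < p`): `m = |T|`,
`U ≥ q^m (1 - m^2 τ/(2 q^2))`, `τ = ∑ (pr (plist p Z)/p)^2 ≤ (C/log Z)^2 ∑ (log p/p)^2 ≤
C' ℓ^(-2θ) (log W)^2/W` (`log_sq_sum`), `h^2 τ ~ ℓ^(2γ - 2ε - ω) (log ℓ)^2 → 0` as `2γ ≤ θ + γ < ω`.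
-/

set_option autoImplicit false

namespace Pool.Agent.RG

open Finset Real Filter

private lemma qq_eq (l : List ℕ) : qq 0 l = 1 - pr l := by
  unfold qq
  ring

/-- basic size estimates -/
private lemma basics (θ γ ε ω : ℝ) (hP : Par θ γ ε ω) : ∀ᶠ ℓ : ℝ in atTop,
    1 ≤ ℓ ∧ 1 ≤ log ℓ ∧ 2 ≤ Wn ω ℓ ∧ Wn ω ℓ ≤ Zn θ ℓ ∧ log (Wn ω ℓ) ≤ log ℓ ∧
    ℓ ^ θ / 2 ≤ log (Zn θ ℓ) ∧ ℓ ^ ω / 2 ≤ Wn ω ℓ ∧ (hL θ γ ε ℓ : ℝ) ≤ 2 * ℓ ^ (θ + γ - ε) ∧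
    hL θ γ ε ℓ ≤ Wn ω ℓ := by
  obtain ⟨hε, hγ, hγθ, hω, hω1⟩ := hP
  have e1 := asy0 (θ + γ - ε) ω 2 (by linarith)
  have e2 := asy0 0 ω 2 (by linarith)
  have e3 := asy0 0 θ 2 (by linarith)
  have e4 := asy 0 θ 1 1 (by linarith)
  filter_upwards [e1, e2, e3, e4, eventually_ge_atTop (exp 1)] with ℓ h1 h2 h3 h4 hℓ
  have hexp1 : (1 : ℝ) < exp 1 := by
    have := add_one_lt_exp (x := (1 : ℝ)) (by norm_num)
    linarith
  have hℓ1 : 1 < ℓ := lt_of_lt_of_le hexp1 hℓ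
  have hℓ0 : 0 < ℓ := by linarith
  have hlog1 : 1 ≤ log ℓ := by
    rw [← log_exp 1]
    exact log_le_log (exp_pos 1) hℓ
  simp only [rpow_zero, mul_one, one_mul, pow_one] at h2 h3 h4
  have hωℓ : ℓ ^ ω ≤ ℓ := by
    calc ℓ ^ ω ≤ ℓ ^ (1 : ℝ) := rpow_le_rpow_of_exponent_le hℓ1.le hω1.le
      _ = ℓ := rpow_one _
  have hW2 : 2 ≤ Wn ω ℓ := by
    unfold Wn
    apply Nat.le_floor
    push_cast
    linarith
  have hW2' : (2 : ℝ) ≤ Wn ω ℓ := by exact_mod_cast hW2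
  have hWle : (Wn ω ℓ : ℝ) ≤ ℓ ^ ω := Nat.floor_le (by positivity)
  have hWge : ℓ ^ ω < Wn ω ℓ + 1 := Nat.lt_floor_add_one _
  have ha1 : 1 ≤ ℓ ^ (θ + γ - ε) := one_le_rpow hℓ1.le (by linarith)
  have hh : (hL θ γ ε ℓ : ℝ) ≤ 2 * ℓ ^ (θ + γ - ε) := by
    unfold hL
    push_cast
    have := Nat.floor_le (show 0 ≤ ℓ ^ (θ + γ - ε) by positivity)
    linarith
  have hexpθ : ℓ ≤ exp (ℓ ^ θ) := by
    calc ℓ = exp (log ℓ) := (exp_log hℓ0).symm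
      _ ≤ exp (ℓ ^ θ) := exp_le_exp.2 h4
  refine ⟨hℓ1.le, hlog1, hW2, ?_, ?_, ?_, by linarith, hh, ?_⟩
  · unfold Zn
    apply Nat.le_floor
    linarith
  · exact log_le_log (by linarith) (by linarith)
  · have hZ : exp (ℓ ^ θ) < Zn θ ℓ + 1 := Nat.lt_floor_add_one _
    have hexp2 : 2 ≤ exp (ℓ ^ θ) := by
      have := add_one_le_exp (ℓ ^ θ)
      linarith
    have hZ2 : exp (ℓ ^ θ) / 2 ≤ Zn θ ℓ := by linarith
    have h5 := log_le_log (by positivity) hZ2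
    rw [log_div (exp_pos _).ne' (by norm_num), log_exp] at h5
    have h6 : log 2 ≤ 1 := by
      have := log_two_lt_d9
      linarith
    linarith
  · unfold Wn
    apply Nat.le_floor
    linarith

/-- the survival probability -/
private lemma pr_small (θ γ ε ω : ℝ) (hP : Par θ γ ε ω) : ∃ C : ℝ, 0 < C ∧ ∀ᶠ ℓ : ℝ in atTop,
    0 ≤ pr (plist (Wn ω ℓ) (Zn θ ℓ)) ∧
    pr (plist (Wn ω ℓ) (Zn θ ℓ)) ≤ C * log ℓ * ℓ ^ (-θ) := by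
  obtain ⟨c, C, hc, hC, hpr⟩ := pr_bounds
  refine ⟨2 * C, by positivity, ?_⟩
  filter_upwards [basics θ γ ε ω hP] with ℓ hb
  obtain ⟨hℓ, hlog, hW, hWZ, hlogW, hlogZ, -, -, -⟩ := hb
  obtain ⟨h1, h2⟩ := hpr _ _ hW hWZ
  have hℓ0 : 0 < ℓ := by linarith
  have hθ0 : 0 < ℓ ^ θ := rpow_pos_of_pos hℓ0 _
  have hlogW0 : 0 ≤ log (Wn ω ℓ) := log_natCast_nonneg _
  have hlogZ0 : 0 < log (Zn θ ℓ) := by linarith
  constructor
  · refine le_trans ?_ h1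
    positivity
  · refine h2.trans ?_
    rw [rpow_neg hℓ0.le]
    have h3 : log (Wn ω ℓ) / log (Zn θ ℓ) ≤ log ℓ / (ℓ ^ θ / 2) :=
      div_le_div₀ (by linarith) hlogW (by positivity) hlogZ
    calc C * (log (Wn ω ℓ) / log (Zn θ ℓ)) ≤ C * (log ℓ / (ℓ ^ θ / 2)) :=
          mul_le_mul_of_nonneg_left h3 hC.le
      _ = 2 * C * log ℓ * (ℓ ^ θ)⁻¹ := by
          field_simp

theorem q_bounds (θ γ ε ω : ℝ) (hP : Par θ γ ε ω) : ∀ᶠ ℓ : ℝ in atTop,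
    1 / 2 ≤ qq 0 (plist (Wn ω ℓ) (Zn θ ℓ)) ∧ qq 0 (plist (Wn ω ℓ) (Zn θ ℓ)) ≤ 1 ∧
    exp (-ℓ ^ (γ - 3 * ε / 4)) ≤ qq 0 (plist (Wn ω ℓ) (Zn θ ℓ)) ^ (2 * hL θ γ ε ℓ) := by
  obtain ⟨C, hC, hpr⟩ := pr_small θ γ ε ω hP
  have hP' := hP
  obtain ⟨hε, hγ, hγθ, hω, hω1⟩ := hP
  have e1 := asy (-θ) 0 (2 * C) 1 (by linarith)
  have e2 := asy (γ - ε) (γ - 3 * ε / 4) (8 * C) 1 (by linarith)
  filter_upwards [hpr, basics θ γ ε ω hP', e1, e2] with ℓ hp hb h1 h2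
  obtain ⟨hℓ, hlog, hW, hWZ, hlogW, hlogZ, -, hh, -⟩ := hb
  obtain ⟨hp0, hp1⟩ := hp
  have hℓ0 : 0 < ℓ := by linarith
  simp only [rpow_zero, pow_one] at h1 h2
  set P := pr (plist (Wn ω ℓ) (Zn θ ℓ)) with hPdef
  have hP2 : P ≤ 1 / 2 := by
    have : 2 * (C * log ℓ * ℓ ^ (-θ)) ≤ 1 := by
      calc 2 * (C * log ℓ * ℓ ^ (-θ)) = 2 * C * ℓ ^ (-θ) * log ℓ := by ring
        _ ≤ 1 := h1
    linarith
  rw [qq_eq, ← hPdef]
  refine ⟨by linarith, by linarith, ?_⟩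
  -- `1 - P ≥ exp (-2 P)`
  have h3 : exp (-(2 * P)) ≤ 1 - P := by
    have h4 : 1 / (1 - P) ≤ exp (2 * P) := by
      have h5 : 1 / (1 - P) ≤ 1 + 2 * P := by
        rw [div_le_iff₀ (by linarith)]
        nlinarith
      have := add_one_le_exp (2 * P)
      linarith
    rw [exp_neg]
    rw [one_div] at h4
    have h6 : (exp (2 * P))⁻¹ ≤ ((1 - P)⁻¹)⁻¹ :=
      inv_anti₀ (inv_pos.2 (by linarith)) h4
    rwa [inv_inv] at h6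
  calc exp (-ℓ ^ (γ - 3 * ε / 4)) ≤ exp (((2 * hL θ γ ε ℓ : ℕ) : ℝ) * (-(2 * P))) := by
        apply exp_le_exp.2
        push_cast
        have h7 : ℓ ^ (θ + γ - ε) * ℓ ^ (-θ) = ℓ ^ (γ - ε) := by
          rw [← rpow_add hℓ0]
          congr 1
          ring
        have h8 : 2 * (hL θ γ ε ℓ : ℝ) * (2 * P) ≤ ℓ ^ (γ - 3 * ε / 4) := by
          calc 2 * (hL θ γ ε ℓ : ℝ) * (2 * P)
              ≤ 2 * (2 * ℓ ^ (θ + γ - ε)) * (2 * (C * log ℓ * ℓ ^ (-θ))) := by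
                apply mul_le_mul (by linarith) (by linarith) (by linarith) (by positivity)
            _ = 8 * C * (ℓ ^ (θ + γ - ε) * ℓ ^ (-θ)) * log ℓ := by ring
            _ ≤ ℓ ^ (γ - 3 * ε / 4) := by
                rw [h7]
                exact h2
        linarith
    _ = exp (-(2 * P)) ^ (2 * hL θ γ ε ℓ) := exp_nat_mul _ _
    _ ≤ (1 - P) ^ (2 * hL θ γ ε ℓ) := pow_le_pow_left₀ (exp_pos _).le h3 _

theorem single (θ γ ε ω : ℝ) (hP : Par θ γ ε ω) (δ : ℝ) (hδ : 0 < δ) : ∀ᶠ ℓ : ℝ in atTop,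
    ∀ (i : ℕ), ∀ T ⊆ win θ γ ε ℓ i,
      (1 - δ) * qq 0 (plist (Wn ω ℓ) (Zn θ ℓ)) ^ T.card ≤ U 0 (plist (Wn ω ℓ) (Zn θ ℓ)) T := by
  obtain ⟨c, C, hc, hC, hpr⟩ := pr_bounds
  obtain ⟨C2, hC2, hlogsq⟩ := log_sq_sum
  have hP' := hP
  obtain ⟨hε, hγ, hγθ, hω, hω1⟩ := hP
  have e1 := asy (2 * γ - 2 * ε - ω) 0 (64 * C ^ 2 * C2 / δ) 2 (by linarith)
  filter_upwards [q_bounds θ γ ε ω hP', basics θ γ ε ω hP', e1] with ℓ hq hb h1 i T hT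
  obtain ⟨hℓ, hlog, hW, hWZ, hlogW, hlogZ, hWge, hh, hhW⟩ := hb
  obtain ⟨hq1, hq2, -⟩ := hq
  have hℓ0 : 0 < ℓ := by linarith
  rw [rpow_zero] at h1
  set q := qq 0 (plist (Wn ω ℓ) (Zn θ ℓ)) with hqdef
  -- the cardinality
  have hcard : T.card ≤ hL θ γ ε ℓ := by
    have h2 := card_le_card hT
    unfold win at h2
    rw [Nat.card_Ico] at h2
    have h3 : (i + 1) * hL θ γ ε ℓ = i * hL θ γ ε ℓ + hL θ γ ε ℓ := by ring
    omega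
  -- no collisions
  have hcoll : ∀ p ∈ prm (Wn ω ℓ) (Zn θ ℓ), ∀ c ∈ range p, cl p c T ≤ 1 := by
    intro p hp c _
    have hpW := (mem_prm.1 hp).1.1
    unfold cl
    rw [card_le_one]
    intro t ht u hu
    rw [mem_filter] at ht hu
    have ht1 := hT ht.1
    have hu1 := hT hu.1
    unfold win at ht1 hu1
    rw [mem_Ico] at ht1 hu1
    have h3 : (i + 1) * hL θ γ ε ℓ = i * hL θ γ ε ℓ + hL θ γ ε ℓ := by ring
    have h4 : t ≡ u [MOD p] := ht.2.trans hu.2.symm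
    by_contra hne
    rcases Nat.lt_or_gt_of_ne hne with h5 | h5
    · have h6 := (Nat.modEq_iff_dvd' h5.le).1 h4
      have h7 := Nat.le_of_dvd (by omega) h6
      omega
    · have h6 := (Nat.modEq_iff_dvd' h5.le).1 h4.symm
      have h7 := Nat.le_of_dvd (by omega) h6
      omega
  have hU := U_ge_range T (Wn ω ℓ) (Zn θ ℓ) hWZ hcoll
  rw [← hqdef] at hU
  refine le_trans ?_ hU
  set τ := ∑ p ∈ prm (Wn ω ℓ) (Zn θ ℓ), ((1 - qq 0 (plist p (Zn θ ℓ))) / p) ^ 2 with hτ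
  -- the size of `τ`
  have hlogZ0 : 0 < log (Zn θ ℓ) := by
    have : 0 < ℓ ^ θ := rpow_pos_of_pos hℓ0 _
    linarith
  have hW0 : (0 : ℝ) < Wn ω ℓ := by
    have : 0 < Wn ω ℓ := by omega
    exact_mod_cast this
  have hτle : τ ≤ (C / log (Zn θ ℓ)) ^ 2 * (C2 * (log (Wn ω ℓ)) ^ 2 / Wn ω ℓ) := by
    calc τ ≤ ∑ p ∈ prm (Wn ω ℓ) (Zn θ ℓ), (C / log (Zn θ ℓ)) ^ 2 * (log p / p) ^ 2 := by
          apply sum_le_sum
          intro p hp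
          have hp' := mem_prm.1 hp
          have hp2 : 2 ≤ p := hp'.2.two_le
          have hp0 : (0 : ℝ) < p := by
            have : 0 < p := by omega
            exact_mod_cast this
          obtain ⟨h3, h4⟩ := hpr p (Zn θ ℓ) hp2 hp'.1.2
          have hlogp : 0 ≤ log p := log_natCast_nonneg p
          have h5 : 0 ≤ pr (plist p (Zn θ ℓ)) := le_trans (by positivity) h3
          rw [qq_eq, ← mul_pow]
          apply pow_le_pow_left₀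
          · rw [sub_sub_cancel]
            positivity
          · rw [sub_sub_cancel, div_le_iff₀ hp0]
            calc pr (plist p (Zn θ ℓ)) ≤ C * (log p / log (Zn θ ℓ)) := h4
              _ = C / log (Zn θ ℓ) * (log p / p) * p := by
                  field_simp
      _ = (C / log (Zn θ ℓ)) ^ 2 * ∑ p ∈ prm (Wn ω ℓ) (Zn θ ℓ), (log p / p) ^ 2 := by
          rw [mul_sum]
      _ ≤ _ := mul_le_mul_of_nonneg_left (hlogsq _ _ hW) (by positivity)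
  have hτ0 : 0 ≤ τ := sum_nonneg fun p _ => sq_nonneg _
  have hθ0 : 0 < ℓ ^ θ := rpow_pos_of_pos hℓ0 _
  have hω0 : 0 < ℓ ^ ω := rpow_pos_of_pos hℓ0 _
  have hlogW0 : 0 ≤ log (Wn ω ℓ) := log_natCast_nonneg _
  have hτ2 : τ ≤ 8 * C ^ 2 * C2 * (log ℓ) ^ 2 * ((ℓ ^ θ)⁻¹ ^ 2 * (ℓ ^ ω)⁻¹) := by
    refine hτle.trans ?_
    have h3 : C / log (Zn θ ℓ) ≤ C / (ℓ ^ θ / 2) := div_le_div_of_nonneg_left hC.le (by positivity) hlogZ
    have h4 : C2 * (log (Wn ω ℓ)) ^ 2 / Wn ω ℓ ≤ C2 * (log ℓ) ^ 2 / (ℓ ^ ω / 2) := by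
      apply div_le_div₀ (by positivity) _ (by positivity) hWge
      apply mul_le_mul_of_nonneg_left _ hC2.le
      exact pow_le_pow_left₀ hlogW0 hlogW 2
    calc (C / log (Zn θ ℓ)) ^ 2 * (C2 * (log (Wn ω ℓ)) ^ 2 / Wn ω ℓ)
        ≤ (C / (ℓ ^ θ / 2)) ^ 2 * (C2 * (log ℓ) ^ 2 / (ℓ ^ ω / 2)) :=
          mul_le_mul (pow_le_pow_left₀ (by positivity) h3 2) h4 (by positivity) (by positivity)
      _ = 8 * C ^ 2 * C2 * (log ℓ) ^ 2 * ((ℓ ^ θ)⁻¹ ^ 2 * (ℓ ^ ω)⁻¹) := by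
          field_simp
          ring
  have hh2 : (hL θ γ ε ℓ : ℝ) ^ 2 * τ ≤ δ / 2 := by
    have h3 : (hL θ γ ε ℓ : ℝ) ^ 2 ≤ (2 * ℓ ^ (θ + γ - ε)) ^ 2 :=
      pow_le_pow_left₀ (Nat.cast_nonneg _) hh 2
    have h4 : (ℓ ^ (θ + γ - ε)) ^ 2 * ((ℓ ^ θ)⁻¹ ^ 2 * (ℓ ^ ω)⁻¹) = ℓ ^ (2 * γ - 2 * ε - ω) := by
      rw [← rpow_neg hℓ0.le, ← rpow_neg hℓ0.le, ← rpow_natCast, ← rpow_natCast, ← rpow_mul hℓ0.le,
        ← rpow_mul hℓ0.le, ← rpow_add hℓ0, ← rpow_add hℓ0]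
      congr 1
      push_cast
      ring
    calc (hL θ γ ε ℓ : ℝ) ^ 2 * τ ≤ (2 * ℓ ^ (θ + γ - ε)) ^ 2 *
          (8 * C ^ 2 * C2 * (log ℓ) ^ 2 * ((ℓ ^ θ)⁻¹ ^ 2 * (ℓ ^ ω)⁻¹)) :=
          mul_le_mul h3 hτ2 hτ0 (by positivity)
      _ = 32 * C ^ 2 * C2 * ((ℓ ^ (θ + γ - ε)) ^ 2 * ((ℓ ^ θ)⁻¹ ^ 2 * (ℓ ^ ω)⁻¹)) * (log ℓ) ^ 2 := by
          ring
      _ = (64 * C ^ 2 * C2 / δ * ℓ ^ (2 * γ - 2 * ε - ω) * (log ℓ) ^ 2) * (δ / 2) := by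
          rw [h4]
          field_simp
          ring
      _ ≤ 1 * (δ / 2) := mul_le_mul_of_nonneg_right h1 (by positivity)
      _ = δ / 2 := one_mul _
  -- conclusion
  have hchoose : (T.card.choose 2 : ℝ) * q ^ (T.card - 2) * τ ≤ δ * q ^ T.card := by
    rcases Nat.lt_or_ge T.card 2 with h3 | h3
    · rw [Nat.choose_eq_zero_of_lt h3]
      have : 0 ≤ q := by linarith
      simp only [Nat.cast_zero, zero_mul]
      positivity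
    · obtain ⟨m, hm⟩ : ∃ m, T.card = m + 2 := ⟨T.card - 2, by omega⟩
      rw [hm, Nat.add_sub_cancel]
      have h4 : ((m + 2).choose 2 : ℝ) ≤ (hL θ γ ε ℓ : ℝ) ^ 2 / 2 := by
        have h5 : ((m + 2).choose 2 : ℝ) ≤ ((m + 2 : ℕ) : ℝ) ^ 2 / ((2 : ℕ).factorial : ℝ) :=
          Nat.choose_le_pow_div 2 (m + 2)
        have h6 : ((m + 2 : ℕ) : ℝ) ≤ hL θ γ ε ℓ := by
          rw [← hm]
          exact_mod_cast hcard
        have h7 : ((m + 2 : ℕ) : ℝ) ^ 2 ≤ (hL θ γ ε ℓ : ℝ) ^ 2 :=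
          pow_le_pow_left₀ (Nat.cast_nonneg _) h6 2
        refine h5.trans ?_
        rw [Nat.factorial_two, Nat.cast_ofNat]
        linarith
      have hqm : 0 < q ^ m := pow_pos (by linarith) m
      have hqq : 1 / 4 ≤ q ^ 2 := by nlinarith
      calc ((m + 2).choose 2 : ℝ) * q ^ m * τ ≤ (hL θ γ ε ℓ : ℝ) ^ 2 / 2 * q ^ m * τ := by
            apply mul_le_mul_of_nonneg_right _ hτ0
            exact mul_le_mul_of_nonneg_right h4 hqm.le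
        _ = ((hL θ γ ε ℓ : ℝ) ^ 2 * τ) / 2 * q ^ m := by ring
        _ ≤ (δ / 2) / 2 * q ^ m := by
            apply mul_le_mul_of_nonneg_right _ hqm.le
            linarith
        _ = δ * (q ^ m * (1 / 4)) := by ring
        _ ≤ δ * (q ^ m * q ^ 2) := by
            apply mul_le_mul_of_nonneg_left _ hδ.le
            exact mul_le_mul_of_nonneg_left hqq hqm.le
        _ = δ * q ^ (m + 2) := by rw [pow_add]
  linarith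

end Pool.Agent.RG
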