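import Pool.Agent.RG.TailP
import Pool.Agent.RG.Single
import Pool.Agent.RG.PairC
import Pool.Agent.RG.PairA
import Pool.Agent.RG.SecM

/-!
# RG / LowA: for every `a`, almost all `n`, some window is killed completely

`T_i = {t ∈ win i | ∀ p ∈ prm 0 W, ¬ p ∣ a + t}`, `m_i = |T_i| ≤ h`, `E_i` = the `n < Y` for which all
`t ∈ T_i` are killed by `prm W Z`.  `second_moment` with `q = qq 0 l`, small `δ' = δ'(δ)`:
* `hlow`: `single`, `tailP` (`i = j`), and `exp (-ℓ^(γ-2ε/3)) ≤ δ'' q^(2h)` (`q_bounds`);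
* `hup`: `E_i ∩ E_j` = all `t ∈ T_i ∪ T_j` killed; `tailP`, `pairC` (`|T_i ∪ T_j| = m_i + m_j`, the windows
  are disjoint), then `∑_{i ≠ j} (..)(|i-j|) ≤ 2 R ∑_{k ≤ R} (..(k) - 1) + R^2`, `pairA`;
* `hdiag`: `q^(-2h) ≤ exp (ℓ^(γ-3ε/4)) ≤ δ' R`.
-/

set_option autoImplicit false

namespace Pool.Agent.RG

open Finset Real Filter

lemma sum_dist_le (R i : ℕ) (hi : i < R) (g : ℕ → ℝ) (hg : ∀ k, 0 ≤ g k) :
    ∑ j ∈ range R, (if i = j then (0 : ℝ) else g (max i j - min i j)) ≤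
      2 * ∑ k ∈ Icc 1 R, g k := by
  have h1 : ∑ j ∈ range R, (if i = j then (0 : ℝ) else g (max i j - min i j)) =
      ∑ j ∈ (range R).filter (fun j => j < i), g (i - j) +
      ∑ j ∈ (range R).filter (fun j => i < j), g (j - i) := by
    rw [sum_filter, sum_filter, ← sum_add_distrib]
    refine sum_congr rfl fun j _ => ?_
    rcases lt_trichotomy i j with h | h | h
    · rw [if_neg h.ne, if_neg (by omega), if_pos h, zero_add, max_eq_right h.le, min_eq_left h.le]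
    · rw [if_pos h, if_neg (by omega), if_neg (by omega), zero_add]
    · rw [if_neg h.ne', if_pos h, if_neg (by omega), add_zero, max_eq_left h.le, min_eq_right h.le]
  rw [h1, two_mul]
  apply add_le_add
  · rw [← sum_image (f := g) (g := fun j => i - j) (s := (range R).filter (fun j => j < i))]
    · apply sum_le_sum_of_subset_of_nonneg
      · intro k hk
        rw [mem_image] at hk
        obtain ⟨j, hj, rfl⟩ := hk
        rw [mem_filter, mem_range] at hj
        rw [mem_Icc]; omega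
      · intro k _ _; exact hg k
    · intro x hx y hy hxy
      rw [coe_filter, Set.mem_ofPred_eq] at hx hy
      simp only at hxy
      omega
  · rw [← sum_image (f := g) (g := fun j => j - i) (s := (range R).filter (fun j => i < j))]
    · apply sum_le_sum_of_subset_of_nonneg
      · intro k hk
        rw [mem_image] at hk
        obtain ⟨j, hj, rfl⟩ := hk
        rw [mem_filter, mem_range] at hj
        rw [mem_Icc]; omega
      · intro k _ _; exact hg k
    · intro x hx y hy hxy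
      rw [coe_filter, Set.mem_ofPred_eq] at hx hy
      simp only at hxy
      omega

lemma win_disj (θ γ ε ℓ : ℝ) (i j : ℕ) (hij : i < j) :
    Disjoint (win θ γ ε ℓ i) (win θ γ ε ℓ j) := by
  rw [disjoint_left]
  intro x hx hy
  unfold win at hx hy
  rw [mem_Ico] at hx hy
  have h1 : (i + 1) * hL θ γ ε ℓ ≤ j * hL θ γ ε ℓ := Nat.mul_le_mul_right _ (by omega)
  omega

theorem lowA (θ γ ε ω : ℝ) (hP : Par θ γ ε ω) (δ : ℝ) (hδ : 0 < δ) : ∀ᶠ ℓ : ℝ in atTop,
    ∀ (a Y : ℕ), exp (ℓ / 2) ≤ Y →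
    (((range Y).filter (fun n => ∀ i < RL γ ε ℓ, ∃ t ∈ win θ γ ε ℓ i,
      (∀ p ∈ prm 0 (Wn ω ℓ), ¬ p ∣ a + t) ∧
      ∀ p ∈ prm (Wn ω ℓ) (Zn θ ℓ), ¬ p ∣ a + t + PP 0 (Wn ω ℓ) * n)).card : ℝ) ≤ δ * Y := by
  have hε := hP.hε
  have hγ := hP.hγ
  obtain ⟨d, hd0, hd1, hd2⟩ : ∃ d : ℝ, 0 < d ∧ d ≤ 1 / 4 ∧ 4 * d ≤ δ := by
    refine ⟨min (1 / 4) (δ / 4), lt_min (by norm_num) (by linarith), min_le_left _ _, ?_⟩
    linarith [min_le_right (1 / 4 : ℝ) (δ / 4)]
  have e1 := tailP θ γ ε ω hP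
  have e2 := single θ γ ε ω hP (d / 2) (by linarith)
  have e3 := q_bounds θ γ ε ω hP
  have e4 := pairC θ γ ε ω hP
  have e5 := pairA θ γ ε ω hP (d / 8) (by linarith)
  have e6 : ∀ᶠ ℓ : ℝ in atTop, exp (-ℓ ^ (γ - 2 * ε / 3)) ≤ (d / 8) * exp (-ℓ ^ (γ - 3 * ε / 4)) := by
    have a1 := asy0 (γ - 3 * ε / 4) (γ - 2 * ε / 3) 2 (by linarith)
    have a2 : Tendsto (fun ℓ : ℝ => ℓ ^ (γ - 3 * ε / 4)) atTop atTop :=
      tendsto_rpow_atTop (by linarith)
    filter_upwards [a1, a2.eventually_ge_atTop (-log (d / 8))] with ℓ h1 h2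
    have h3 : d / 8 = exp (log (d / 8)) := (exp_log (by linarith)).symm
    rw [h3, ← exp_add]
    apply exp_le_exp.2
    linarith
  have e7 : ∀ᶠ ℓ : ℝ in atTop, exp (ℓ ^ (γ - 3 * ε / 4)) ≤ d * RL γ ε ℓ := by
    have a1 := asy0 (γ - 3 * ε / 4) (γ - ε / 3) 2 (by linarith)
    have a2 : Tendsto (fun ℓ : ℝ => ℓ ^ (γ - 3 * ε / 4)) atTop atTop :=
      tendsto_rpow_atTop (by linarith)
    filter_upwards [a1, a2.eventually_ge_atTop (-log (d / 2)), a2.eventually_ge_atTop 1]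
      with ℓ h1 h2 h3
    have h4 : exp (ℓ ^ (γ - ε / 3)) / 2 ≤ RL γ ε ℓ := by
      unfold RL
      have f := Nat.lt_floor_add_one (exp (ℓ ^ (γ - ε / 3)))
      have : 2 ≤ exp (ℓ ^ (γ - ε / 3)) := by linarith [add_one_le_exp (ℓ ^ (γ - ε / 3))]
      linarith
    have h5 : exp (ℓ ^ (γ - 3 * ε / 4)) ≤ (d / 2) * exp (ℓ ^ (γ - ε / 3)) := by
      have h6 : d / 2 = exp (log (d / 2)) := (exp_log (by linarith)).symm
      rw [h6, ← exp_add]
      apply exp_le_exp.2
      linarith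
    calc exp (ℓ ^ (γ - 3 * ε / 4)) ≤ (d / 2) * exp (ℓ ^ (γ - ε / 3)) := h5
      _ = d * (exp (ℓ ^ (γ - ε / 3)) / 2) := by ring
      _ ≤ _ := mul_le_mul_of_nonneg_left h4 hd0.le
  filter_upwards [e1, e2, e3, e4, e5, e6, e7, eventually_ge_atTop (8 / d), eventually_ge_atTop 1]
    with ℓ e1 e2 e3 e4 e5 e6 e7 hℓd hℓ1
  clear hP
  intro a Y hY
  obtain ⟨hq1, hq2, hq3⟩ := e3
  set W := Wn ω ℓ with hW
  set Z := Zn θ ℓ with hZ
  set q := qq 0 (plist W Z) with hq
  set R := RL γ ε ℓ with hR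
  set h := hL θ γ ε ℓ with hh
  have hq0 : 0 < q := by linarith
  have hY0 : 0 < Y := by
    have : (0 : ℝ) < Y := lt_of_lt_of_le (exp_pos _) hY
    exact_mod_cast this
  have hYr : (0 : ℝ) < Y := by exact_mod_cast hY0
  have hR0 : 0 < R := by
    have h1 : 0 < d * R := lt_of_lt_of_le (exp_pos _) e7
    have h2 : (0 : ℝ) < R := by
      by_contra hne
      push Not at hne
      nlinarith
    exact_mod_cast h2
  let T : ℕ → Finset ℕ := fun i => (win θ γ ε ℓ i).filter (fun t => ∀ p ∈ prm 0 W, ¬ p ∣ a + t)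
  let E : ℕ → Finset ℕ := fun i => (range Y).filter
    (fun n => ∀ t ∈ T i, ∃ p ∈ prm W Z, p ∣ a + t + PP 0 W * n)
  have hTsub : ∀ i, T i ⊆ win θ γ ε ℓ i := fun i => filter_subset _ _
  have hTc : ∀ i, (T i).card ≤ h := by
    intro i
    refine (card_le_card (hTsub i)).trans (le_of_eq ?_)
    unfold win
    rw [Nat.card_Ico, ← hh, ← hR]
    have : (i + 1) * h = i * h + h := by ring
    omega
  have hqm : ∀ m, m ≤ 2 * h → exp (-ℓ ^ (γ - 3 * ε / 4)) ≤ q ^ m := fun m hm =>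
    le_trans hq3 (pow_le_pow_of_le_one hq0.le hq2 hm)
  have herr : exp (-ℓ ^ (γ - 2 * ε / 3)) ≤ (d / 8) * q ^ (2 * h) :=
    le_trans e6 (mul_le_mul_of_nonneg_left hq3 (by linarith))
  have herr2 : ∀ m, m ≤ 2 * h → exp (-ℓ ^ (γ - 2 * ε / 3)) ≤ (d / 8) * q ^ m := fun m hm =>
    le_trans herr (mul_le_mul_of_nonneg_left (pow_le_pow_of_le_one hq0.le hq2 hm) (by linarith))
  let G : ℕ → ℝ := fun k => (1 + zet θ γ ε ω ℓ) ^ nk h W (Wp ℓ) k
  have hz0 : 0 ≤ zet θ γ ε ω ℓ := by unfold zet; positivity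
  have hG1 : ∀ k, 1 ≤ G k := fun k => one_le_pow₀ (by linarith)
  have hinv : ℓ⁻¹ ≤ d / 8 := by
    rw [inv_le_comm₀ (by linarith) (by linarith)]
    have : (d / 8)⁻¹ = 8 / d := by rw [inv_div]
    rw [this]; exact hℓd
  have hinv0 : 0 ≤ ℓ⁻¹ := by positivity
  have hlow : ∀ i < R, (1 - d) * q ^ (T i).card ≤ ((E i).card : ℝ) / Y := by
    intro i hi
    have h1 := e1 i i a Y le_rfl hi hY (T i) (by rw [union_self]; exact hTsub i)
    have h2 := e2 i (T i) (hTsub i)
    have h3 := herr2 (T i).card (by have := hTc i; omega)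
    have h4 := (abs_le.1 h1).1
    have h5 : 0 < q ^ (T i).card := by positivity
    change (1 - d) * q ^ (T i).card ≤ (((range Y).filter
      (fun n => ∀ t ∈ T i, ∃ p ∈ prm W Z, p ∣ a + t + PP 0 W * n)).card : ℝ) / Y
    linarith [mul_pos hd0 h5]
  have hdiag : ∀ i < R, 1 / q ^ (2 * (T i).card) ≤ d * R := by
    intro i _
    have h1 := hqm (2 * (T i).card) (by have := hTc i; omega)
    have h2 : 0 < q ^ (2 * (T i).card) := by positivity
    refine le_trans ?_ e7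
    rw [div_le_iff₀ h2]
    calc (1 : ℝ) = exp (ℓ ^ (γ - 3 * ε / 4)) * exp (-ℓ ^ (γ - 3 * ε / 4)) := by
          rw [← exp_add]; simp
      _ ≤ _ := mul_le_mul_of_nonneg_left h1 (exp_pos _).le
  have hpair : ∀ i j, i < j → j < R → ((E i ∩ E j).card : ℝ) / Y /
      (q ^ (T i).card * q ^ (T j).card) ≤ G (j - i) * (1 + ℓ⁻¹) + d / 8 := by
    intro i j hij hj
    have hsub : T i ∪ T j ⊆ win θ γ ε ℓ i ∪ win θ γ ε ℓ j :=
      union_subset_union (hTsub i) (hTsub j)
    have hcard : (T i ∪ T j).card = (T i).card + (T j).card :=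
      card_union_of_disjoint ((win_disj θ γ ε ℓ i j hij).mono (hTsub i) (hTsub j))
    have h1 := e1 i j a Y hij.le hj hY (T i ∪ T j) hsub
    have h2 := e4 i j hij hj (T i ∪ T j) hsub
    have h3 := herr2 (T i ∪ T j).card (by
      rw [hcard]; have := hTc i; have := hTc j; omega)
    have h4 := (abs_le.1 h1).2
    have hE : E i ∩ E j = (range Y).filter
        (fun n => ∀ t ∈ T i ∪ T j, ∃ p ∈ prm W Z, p ∣ a + t + PP 0 W * n) := by
      ext n
      simp only [E, mem_inter, mem_filter, mem_union]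
      constructor
      · rintro ⟨⟨h5, h6⟩, _, h7⟩
        exact ⟨h5, fun t ht => ht.elim (h6 t) (h7 t)⟩
      · rintro ⟨h5, h6⟩
        exact ⟨⟨h5, fun t ht => h6 t (Or.inl ht)⟩, h5, fun t ht => h6 t (Or.inr ht)⟩
    rw [hE, ← pow_add, ← hcard]
    have h5 : 0 < q ^ (T i ∪ T j).card := by positivity
    rw [div_le_iff₀ h5]
    have h6 : q ^ (T i ∪ T j).card * ((1 + zet θ γ ε ω ℓ) ^ nk h W (Wp ℓ) (j - i) * (1 + ℓ⁻¹)) =
        (G (j - i) * (1 + ℓ⁻¹)) * q ^ (T i ∪ T j).card := by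
      simp only [G]; ring
    rw [h6] at h2
    linarith
  have hup : ∑ i ∈ range R, ∑ j ∈ range R, (if i = j then (0 : ℝ) else
      ((E i ∩ E j).card : ℝ) / Y / (q ^ (T i).card * q ^ (T j).card)) ≤ (1 + d) * R ^ 2 := by
    have h1 : ∀ i ∈ range R, ∑ j ∈ range R, (if i = j then (0 : ℝ) else
        ((E i ∩ E j).card : ℝ) / Y / (q ^ (T i).card * q ^ (T j).card)) ≤ (1 + d) * R := by
      intro i hi
      rw [mem_range] at hi
      have h2 : ∀ j ∈ range R, (if i = j then (0 : ℝ) else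
          ((E i ∩ E j).card : ℝ) / Y / (q ^ (T i).card * q ^ (T j).card)) ≤
          (1 + ℓ⁻¹) * (if i = j then (0 : ℝ) else (G (max i j - min i j) - 1)) +
            (1 + ℓ⁻¹ + d / 8) := by
        intro j hj
        rw [mem_range] at hj
        rcases lt_trichotomy i j with h3 | h3 | h3
        · rw [if_neg h3.ne, if_neg h3.ne, max_eq_right h3.le, min_eq_left h3.le]
          have := hpair i j h3 hj
          linarith
        · rw [if_pos h3, if_pos h3]; linarith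
        · rw [if_neg h3.ne', if_neg h3.ne', max_eq_left h3.le, min_eq_right h3.le, inter_comm,
            mul_comm (q ^ (T i).card)]
          have := hpair j i h3 hi
          linarith
      refine le_trans (sum_le_sum h2) ?_
      rw [sum_add_distrib, ← mul_sum, sum_const, card_range, nsmul_eq_mul]
      have h3 := sum_dist_le R i hi (fun k => G k - 1) (fun k => by linarith [hG1 k])
      have h4 : ∑ k ∈ Icc 1 R, (G k - 1) ≤ (d / 8) * R := by
        rw [sum_sub_distrib, sum_const, Nat.card_Icc, nsmul_eq_mul, Nat.add_sub_cancel, mul_one]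
        have : ∑ k ∈ Icc 1 R, G k ≤ (1 + d / 8) * R := e5
        linarith
      have hRr : (0 : ℝ) < R := by exact_mod_cast hR0
      have h5 : (1 + ℓ⁻¹) * (∑ j ∈ range R, (if i = j then (0 : ℝ) else
          (G (max i j - min i j) - 1))) ≤ (1 + d / 8) * (2 * ((d / 8) * R)) := by
        apply mul_le_mul (by linarith) (by linarith) _ (by linarith)
        refine sum_nonneg fun j _ => ?_
        split_ifs
        · exact le_rfl
        · linarith [hG1 (max i j - min i j)]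
      have h6 : (R : ℝ) * (1 + ℓ⁻¹ + d / 8) ≤ R * (1 + d / 8 + d / 8) :=
        mul_le_mul_of_nonneg_left (by linarith) hRr.le
      have h7 : (1 + d / 8) * (2 * ((d / 8) * R)) ≤ (d / 2) * R := by
        have : 0 < d * R := mul_pos hd0 hRr
        nlinarith
      nlinarith
    calc _ ≤ ∑ i ∈ range R, (1 + d) * (R : ℝ) := sum_le_sum h1
      _ = _ := by rw [sum_const, card_range, nsmul_eq_mul]; ring
  have hmain := second_moment R Y hR0 hY0 E (fun i _ => filter_subset _ _) (fun i => (T i).card) q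
    hq0 hq2 d hd0.le (by linarith) hlow hup hdiag
  have hset : (range Y).filter (fun n => ∀ i < R, ∃ t ∈ win θ γ ε ℓ i,
      (∀ p ∈ prm 0 W, ¬ p ∣ a + t) ∧ ∀ p ∈ prm W Z, ¬ p ∣ a + t + PP 0 W * n) ⊆
      (range Y).filter (fun n => ∀ i < R, n ∉ E i) := by
    intro n hn
    rw [mem_filter] at hn ⊢
    refine ⟨hn.1, fun i hi hE => ?_⟩
    obtain ⟨t, ht1, ht2, ht3⟩ := hn.2 i hi
    simp only [E, mem_filter] at hE
    obtain ⟨p, hp1, hp2⟩ := hE.2 t (mem_filter.2 ⟨ht1, ht2⟩)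
    exact ht3 p hp1 hp2
  have hc : (((range Y).filter (fun n => ∀ i < R, ∃ t ∈ win θ γ ε ℓ i,
      (∀ p ∈ prm 0 W, ¬ p ∣ a + t) ∧ ∀ p ∈ prm W Z, ¬ p ∣ a + t + PP 0 W * n)).card : ℝ) ≤
      (((range Y).filter (fun n => ∀ i < R, n ∉ E i)).card : ℝ) := by
    exact_mod_cast card_le_card hset
  refine le_trans hc (le_trans hmain ?_)
  apply mul_le_mul_of_nonneg_right _ hYr.le
  have h1 : 1 - 4 * d ≤ (1 - d) ^ 2 / (1 + 2 * d) := by
    rw [le_div_iff₀ (by linarith)]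
    nlinarith
  linarith

end Pool.Agent.RG
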