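import Pool.Agent.RG.Ev
import Pool.Agent.RG.Defs

/-!
# RG / PairN: pairs of windows with collisions

`nk` counts the primes `p ∈ (w, w']` that divide `k h + s` for some `|s| < h`.
* `nk_le`: for each `s` the number of primes `> w` dividing `k h + s ≥ 1` is at most
  `log (k h + s)/log w`.
* `pair_avg`: `(1+ζ)^n = ∑_r ζ^r C(n, r)` and `C(nk, r) = #{S ⊆ prm w w' : |S| = r, all p ∈ S hit}`.
  For `r ≤ r0`, `D = ∏_{p ∈ S} p ≤ w'^r0 ≤ R`: the `k ∈ [1, R]` with all `p ∈ S` hit lie in at most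
  `(2h)^r` classes mod `D` (`h` is invertible mod `p > w ≥ h`), so there are at most
  `(2h)^r (R/D + 1) ≤ 2 R (2h)^r/D` of them; sum over `S`: `≤ 2 R ζ^r (2h ∑ 1/p)^r/r!` (`esymm_le`); the
  term `r = 0` is exactly `R`.  For `r > r0`: `ζ^r C(nk, r) ≤ (e ζ nk/r)^r ≤ 2^(-r)` (as
  `6 ζ nk ≤ r0 < r`), sum `≤ 2^(-r0)`.
-/

set_option autoImplicit false

namespace Pool.Agent.RG

open Finset

/-- `p` divides `k h + s` for some `|s| < h` -/
def hit (h p k : ℕ) : Prop := ∃ s : ℤ, |s| < h ∧ (p : ℤ) ∣ k * h + s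

open Classical in
/-- the number of primes in `(w, w']` that are hit -/
noncomputable def nk (h w w' k : ℕ) : ℕ := ((prm w w').filter (fun p => hit h p k)).card

private lemma few_primes (w w' m : ℕ) (hw : 2 ≤ w) (hm : 1 ≤ m) (x : ℝ) (hx : (m : ℝ) ≤ x) :
    (((prm w w').filter (fun p => p ∣ m)).card : ℝ) ≤ Real.log x / Real.log w := by
  set S := (prm w w').filter (fun p => p ∣ m) with hS
  have hlogw : 0 < Real.log w := Real.log_pos (by exact_mod_cast (by omega : 1 < w))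
  rw [le_div_iff₀ hlogw]
  have h1 : ∏ p ∈ S, p ∣ m := by
    apply Finset.prod_primes_dvd
    · intro p hp
      exact (mem_prm.1 (mem_filter.1 hp).1).2.prime
    · intro p hp
      exact (mem_filter.1 hp).2
  have h2 : w ^ S.card ≤ ∏ p ∈ S, p := by
    apply Finset.pow_card_le_prod
    intro p hp
    exact (mem_prm.1 (mem_filter.1 hp).1).1.1.le
  have h3 : w ^ S.card ≤ m := h2.trans (Nat.le_of_dvd hm h1)
  have h4 : ((w : ℝ)) ^ S.card ≤ x := by
    have : ((w : ℝ)) ^ S.card ≤ m := by exact_mod_cast h3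
    linarith
  have hw0 : (0 : ℝ) < w := by exact_mod_cast (by omega : 0 < w)
  have h5 := Real.log_le_log (by positivity) h4
  rwa [Real.log_pow] at h5

theorem nk_le (h w w' k : ℕ) (hw : 2 ≤ w) (hk : 1 ≤ k) (hh : 1 ≤ h) :
    (nk h w w' k : ℝ) ≤ 2 * h * Real.log (2 * k * h) / Real.log w := by
  classical
  have hlogw : 0 < Real.log w := Real.log_pos (by exact_mod_cast (by omega : 1 < w))
  have hkR : (1 : ℝ) ≤ k := by exact_mod_cast hk
  have hhR : (1 : ℝ) ≤ h := by exact_mod_cast hh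
  have hkh : (1 : ℝ) ≤ (k : ℝ) * h := by nlinarith
  have hlog0 : 0 ≤ Real.log (2 * k * h) := Real.log_nonneg (by nlinarith)
  have hsub : (prm w w').filter (fun p => hit h p k) ⊆
      (Ioo (-(h : ℤ)) h).biUnion (fun s => (prm w w').filter (fun p => p ∣ ((k : ℤ) * h + s).toNat)) := by
    intro p hp
    rw [mem_filter] at hp
    obtain ⟨hp1, s, hs, hps⟩ := hp
    rw [abs_lt] at hs
    rw [mem_biUnion]
    refine ⟨s, mem_Ioo.2 hs, ?_⟩
    rw [mem_filter]
    refine ⟨hp1, ?_⟩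
    have h1 : 0 ≤ (k : ℤ) * h + s := by
      have : (1 : ℤ) ≤ k := by exact_mod_cast hk
      nlinarith
    rw [← Int.natCast_dvd_natCast, Int.toNat_of_nonneg h1]
    exact hps
  have h1 : (nk h w w' k : ℝ) ≤ ∑ s ∈ Ioo (-(h : ℤ)) h,
      (((prm w w').filter (fun p => p ∣ ((k : ℤ) * h + s).toNat)).card : ℝ) := by
    have := (card_le_card hsub).trans card_biUnion_le
    unfold nk
    exact_mod_cast this
  have h2 : ∀ s ∈ Ioo (-(h : ℤ)) h,
      (((prm w w').filter (fun p => p ∣ ((k : ℤ) * h + s).toNat)).card : ℝ) ≤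
        Real.log (2 * k * h) / Real.log w := by
    intro s hs
    rw [mem_Ioo] at hs
    have hk1 : (1 : ℤ) ≤ k := by exact_mod_cast hk
    have hh1 : (1 : ℤ) ≤ h := by exact_mod_cast hh
    have hpos : 1 ≤ (k : ℤ) * h + s := by nlinarith
    have hup : (k : ℤ) * h + s ≤ 2 * k * h := by nlinarith
    apply few_primes w w' _ hw
    · omega
    · have h3 : ((((k : ℤ) * h + s).toNat : ℤ)) = (k : ℤ) * h + s := Int.toNat_of_nonneg (by omega)
      have h4 : ((((k : ℤ) * h + s).toNat : ℝ)) = (((k : ℤ) * h + s : ℤ) : ℝ) := by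
        rw [← h3]
        push_cast
        rfl
      rw [h4]
      exact_mod_cast hup
  refine (h1.trans (sum_le_sum h2)).trans ?_
  rw [sum_const, nsmul_eq_mul, Int.card_Ioo]
  have h5 : (((h : ℤ) - -(h : ℤ) - 1).toNat : ℝ) ≤ 2 * h := by
    have : ((h : ℤ) - -(h : ℤ) - 1).toNat ≤ 2 * h := by omega
    exact_mod_cast this
  calc _ ≤ 2 * (h : ℝ) * (Real.log (2 * k * h) / Real.log w) :=
        mul_le_mul_of_nonneg_right h5 (div_nonneg hlog0 hlogw.le)
    _ = 2 * h * Real.log (2 * k * h) / Real.log w := by ring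

open Classical in
/-- the number of `k` for which all `p ∈ S` are hit -/
private lemma count_hit (h R w w' r0 : ℕ) (hh : 0 < h) (hw : h ≤ w) (hR : w' ^ r0 ≤ R)
    (S : Finset ℕ) (hS : S ⊆ prm w w') (hS1 : 1 ≤ S.card) (hS2 : S.card ≤ r0) :
    (((Icc 1 R).filter (fun k => ∀ p ∈ S, hit h p k)).card : ℝ) ≤
      2 * R * (2 * h : ℝ) ^ S.card * ∏ p ∈ S, 1 / (p : ℝ) := by
  classical
  set D := ∏ p ∈ S, p with hD
  have hprime : ∀ p ∈ S, p.Prime := fun p hp => (mem_prm.1 (hS hp)).2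
  have hDpos : 0 < D := prod_pos fun p hp => (hprime p hp).pos
  have hDR : D ≤ R := by
    obtain ⟨p, hp⟩ := card_pos.1 hS1
    have hw' : 1 ≤ w' := by
      have h1 := mem_prm.1 (hS hp)
      have := h1.2.two_le
      omega
    calc D ≤ w' ^ S.card := prod_le_pow_card _ _ _ fun p hp => (mem_prm.1 (hS hp)).1.2
      _ ≤ w' ^ r0 := Nat.pow_le_pow_right hw' hS2
      _ ≤ R := hR
  -- the injection
  have hex : ∀ (k : ℕ) (p : ℕ), ∃ s : ℤ, hit h p k → (|s| < h ∧ (p : ℤ) ∣ k * h + s) := by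
    intro k p
    by_cases hc : hit h p k
    · obtain ⟨s, hs⟩ := hc
      exact ⟨s, fun _ => hs⟩
    · exact ⟨0, fun h' => absurd h' hc⟩
  choose s hs using hex
  have hcard : ((Icc 1 R).filter (fun k => ∀ p ∈ S, hit h p k)).card ≤
      ((S.pi fun _ => Ioo (-(h : ℤ)) h) ×ˢ range (R / D + 1)).card := by
    apply card_le_card_of_injOn (fun k => (fun p _ => s k p, k / D))
    · intro k hk
      have hk' := mem_filter.1 (mem_coe.1 hk)
      rw [mem_coe, mem_product, mem_pi, mem_range]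
      refine ⟨fun p hp => ?_, ?_⟩
      · have := (hs k p (hk'.2 p hp)).1
        rw [abs_lt] at this
        exact mem_Ioo.2 this
      · exact Nat.lt_succ_of_le (Nat.div_le_div_right (mem_Icc.1 hk'.1).2)
    · intro k hk k' hk' hkk
      have hk1 := mem_filter.1 (mem_coe.1 hk)
      have hk2 := mem_filter.1 (mem_coe.1 hk')
      simp only [Prod.mk.injEq] at hkk
      obtain ⟨h1, h2⟩ := hkk
      have h3 : ∀ p ∈ S, (p : ℤ) ∣ (k : ℤ) - k' := by
        intro p hp
        have h4 : s k p = s k' p := congrFun (congrFun h1 p) hp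
        have h5 := (hs k p (hk1.2 p hp)).2
        have h6 := (hs k' p (hk2.2 p hp)).2
        rw [← h4] at h6
        have h7 : (p : ℤ) ∣ ((k : ℤ) - k') * h := by
          have := dvd_sub h5 h6
          have e : ((k : ℤ) * h + s k p) - ((k' : ℤ) * h + s k p) = ((k : ℤ) - k') * h := by ring
          rwa [e] at this
        have hpz : Prime (p : ℤ) := Nat.prime_iff_prime_int.1 (hprime p hp)
        rcases hpz.dvd_or_dvd h7 with h8 | h8
        · exact h8
        · exfalso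
          have h9 : p ∣ h := by exact_mod_cast h8
          have h10 := Nat.le_of_dvd hh h9
          have h11 := (mem_prm.1 (hS hp)).1.1
          omega
      have h4 : (D : ℤ) ∣ (k : ℤ) - k' := by
        rw [hD]
        push_cast
        apply Finset.prod_dvd_of_coprime
        · intro p hp q hq hpq
          have := (Nat.coprime_primes (hprime p hp) (hprime q hq)).2 hpq
          exact Nat.isCoprime_iff_coprime.2 this
        · exact h3
      have h5 : k ≡ k' [MOD D] := by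
        rw [Nat.modEq_iff_dvd]
        rw [← neg_sub]
        exact (dvd_neg.2 h4)
      rw [← Nat.div_add_mod k D, ← Nat.div_add_mod k' D, h2, h5]
  rw [card_product, card_pi, prod_const, Int.card_Ioo, card_range] at hcard
  have hDR' : (D : ℝ) ≤ R := by exact_mod_cast hDR
  have hD0 : (0 : ℝ) < D := by exact_mod_cast hDpos
  have h1 : (((h : ℤ) - -(h : ℤ) - 1).toNat : ℝ) ≤ 2 * h := by
    have : ((h : ℤ) - -(h : ℤ) - 1).toNat ≤ 2 * h := by omega
    exact_mod_cast this
  have h2 : (((R / D : ℕ) : ℝ) + 1) ≤ 2 * R / D := by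
    have h3 : ((R / D : ℕ) : ℝ) ≤ (R : ℝ) / D := Nat.cast_div_le
    have h4 : 1 ≤ (R : ℝ) / D := by
      rw [le_div_iff₀ hD0]
      linarith
    calc ((R / D : ℕ) : ℝ) + 1 ≤ (R : ℝ) / D + R / D := by linarith
      _ = 2 * R / D := by ring
  have h3 : (((Icc 1 R).filter (fun k => ∀ p ∈ S, hit h p k)).card : ℝ) ≤
      (((h : ℤ) - -(h : ℤ) - 1).toNat : ℝ) ^ S.card * (((R / D : ℕ) : ℝ) + 1) := by
    exact_mod_cast hcard
  have h4 : ∏ p ∈ S, 1 / (p : ℝ) = 1 / D := by
    rw [hD]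
    push_cast
    rw [one_div, ← prod_inv_distrib]
    exact prod_congr rfl fun p _ => one_div _
  rw [h4]
  calc _ ≤ (((h : ℤ) - -(h : ℤ) - 1).toNat : ℝ) ^ S.card * (((R / D : ℕ) : ℝ) + 1) := h3
    _ ≤ (2 * h : ℝ) ^ S.card * (2 * R / D) :=
        mul_le_mul (pow_le_pow_left₀ (Nat.cast_nonneg _) h1 _) h2 (by positivity) (by positivity)
    _ = 2 * R * (2 * h : ℝ) ^ S.card * (1 / D) := by ring

/-- the tail of the binomial expansion -/
private lemma tail_term (ζ : ℝ) (hζ : 0 ≤ ζ) (n r0 r : ℕ) (hn : 6 * ζ * n ≤ r0) (hr : r0 < r) :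
    ζ ^ r * (n.choose r : ℝ) ≤ (1 / 2) ^ r := by
  have hr0 : (0 : ℝ) < r := by exact_mod_cast (by omega : 0 < r)
  have h1 : (n.choose r : ℝ) ≤ (n : ℝ) ^ r / (r.factorial : ℝ) := Nat.choose_le_pow_div r n
  have hrr : 6 * ζ * n ≤ r := hn.trans (by exact_mod_cast hr.le)
  have h2 : (r : ℝ) ^ r / (r.factorial : ℝ) ≤ Real.exp r := by
    have := Real.pow_div_factorial_le_exp (r : ℝ) hr0.le r
    exact this
  have hf : (0 : ℝ) < (r.factorial : ℝ) := by exact_mod_cast r.factorial_pos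
  calc ζ ^ r * (n.choose r : ℝ) ≤ ζ ^ r * ((n : ℝ) ^ r / (r.factorial : ℝ)) :=
        mul_le_mul_of_nonneg_left h1 (by positivity)
    _ = (6 * ζ * n) ^ r * (1 / 6) ^ r / (r.factorial : ℝ) := by
        rw [← mul_pow]
        rw [mul_div_assoc', ← mul_pow]
        congr 2
        ring
    _ ≤ (r : ℝ) ^ r * (1 / 6) ^ r / (r.factorial : ℝ) := by
        apply div_le_div_of_nonneg_right _ hf.le
        apply mul_le_mul_of_nonneg_right _ (by positivity)
        exact pow_le_pow_left₀ (by positivity) hrr _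
    _ = ((r : ℝ) ^ r / (r.factorial : ℝ)) * (1 / 6) ^ r := by ring
    _ ≤ Real.exp r * (1 / 6) ^ r := mul_le_mul_of_nonneg_right h2 (by positivity)
    _ = (Real.exp 1 * (1 / 6)) ^ r := by
        rw [mul_pow, ← Real.exp_nat_mul, mul_one]
    _ ≤ (1 / 2) ^ r := by
        apply pow_le_pow_left₀ (by positivity)
        have := Real.exp_one_lt_d9
        linarith

private lemma geom_tail (r0 n : ℕ) :
    ∑ i ∈ range n, ((1 : ℝ) / 2) ^ (r0 + 1 + i) ≤ (1 / 2) ^ r0 := by
  have h : ∀ n : ℕ, ∑ i ∈ range n, ((1 : ℝ) / 2) ^ (r0 + 1 + i) = (1 / 2) ^ r0 - (1 / 2) ^ (r0 + n) := by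
    intro n
    induction n with
    | zero => simp
    | succ n ih =>
      rw [sum_range_succ, ih, show r0 + (n + 1) = r0 + n + 1 by ring,
        show r0 + 1 + n = r0 + n + 1 by ring, pow_succ]
      ring
  rw [h n]
  have : (0 : ℝ) ≤ (1 / 2) ^ (r0 + n) := by positivity
  linarith

private lemma binom_split (ζ : ℝ) (hζ : 0 ≤ ζ) (n r0 : ℕ) (hn : 6 * ζ * n ≤ r0) :
    (1 + ζ) ^ n ≤ ∑ r ∈ range (r0 + 1), ζ ^ r * (n.choose r : ℝ) + (1 / 2) ^ r0 := by
  have h1 : (1 + ζ) ^ n = ∑ r ∈ range (r0 + 1 + n), ζ ^ r * (n.choose r : ℝ) := by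
    rw [add_comm 1 ζ, add_pow]
    simp only [one_pow, mul_one]
    apply sum_subset
    · intro r hr
      rw [mem_range] at hr ⊢
      omega
    · intro r _ hr
      rw [mem_range, not_lt] at hr
      rw [Nat.choose_eq_zero_of_lt (by omega)]
      simp
  rw [h1, sum_range_add]
  apply add_le_add_right
  refine le_trans (sum_le_sum fun i _ => ?_) (geom_tail r0 n)
  exact tail_term ζ hζ n r0 _ hn (by omega)

theorem pair_avg (h R w w' r0 : ℕ) (ζ : ℝ) (hζ : 0 ≤ ζ) (hh : 0 < h) (hw : h ≤ w) (hR : w' ^ r0 ≤ R)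
    (hn : ∀ k ∈ Icc 1 R, 6 * ζ * nk h w w' k ≤ r0) :
    ∑ k ∈ Icc 1 R, (1 + ζ) ^ nk h w w' k ≤
      R * (1 + 2 * (Real.exp (2 * h * ζ * ∑ p ∈ prm w w', 1 / (p : ℝ)) - 1) + (1 / 2) ^ r0) := by
  classical
  set σ := ∑ p ∈ prm w w', 1 / (p : ℝ) with hσ
  have hσ0 : 0 ≤ σ := sum_nonneg fun p _ => by positivity
  have hR0 : (0 : ℝ) ≤ R := Nat.cast_nonneg R
  -- the sum of the binomial coefficients
  have hchoose : ∀ r, 1 ≤ r → r ≤ r0 → ∑ k ∈ Icc 1 R, ((nk h w w' k).choose r : ℝ) ≤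
      2 * R * ((2 * h * σ) ^ r / (r.factorial : ℝ)) := by
    intro r hr1 hr2
    have h1 : ∀ k, ((nk h w w' k).choose r : ℝ) =
        ∑ S ∈ (prm w w').powersetCard r, if (∀ p ∈ S, hit h p k) then (1 : ℝ) else 0 := by
      intro k
      unfold nk
      rw [← card_powersetCard, sum_boole]
      congr 2
      ext S
      rw [mem_powersetCard, mem_filter, mem_powersetCard]
      constructor
      · rintro ⟨h1, h2⟩
        exact ⟨⟨fun p hp => (mem_filter.1 (h1 hp)).1, h2⟩, fun p hp => (mem_filter.1 (h1 hp)).2⟩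
      · rintro ⟨⟨h1, h2⟩, h3⟩
        exact ⟨fun p hp => mem_filter.2 ⟨h1 hp, h3 p hp⟩, h2⟩
    rw [sum_congr rfl fun k _ => h1 k, sum_comm]
    calc ∑ S ∈ (prm w w').powersetCard r, ∑ k ∈ Icc 1 R,
          (if (∀ p ∈ S, hit h p k) then (1 : ℝ) else 0)
        ≤ ∑ S ∈ (prm w w').powersetCard r, 2 * R * (2 * h : ℝ) ^ r * ∏ p ∈ S, 1 / (p : ℝ) := by
          apply sum_le_sum
          intro S hS
          rw [mem_powersetCard] at hS
          rw [sum_boole]
          have := count_hit h R w w' r0 hh hw hR S hS.1 (by omega) (by omega)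
          rw [hS.2] at this
          exact this
      _ = 2 * R * (2 * h : ℝ) ^ r * ∑ S ∈ (prm w w').powersetCard r, ∏ p ∈ S, 1 / (p : ℝ) := by
          rw [mul_sum]
      _ ≤ 2 * R * (2 * h : ℝ) ^ r * (σ ^ r / (r.factorial : ℝ)) := by
          apply mul_le_mul_of_nonneg_left _ (by positivity)
          exact esymm_le (prm w w') (fun p => 1 / (p : ℝ)) (fun p _ => by positivity) r
      _ = 2 * R * ((2 * h * σ) ^ r / (r.factorial : ℝ)) := by
          rw [mul_pow (2 * (h : ℝ)) σ r]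
          ring
  have hcardR : ((Icc 1 R).card : ℝ) = R := by simp
  calc ∑ k ∈ Icc 1 R, (1 + ζ) ^ nk h w w' k
      ≤ ∑ k ∈ Icc 1 R, (∑ r ∈ range (r0 + 1), ζ ^ r * ((nk h w w' k).choose r : ℝ) + (1 / 2) ^ r0) :=
        sum_le_sum fun k hk => binom_split ζ hζ _ r0 (hn k hk)
    _ = ∑ r ∈ range (r0 + 1), ζ ^ r * ∑ k ∈ Icc 1 R, ((nk h w w' k).choose r : ℝ)
          + R * (1 / 2) ^ r0 := by
        rw [sum_add_distrib, sum_comm, sum_const, nsmul_eq_mul, hcardR]
        congr 1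
        exact sum_congr rfl fun r _ => by rw [mul_sum]
    _ = R + ∑ r ∈ range r0, ζ ^ (r + 1) * ∑ k ∈ Icc 1 R, ((nk h w w' k).choose (r + 1) : ℝ)
          + R * (1 / 2) ^ r0 := by
        rw [sum_range_succ']
        simp only [pow_zero, Nat.choose_zero_right, Nat.cast_one, sum_const, nsmul_eq_mul, mul_one,
          one_mul, hcardR]
        ring
    _ ≤ R + ∑ r ∈ range r0, 2 * R * ((2 * h * ζ * σ) ^ (r + 1) / ((r + 1).factorial : ℝ))
          + R * (1 / 2) ^ r0 := by
        apply add_le_add_left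
        apply add_le_add_right
        apply sum_le_sum
        intro r hr
        rw [mem_range] at hr
        calc ζ ^ (r + 1) * ∑ k ∈ Icc 1 R, ((nk h w w' k).choose (r + 1) : ℝ)
            ≤ ζ ^ (r + 1) * (2 * R * ((2 * h * σ) ^ (r + 1) / ((r + 1).factorial : ℝ))) :=
              mul_le_mul_of_nonneg_left (hchoose (r + 1) (by omega) (by omega)) (by positivity)
          _ = 2 * R * ((2 * h * ζ * σ) ^ (r + 1) / ((r + 1).factorial : ℝ)) := by
              have : (2 * (h : ℝ) * ζ * σ) ^ (r + 1) = ζ ^ (r + 1) * (2 * h * σ) ^ (r + 1) := by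
                rw [← mul_pow]
                congr 1
                ring
              rw [this]
              ring
    _ ≤ R + 2 * R * (Real.exp (2 * h * ζ * σ) - 1) + R * (1 / 2) ^ r0 := by
        apply add_le_add_left
        apply add_le_add_right
        rw [← mul_sum]
        apply mul_le_mul_of_nonneg_left _ (by positivity)
        have h1 := Real.sum_le_exp_of_nonneg (show 0 ≤ 2 * (h : ℝ) * ζ * σ by positivity) (r0 + 1)
        rw [sum_range_succ'] at h1
        simp only [pow_zero, Nat.factorial_zero, Nat.cast_one, div_one] at h1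
        linarith
    _ = R * (1 + 2 * (Real.exp (2 * h * ζ * σ) - 1) + (1 / 2) ^ r0) := by ring

end Pool.Agent.RG
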