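import Pool.Agent.RG.SievA
import Pool.Agent.RG.SievB

/-!
# RG / SievI: the induction of the linear sieve

Fix `Z1 = max` of the two `Z0` of `LSA`, `LSB`, and `Q` from `Sc_base Z1`.  Strong induction on `z ≥ Z1`
(both statements together).  `z = Z1`: `Sc_base`, `1 ≤ Nd` (as `D ≥ 1`), `fp, fm ≥ 0`.  Step: `buchstab`
with `y = Z1`.
* lower bound (`z^2 ≤ D`): for `p < z` apply the upper bound to `(a/p, b/p, D/p, p)` (`p ≤ D/p`,
  `log (D/p)/log p = log D/log p - 1`); sum up with `V_sum`, `LSA`, `Nd_rec`.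
* upper bound (`z ≤ D`): drop the primes with `D ≤ p^3`; for `p^3 < D` apply the lower bound to
  `(a/p, b/p, D/p, p)` (`p^2 ≤ D/p`); sum up with `LSB`, `Nd_rec` (drop terms, all are `≥ 0`).
-/

set_option autoImplicit false

namespace Pool.Agent.RG

open Real

theorem sieve_ind (fp fm : ℝ → ℝ) (Cφ : ℝ) (hΦ : PhiProps fp fm Cφ) (ε0 : ℝ) (hε0 : 0 < ε0) :
    ∃ (Z1 : ℕ) (Q : ℝ), 2 ≤ Z1 ∧ 0 < Q ∧ ∀ z : ℕ, Z1 ≤ z → ∀ a b D : ℝ, 0 ≤ a → a ≤ b →
      ((z : ℝ) ≤ D → (Sc a b z : ℝ) ≤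
        (b - a) * (V z * (1 + fp (log D / log z) + ε0 * bp (log D / log z))) + Q * Nd D Z1 z) ∧
      ((z : ℝ) ^ 2 ≤ D →
        (b - a) * (V z * (1 - fm (log D / log z) - ε0 * bm (log D / log z))) - Q * Nd D Z1 z ≤
          (Sc a b z : ℝ)) := by
  obtain ⟨ZA, hZA2, hA⟩ := LSA fp fm Cφ hΦ ε0 hε0
  obtain ⟨ZB, hZB2, hB⟩ := LSB fp fm Cφ hΦ ε0 hε0
  obtain ⟨Z1, hZ1⟩ : ∃ Z1 : ℕ, Z1 = max ZA ZB := ⟨_, rfl⟩
  have hZ1A : ZA ≤ Z1 := by rw [hZ1]; exact le_max_left _ _
  have hZ1B : ZB ≤ Z1 := by rw [hZ1]; exact le_max_right _ _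
  have hZ12 : 2 ≤ Z1 := hZA2.trans hZ1A
  obtain ⟨Q, hQ, hbase⟩ := Sc_base Z1 hZ12
  refine ⟨Z1, Q, hZ12, hQ, ?_⟩
  intro z
  induction z using Nat.strong_induction_on with
  | _ z ih =>
    intro hz a b D ha hab
    have hzR : (2 : ℝ) ≤ z := by exact_mod_cast hZ12.trans hz
    have hba : 0 ≤ b - a := by linarith
    have hbuch := buchstab a b ha hab Z1 z hZ12 hz
    have hbuchR : (Sc a b z : ℝ) + ∑ p ∈ (Finset.Ico Z1 z).filter Nat.Prime,
        (Sc (a / p) (b / p) p : ℝ) = Sc a b Z1 := by exact_mod_cast hbuch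
    have hb := abs_le.1 (hbase a b ha hab)
    have hVs := V_sum Z1 z hz
    have hpfacts : ∀ p ∈ (Finset.Ico Z1 z).filter Nat.Prime,
        Z1 ≤ p ∧ p < z ∧ p.Prime ∧ (2 : ℝ) ≤ p := by
      intro p hp
      rw [Finset.mem_filter, Finset.mem_Ico] at hp
      exact ⟨hp.1.1, hp.1.2, hp.2, by exact_mod_cast hp.2.two_le⟩
    have hlogp : ∀ p : ℕ, (2 : ℝ) ≤ p → 0 < D → log (D / p) / log p = log D / log p - 1 := by
      intro p hp hD
      have h1 : 0 < log (p : ℝ) := Real.log_pos (by linarith)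
      rw [Real.log_div hD.ne' (by linarith), sub_div, div_self h1.ne']
    constructor
    · intro hD
      have hD1 : 1 ≤ D := by linarith
      have hNd := Nd_rec D hD1 Z1 z hZ12 hz
      have hNdR : (Nd D Z1 z : ℝ) = 1 + ∑ p ∈ (Finset.Ico Z1 z).filter Nat.Prime,
          (Nd (D / p) Z1 p : ℝ) := by exact_mod_cast hNd
      have hLSB := hB Z1 z hZ1B hz D hD
      have hsub : (Finset.Ico Z1 z).filter (fun p : ℕ => p.Prime ∧ (p : ℝ) ^ 3 < D) ⊆
          (Finset.Ico Z1 z).filter Nat.Prime := by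
        intro p hp
        rw [Finset.mem_filter] at hp ⊢
        exact ⟨hp.1, hp.2.1⟩
      have h1 : ∑ p ∈ (Finset.Ico Z1 z).filter (fun p : ℕ => p.Prime ∧ (p : ℝ) ^ 3 < D),
          (Sc (a / p) (b / p) p : ℝ) ≤ ∑ p ∈ (Finset.Ico Z1 z).filter Nat.Prime,
          (Sc (a / p) (b / p) p : ℝ) :=
        Finset.sum_le_sum_of_subset_of_nonneg hsub fun _ _ _ => Nat.cast_nonneg _
      have h2 : ∑ p ∈ (Finset.Ico Z1 z).filter (fun p : ℕ => p.Prime ∧ (p : ℝ) ^ 3 < D),
          (Nd (D / p) Z1 p : ℝ) ≤ ∑ p ∈ (Finset.Ico Z1 z).filter Nat.Prime,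
          (Nd (D / p) Z1 p : ℝ) :=
        Finset.sum_le_sum_of_subset_of_nonneg hsub fun _ _ _ => Nat.cast_nonneg _
      have h3 : ∑ p ∈ (Finset.Ico Z1 z).filter (fun p : ℕ => p.Prime ∧ (p : ℝ) ^ 3 < D),
          ((b - a) * (V p / p * (1 - fm (log D / log p - 1) - ε0 * bm (log D / log p - 1))) -
            Q * (Nd (D / p) Z1 p : ℝ)) ≤
          ∑ p ∈ (Finset.Ico Z1 z).filter (fun p : ℕ => p.Prime ∧ (p : ℝ) ^ 3 < D),
          (Sc (a / p) (b / p) p : ℝ) := by
        apply Finset.sum_le_sum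
        intro p hp
        obtain ⟨hp1, hp2, hp3, hp4⟩ := hpfacts p (hsub hp)
        have hp5 := (Finset.mem_filter.1 hp).2.2
        have hp0 : (0 : ℝ) < p := by linarith
        have h4 := (ih p hp2 hp1 (a / p) (b / p) (D / p) (by positivity)
          (div_le_div_of_nonneg_right hab hp0.le)).2 (by
            rw [le_div_iff₀ hp0]
            nlinarith)
        rw [hlogp p hp4 (by linarith)] at h4
        refine le_trans (le_of_eq ?_) h4
        ring
      rw [Finset.sum_sub_distrib, ← Finset.mul_sum, ← Finset.mul_sum] at h3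
      have h5 := mul_le_mul_of_nonneg_left hLSB hba
      have h6 := mul_le_mul_of_nonneg_left h2 hQ.le
      rw [mul_sub] at h5
      have h8 : Q * (Nd D Z1 z : ℝ) = Q + Q * ∑ p ∈ (Finset.Ico Z1 z).filter Nat.Prime,
          (Nd (D / p) Z1 p : ℝ) := by rw [hNdR]; ring
      rw [h8]
      linarith [hb.2]
    · intro hD
      have hzz : (z : ℝ) ≤ (z : ℝ) ^ 2 := by nlinarith
      have hD1 : 1 ≤ D := by linarith
      have hNd := Nd_rec D hD1 Z1 z hZ12 hz
      have hNdR : (Nd D Z1 z : ℝ) = 1 + ∑ p ∈ (Finset.Ico Z1 z).filter Nat.Prime,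
          (Nd (D / p) Z1 p : ℝ) := by exact_mod_cast hNd
      have hLSA := hA Z1 z hZ1A hz D hD
      have h3 : ∑ p ∈ (Finset.Ico Z1 z).filter Nat.Prime, (Sc (a / p) (b / p) p : ℝ) ≤
          ∑ p ∈ (Finset.Ico Z1 z).filter Nat.Prime,
          ((b - a) * (V p / p) +
            (b - a) * (V p / p * (fp (log D / log p - 1) + ε0 * bp (log D / log p - 1))) +
            Q * (Nd (D / p) Z1 p : ℝ)) := by
        apply Finset.sum_le_sum
        intro p hp
        obtain ⟨hp1, hp2, hp3, hp4⟩ := hpfacts p hp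
        have hp0 : (0 : ℝ) < p := by linarith
        have hpz : (p : ℝ) ≤ z := by exact_mod_cast hp2.le
        have h4 := (ih p hp2 hp1 (a / p) (b / p) (D / p) (by positivity)
          (div_le_div_of_nonneg_right hab hp0.le)).1 (by
            rw [le_div_iff₀ hp0]
            nlinarith)
        rw [hlogp p hp4 (by linarith)] at h4
        refine h4.trans (le_of_eq ?_)
        ring
      rw [Finset.sum_add_distrib, Finset.sum_add_distrib, ← Finset.mul_sum, ← Finset.mul_sum,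
        ← Finset.mul_sum] at h3
      have h5 := mul_le_mul_of_nonneg_left hLSA hba
      have h6 : (b - a) * V z = (b - a) * V Z1 -
          (b - a) * ∑ p ∈ (Finset.Ico Z1 z).filter Nat.Prime, V p / p := by
        rw [← hVs, mul_sub]
      have h8 : Q * (Nd D Z1 z : ℝ) = Q + Q * ∑ p ∈ (Finset.Ico Z1 z).filter Nat.Prime,
          (Nd (D / p) Z1 p : ℝ) := by rw [hNdR]; ring
      rw [h8]
      have h7 : (b - a) * (V z * (1 - fm (log D / log z) - ε0 * bm (log D / log z))) =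
          (b - a) * V z - (b - a) * (V z * (fm (log D / log z) + ε0 * bm (log D / log z))) := by
        ring
      rw [h7]
      linarith [hb.1]

end Pool.Agent.RG
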