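import Pool.Agent.RG.SievI
import Pool.Agent.RG.Phi
import Pool.Agent.RG.PhiF

/-!
# RG / SievL: linear sieve, lower bound with sifting limit 2 (Iwaniec's theorem on Jacobsthal's problem)

`η' = min η 1 / 2`, `s' = 2 + η'/2`; `κ = 1 - fm s' = A log (s'-1)/s' > 0` (`f_two`); `ε0 = κ/(2 bm 2)`;
apply `sieve_ind` with `z = y + 1`, `D = (y+1)^(2+η')`, so `log D/log z = 2 + η'`
(`fm` antitone, `bm` antitone): `Sc ≥ (b - a) V(y+1) κ/2 - Q D`, `V (y+1) ≥ c/log y` (`V_ratio` with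
`u = 2`), and `D` is much smaller than `H/log y`.  Interval `[M, M+H)`: for `M ≥ 1` take `a = M - 1`,
`b = M + H - 1` (integers of `(a, b]`); for `M = 0` take `a = 0`, `b = H - 1`.
-/

set_option autoImplicit false

namespace Pool.Agent.RG

open Real Finset

private lemma sl_V : ∃ c1 : ℝ, 0 < c1 ∧ ∀ z : ℕ, 2 ≤ z → c1 / log z ≤ V z := by
  obtain ⟨C, hC, h⟩ := V_ratio
  have hl2 : 0 < log (2 : ℝ) := Real.log_pos (by norm_num)
  refine ⟨log 2 / (1 + C / log 2), by positivity, ?_⟩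
  intro z hz
  have hzR : (2 : ℝ) ≤ z := by exact_mod_cast hz
  have hlz : 0 < log (z : ℝ) := Real.log_pos (by linarith)
  have h1 := (h 2 z le_rfl hz).1
  have hV2 : V 2 = 1 := by
    unfold V
    have : (range 2).filter Nat.Prime = ∅ := by decide
    rw [this, prod_empty]
  rw [hV2, one_mul] at h1
  push_cast at h1
  rw [div_le_iff₀ hlz, div_le_iff₀ (by positivity)]
  linarith

private lemma sl_asy (e δ : ℝ) (he : 0 < e) (hδ : 0 < δ) : ∃ y0 : ℕ, ∀ y : ℕ, y0 ≤ y →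
    log (y : ℝ) * (y : ℝ) ^ (-e) ≤ δ := by
  have h1 := (isLittleO_log_rpow_atTop he).bound hδ
  have h2 := tendsto_natCast_atTop_atTop (R := ℝ)
  have h3 := h2.eventually (h1.and (Filter.eventually_ge_atTop 1))
  obtain ⟨y0, hy0⟩ := Filter.eventually_atTop.1 h3
  refine ⟨y0, fun y hy => ?_⟩
  obtain ⟨h4, h5⟩ := hy0 y hy
  have hy0' : (0 : ℝ) < y := by linarith
  have hp : 0 < (y : ℝ) ^ e := rpow_pos_of_pos hy0' _
  rw [norm_of_nonneg (Real.log_nonneg h5), norm_of_nonneg hp.le] at h4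
  rw [rpow_neg hy0'.le, ← div_eq_mul_inv, div_le_iff₀ hp]
  exact h4

theorem linear_sieve (η : ℝ) (hη : 0 < η) : ∃ (c : ℝ) (y0 : ℕ), 0 < c ∧ 2 ≤ y0 ∧
    ∀ y : ℕ, y0 ≤ y → ∀ M H : ℕ, (y : ℝ) ^ (2 + η) ≤ H →
      c * H / log y ≤
        (((Ico M (M + H)).filter (fun n : ℕ => ∀ p ∈ prm 0 y, ¬ p ∣ n)).card : ℝ) := by
  obtain ⟨fp, fm, Cφ, hΦ⟩ := exists_phi
  obtain ⟨A, hA3, -, hA⟩ := f_two fp fm Cφ hΦ
  obtain ⟨e, he⟩ : ∃ e : ℝ, e = min η 1 / 2 := ⟨_, rfl⟩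
  have he0 : 0 < e := by rw [he]; exact half_pos (lt_min hη one_pos)
  have he1 : e ≤ 1 / 2 := by rw [he]; linarith [min_le_right η 1]
  have heη : 2 * e ≤ η := by rw [he]; linarith [min_le_left η 1]
  obtain ⟨s, hs⟩ : ∃ s : ℝ, s = 2 + e := ⟨_, rfl⟩
  have hs0 : 0 < s := by linarith
  obtain ⟨κ, hκ⟩ : ∃ κ : ℝ, κ = 1 - fm s := ⟨_, rfl⟩
  have hκ0 : 0 < κ := by
    have h1 := hA s ⟨by linarith, by linarith⟩
    have h2 : 0 < log (s - 1) := Real.log_pos (by linarith)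
    have h3 : 0 < s * κ := by rw [hκ, h1]; positivity
    exact (pos_iff_pos_of_mul_pos h3).1 hs0
  have hbm := bm_pos s
  obtain ⟨Z1, Q, hZ12, hQ, hind⟩ := sieve_ind fp fm Cφ hΦ (κ / (2 * bm s)) (by positivity)
  obtain ⟨c1, hc1, hV⟩ := sl_V
  obtain ⟨y1, hy1⟩ := sl_asy e (κ * c1 / (128 * Q)) he0 (by positivity)
  refine ⟨κ * c1 / 16, max 2 (max Z1 y1), by positivity, le_max_left _ _, ?_⟩
  intro y hy M H hH
  have hy2 : 2 ≤ y := (le_max_left _ _).trans hy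
  have hyZ : Z1 ≤ y := ((le_max_left _ _).trans (le_max_right _ _)).trans hy
  have hyy : y1 ≤ y := ((le_max_right _ _).trans (le_max_right _ _)).trans hy
  have hyR : (2 : ℝ) ≤ y := by exact_mod_cast hy2
  have hy0 : (0 : ℝ) < y := by linarith
  have hly : 0 < log (y : ℝ) := Real.log_pos (by linarith)
  obtain ⟨z, hz⟩ : ∃ z : ℕ, z = y + 1 := ⟨_, rfl⟩
  have hzR : (z : ℝ) = y + 1 := by rw [hz]; push_cast; ring
  have hz0 : (0 : ℝ) < z := by linarith
  have hlz : 0 < log (z : ℝ) := Real.log_pos (by linarith)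
  have hlzy : log (z : ℝ) ≤ 2 * log y := by
    have h1 : (z : ℝ) ≤ (y : ℝ) ^ 2 := by nlinarith
    have h2 := Real.log_le_log hz0 h1
    rw [Real.log_pow] at h2
    exact_mod_cast h2
  obtain ⟨D, hD⟩ : ∃ D : ℝ, D = (z : ℝ) ^ s := ⟨_, rfl⟩
  have hlogD : log D / log z = s := by
    rw [hD, Real.log_rpow hz0]
    field_simp
  have hz2D : (z : ℝ) ^ 2 ≤ D := by
    rw [hD, ← Real.rpow_natCast]
    apply Real.rpow_le_rpow_of_exponent_le (by linarith)
    push_cast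
    linarith
  have hH2 : (2 : ℝ) ≤ H := by
    have h1 : (2 : ℝ) ≤ (y : ℝ) ^ (2 + η) := by
      calc (2 : ℝ) ≤ y := hyR
        _ = (y : ℝ) ^ (1 : ℝ) := (rpow_one _).symm
        _ ≤ (y : ℝ) ^ (2 + η) := Real.rpow_le_rpow_of_exponent_le (by linarith) (by linarith)
    linarith
  have hH2' : 2 ≤ H := by exact_mod_cast hH2
  -- interval
  obtain ⟨a, ha⟩ : ∃ a : ℝ, a = ((M - 1 : ℕ) : ℝ) := ⟨_, rfl⟩
  obtain ⟨b, hb⟩ : ∃ b : ℝ, b = ((M + H - 1 : ℕ) : ℝ) := ⟨_, rfl⟩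
  have hba : (H : ℝ) / 2 ≤ b - a := by
    rw [ha, hb]
    have h1 : (M - 1) + H ≤ (M + H - 1) + 1 := by omega
    have h2 : ((M - 1 : ℕ) : ℝ) + H ≤ ((M + H - 1 : ℕ) : ℝ) + 1 := by exact_mod_cast h1
    linarith
  have hSc : (Sc a b z : ℝ) ≤
      (((Ico M (M + H)).filter (fun n : ℕ => ∀ p ∈ prm 0 y, ¬ p ∣ n)).card : ℝ) := by
    have h1 : Sc a b z ≤ ((Ico M (M + H)).filter (fun n : ℕ => ∀ p ∈ prm 0 y, ¬ p ∣ n)).card := by
      unfold Sc
      apply card_le_card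
      intro n hn
      rw [mem_filter, mem_Icc] at hn
      obtain ⟨⟨hn1, hn2⟩, hn3, hn4⟩ := hn
      rw [hb, Nat.floor_natCast] at hn2
      rw [ha] at hn3
      have hn5 : M - 1 < n := by exact_mod_cast hn3
      rw [mem_filter, mem_Ico]
      refine ⟨⟨by omega, by omega⟩, fun p hp => ?_⟩
      rw [mem_prm] at hp
      exact hn4 p (by omega) hp.2
    exact_mod_cast h1
  refine le_trans ?_ hSc
  have hmain := (hind z (by omega) a b D (by rw [ha]; positivity) (by linarith)).2 hz2D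
  rw [hlogD] at hmain
  have hk : 1 - fm s - κ / (2 * bm s) * bm s = κ / 2 := by
    rw [← hκ]
    field_simp
    ring
  rw [hk] at hmain
  refine le_trans ?_ hmain
  have hVz : c1 / (2 * log y) ≤ V z := by
    refine le_trans ?_ (hV z (by omega))
    exact div_le_div_of_nonneg_left hc1.le hlz hlzy
  have hNd := Nd_le D (by rw [hD]; positivity) Z1 z
  have h1 : (H : ℝ) / 2 * (c1 / (2 * log y) * (κ / 2)) ≤ (b - a) * (V z * (κ / 2)) := by
    apply mul_le_mul hba _ (by positivity) (by linarith)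
    exact mul_le_mul_of_nonneg_right hVz (by positivity)
  have hDle : D ≤ 8 * (H * (y : ℝ) ^ (-e)) := by
    have h2 : D ≤ (2 * (y : ℝ)) ^ s := by
      rw [hD]
      apply Real.rpow_le_rpow hz0.le _ hs0.le
      linarith
    have h3 : (2 : ℝ) ^ s ≤ 8 := by
      have : (2 : ℝ) ^ s ≤ (2 : ℝ) ^ (3 : ℝ) :=
        Real.rpow_le_rpow_of_exponent_le (by norm_num) (by linarith)
      refine this.trans (le_of_eq ?_)
      norm_num
    rw [Real.mul_rpow (by norm_num) hy0.le] at h2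
    have h4 : (y : ℝ) ^ s ≤ H * (y : ℝ) ^ (-e) := by
      have h5 : (y : ℝ) ^ s = (y : ℝ) ^ (2 + 2 * e) * (y : ℝ) ^ (-e) := by
        rw [← Real.rpow_add hy0, hs]
        congr 1
        ring
      rw [h5]
      apply mul_le_mul_of_nonneg_right _ (by positivity)
      refine le_trans ?_ hH
      exact Real.rpow_le_rpow_of_exponent_le (by linarith) (by linarith)
    refine h2.trans ?_
    exact mul_le_mul h3 h4 (by positivity) (by norm_num)
  have hQD : Q * (Nd D Z1 z : ℝ) ≤ κ * c1 / 16 * (H / log y) := by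
    have h2 : Q * (Nd D Z1 z : ℝ) ≤ Q * (8 * (H * (y : ℝ) ^ (-e))) :=
      mul_le_mul_of_nonneg_left (hNd.trans hDle) hQ.le
    have h3 := hy1 y hyy
    have h4 : (y : ℝ) ^ (-e) ≤ κ * c1 / (128 * Q) / log y := by
      rw [le_div_iff₀ hly]
      linarith
    refine h2.trans ?_
    have h5 : Q * (8 * (H * (κ * c1 / (128 * Q) / log y))) = κ * c1 / 16 * (H / log y) := by
      field_simp
      ring
    rw [← h5]
    have hH0 : (0 : ℝ) ≤ H := by linarith
    gcongr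
  have h6 : (H : ℝ) / 2 * (c1 / (2 * log y) * (κ / 2)) = κ * c1 / 8 * (H / log y) := by
    field_simp
    ring
  have h7 : κ * c1 / 16 * (H : ℝ) / log y = κ * c1 / 16 * (H / log y) := by ring
  rw [h7]
  linarith

end Pool.Agent.RG
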