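import Pool.Agent.RG.UUp
import Pool.Agent.RG.Avg
import Pool.Agent.RG.Mer

/-!
# RG / St1: few survivors are rare (deterministic inequality)

`x = 1 - lam`, `T = Ico s0 (s0+h)`, `#(a)` = number of `t ∈ T` with `∀ p ∈ prm 0 w, ¬ p ∣ a + t`.
`x^m #{a : #(a) < m} ≤ ∑_a x^#(a)`, `x^(-m) ≤ exp (2 lam m)`.  `PP 0 w = PP 0 w1 * PP w1 w` (coprime);
by `crt_split` and `crt_avg` (for each `a1 mod PP 0 w1`, `T1 = {t ∈ T | ∀ p ∈ prm 0 w1, ¬ p ∣ a1 + t}`):
`∑_a x^#(a) = ∑_{a1} PP w1 w * U x (plist w1 w) T1`, `|T1| ≥ M`.  `U_le_range` with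
`e p = 8 lam^2 h^2 / p^2`: `1 - qq ≤ lam`, `qq ≥ x ≥ 1/2`; no collisions if `h ≤ p`; for `p < h`
`cl ≤ h/p + 1 ≤ 2h/p ≤ 2h/w1`, `S2 ≤ (2h/p) |T1| ≤ 2h^2/p`; `∏ (1 + e) ≤ exp (∑ e) ≤ exp (8 lam^2 h^2/w1)`
(`sq_sum`); `qq^|T1| ≤ exp (-lam (pr l) M)`.
-/

set_option autoImplicit false

namespace Pool.Agent.RG

open Finset Real

private lemma st1_dvd (p P a t : ℕ) (h : p ∣ P) : p ∣ a % P + t ↔ p ∣ a + t := by
  have e : a + t = (a % P + t) + P * (a / P) := by
    have := Nat.mod_add_div a P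
    omega
  rw [e]
  exact (Nat.dvd_add_left (h.mul_right _)).symm

private lemma st1_prm_union {w1 w : ℕ} (hw : w1 ≤ w) : prm 0 w = prm 0 w1 ∪ prm w1 w := by
  ext p
  simp only [mem_union, mem_prm]
  constructor
  · rintro ⟨⟨h1, h2⟩, h3⟩
    rcases le_or_gt p w1 with h | h
    · exact Or.inl ⟨⟨h1, h⟩, h3⟩
    · exact Or.inr ⟨⟨h, h2⟩, h3⟩
  · rintro (⟨⟨h1, h2⟩, h3⟩ | ⟨⟨h1, h2⟩, h3⟩)
    · exact ⟨⟨h1, h2.trans hw⟩, h3⟩
    · exact ⟨⟨by omega, h2⟩, h3⟩

private lemma st1_disj (w1 w : ℕ) : Disjoint (prm 0 w1) (prm w1 w) := by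
  rw [Finset.disjoint_left]
  intro p h1 h2
  rw [mem_prm] at h1 h2
  omega

private lemma st1_PP {w1 w : ℕ} (hw : w1 ≤ w) : PP 0 w = PP 0 w1 * PP w1 w := by
  unfold PP
  rw [st1_prm_union hw, prod_union (st1_disj w1 w)]

private lemma st1_PP_pos (a b : ℕ) : 0 < PP a b :=
  prod_pos fun p hp => (mem_prm.1 hp).2.pos

private lemma st1_coprime (w1 w : ℕ) : Nat.Coprime (PP 0 w1) (PP w1 w) := by
  unfold PP
  apply Nat.Coprime.prod_left
  intro p hp
  apply Nat.Coprime.prod_right
  intro q hq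
  rw [mem_prm] at hp hq
  rw [Nat.coprime_primes hp.2 hq.2]
  omega

private lemma st1_cl_le {p c : ℕ} (hp : 0 < p) {T : Finset ℕ} {s0 h : ℕ}
    (hT : T ⊆ Ico s0 (s0 + h)) : cl p c T ≤ (h - 1) / p + 1 := by
  unfold cl
  rcases (T.filter (fun t => t % p = c)).eq_empty_or_nonempty with he | hne
  · rw [he]; simp
  · obtain ⟨t0, ht0⟩ : ∃ t0, t0 = (T.filter (fun t => t % p = c)).min' hne := ⟨_, rfl⟩
    have hmem : t0 ∈ T.filter (fun t => t % p = c) := by rw [ht0]; exact min'_mem _ _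
    have hmin : ∀ t ∈ T.filter (fun t => t % p = c), t0 ≤ t := by
      intro t ht; rw [ht0]; exact min'_le _ _ ht
    rw [mem_filter] at hmem
    have h0 := mem_Ico.1 (hT hmem.1)
    rw [← card_range ((h - 1) / p + 1)]
    apply card_le_card_of_injOn (fun t => (t - t0) / p)
    · intro t ht
      have h1 := hmin t ht
      rw [mem_coe, mem_filter] at ht
      have h2 := mem_Ico.1 (hT ht.1)
      rw [mem_coe, mem_range]
      apply Nat.lt_succ_of_le
      apply Nat.div_le_div_right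
      omega
    · intro t ht t' ht' htt
      have h1 := hmin t ht
      have h1' := hmin t' ht'
      rw [mem_coe, mem_filter] at ht ht'
      have h3 : (t - t0) % p = 0 := Nat.sub_mod_eq_zero_of_mod_eq (by rw [ht.2, hmem.2])
      have h3' : (t' - t0) % p = 0 := Nat.sub_mod_eq_zero_of_mod_eq (by rw [ht'.2, hmem.2])
      have h4 := Nat.mod_add_div (t - t0) p
      have h4' := Nat.mod_add_div (t' - t0) p
      simp only at htt
      rw [h3, htt] at h4
      rw [h3'] at h4'
      omega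

private lemma st1_cl_sum (p : ℕ) (hp : 0 < p) (T : Finset ℕ) :
    ∑ c ∈ range p, (cl p c T : ℝ) = T.card := by
  have h := card_eq_sum_card_fiberwise (f := fun t => t % p) (s := T) (t := range p)
    (fun t _ => by
      simp only [coe_range, Set.mem_Iio]
      exact Nat.mod_lt _ hp)
  rw [h]
  push_cast
  rfl

private lemma st1_pr_mem (a b : ℕ) (hab : a ≤ b) : 0 ≤ pr (plist a b) ∧ pr (plist a b) ≤ 1 := by
  unfold pr
  rw [prod_plist _ a b hab]
  have h0 : ∀ p ∈ prm a b, (0 : ℝ) ≤ 1 - 1 / (p : ℝ) := by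
    intro p hp
    have h1 : (1 : ℝ) ≤ p := by exact_mod_cast (mem_prm.1 hp).2.one_lt.le
    have : 1 / (p : ℝ) ≤ 1 := by rw [div_le_one (by linarith)]; exact h1
    linarith
  refine ⟨prod_nonneg h0, prod_le_one h0 fun p hp => ?_⟩
  have : (0 : ℝ) ≤ 1 / (p : ℝ) := by positivity
  linarith

private lemma st1_U {w1 w h s0 : ℕ} (hw1 : 2 ≤ w1) (hw : w1 ≤ w) {lam : ℝ} (hlam : 0 < lam)
    (hlam2 : lam ≤ 1 / 2) (hcol : 4 * lam * h ≤ w1) {T : Finset ℕ} (hT : T ⊆ Ico s0 (s0 + h))
    {M : ℝ} (hM : M ≤ T.card) :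
    U (1 - lam) (plist w1 w) T ≤
      exp (- lam * pr (plist w1 w) * M + 8 * lam ^ 2 * h ^ 2 / w1) := by
  have hw1R : (2 : ℝ) ≤ w1 := by exact_mod_cast hw1
  have hTc : (T.card : ℝ) ≤ h := by
    have := card_le_card hT
    rw [Nat.card_Ico] at this
    exact_mod_cast (by omega : T.card ≤ h)
  have hU := U_le_range (1 - lam) (by linarith) (by linarith)
    (fun p : ℕ => 8 * lam ^ 2 * h ^ 2 * (1 / (p : ℝ) ^ 2)) (fun p => by positivity) T w1 w hw
    (by
      intro p hp
      rw [mem_prm] at hp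
      have hp0 : 0 < p := hp.2.pos
      have hpw : w1 < p := hp.1.1
      have hpR : (w1 : ℝ) < p := by exact_mod_cast hpw
      have hpR0 : (0 : ℝ) < p := by linarith
      rcases le_or_gt h p with hhp | hph
      · left
        intro c _
        refine (st1_cl_le hp0 hT).trans ?_
        have : (h - 1) / p = 0 := Nat.div_eq_of_lt (by omega)
        omega
      · right
        obtain ⟨hpr0, hpr1⟩ := st1_pr_mem p w hp.1.2
        have hqq : 1 - qq (1 - lam) (plist p w) = lam * pr (plist p w) := by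
          unfold qq; ring
        have hq1 : lam * pr (plist p w) ≤ lam := by nlinarith
        have hq0 : 0 ≤ lam * pr (plist p w) := by positivity
        have hphR : (p : ℝ) < h := by exact_mod_cast hph
        have hclb : ∀ c, (cl p c T : ℝ) ≤ 2 * h / p := by
          intro c
          have h1 : (cl p c T : ℝ) ≤ (((h - 1) / p + 1 : ℕ) : ℝ) := by
            exact_mod_cast st1_cl_le hp0 hT
          refine h1.trans ?_
          push_cast
          have h2 : (((h - 1) / p : ℕ) : ℝ) ≤ (h : ℝ) / p := by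
            refine Nat.cast_div_le.trans ?_
            apply div_le_div_of_nonneg_right _ hpR0.le
            exact_mod_cast Nat.sub_le h 1
          have h3 : (1 : ℝ) ≤ h / p := by rw [le_div_iff₀ hpR0]; linarith
          have h4 : 2 * (h : ℝ) / p = h / p + h / p := by ring
          rw [h4]
          linarith
        refine ⟨by linarith, ?_, ?_⟩
        · intro c _
          rw [hqq]
          have h1 : (cl p c T : ℝ) * (2 * (lam * pr (plist p w))) ≤ (2 * h / p) * (2 * lam) :=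
            mul_le_mul (hclb c) (by linarith) (by positivity) (by positivity)
          refine h1.trans ?_
          rw [div_mul_eq_mul_div, div_le_one hpR0]
          nlinarith
        · rw [hqq]
          have h1 : S2 p T ≤ (2 * h / p) * h := by
            unfold S2
            calc ∑ c ∈ range p, (if 2 ≤ cl p c T then (cl p c T : ℝ) ^ 2 else 0)
                ≤ ∑ c ∈ range p, (2 * h / p) * (cl p c T : ℝ) := by
                  apply sum_le_sum
                  intro c _
                  have h2 := hclb c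
                  split_ifs with hc
                  · rw [sq]
                    exact mul_le_mul_of_nonneg_right h2 (by positivity)
                  · positivity
              _ = (2 * h / p) * T.card := by rw [← mul_sum, st1_cl_sum p hp0]
              _ ≤ (2 * h / p) * h := mul_le_mul_of_nonneg_left hTc (by positivity)
          have h2 : (2 * (lam * pr (plist p w))) ^ 2 ≤ 4 * lam ^ 2 := by
            nlinarith
          have h3 : 0 ≤ S2 p T := by
            unfold S2
            apply sum_nonneg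
            intro c _
            split_ifs <;> positivity
          calc (2 * (lam * pr (plist p w))) ^ 2 / p * S2 p T
              ≤ (4 * lam ^ 2) / p * ((2 * h / p) * h) := by
                apply mul_le_mul _ h1 h3 (by positivity)
                exact div_le_div_of_nonneg_right h2 hpR0.le
            _ = 8 * lam ^ 2 * h ^ 2 * (1 / (p : ℝ) ^ 2) := by
                field_simp
                ring)
  refine hU.trans ?_
  obtain ⟨hpr0, hpr1⟩ := st1_pr_mem w1 w hw
  have hqq : qq (1 - lam) (plist w1 w) = 1 - lam * pr (plist w1 w) := by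
    unfold qq; ring
  have hq0 : 0 ≤ qq (1 - lam) (plist w1 w) := by
    rw [hqq]; nlinarith
  have h1 : qq (1 - lam) (plist w1 w) ^ T.card ≤ exp (- lam * pr (plist w1 w) * M) := by
    have h2 : qq (1 - lam) (plist w1 w) ≤ exp (-(lam * pr (plist w1 w))) := by
      rw [hqq]
      have := Real.add_one_le_exp (-(lam * pr (plist w1 w)))
      linarith
    refine (pow_le_pow_left₀ hq0 h2 _).trans ?_
    rw [← Real.exp_nat_mul]
    apply Real.exp_le_exp.2
    have h3 : 0 ≤ lam * pr (plist w1 w) := by positivity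
    nlinarith [mul_le_mul_of_nonneg_left hM h3]
  have h2 : ∏ p ∈ prm w1 w, (1 + 8 * lam ^ 2 * h ^ 2 * (1 / (p : ℝ) ^ 2)) ≤
      exp (8 * lam ^ 2 * h ^ 2 / w1) := by
    calc ∏ p ∈ prm w1 w, (1 + 8 * lam ^ 2 * h ^ 2 * (1 / (p : ℝ) ^ 2))
        ≤ ∏ p ∈ prm w1 w, exp (8 * lam ^ 2 * h ^ 2 * (1 / (p : ℝ) ^ 2)) := by
          apply prod_le_prod
          · intro p _; positivity
          · intro p _
            have := Real.add_one_le_exp (8 * lam ^ 2 * h ^ 2 * (1 / (p : ℝ) ^ 2))
            linarith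
      _ = exp (8 * lam ^ 2 * h ^ 2 * ∑ p ∈ prm w1 w, 1 / (p : ℝ) ^ 2) := by
          rw [← Real.exp_sum, mul_sum]
      _ ≤ exp (8 * lam ^ 2 * h ^ 2 / w1) := by
          apply Real.exp_le_exp.2
          have := mul_le_mul_of_nonneg_left (sq_sum w1 w (by omega))
            (show 0 ≤ 8 * lam ^ 2 * (h : ℝ) ^ 2 by positivity)
          refine this.trans (le_of_eq ?_)
          ring
  rw [Real.exp_add]
  exact mul_le_mul h1 h2 (prod_nonneg fun p _ => by positivity) (Real.exp_pos _).le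

theorem stage1_det (w1 w h s0 m : ℕ) (hw1 : 2 ≤ w1) (hw : w1 ≤ w) (lam M : ℝ) (hlam : 0 < lam)
    (hlam2 : lam ≤ 1 / 2) (hcol : 4 * lam * h ≤ w1)
    (hM : ∀ a : ℕ,
      M ≤ (((Ico s0 (s0 + h)).filter (fun t => ∀ p ∈ prm 0 w1, ¬ p ∣ a + t)).card : ℝ)) :
    (((range (PP 0 w)).filter (fun a =>
      ((Ico s0 (s0 + h)).filter (fun t => ∀ p ∈ prm 0 w, ¬ p ∣ a + t)).card < m)).card : ℝ) ≤
    PP 0 w * exp (2 * lam * m - lam * pr (plist w1 w) * M + 8 * lam ^ 2 * h ^ 2 / w1) := by
  obtain ⟨x, hx⟩ : ∃ x : ℝ, x = 1 - lam := ⟨_, rfl⟩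
  have hx0 : 0 < x := by linarith
  have hx1 : x ≤ 1 := by linarith
  obtain ⟨E, hE⟩ : ∃ E : ℝ, E = exp (- lam * pr (plist w1 w) * M + 8 * lam ^ 2 * h ^ 2 / w1) :=
    ⟨_, rfl⟩
  obtain ⟨S, hS⟩ : ∃ S : ℕ → Finset ℕ, S = fun a =>
    (Ico s0 (s0 + h)).filter (fun t => ∀ p ∈ prm 0 w, ¬ p ∣ a + t) := ⟨_, rfl⟩
  -- lower bound for the sum
  have h1 : (((range (PP 0 w)).filter (fun a => (S a).card < m)).card : ℝ) * x ^ m ≤
      ∑ a ∈ range (PP 0 w), x ^ (S a).card := by
    calc (((range (PP 0 w)).filter (fun a => (S a).card < m)).card : ℝ) * x ^ m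
        = ∑ a ∈ (range (PP 0 w)).filter (fun a => (S a).card < m), x ^ m := by
          rw [sum_const, nsmul_eq_mul]
      _ ≤ ∑ a ∈ (range (PP 0 w)).filter (fun a => (S a).card < m), x ^ (S a).card := by
          apply sum_le_sum
          intro a ha
          exact pow_le_pow_of_le_one hx0.le hx1 (mem_filter.1 ha).2.le
      _ ≤ ∑ a ∈ range (PP 0 w), x ^ (S a).card := by
          apply sum_le_sum_of_subset_of_nonneg (filter_subset _ _)
          intro a _ _
          positivity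
  -- upper bound
  have h2 : ∑ a ∈ range (PP 0 w), x ^ (S a).card ≤ PP 0 w * E := by
    have hsplit := crt_split (PP 0 w1) (PP w1 w) (st1_coprime w1 w) (st1_PP_pos _ _)
      (st1_PP_pos _ _) (fun i j => x ^ (((Ico s0 (s0 + h)).filter
        (fun t => ∀ p ∈ prm 0 w1, ¬ p ∣ i + t)).filter
        (fun t => ∀ p ∈ prm w1 w, ¬ p ∣ j + t)).card)
    have hS' : ∀ a, S a = ((Ico s0 (s0 + h)).filter
        (fun t => ∀ p ∈ prm 0 w1, ¬ p ∣ a % PP 0 w1 + t)).filter
        (fun t => ∀ p ∈ prm w1 w, ¬ p ∣ a % PP w1 w + t) := by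
      intro a
      rw [hS, filter_filter]
      apply filter_congr
      intro t _
      rw [st1_prm_union hw]
      simp only [mem_union]
      constructor
      · intro H
        refine ⟨fun p hp => ?_, fun p hp => ?_⟩
        · rw [st1_dvd p (PP 0 w1) a t (dvd_prod_of_mem _ hp)]
          exact H p (Or.inl hp)
        · rw [st1_dvd p (PP w1 w) a t (dvd_prod_of_mem _ hp)]
          exact H p (Or.inr hp)
      · rintro ⟨H1, H2⟩ p (hp | hp)
        · rw [← st1_dvd p (PP 0 w1) a t (dvd_prod_of_mem _ hp)]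
          exact H1 p hp
        · rw [← st1_dvd p (PP w1 w) a t (dvd_prod_of_mem _ hp)]
          exact H2 p hp
    have h3 : ∑ a ∈ range (PP 0 w), x ^ (S a).card = ∑ i ∈ range (PP 0 w1),
        ∑ j ∈ range (PP w1 w), x ^ (((Ico s0 (s0 + h)).filter
        (fun t => ∀ p ∈ prm 0 w1, ¬ p ∣ i + t)).filter
        (fun t => ∀ p ∈ prm w1 w, ¬ p ∣ j + t)).card := by
      rw [← hsplit, ← st1_PP hw]
      apply sum_congr rfl
      intro a _
      rw [hS']
    rw [h3]
    have h4 : ∀ i ∈ range (PP 0 w1), ∑ j ∈ range (PP w1 w), x ^ (((Ico s0 (s0 + h)).filter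
        (fun t => ∀ p ∈ prm 0 w1, ¬ p ∣ i + t)).filter
        (fun t => ∀ p ∈ prm w1 w, ¬ p ∣ j + t)).card ≤ PP w1 w * E := by
      intro i _
      have h5 := crt_avg x w1 w hw ((Ico s0 (s0 + h)).filter
        (fun t => ∀ p ∈ prm 0 w1, ¬ p ∣ i + t))
      have h6 := st1_U hw1 hw hlam hlam2 hcol (T := (Ico s0 (s0 + h)).filter
        (fun t => ∀ p ∈ prm 0 w1, ¬ p ∣ i + t)) (filter_subset _ _) (hM i)
      rw [← hx, ← h5, ← hE] at h6
      have hpos : (0 : ℝ) < PP w1 w := by exact_mod_cast st1_PP_pos w1 w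
      rw [one_div, inv_mul_le_iff₀ hpos] at h6
      exact h6
    refine (sum_le_sum h4).trans ?_
    rw [sum_const, card_range, nsmul_eq_mul, ← mul_assoc, st1_PP hw]
    push_cast
    exact le_refl _
  -- conclusion
  have h5 : exp (-(2 * lam * m)) ≤ x ^ m := by
    have h6 : exp (-(2 * lam)) ≤ x := by
      rw [hx, Real.exp_neg, inv_le_comm₀ (Real.exp_pos _) (by linarith)]
      have h7 := Real.add_one_le_exp (2 * lam)
      refine le_trans ?_ h7
      rw [inv_le_iff_one_le_mul₀ (by linarith)]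
      nlinarith
    calc exp (-(2 * lam * m)) = exp (-(2 * lam)) ^ m := by
          rw [← Real.exp_nat_mul]
          congr 1
          ring
      _ ≤ x ^ m := pow_le_pow_left₀ (Real.exp_pos _).le h6 m
  have h6 : (((range (PP 0 w)).filter (fun a => (S a).card < m)).card : ℝ) *
      exp (-(2 * lam * m)) ≤ PP 0 w * E :=
    (mul_le_mul_of_nonneg_left h5 (by positivity)).trans (h1.trans h2)
  have h7 : exp (2 * lam * m - lam * pr (plist w1 w) * M + 8 * lam ^ 2 * h ^ 2 / w1) =
      E * exp (2 * lam * m) := by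
    rw [hE, ← Real.exp_add]
    congr 1
    ring
  rw [h7, ← mul_assoc]
  rw [Real.exp_neg, ← div_eq_mul_inv, div_le_iff₀ (Real.exp_pos _)] at h6
  rw [hS] at h6
  exact h6

end Pool.Agent.RG
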