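import Pool.Agent.RG.St1
import Pool.Agent.RG.SievL
import Pool.Agent.RG.Par

/-!
# RG / St1A: few survivors are rare (asymptotics)

`stage1_det` with `w1 = ⌊ℓ^(γ + ε/3)⌋`, `h = hU`, `m = mU`, `lam = ℓ^(-θ - 3ε/4)`, and
`M = c h / log w1` from `linear_sieve` with `η = ε / (2 (3γ + ε))` (`{t ∈ Ico s0 (s0+h)} ↔ n = a + t ∈
Ico (a+s0) (a+s0+h)`): `w1^(2+η) ≤ h` because `(2+η)(γ + ε/3) < 2γ + ε ≤ θ + γ + ε`.  Exponents:
`lam h / w1 ~ ℓ^(-ε/12)`, `lam m ~ ℓ^(γ - ε/4)`, `lam M ~ ℓ^(γ + ε/4)/log ℓ`, `lam^2 h^2/w1 ~ ℓ^(γ + ε/6)`;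
`pr (plist w1 w) ≥ c'` (`pr_bounds`).  So the exponent is `≤ -ℓ^(γ + ε/5)` (tool: `asy`).
-/

set_option autoImplicit false

namespace Pool.Agent.RG

open Finset Real Filter

private lemma sa_floor_ge {x : ℝ} (hx : 2 ≤ x) : x / 2 ≤ (⌊x⌋₊ : ℝ) := by
  have := Nat.lt_floor_add_one x
  linarith

private lemma sa_card (a s0 h w : ℕ) :
    ((Ico (a + s0) (a + s0 + h)).filter (fun n : ℕ => ∀ p ∈ prm 0 w, ¬ p ∣ n)).card =
      ((Ico s0 (s0 + h)).filter (fun t => ∀ p ∈ prm 0 w, ¬ p ∣ a + t)).card := by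
  symm
  apply card_bij (fun t _ => a + t)
  · intro t ht
    rw [mem_filter, mem_Ico] at ht ⊢
    exact ⟨⟨by omega, by omega⟩, ht.2⟩
  · intro t _ t' _ h
    omega
  · intro n hn
    rw [mem_filter, mem_Ico] at hn
    refine ⟨n - a, ?_, by omega⟩
    rw [mem_filter, mem_Ico]
    refine ⟨⟨by omega, by omega⟩, ?_⟩
    rw [show a + (n - a) = n by omega]
    exact hn.2

theorem stage1 (θ γ ε ω : ℝ) (hP : Par θ γ ε ω) : ∀ᶠ ℓ : ℝ in atTop, ∀ s0 : ℕ,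
    (((range (PP 0 (Wn ω ℓ))).filter (fun a =>
      ((Ico s0 (s0 + hU θ γ ε ℓ)).filter (fun t => ∀ p ∈ prm 0 (Wn ω ℓ), ¬ p ∣ a + t)).card <
        mU θ γ ε ℓ)).card : ℝ) ≤
    exp (-ℓ ^ (γ + ε / 5)) * PP 0 (Wn ω ℓ) := by
  obtain ⟨hε, hγ, hγθ, hω, hω1⟩ := hP
  have hγ0 : 0 < γ := by linarith
  have hθ0 : 0 < θ := by linarith
  have hω0 : 0 < ω := by linarith
  obtain ⟨η, hη⟩ : ∃ η : ℝ, η = ε / (2 * (3 * γ + ε)) := ⟨_, rfl⟩
  have hη0 : 0 < η := by rw [hη]; positivity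
  have hηe : (γ + ε / 3) * (2 + η) = 2 * γ + 5 * ε / 6 := by
    rw [hη]
    field_simp
    ring
  obtain ⟨c, y0, hc, hy02, hls⟩ := linear_sieve η hη0
  obtain ⟨c', C', hc', -, hpr⟩ := pr_bounds
  have E1 : ∀ᶠ ℓ : ℝ in atTop, 2 * ((y0 : ℝ) + 2) ≤ ℓ ^ (γ + ε / 3) :=
    (tendsto_rpow_atTop (by linarith)).eventually_ge_atTop _
  have E2 := asy0 (-θ - 3 * ε / 4) 0 2 (by linarith)
  have E3 := asy0 (γ + ε / 4) (γ + ε / 3) 8 (by linarith)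
  have E4 := asy0 (2 * γ + 5 * ε / 6) (θ + γ + ε) 2 (by linarith)
  have E5 := asy (γ + ε / 5) (γ + ε / 4) (21 * (2 * ω / (c * c'))) 1 (by linarith)
  have E6 : ∀ᶠ ℓ : ℝ in atTop, 2 ≤ ℓ ^ (θ + γ + ε) :=
    (tendsto_rpow_atTop (by linarith)).eventually_ge_atTop _
  filter_upwards [E1, E2, E3, E4, E5, E6, eventually_gt_atTop 1] with
    ℓ h1 h2 h3 h4 h5 h6 h8 s0
  have hl1 : 1 ≤ ℓ := h8.le
  have hl0 : 0 < ℓ := by linarith
  have hlog : 0 < log ℓ := Real.log_pos h8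
  obtain ⟨w1, hw1⟩ : ∃ w1 : ℕ, w1 = ⌊ℓ ^ (γ + ε / 3)⌋₊ := ⟨_, rfl⟩
  obtain ⟨w, hw⟩ : ∃ w, w = Wn ω ℓ := ⟨_, rfl⟩
  obtain ⟨h, hh⟩ : ∃ h, h = hU θ γ ε ℓ := ⟨_, rfl⟩
  obtain ⟨m, hm⟩ : ∃ m, m = mU θ γ ε ℓ := ⟨_, rfl⟩
  obtain ⟨lam, hlam⟩ : ∃ lam : ℝ, lam = ℓ ^ (-θ - 3 * ε / 4) := ⟨_, rfl⟩
  rw [← hw, ← hh, ← hm]
  have hy0R : (2 : ℝ) ≤ y0 := by exact_mod_cast hy02
  have hw1ge : ℓ ^ (γ + ε / 3) / 2 ≤ w1 := by
    rw [hw1]; exact sa_floor_ge (by linarith)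
  have hw1le : (w1 : ℝ) ≤ ℓ ^ (γ + ε / 3) := by
    rw [hw1]; exact Nat.floor_le (by positivity)
  have hw1y : y0 ≤ w1 := by
    have : (y0 : ℝ) ≤ w1 := by linarith
    exact_mod_cast this
  have hw12 : 2 ≤ w1 := hy02.trans hw1y
  have hw1R : (2 : ℝ) ≤ w1 := by exact_mod_cast hw12
  have hw1w : w1 ≤ w := by
    rw [hw1, hw]
    apply Nat.floor_mono
    exact Real.rpow_le_rpow_of_exponent_le hl1 (by linarith)
  have hwle : (w : ℝ) ≤ ℓ ^ ω := by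
    rw [hw]; exact Nat.floor_le (by positivity)
  have hhge : ℓ ^ (θ + γ + ε) / 2 ≤ h := by
    rw [hh]; exact sa_floor_ge h6
  have hhle : (h : ℝ) ≤ ℓ ^ (θ + γ + ε) := by
    rw [hh]; exact Nat.floor_le (by positivity)
  have hmle : (m : ℝ) ≤ 2 * ℓ ^ (θ + γ + ε / 2) := by
    rw [hm]
    have e1 := Nat.ceil_lt_add_one (show 0 ≤ ℓ ^ (θ + γ + ε / 2) by positivity)
    have e2 : 1 ≤ ℓ ^ (θ + γ + ε / 2) := one_le_rpow hl1 (by linarith)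
    unfold mU
    linarith
  have hlam0 : 0 < lam := by rw [hlam]; positivity
  have hlam2 : lam ≤ 1 / 2 := by
    rw [rpow_zero] at h2
    rw [hlam]
    linarith
  have hlamh : lam * h ≤ ℓ ^ (γ + ε / 4) := by
    have e1 : ℓ ^ (γ + ε / 4) = lam * ℓ ^ (θ + γ + ε) := by
      rw [hlam, ← rpow_add hl0]
      congr 1
      ring
    rw [e1]
    exact mul_le_mul_of_nonneg_left hhle hlam0.le
  have hcol : 4 * lam * h ≤ w1 := by linarith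
  have hlw1 : 0 < log (w1 : ℝ) := Real.log_pos (by linarith)
  have hwR : (2 : ℝ) ≤ w := by
    have : 2 ≤ w := hw12.trans hw1w
    exact_mod_cast this
  have hlw : 0 < log (w : ℝ) := Real.log_pos (by linarith)
  obtain ⟨M, hM⟩ : ∃ M : ℝ, M = c * h / log w1 := ⟨_, rfl⟩
  have hMle : ∀ a : ℕ,
      M ≤ (((Ico s0 (s0 + h)).filter (fun t => ∀ p ∈ prm 0 w1, ¬ p ∣ a + t)).card : ℝ) := by
    intro a
    rw [← sa_card, hM]
    apply hls w1 hw1y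
    calc (w1 : ℝ) ^ (2 + η) ≤ (ℓ ^ (γ + ε / 3)) ^ (2 + η) :=
          Real.rpow_le_rpow (by positivity) hw1le (by linarith)
      _ = ℓ ^ (2 * γ + 5 * ε / 6) := by
          rw [← rpow_mul hl0.le, hηe]
      _ ≤ ℓ ^ (θ + γ + ε) / 2 := by linarith
      _ ≤ h := hhge
  have hdet := stage1_det w1 w h s0 m hw12 hw1w lam M hlam0 hlam2 hcol hMle
  refine hdet.trans ?_
  rw [mul_comm]
  apply mul_le_mul_of_nonneg_right _ (by positivity)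
  apply exp_le_exp.2
  -- the three terms
  have t1 : 2 * lam * m ≤ 4 * ℓ ^ (γ - ε / 4) := by
    have e1 : ℓ ^ (γ - ε / 4) = lam * ℓ ^ (θ + γ + ε / 2) := by
      rw [hlam, ← rpow_add hl0]
      congr 1
      ring
    rw [e1]
    have := mul_le_mul_of_nonneg_left hmle hlam0.le
    linarith
  have t2 : c * c' / (2 * ω) * (ℓ ^ (γ + ε / 4) / log ℓ) ≤ lam * pr (plist w1 w) * M := by
    have e1 := (hpr w1 w hw12 hw1w).1
    have e2 : lam * (c' * (log w1 / log w)) * M ≤ lam * pr (plist w1 w) * M := by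
      apply mul_le_mul_of_nonneg_right _ (by rw [hM]; positivity)
      exact mul_le_mul_of_nonneg_left e1 hlam0.le
    refine le_trans ?_ e2
    have e3 : lam * (c' * (log w1 / log w)) * M = c * c' * (lam * h) / log w := by
      rw [hM]
      field_simp
    rw [e3]
    have e4 : log (w : ℝ) ≤ ω * log ℓ := by
      have := Real.log_le_log (by linarith) hwle
      rwa [Real.log_rpow hl0] at this
    have e5 : ℓ ^ (γ + ε / 4) / 2 ≤ lam * h := by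
      have e1 : ℓ ^ (γ + ε / 4) = lam * ℓ ^ (θ + γ + ε) := by
        rw [hlam, ← rpow_add hl0]
        congr 1
        ring
      rw [e1]
      have := mul_le_mul_of_nonneg_left hhge hlam0.le
      linarith
    calc c * c' / (2 * ω) * (ℓ ^ (γ + ε / 4) / log ℓ)
        = c * c' * (ℓ ^ (γ + ε / 4) / 2) / (ω * log ℓ) := by
          field_simp
      _ ≤ c * c' * (lam * h) / log w := by
          apply div_le_div₀ (by positivity) _ hlw e4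
          exact mul_le_mul_of_nonneg_left e5 (by positivity)
  have t3 : 8 * lam ^ 2 * h ^ 2 / w1 ≤ 16 * ℓ ^ (γ + ε / 6) := by
    have hw1pos : (0 : ℝ) < w1 := by linarith
    rw [div_le_iff₀ hw1pos]
    have e1 : (lam * h) ^ 2 ≤ (ℓ ^ (γ + ε / 4)) ^ 2 := pow_le_pow_left₀ (by positivity) hlamh 2
    have e2 : (ℓ ^ (γ + ε / 4)) ^ 2 = ℓ ^ (γ + ε / 6) * ℓ ^ (γ + ε / 3) := by
      rw [← rpow_natCast, ← rpow_mul hl0.le, ← rpow_add hl0]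
      congr 1
      push_cast
      ring
    have e3 : ℓ ^ (γ + ε / 6) * (ℓ ^ (γ + ε / 3) / 2) ≤ ℓ ^ (γ + ε / 6) * w1 :=
      mul_le_mul_of_nonneg_left hw1ge (by positivity)
    have e4 : 8 * lam ^ 2 * (h : ℝ) ^ 2 = 8 * (lam * h) ^ 2 := by ring
    rw [e4]
    rw [e2] at e1
    linarith
  have t4 : ℓ ^ (γ - ε / 4) ≤ ℓ ^ (γ + ε / 5) :=
    Real.rpow_le_rpow_of_exponent_le hl1 (by linarith)
  have t5 : ℓ ^ (γ + ε / 6) ≤ ℓ ^ (γ + ε / 5) :=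
    Real.rpow_le_rpow_of_exponent_le hl1 (by linarith)
  have t6 : 21 * ℓ ^ (γ + ε / 5) ≤ c * c' / (2 * ω) * (ℓ ^ (γ + ε / 4) / log ℓ) := by
    rw [pow_one] at h5
    have e1 : c * c' / (2 * ω) * (ℓ ^ (γ + ε / 4) / log ℓ) =
        ℓ ^ (γ + ε / 4) / (2 * ω / (c * c') * log ℓ) := by
      field_simp
    rw [e1, le_div_iff₀ (by positivity)]
    linarith
  linarith

end Pool.Agent.RG
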