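import Pool.Agent.RG.Ev
import Pool.Agent.RG.Bonf

/-!
# RG / Trans: transfer from `n < Y` to the random model

Let `C(A)` be the proportion of `n < Y` such that no `t ∈ A` is killed, `killed(t) :=
∃ p ∈ prm w z, p ∣ a + t + Q n`.  `ev_even`/`ev_odd` over `t ∈ T` with `B t n := t is not killed`:
`∑_{|A| ≤ k-1} (-1)^|A| C(A) ≤ P(all t ∈ T killed) ≤ ∑_{|A| ≤ k} (-1)^|A| C(A)`.  Replace `C(A)` by
`rho l A` (error `η` for each `A`; there are at most `(|T| + 1)^k` sets `A ⊆ T` with `|A| ≤ k`) and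
compare with `U 0 l T` by `bonf_even` (for `k`) and `bonf_odd` (for `k + 1`, `k` even); the sums over
`|A| = k`, `|A| = k+1` are at most `B`.
-/

set_option autoImplicit false

namespace Pool.Agent.RG

open Finset

private lemma sum_le_succ' (s : Finset ℕ) (f : Finset ℕ → ℝ) (R : ℕ) :
    ∑ S ∈ s.powerset.filter (fun S => S.card ≤ R + 1), f S =
      ∑ S ∈ s.powerset.filter (fun S => S.card ≤ R), f S + ∑ S ∈ s.powersetCard (R + 1), f S := by
  rw [← sum_union]
  · refine sum_congr ?_ fun _ _ => rfl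
    ext S
    simp only [mem_filter, mem_powerset, mem_union, mem_powersetCard]
    constructor
    · rintro ⟨h1, h2⟩
      rcases Nat.lt_or_ge R S.card with h | h
      · exact Or.inr ⟨h1, by omega⟩
      · exact Or.inl ⟨h1, h⟩
    · rintro (⟨h1, h2⟩ | ⟨h1, h2⟩)
      · exact ⟨h1, by omega⟩
      · exact ⟨h1, by omega⟩
  · rw [disjoint_left]
    intro S h1 h2
    have h3 := (mem_filter.1 h1).2
    have h4 := (mem_powersetCard.1 h2).2
    omega

private lemma card_le_pow (s : Finset ℕ) (R : ℕ) :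
    ((s.powerset.filter (fun S => S.card ≤ R)).card : ℝ) ≤ ((s.card : ℝ) + 1) ^ R := by
  induction R with
  | zero =>
    have h0 : (s.powerset.filter (fun S => S.card ≤ 0)) = {∅} := by
      ext S
      simp only [mem_filter, mem_powerset, nonpos_iff_eq_zero, card_eq_zero, mem_singleton]
      constructor
      · exact fun h => h.2
      · rintro rfl; exact ⟨empty_subset _, rfl⟩
    rw [h0]
    simp
  | succ R ih =>
    have h1 := sum_le_succ' s (fun _ => (1 : ℝ)) R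
    rw [sum_const, sum_const, sum_const, card_powersetCard, nsmul_eq_mul, nsmul_eq_mul,
      nsmul_eq_mul, mul_one, mul_one, mul_one] at h1
    rw [h1]
    have h3 : s.card.choose (R + 1) ≤ s.card ^ (R + 1) := Nat.choose_le_pow _ _
    have h4 : ((s.card.choose (R + 1) : ℕ) : ℝ) ≤ (s.card : ℝ) ^ (R + 1) := by exact_mod_cast h3
    have hm : (0 : ℝ) ≤ s.card := Nat.cast_nonneg _
    have h5 : (s.card : ℝ) ^ (R + 1) ≤ ((s.card : ℝ) + 1) ^ R * s.card := by
      rw [pow_succ]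
      refine mul_le_mul_of_nonneg_right ?_ hm
      exact pow_le_pow_left₀ hm (by linarith) R
    calc _ ≤ ((s.card : ℝ) + 1) ^ R + ((s.card : ℝ) + 1) ^ R * s.card :=
          add_le_add ih (h4.trans h5)
      _ = _ := by rw [pow_succ]; ring

theorem transfer (w z : ℕ) (hwz : w ≤ z) (Q a : ℕ) (T : Finset ℕ) (Y : ℕ) (hY : 0 < Y)
    (k : ℕ) (hk : Even k) (hk0 : 0 < k) (η : ℝ) (hη0 : 0 ≤ η)
    (hη : ∀ A ⊆ T, A.card ≤ k →
      |(((range Y).filter (fun n => ∀ p ∈ prm w z, ∀ t ∈ A, ¬ p ∣ a + t + Q * n)).card : ℝ) / Y -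
        rho (plist w z) A| ≤ η)
    (B : ℝ) (hB1 : ∑ A ∈ T.powersetCard k, rho (plist w z) A ≤ B)
    (hB2 : ∑ A ∈ T.powersetCard (k + 1), rho (plist w z) A ≤ B) :
    |(((range Y).filter (fun n => ∀ t ∈ T, ∃ p ∈ prm w z, p ∣ a + t + Q * n)).card : ℝ) / Y -
      U 0 (plist w z) T| ≤ B + η * ((T.card : ℝ) + 1) ^ k := by
  obtain ⟨r, rfl⟩ : ∃ r, k = r + 1 := ⟨k - 1, by omega⟩
  have hr : Odd r := by
    rcases Nat.even_or_odd r with h | h
    · exact absurd hk (Nat.not_even_iff_odd.2 h.add_one)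
    · exact h
  have hk1 : Odd (r + 1 + 1) := hk.add_one
  have hYr : (0 : ℝ) < Y := by exact_mod_cast hY
  have hl : ∀ p ∈ plist w z, 0 < p := by
    intro p hp
    unfold plist at hp
    have := (List.mem_filter.1 hp).2
    exact (of_decide_eq_true this).pos
  set g : Finset ℕ → ℝ := fun A =>
    (((range Y).filter (fun n => ∀ p ∈ prm w z, ∀ t ∈ A, ¬ p ∣ a + t + Q * n)).card : ℝ) / Y with hg
  set P : ℝ := (((range Y).filter (fun n => ∀ t ∈ T, ∃ p ∈ prm w z, p ∣ a + t + Q * n)).card : ℝ) / Y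
    with hP
  have hPsum : P * Y = ∑ n ∈ range Y,
      (if ∀ t ∈ T, ¬ (∀ p ∈ prm w z, ¬ p ∣ a + t + Q * n) then (1 : ℝ) else 0) := by
    rw [hP, div_mul_cancel₀ _ hYr.ne', sum_boole]
    congr 2
    refine filter_congr fun n _ => ?_
    push Not
    rfl
  have hEsum : ∀ R : ℕ, ∑ n ∈ range Y, ∑ S ∈ T.powerset.filter (fun S => S.card ≤ R),
      (-1 : ℝ) ^ S.card * (if ∀ t ∈ S, (∀ p ∈ prm w z, ¬ p ∣ a + t + Q * n) then (1 : ℝ) else 0) =
      (∑ S ∈ T.powerset.filter (fun S => S.card ≤ R), (-1 : ℝ) ^ S.card * g S) * Y := by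
    intro R
    rw [sum_comm, sum_mul]
    refine sum_congr rfl fun S _ => ?_
    rw [← mul_sum, sum_boole, hg, mul_assoc, div_mul_cancel₀ _ hYr.ne']
    congr 3
    refine filter_congr fun n _ => ?_
    constructor
    · intro h p hp t ht
      exact h t ht p hp
    · intro h t ht p hp
      exact h p hp t ht
  have hup : P ≤ ∑ S ∈ T.powerset.filter (fun S => S.card ≤ r + 1), (-1 : ℝ) ^ S.card * g S := by
    have h1 : P * Y ≤
        (∑ S ∈ T.powerset.filter (fun S => S.card ≤ r + 1), (-1 : ℝ) ^ S.card * g S) * Y := by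
      rw [hPsum, ← hEsum]
      refine sum_le_sum fun n _ => ?_
      exact ev_even T (fun t => ∀ p ∈ prm w z, ¬ p ∣ a + t + Q * n) (r + 1) hk
    exact le_of_mul_le_mul_right h1 hYr
  have hlo : ∑ S ∈ T.powerset.filter (fun S => S.card ≤ r), (-1 : ℝ) ^ S.card * g S ≤ P := by
    have h1 : (∑ S ∈ T.powerset.filter (fun S => S.card ≤ r), (-1 : ℝ) ^ S.card * g S) * Y ≤
        P * Y := by
      rw [hPsum, ← hEsum]
      refine sum_le_sum fun n _ => ?_
      exact ev_odd T (fun t => ∀ p ∈ prm w z, ¬ p ∣ a + t + Q * n) r hr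
    exact le_of_mul_le_mul_right h1 hYr
  have hup' := bonf_even (plist w z) hl T (r + 1) hk
  have hlo' := bonf_odd (plist w z) hl T (r + 1 + 1) hk1
  have hlo2 := bonf_odd (plist w z) hl T r hr
  have hdsum : ∀ R : ℕ, R ≤ r + 1 →
      |∑ S ∈ T.powerset.filter (fun S => S.card ≤ R), (-1 : ℝ) ^ S.card * g S -
      ∑ S ∈ T.powerset.filter (fun S => S.card ≤ R), (-1 : ℝ) ^ S.card * rho (plist w z) S| ≤
      η * ((T.card : ℝ) + 1) ^ (r + 1) := by
    intro R hR
    rw [← sum_sub_distrib]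
    refine (abs_sum_le_sum_abs _ _).trans ?_
    have h1 : ∀ S ∈ T.powerset.filter (fun S => S.card ≤ R),
        |(-1 : ℝ) ^ S.card * g S - (-1 : ℝ) ^ S.card * rho (plist w z) S| ≤ η := by
      intro S hS
      obtain ⟨h2, h3⟩ := mem_filter.1 hS
      rw [← mul_sub, abs_mul, abs_pow, abs_neg, abs_one, one_pow, one_mul]
      exact hη S (mem_powerset.1 h2) (h3.trans hR)
    refine (sum_le_card_nsmul _ _ _ h1).trans ?_
    rw [nsmul_eq_mul, mul_comm]
    refine mul_le_mul_of_nonneg_left ((card_le_pow T R).trans ?_) hη0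
    refine pow_le_pow_right₀ ?_ hR
    have : (0 : ℝ) ≤ T.card := Nat.cast_nonneg _
    linarith
  have hstep1 : ∑ S ∈ T.powerset.filter (fun S => S.card ≤ r + 1 + 1),
        (-1 : ℝ) ^ S.card * rho (plist w z) S =
      ∑ S ∈ T.powerset.filter (fun S => S.card ≤ r + 1), (-1 : ℝ) ^ S.card * rho (plist w z) S -
        ∑ S ∈ T.powersetCard (r + 1 + 1), rho (plist w z) S := by
    rw [sum_le_succ', sub_eq_add_neg, ← sum_neg_distrib]
    congr 1
    refine sum_congr rfl fun S hS => ?_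
    rw [(mem_powersetCard.1 hS).2, hk1.neg_one_pow, neg_one_mul]
  have hstep2 : ∑ S ∈ T.powerset.filter (fun S => S.card ≤ r + 1),
        (-1 : ℝ) ^ S.card * rho (plist w z) S =
      ∑ S ∈ T.powerset.filter (fun S => S.card ≤ r), (-1 : ℝ) ^ S.card * rho (plist w z) S +
        ∑ S ∈ T.powersetCard (r + 1), rho (plist w z) S := by
    rw [sum_le_succ']
    congr 1
    refine sum_congr rfl fun S hS => ?_
    rw [(mem_powersetCard.1 hS).2, hk.neg_one_pow, one_mul]
  have hd1 := abs_le.1 (hdsum (r + 1) le_rfl)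
  have hd2 := abs_le.1 (hdsum r (Nat.le_succ r))
  rw [abs_le]
  constructor
  · linarith [hd2.1, hd2.2]
  · linarith [hd1.1, hd1.2]

/-- Tail bound: `∑_{|A| = k} rho ≤ C(|T|, k) σ^k ≤ (e |T| σ / k)^k ≤ e^(-k)`. -/
theorem tail_le (w z : ℕ) (hwz : w ≤ z) (T : Finset ℕ) (k : ℕ) (hk0 : 0 < k) (σ : ℝ) (hσ : 0 ≤ σ)
    (h : ∀ A ⊆ T, A.card = k → rho (plist w z) A ≤ σ ^ k)
    (hk : Real.exp 2 * T.card * σ ≤ k) :
    ∑ A ∈ T.powersetCard k, rho (plist w z) A ≤ Real.exp (-(k : ℝ)) := by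
  have h1 : ∑ A ∈ T.powersetCard k, rho (plist w z) A ≤ (T.card.choose k : ℝ) * σ ^ k := by
    refine (sum_le_card_nsmul _ _ (σ ^ k) ?_).trans ?_
    · intro A hA
      obtain ⟨h2, h3⟩ := mem_powersetCard.1 hA
      exact h A h2 h3
    · rw [nsmul_eq_mul, card_powersetCard]
  have h2 : (T.card.choose k : ℝ) ≤ (T.card : ℝ) ^ k / (k.factorial : ℝ) :=
    Nat.choose_le_pow_div k T.card
  have hf : (0 : ℝ) < (k.factorial : ℝ) := by exact_mod_cast k.factorial_pos
  have h3 : (T.card : ℝ) * σ ≤ k * Real.exp (-2) := by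
    rw [Real.exp_neg, ← div_eq_mul_inv, le_div_iff₀ (Real.exp_pos 2)]
    nlinarith
  have h4 : ((k : ℝ)) ^ k / (k.factorial : ℝ) ≤ Real.exp k :=
    Real.pow_div_factorial_le_exp _ (Nat.cast_nonneg k) k
  have h5 : 0 ≤ (T.card : ℝ) * σ := by positivity
  calc ∑ A ∈ T.powersetCard k, rho (plist w z) A ≤ (T.card.choose k : ℝ) * σ ^ k := h1
    _ ≤ (T.card : ℝ) ^ k / (k.factorial : ℝ) * σ ^ k :=
        mul_le_mul_of_nonneg_right h2 (pow_nonneg hσ k)
    _ = ((T.card : ℝ) * σ) ^ k / (k.factorial : ℝ) := by rw [mul_pow]; ring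
    _ ≤ (k * Real.exp (-2)) ^ k / (k.factorial : ℝ) :=
        div_le_div_of_nonneg_right (pow_le_pow_left₀ h5 h3 k) hf.le
    _ = ((k : ℝ) ^ k / (k.factorial : ℝ)) * Real.exp (-2) ^ k := by rw [mul_pow]; ring
    _ ≤ Real.exp k * Real.exp (-2) ^ k :=
        mul_le_mul_of_nonneg_right h4 (pow_nonneg (Real.exp_pos _).le k)
    _ = Real.exp (-(k : ℝ)) := by
        rw [← Real.exp_nat_mul, ← Real.exp_add]
        congr 1
        ring

end Pool.Agent.RG
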