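import Pool.Agent.RG.Eta
import Pool.Agent.RG.Trans
import Pool.Agent.RG.UUp

/-!
# RG / St2: one window of the upper half

`transfer` with `k = 2 ⌈ℓ^(γ+ε)⌉ ≤ 3 ℓ^(γ+ε)`, `η = exp (-ℓ^(γ+3ε/2))` (`eta_bound`),
`(|T|+1)^k ≤ exp (3 ℓ^(γ+ε) log ℓ)`; tails by `tail_le` with `σ = pr (plist W Z)`: there are no
collisions mod `p > W ≥ hU`, so `nu p A = |A|` and `1 - k/p ≤ (1-1/p)^k`; `|T| σ ≤ ℓ^(γ+ε/2) C log ℓ`
(`pr_bounds`).  `U 0 l T ≤ qq^|T|` (`U_le_range`, `e = 0`), `qq = 1 - σ ≤ exp (-σ)`, `σ ≥ c ℓ^(-θ)`,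
`|T| ≥ ℓ^(θ+γ+ε/2)`.
-/

set_option autoImplicit false

namespace Pool.Agent.RG

open Finset Real Filter

/-- No collisions in a short interval. -/
lemma st2_mod_inj {s0 h p t u : ℕ} (hp : h ≤ p) (ht : t ∈ Ico s0 (s0 + h))
    (hu : u ∈ Ico s0 (s0 + h)) (hm : t % p = u % p) : t = u := by
  rw [mem_Ico] at ht hu
  wlog hle : t ≤ u with H
  · exact (H hp hu ht hm.symm (by omega)).symm
  have h1 : p ∣ u - t := (Nat.modEq_iff_dvd' hle).1 hm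
  rcases Nat.eq_zero_or_pos (u - t) with h2 | h2
  · omega
  · have := Nat.le_of_dvd h2 h1
    omega

lemma st2_cl_le_one {s0 h p : ℕ} {T : Finset ℕ} (hp : h ≤ p) (hT : T ⊆ Ico s0 (s0 + h)) (c : ℕ) :
    cl p c T ≤ 1 := by
  unfold cl
  rw [card_le_one]
  intro a ha b hb
  rw [mem_filter] at ha hb
  exact st2_mod_inj hp (hT ha.1) (hT hb.1) (ha.2.trans hb.2.symm)

lemma st2_nu_eq {s0 h p : ℕ} {A : Finset ℕ} (hp : h ≤ p) (hA : A ⊆ Ico s0 (s0 + h)) :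
    nu p A = A.card := by
  unfold nu
  apply card_image_of_injOn
  intro a ha b hb hab
  exact st2_mod_inj hp (hA ha) (hA hb) hab

lemma st2_nu_le (p : ℕ) (hp : 0 < p) (A : Finset ℕ) : nu p A ≤ p := by
  unfold nu
  calc (A.image (fun t => t % p)).card ≤ (range p).card := by
        apply card_le_card
        intro x hx
        rw [mem_image] at hx
        obtain ⟨t, _, rfl⟩ := hx
        exact mem_range.2 (Nat.mod_lt _ hp)
    _ = p := card_range p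

lemma st2_rho_le {s0 h w z : ℕ} (hwz : w ≤ z) {A : Finset ℕ} (hp : h ≤ w)
    (hA : A ⊆ Ico s0 (s0 + h)) : rho (plist w z) A ≤ pr (plist w z) ^ A.card := by
  unfold rho pr
  rw [prod_plist _ w z hwz, prod_plist _ w z hwz, ← prod_pow]
  apply Finset.prod_le_prod
  · intro p hp1
    rw [mem_prm] at hp1
    have h1 : (nu p A : ℝ) ≤ p := by exact_mod_cast st2_nu_le p hp1.2.pos A
    have h2 : (0 : ℝ) < p := by exact_mod_cast hp1.2.pos
    have h3 : (nu p A : ℝ) / p ≤ 1 := by rw [div_le_one h2]; exact h1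
    linarith
  · intro p hp1
    rw [mem_prm] at hp1
    have h2 : (2 : ℝ) ≤ p := by exact_mod_cast hp1.2.two_le
    rw [st2_nu_eq (show h ≤ p by omega) hA]
    have h3 : (-2 : ℝ) ≤ -(1 / (p : ℝ)) := by
      have : 1 / (p : ℝ) ≤ 1 := by rw [div_le_one (by linarith)]; linarith
      linarith
    have h4 := one_add_mul_le_pow h3 A.card
    calc 1 - (A.card : ℝ) / p = 1 + A.card * -(1 / (p : ℝ)) := by ring
      _ ≤ (1 + -(1 / (p : ℝ))) ^ A.card := h4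
      _ = _ := by ring_nf

lemma st2_pr_nonneg {w z : ℕ} (hwz : w ≤ z) : 0 ≤ pr (plist w z) := by
  unfold pr
  rw [prod_plist _ w z hwz]
  apply prod_nonneg
  intro p hp1
  rw [mem_prm] at hp1
  have h2 : (2 : ℝ) ≤ p := by exact_mod_cast hp1.2.two_le
  have : 1 / (p : ℝ) ≤ 1 := by rw [div_le_one (by linarith)]; linarith
  linarith

lemma st2_pr_le_one {w z : ℕ} (hwz : w ≤ z) : pr (plist w z) ≤ 1 := by
  unfold pr
  rw [prod_plist _ w z hwz]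
  apply Finset.prod_le_one
  · intro p hp1
    rw [mem_prm] at hp1
    have h2 : (2 : ℝ) ≤ p := by exact_mod_cast hp1.2.two_le
    have : 1 / (p : ℝ) ≤ 1 := by rw [div_le_one (by linarith)]; linarith
    linarith
  · intro p hp1
    have : 0 ≤ 1 / (p : ℝ) := by positivity
    linarith

/-- bounds for the density `σ` of the survivors of the primes of `(W, Z]` -/
lemma st2_sigma_bounds (θ ω : ℝ) (hθ : 0 < θ) (hω : 0 < ω) (hω1 : ω < 1) :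
    ∃ c C : ℝ, 0 < c ∧ 0 < C ∧ ∀ᶠ ℓ : ℝ in atTop, Wn ω ℓ ≤ Zn θ ℓ ∧ 2 ≤ Wn ω ℓ ∧
      c * ℓ ^ (-θ) ≤ pr (plist (Wn ω ℓ) (Zn θ ℓ)) ∧
      pr (plist (Wn ω ℓ) (Zn θ ℓ)) ≤ C * ℓ ^ (-θ) * log ℓ := by
  obtain ⟨c, C, hc, hC, hpr⟩ := pr_bounds
  refine ⟨c, 2 * C, hc, by positivity, ?_⟩
  have h1 : Tendsto (fun ℓ : ℝ => ℓ ^ ω) atTop atTop := tendsto_rpow_atTop hω
  have h2 : Tendsto (fun ℓ : ℝ => ℓ ^ θ) atTop atTop := tendsto_rpow_atTop hθ
  have h3 : ∀ᶠ ℓ : ℝ in atTop, 2 * ℓ ^ (0 : ℝ) * log ℓ ^ 1 ≤ ℓ ^ θ := asy 0 θ 2 1 hθ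
  filter_upwards [h1.eventually_ge_atTop 4, h2.eventually_ge_atTop 4, h3,
    eventually_ge_atTop 3] with ℓ a1 a2 a3 a4
  have hℓ0 : 0 < ℓ := by linarith
  have hlog : 1 ≤ log ℓ := by
    rw [← log_exp 1]
    apply log_le_log (exp_pos 1)
    linarith [exp_one_lt_d9]
  have hW2 : 2 ≤ Wn ω ℓ := by
    unfold Wn
    apply Nat.le_floor
    push_cast
    linarith
  have hWle : (Wn ω ℓ : ℝ) ≤ ℓ ^ ω := Nat.floor_le (by positivity)
  have hWℓ : (Wn ω ℓ : ℝ) ≤ ℓ := by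
    refine hWle.trans ?_
    calc ℓ ^ ω ≤ ℓ ^ (1 : ℝ) := rpow_le_rpow_of_exponent_le (by linarith) hω1.le
      _ = ℓ := rpow_one ℓ
  rw [rpow_zero, pow_one, mul_one] at a3
  have hZge : exp (ℓ ^ θ / 2) ≤ Zn θ ℓ := by
    have e1 : exp (ℓ ^ θ) - 1 < Zn θ ℓ := by
      have := Nat.lt_floor_add_one (exp (ℓ ^ θ))
      unfold Zn
      linarith
    have e2 : exp (ℓ ^ θ) = exp (ℓ ^ θ / 2) * exp (ℓ ^ θ / 2) := by rw [← exp_add]; ring_nf
    have e3 : 2 ≤ exp (ℓ ^ θ / 2) := by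
      have := add_one_le_exp (ℓ ^ θ / 2)
      linarith
    nlinarith
  have hWZ : Wn ω ℓ ≤ Zn θ ℓ := by
    have : (Wn ω ℓ : ℝ) ≤ Zn θ ℓ := by
      refine hWℓ.trans (le_trans ?_ hZge)
      rw [← exp_log hℓ0]
      apply exp_le_exp.2
      rw [exp_log hℓ0]
      linarith
    exact_mod_cast this
  have hZle : (Zn θ ℓ : ℝ) ≤ exp (ℓ ^ θ) := Nat.floor_le (exp_pos _).le
  have hZ0 : (0 : ℝ) < Zn θ ℓ := lt_of_lt_of_le (exp_pos _) hZge
  have hW0 : (0 : ℝ) < Wn ω ℓ := by exact_mod_cast (by omega : 0 < Wn ω ℓ)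
  have hlZ1 : log (Zn θ ℓ) ≤ ℓ ^ θ := by
    rw [← log_exp (ℓ ^ θ)]
    exact log_le_log hZ0 hZle
  have hlZ2 : ℓ ^ θ / 2 ≤ log (Zn θ ℓ) := by
    rw [← log_exp (ℓ ^ θ / 2)]
    exact log_le_log (exp_pos _) hZge
  have hlW1 : log (Wn ω ℓ) ≤ log ℓ := log_le_log hW0 hWℓ
  have hlW2 : 1 ≤ log (Wn ω ℓ) := by
    have e1 : (3 : ℝ) ≤ Wn ω ℓ := by
      have : 3 ≤ Wn ω ℓ := by
        unfold Wn
        apply Nat.le_floor
        push_cast
        linarith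
      exact_mod_cast this
    rw [← log_exp 1]
    apply log_le_log (exp_pos 1)
    linarith [exp_one_lt_d9]
  have hlZ0 : 0 < log (Zn θ ℓ) := by linarith
  obtain ⟨b1, b2⟩ := hpr (Wn ω ℓ) (Zn θ ℓ) hW2 hWZ
  have hneg : ℓ ^ (-θ) = 1 / ℓ ^ θ := by rw [rpow_neg hℓ0.le, one_div]
  refine ⟨hWZ, hW2, ?_, ?_⟩
  · refine le_trans ?_ b1
    rw [hneg]
    apply mul_le_mul_of_nonneg_left _ hc.le
    exact div_le_div₀ (by linarith) hlW2 hlZ0 hlZ1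
  · refine b2.trans ?_
    rw [hneg]
    have e1 : log (Wn ω ℓ) / log (Zn θ ℓ) ≤ log ℓ / (ℓ ^ θ / 2) :=
      div_le_div₀ (by linarith) hlW1 (by linarith) hlZ2
    calc C * (log (Wn ω ℓ) / log (Zn θ ℓ)) ≤ C * (log ℓ / (ℓ ^ θ / 2)) :=
          mul_le_mul_of_nonneg_left e1 hC.le
      _ = 2 * C * (1 / ℓ ^ θ) * log ℓ := by
          have : ℓ ^ θ ≠ 0 := by linarith
          field_simp

theorem stage2 (θ γ ε ω : ℝ) (hP : Par θ γ ε ω) : ∀ᶠ ℓ : ℝ in atTop,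
    ∀ (s0 a Y : ℕ) (T : Finset ℕ), T ⊆ Ico s0 (s0 + hU θ γ ε ℓ) → T.card = mU θ γ ε ℓ →
    exp (ℓ / 2) ≤ Y →
    (((range Y).filter (fun n => ∀ t ∈ T, ∃ p ∈ prm (Wn ω ℓ) (Zn θ ℓ),
        p ∣ a + t + PP 0 (Wn ω ℓ) * n)).card : ℝ) ≤ exp (-ℓ ^ (γ + ε / 5)) * Y := by
  obtain ⟨hε, hγ, hγθ, hω, hω1⟩ := hP
  have hγ0 : 0 < γ := by linarith
  have hθ0 : 0 < θ := by linarith
  have hω0 : 0 < ω := by linarith
  obtain ⟨c, C, hc, hC, hσ⟩ := st2_sigma_bounds θ ω hθ0 hω0 hω1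
  have heta := eta_bound θ γ ε ω ⟨hε, hγ, hγθ, hω, hω1⟩
  have a1 := asy (γ + ε / 2) (γ + ε) (exp 2 * 2 * C) 1 (by linarith)
  have a2 := asy (γ + ε) (γ + 3 * ε / 2) 6 1 (by linarith)
  have a3 := asy0 (γ + ε / 5) (γ + ε / 2) (2 / c) (by linarith)
  have a4 := asy0 (θ + γ + ε / 2) 1 3 (by linarith)
  have a5 := asy0 (γ + ε / 5) (γ + 3 * ε / 2) 4 (by linarith)
  have a6 := asy0 0 (γ + ε / 5) 2 (by linarith)
  have a7 := asy0 0 (γ + ε) 2 (by linarith)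
  filter_upwards [hσ, heta, a1, a2, a3, a4, a5, a6, a7, eventually_ge_atTop 3] with
    ℓ hσ heta a1 a2 a3 a4 a5 a6 a7 hℓ3
  intro s0 a Y T hT hTc hY
  obtain ⟨hWZ, hW2, hσ1, hσ2⟩ := hσ
  have hℓ0 : 0 < ℓ := by linarith
  have hℓ1 : 1 ≤ ℓ := by linarith
  have hlog0 : 0 ≤ log ℓ := log_nonneg hℓ1
  set W := Wn ω ℓ with hW
  set Z := Zn θ ℓ with hZ
  set σ := pr (plist W Z) with hσd
  have hσ0 : 0 ≤ σ := st2_pr_nonneg hWZ
  have hσle : σ ≤ 1 := st2_pr_le_one hWZ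
  rw [rpow_zero] at a6 a7
  have hhW : hU θ γ ε ℓ ≤ W := by
    apply Nat.floor_mono
    exact rpow_le_rpow_of_exponent_le hℓ1 (by linarith)
  have hY0 : 0 < Y := by
    have : (0 : ℝ) < Y := lt_of_lt_of_le (exp_pos _) hY
    exact_mod_cast this
  have hY0r : (0 : ℝ) < Y := by exact_mod_cast hY0
  -- size of `T`
  have hT1 : ℓ ^ (θ + γ + ε / 2) ≤ T.card := by
    rw [hTc]; exact Nat.le_ceil _
  have hT2 : (T.card : ℝ) + 1 ≤ 3 * ℓ ^ (θ + γ + ε / 2) := by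
    have e1 : (T.card : ℝ) < ℓ ^ (θ + γ + ε / 2) + 1 := by
      rw [hTc]; exact Nat.ceil_lt_add_one (by positivity)
    have e2 : 1 ≤ ℓ ^ (θ + γ + ε / 2) := one_le_rpow hℓ1 (by linarith)
    linarith
  have hT3 : (T.card : ℝ) ≤ 2 * ℓ ^ (θ + γ + ε / 2) := by
    have e1 : (T.card : ℝ) < ℓ ^ (θ + γ + ε / 2) + 1 := by
      rw [hTc]; exact Nat.ceil_lt_add_one (by positivity)
    have e2 : 1 ≤ ℓ ^ (θ + γ + ε / 2) := one_le_rpow hℓ1 (by linarith)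
    linarith
  -- the number `k`
  set k := 2 * ⌈ℓ ^ (γ + ε)⌉₊ with hk
  have hk1 : 2 * ℓ ^ (γ + ε) ≤ k := by
    rw [hk]; push_cast
    linarith [Nat.le_ceil (ℓ ^ (γ + ε))]
  have hk2 : (k : ℝ) ≤ 3 * ℓ ^ (γ + ε) := by
    rw [hk]; push_cast
    have := Nat.ceil_lt_add_one (show 0 ≤ ℓ ^ (γ + ε) by positivity)
    linarith
  have hk0 : 0 < k := by
    have : (0 : ℝ) < k := by
      have : 0 < ℓ ^ (γ + ε) := by positivity
      linarith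
    exact_mod_cast this
  have htail : ∀ j : ℕ, k ≤ j → ∑ A ∈ T.powersetCard j, rho (plist W Z) A ≤ exp (-(k : ℝ)) := by
    intro j hj
    have hjr : (k : ℝ) ≤ j := by exact_mod_cast hj
    refine le_trans (tail_le W Z hWZ T j (by omega) σ hσ0 ?_ ?_) (exp_le_exp.2 (by linarith))
    · intro A hA hAj
      rw [← hAj]
      exact st2_rho_le hWZ hhW (hA.trans hT)
    · calc exp 2 * T.card * σ ≤ exp 2 * (2 * ℓ ^ (θ + γ + ε / 2)) * (C * ℓ ^ (-θ) * log ℓ) := by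
            apply mul_le_mul _ hσ2 hσ0 (by positivity)
            exact mul_le_mul_of_nonneg_left hT3 (exp_pos 2).le
        _ = exp 2 * 2 * C * (ℓ ^ (θ + γ + ε / 2) * ℓ ^ (-θ)) * log ℓ ^ 1 := by ring
        _ = exp 2 * 2 * C * ℓ ^ (γ + ε / 2) * log ℓ ^ 1 := by
            rw [← rpow_add hℓ0]; congr 3; ring
        _ ≤ ℓ ^ (γ + ε) := a1
        _ ≤ k := by
            have : 0 < ℓ ^ (γ + ε) := by positivity
            linarith
        _ ≤ j := hjr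
  have htr := transfer W Z hWZ (PP 0 W) a T Y hY0 k (by rw [hk]; exact even_two_mul _) hk0
    (exp (-ℓ ^ (γ + 3 * ε / 2))) (exp_pos _).le
    (fun A _ hAk => heta a Y A (le_trans (by exact_mod_cast hAk) hk2) hY)
    (exp (-(k : ℝ))) (htail k le_rfl) (htail (k + 1) (by omega))
  have hUle : U 0 (plist W Z) T ≤ exp (-(c * ℓ ^ (γ + ε / 2))) := by
    have e1 := U_le_range 0 le_rfl zero_le_one (fun _ => 0) (fun _ => le_rfl) T W Z hWZ (by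
      intro p hp
      rw [mem_prm] at hp
      left
      intro c _
      exact st2_cl_le_one (show hU θ γ ε ℓ ≤ p by omega) hT c)
    simp only [add_zero, prod_const_one, mul_one] at e1
    refine e1.trans ?_
    have e2 : qq 0 (plist W Z) = 1 - σ := by unfold qq; ring
    rw [e2]
    calc (1 - σ) ^ T.card ≤ (exp (-σ)) ^ T.card := by
          apply pow_le_pow_left₀ (by linarith)
          linarith [add_one_le_exp (-σ)]
      _ = exp (-(σ * T.card)) := by rw [← exp_nat_mul]; congr 1; ring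
      _ ≤ _ := by
          apply exp_le_exp.2
          apply neg_le_neg
          calc c * ℓ ^ (γ + ε / 2) = (c * ℓ ^ (-θ)) * ℓ ^ (θ + γ + ε / 2) := by
                rw [mul_assoc, ← rpow_add hℓ0]; congr 2; ring
            _ ≤ σ * T.card := mul_le_mul hσ1 hT1 (by positivity) hσ0
  have herr : exp (-ℓ ^ (γ + 3 * ε / 2)) * ((T.card : ℝ) + 1) ^ k ≤
      exp (-(ℓ ^ (γ + 3 * ε / 2) / 2)) := by
    have e0 : (T.card : ℝ) + 1 ≤ exp (log ℓ) := by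
      rw [exp_log hℓ0]
      rw [rpow_one] at a4
      exact hT2.trans a4
    have e1 : ((T.card : ℝ) + 1) ^ k ≤ exp (k * log ℓ) := by
      rw [exp_nat_mul]
      exact pow_le_pow_left₀ (by positivity) e0 k
    have e2 : (k : ℝ) * log ℓ ≤ ℓ ^ (γ + 3 * ε / 2) / 2 := by
      rw [pow_one] at a2
      have := mul_le_mul_of_nonneg_right hk2 hlog0
      linarith
    calc exp (-ℓ ^ (γ + 3 * ε / 2)) * ((T.card : ℝ) + 1) ^ k ≤
          exp (-ℓ ^ (γ + 3 * ε / 2)) * exp (k * log ℓ) :=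
          mul_le_mul_of_nonneg_left e1 (exp_pos _).le
      _ = exp (-ℓ ^ (γ + 3 * ε / 2) + k * log ℓ) := by rw [exp_add]
      _ ≤ _ := exp_le_exp.2 (by linarith)
  have hx : 2 ≤ ℓ ^ (γ + ε / 5) := by linarith
  have f1 : exp (-(k : ℝ)) ≤ exp (-(2 * ℓ ^ (γ + ε / 5))) := by
    apply exp_le_exp.2
    apply neg_le_neg
    have : ℓ ^ (γ + ε / 5) ≤ ℓ ^ (γ + ε) := rpow_le_rpow_of_exponent_le hℓ1 (by linarith)
    linarith
  have f2 : exp (-(ℓ ^ (γ + 3 * ε / 2) / 2)) ≤ exp (-(2 * ℓ ^ (γ + ε / 5))) := by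
    apply exp_le_exp.2
    linarith
  have f3 : exp (-(c * ℓ ^ (γ + ε / 2))) ≤ exp (-(2 * ℓ ^ (γ + ε / 5))) := by
    apply exp_le_exp.2
    apply neg_le_neg
    rw [div_mul_eq_mul_div, div_le_iff₀ hc] at a3
    linarith
  have f4 : 3 * exp (-(2 * ℓ ^ (γ + ε / 5))) ≤ exp (-ℓ ^ (γ + ε / 5)) := by
    have g1 : exp (-ℓ ^ (γ + ε / 5)) = exp (-(2 * ℓ ^ (γ + ε / 5))) * exp (ℓ ^ (γ + ε / 5)) := by
      rw [← exp_add]; congr 1; ring
    have g2 : 3 ≤ exp (ℓ ^ (γ + ε / 5)) := by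
      linarith [add_one_le_exp (ℓ ^ (γ + ε / 5))]
    rw [g1, mul_comm]
    exact mul_le_mul_of_nonneg_left g2 (exp_pos _).le
  have hfin := (abs_le.1 htr).2
  rw [← div_le_iff₀ hY0r]
  linarith

end Pool.Agent.RG
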