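import Pool.Agent.RG.Mer
import Pool.Agent.RG.LSD

/-!
# RG / SumV: sums over primes with the weight `V(p)/p`

`V(p)/p = V(p) - V(p+1)` and `V(n+1) = V(n)` for `n` not prime, so the sum is
`∑_{n=Z0}^{z-1} (V(n) - V(n+1)) G(n)`, `G(n) = g(t_n)`, `t_n = log D / log n`, `G` increasing.  Abel
summation: `= V(Z0) G(Z0) + ∑_{n=Z0+1}^{z-1} V(n) (G(n) - G(n-1)) - V(z) G(z-1)`.  Use
`V(n) ≤ (1 + ε1) V(z) log z / log n`, `ε1 = C / log Z0` (`V_ratio`), and Abel summation back:
`≤ (1 + ε1) V(z) log z ∑_{n=Z0}^{z-1} G(n) (1/log n - 1/log (n+1)) + ε1 V(z) G(z-1)`, where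
`log D * G(n) (1/log n - 1/log(n+1)) = g(t_n) (t_n - t_{n+1}) ≤ ∫_{t_{n+1}}^{t_n} g` (`g` antitone).
-/

set_option autoImplicit false

namespace Pool.Agent.RG

open Real MeasureTheory Set

theorem sv_V_succ (n : ℕ) : V (n + 1) = if n.Prime then V n * (1 - 1 / (n : ℝ)) else V n := by
  unfold V
  rw [Finset.range_add_one, Finset.filter_insert]
  split_ifs with h
  · rw [Finset.prod_insert (by simp), mul_comm]
  · rfl

/-- Abel summation twice. -/
theorem sv_abel (a b G : ℕ → ℝ) (Z0 z : ℕ) (hz : Z0 + 1 ≤ z) (h0 : 0 ≤ G Z0)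
    (hG : ∀ n, Z0 ≤ n → G n ≤ G (n + 1)) (hab : ∀ n, Z0 ≤ n → n < z → a n ≤ b n) :
    ∑ n ∈ Finset.Ico Z0 z, (a n - a (n + 1)) * G n + a z * G (z - 1) ≤
      ∑ n ∈ Finset.Ico Z0 z, (b n - b (n + 1)) * G n + b z * G (z - 1) := by
  induction z, hz using Nat.le_induction with
  | base =>
    rw [Finset.sum_Ico_succ_top (le_refl _), Finset.sum_Ico_succ_top (le_refl _)]
    simp only [Finset.Ico_self, Finset.sum_empty, Nat.add_sub_cancel]
    have := mul_le_mul_of_nonneg_right (hab Z0 (le_refl _) (by omega)) h0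
    nlinarith
  | succ z hz ih =>
    have ih' := ih (fun n h1 h2 => hab n h1 (by omega))
    rw [Finset.sum_Ico_succ_top (by omega), Finset.sum_Ico_succ_top (by omega)]
    rw [Nat.add_sub_cancel]
    have h1 : G (z - 1) ≤ G z := by
      have := hG (z - 1) (by omega)
      rwa [Nat.sub_add_cancel (by omega)] at this
    have h2 := mul_le_mul_of_nonneg_right (hab z (by omega) (by omega)) (sub_nonneg.2 h1)
    nlinarith

theorem sv_integral (g : ℝ → ℝ) (hg : Antitone g) (t : ℕ → ℝ) (Z0 z : ℕ) (hz : Z0 ≤ z)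
    (ht : ∀ n, Z0 ≤ n → t (n + 1) ≤ t n) :
    ∑ n ∈ Finset.Ico Z0 z, g (t n) * (t n - t (n + 1)) ≤ ∫ x in (t z)..(t Z0), g x := by
  induction z, hz using Nat.le_induction with
  | base => simp
  | succ z hz ih =>
    rw [Finset.sum_Ico_succ_top hz]
    have h1 : ∫ x in (t (z + 1))..(t Z0), g x =
        (∫ x in (t (z + 1))..(t z), g x) + ∫ x in (t z)..(t Z0), g x :=
      (intervalIntegral.integral_add_adjacent_intervals (hg.intervalIntegrable)
        (hg.intervalIntegrable)).symm
    have h2 : g (t z) * (t z - t (z + 1)) ≤ ∫ x in (t (z + 1))..(t z), g x := by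
      have h3 : ∫ _x in (t (z + 1))..(t z), g (t z) = g (t z) * (t z - t (z + 1)) := by
        rw [intervalIntegral.integral_const, smul_eq_mul, mul_comm]
      rw [← h3]
      refine intervalIntegral.integral_mono_on (ht z hz) (by simp) hg.intervalIntegrable ?_
      intro x hx
      exact hg hx.2
    rw [h1]
    linarith

theorem sum_V_le : ∃ C : ℝ, 0 < C ∧ ∀ Z0 z : ℕ, 2 ≤ Z0 → Z0 ≤ z → ∀ D : ℝ, 1 < D →
    ∀ g : ℝ → ℝ, (∀ t, 0 ≤ g t) → Antitone g → IntegrableOn g (Ioi (log D / log z)) →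
    ∑ p ∈ (Finset.Ico Z0 z).filter Nat.Prime, V p / p * g (log D / log p) ≤
      V z * ((1 + C / log Z0) * (log z / log D * ∫ t in Ioi (log D / log z), g t) +
        C / log Z0 * g (log D / log z)) := by
  obtain ⟨C, hC, hV⟩ := V_ratio
  refine ⟨C, hC, fun Z0 z hZ0 hZz D hD g hg0 hg hgi => ?_⟩
  have hlogD : 0 < log D := log_pos hD
  have hlog : ∀ n : ℕ, 2 ≤ n → 0 < log n := fun n hn =>
    log_pos (by exact_mod_cast (by omega : 1 < n))
  have hlZ0 := hlog Z0 hZ0
  have hlz := hlog z (by omega)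
  have hVz := V_pos z
  have hint : 0 ≤ ∫ t in Ioi (log D / log z), g t :=
    setIntegral_nonneg measurableSet_Ioi fun t _ => hg0 t
  rcases Nat.eq_or_lt_of_le hZz with heq | hlt
  · subst heq
    simp only [Finset.Ico_self, Finset.filter_empty, Finset.sum_empty]
    have := hg0 (log D / log Z0)
    positivity
  set t : ℕ → ℝ := fun n => log D / log n with ht
  have htm : ∀ n, 2 ≤ n → t (n + 1) ≤ t n := by
    intro n hn
    simp only [ht]
    refine div_le_div_of_nonneg_left hlogD.le (hlog n hn) ?_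
    refine log_le_log (by exact_mod_cast (by omega : 0 < n)) ?_
    push_cast
    linarith
  -- the sum over primes as a telescoping sum
  have hsum : ∑ p ∈ (Finset.Ico Z0 z).filter Nat.Prime, V p / p * g (log D / log p) =
      ∑ n ∈ Finset.Ico Z0 z, (V n - V (n + 1)) * g (t n) := by
    rw [Finset.sum_filter]
    refine Finset.sum_congr rfl fun n _ => ?_
    rw [sv_V_succ]
    split_ifs with hp
    · simp only [ht]
      ring
    · ring
  rw [hsum]
  set K : ℝ := (1 + C / log Z0) * V z * log z with hK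
  have hK0 : 0 ≤ K := by positivity
  have hab : ∀ n, Z0 ≤ n → n < z → V n ≤ K / log n := by
    intro n hn hnz
    have h1 := (hV n z (by omega) hnz.le).1
    have hln := hlog n (by omega)
    rw [le_div_iff₀ hln]
    refine h1.trans ?_
    rw [hK, mul_assoc]
    refine mul_le_mul_of_nonneg_right ?_ (by positivity)
    have h2 : C / log n ≤ C / log Z0 := by
      refine div_le_div_of_nonneg_left hC.le hlZ0 ?_
      exact log_le_log (by exact_mod_cast (by omega : 0 < Z0)) (by exact_mod_cast hn)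
    linarith
  have hGm : ∀ n, Z0 ≤ n → g (t n) ≤ g (t (n + 1)) := fun n hn => hg (htm n (by omega))
  have habel := sv_abel V (fun n => K / log n) (fun n => g (t n)) Z0 z hlt (hg0 _) hGm hab
  have hKz : K / log z = (1 + C / log Z0) * V z := by
    rw [hK]; field_simp
  have hsum2 : ∑ n ∈ Finset.Ico Z0 z, (K / log n - K / log ((n + 1 : ℕ) : ℝ)) * g (t n) =
      K / log D * ∑ n ∈ Finset.Ico Z0 z, g (t n) * (t n - t (n + 1)) := by
    rw [Finset.mul_sum]
    refine Finset.sum_congr rfl fun n hn => ?_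
    rw [Finset.mem_Ico] at hn
    have h1 := hlog n (by omega)
    have h2 := hlog (n + 1) (by omega)
    simp only [ht]
    field_simp
  have hle := sv_integral g hg t Z0 z hZz (fun n hn => htm n (by omega))
  have htz : t z ≤ t Z0 := by
    simp only [ht]
    refine div_le_div_of_nonneg_left hlogD.le hlZ0 ?_
    exact log_le_log (by exact_mod_cast (by omega : 0 < Z0)) (by exact_mod_cast hZz)
  have hint2 : ∫ x in (t z)..(t Z0), g x ≤ ∫ x in Ioi (log D / log z), g x := by
    rw [intervalIntegral.integral_of_le htz]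
    refine setIntegral_mono_set hgi ?_ ?_
    · exact Filter.Eventually.of_forall fun x => hg0 x
    · exact LE.le.eventuallyLE Ioc_subset_Ioi_self
  have hGz : g (t (z - 1)) ≤ g (t z) := by
    have := hGm (z - 1) (by omega)
    rwa [Nat.sub_add_cancel (by omega)] at this
  have hstep : K / log D * ∑ n ∈ Finset.Ico Z0 z, g (t n) * (t n - t (n + 1)) ≤
      K / log D * ∫ x in Ioi (log D / log z), g x :=
    mul_le_mul_of_nonneg_left (hle.trans hint2) (by positivity)
  have habel' : ∑ n ∈ Finset.Ico Z0 z, (V n - V (n + 1)) * g (t n) + V z * g (t (z - 1)) ≤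
      K / log D * (∫ x in Ioi (log D / log z), g x) + (1 + C / log Z0) * V z * g (t (z - 1)) := by
    refine habel.trans ?_
    rw [hsum2, hKz]
    linarith
  have h3 : C / log Z0 * V z * g (t (z - 1)) ≤ C / log Z0 * V z * g (t z) :=
    mul_le_mul_of_nonneg_left hGz (by positivity)
  have h4 : V z * ((1 + C / log Z0) * (log z / log D * ∫ t in Ioi (log D / log z), g t) +
        C / log Z0 * g (log D / log z)) = K / log D * (∫ x in Ioi (log D / log z), g x) +
        C / log Z0 * V z * g (t z) := by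
    rw [hK]
    simp only [ht]
    ring
  rw [h4]
  have h5 : (1 + C / log Z0) * V z * g (t (z - 1)) = V z * g (t (z - 1)) +
    C / log Z0 * V z * g (t (z - 1)) := by ring
  linarith

end Pool.Agent.RG
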