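import Pool.Agent.RG.Eta
import Pool.Agent.RG.Trans
import Pool.Agent.RG.Mer
import Pool.Agent.RG.Par
/-!
# RG / TailP: transfer for one or two windows of the lower half

`transfer` with `k = 2 ⌈ℓ^(γ - ε/2)⌉`, `η = exp (-ℓ^(γ+3ε/2))` (`eta_bound`), `|T| ≤ 2 h`,
`(|T|+1)^k ≤ exp (k log (3h))`.  Tails: `tail_le` with `σ' = e σ`, `σ = pr (plist W Z) ≤ C log ℓ/ℓ^θ`:
for `A ⊆ win i ∪ win j`, `|A| = k'` (`k' = k` or `k+1`), `nu p A ≥ k' - c_p`, where `c_p` = number of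
pairs `(t, u) ∈ (A ∩ win i) × (A ∩ win j)`, `i < j`, with `p ∣ u - t` (no collisions inside one window,
`p > W ≥ h`; `c_p = 0` if `i = j`); `1 - nu/p ≤ (1-1/p)^k' + c_p/p ≤ (1-1/p)^k' (1 + 2 c_p/p)`
(`(1-1/p)^k' ≥ 1 - k'/p ≥ 1/2`); `∑_p c_p/p ≤ k'^2 (log (2 R h)/log 2)/W` (each `u - t ∈ [1, 2Rh]` has at
most `log (2Rh)/log 2` prime factors), and `2 k'^2 ℓ^γ/W ≤ k'` because `2γ - ε/2 < ω`; so
`rho A ≤ (e σ)^k'`; `e^2 * 2h * e σ ~ ℓ^(γ-ε) log ℓ ≤ k`.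
-/

set_option autoImplicit false

namespace Pool.Agent.RG

open Finset Real Filter

/-- number of congruent pairs -/
def cpair (p : ℕ) (A : Finset ℕ) : ℕ :=
  ((A ×ˢ A).filter (fun q : ℕ × ℕ => q.1 < q.2 ∧ p ∣ q.2 - q.1)).card

lemma card_le_nu_add (p : ℕ) (A : Finset ℕ) : A.card ≤ nu p A + cpair p A := by
  induction A using Finset.induction_on_max with
  | empty => simp
  | insert x A hx ih =>
    have hxA : x ∉ A := fun h => lt_irrefl x (hx x h)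
    rw [card_insert_of_notMem hxA]
    have hmono : cpair p A ≤ cpair p (insert x A) := by
      unfold cpair
      apply card_le_card
      apply filter_subset_filter
      exact product_subset_product (subset_insert _ _) (subset_insert _ _)
    by_cases h : x % p ∈ A.image (fun t => t % p)
    · have h1 : nu p (insert x A) = nu p A := by
        unfold nu
        rw [image_insert, insert_eq_of_mem h]
      have h2 : cpair p A + 1 ≤ cpair p (insert x A) := by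
        rw [mem_image] at h
        obtain ⟨t, ht, htx⟩ := h
        have htlt := hx t ht
        unfold cpair
        rw [← card_insert_of_notMem (a := (t, x))
          (s := (A ×ˢ A).filter (fun q : ℕ × ℕ => q.1 < q.2 ∧ p ∣ q.2 - q.1))]
        · apply card_le_card
          intro q hq
          rw [mem_insert] at hq
          rw [mem_filter, mem_product]
          rcases hq with rfl | hq
          · refine ⟨⟨mem_insert_of_mem ht, mem_insert_self _ _⟩, htlt, ?_⟩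
            exact (Nat.modEq_iff_dvd' htlt.le).1 htx
          · rw [mem_filter, mem_product] at hq
            exact ⟨⟨mem_insert_of_mem hq.1.1, mem_insert_of_mem hq.1.2⟩, hq.2⟩
        · rw [mem_filter, mem_product]
          rintro ⟨⟨_, h3⟩, _⟩
          exact hxA h3
      omega
    · have h1 : nu p (insert x A) = nu p A + 1 := by
        unfold nu
        rw [image_insert, card_insert_of_notMem h]
      omega

lemma two_pow_card_primeFactors (m : ℕ) (hm : m ≠ 0) : 2 ^ m.primeFactors.card ≤ m := by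
  have h1 : ∏ p ∈ m.primeFactors, p ≤ m := Nat.le_of_dvd (Nat.pos_of_ne_zero hm)
    (Nat.prod_primeFactors_dvd m)
  refine le_trans ?_ h1
  rw [← prod_const]
  exact prod_le_prod' fun p hp => (Nat.prime_of_mem_primeFactors hp).two_le

lemma sum_cpair (w z : ℕ) (A : Finset ℕ) (D : ℝ) (hD : 1 ≤ D)
    (hA : ∀ t ∈ A, ∀ u ∈ A, t < u → ((u - t : ℕ) : ℝ) ≤ D) :
    (∑ p ∈ prm w z, (cpair p A : ℝ)) ≤ (A.card : ℝ) ^ 2 * (log D / log 2) := by
  have h1 : (∑ p ∈ prm w z, (cpair p A : ℝ)) =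
      ∑ q ∈ A ×ˢ A, if q.1 < q.2 then (((prm w z).filter (fun p => p ∣ q.2 - q.1)).card : ℝ)
        else 0 := by
    unfold cpair
    have : ∀ p ∈ prm w z, (((A ×ˢ A).filter (fun q : ℕ × ℕ => q.1 < q.2 ∧ p ∣ q.2 - q.1)).card : ℝ)
        = ∑ q ∈ A ×ˢ A, if q.1 < q.2 ∧ p ∣ q.2 - q.1 then (1 : ℝ) else 0 := by
      intro p _
      rw [← sum_filter, sum_const, nsmul_eq_mul, mul_one]
    rw [sum_congr rfl this, sum_comm]
    refine sum_congr rfl fun q _ => ?_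
    by_cases h : q.1 < q.2
    · simp only [h, true_and, if_true]
      rw [← sum_filter, sum_const, nsmul_eq_mul, mul_one]
    · simp [h]
  rw [h1]
  have h2 : ∀ q ∈ A ×ˢ A, (if q.1 < q.2 then
      (((prm w z).filter (fun p => p ∣ q.2 - q.1)).card : ℝ) else 0) ≤ log D / log 2 := by
    intro q hq
    rw [mem_product] at hq
    have hlog2 : 0 < log 2 := log_pos (by norm_num)
    split_ifs with h
    · have h3 : q.2 - q.1 ≠ 0 := by omega
      have h4 : ((prm w z).filter (fun p => p ∣ q.2 - q.1)).card ≤ (q.2 - q.1).primeFactors.card := by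
        apply card_le_card
        intro p hp
        rw [mem_filter, mem_prm] at hp
        exact Nat.mem_primeFactors.2 ⟨hp.1.2, hp.2, h3⟩
      have h5 := two_pow_card_primeFactors _ h3
      have h6 : ((2 : ℝ) ^ (q.2 - q.1).primeFactors.card) ≤ D := by
        refine le_trans ?_ (hA q.1 hq.1 q.2 hq.2 h)
        exact_mod_cast h5
      have h7 : ((q.2 - q.1).primeFactors.card : ℝ) * log 2 ≤ log D := by
        rw [← log_pow]
        exact log_le_log (by positivity) h6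
      rw [le_div_iff₀ hlog2]
      refine le_trans ?_ h7
      apply mul_le_mul_of_nonneg_right _ hlog2.le
      exact_mod_cast h4
    · exact div_nonneg (log_nonneg hD) hlog2.le
  refine le_trans (sum_le_sum h2) ?_
  rw [sum_const, card_product, nsmul_eq_mul]
  push_cast
  rw [pow_two]

lemma rho_le (w z : ℕ) (hwz : w ≤ z) (hw : 1 ≤ w) (A : Finset ℕ) (D : ℝ) (hD : 1 ≤ D)
    (hA : ∀ t ∈ A, ∀ u ∈ A, t < u → ((u - t : ℕ) : ℝ) ≤ D) (hk : 2 * A.card ≤ w)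
    (hkD : 2 * (A.card : ℝ) * (log D / log 2) ≤ w) :
    rho (plist w z) A ≤ (exp 1 * pr (plist w z)) ^ A.card := by
  have hw0 : (0 : ℝ) < w := by exact_mod_cast hw
  unfold rho pr
  rw [prod_plist _ _ _ hwz, prod_plist _ _ _ hwz, mul_pow, ← prod_pow]
  have h1 : ∀ p ∈ prm w z, 0 ≤ 1 - (nu p A : ℝ) / p ∧ 1 - (nu p A : ℝ) / p ≤
      (1 - 1 / (p : ℝ)) ^ A.card * exp (2 * (cpair p A : ℝ) / w) := by
    intro p hp
    rw [mem_prm] at hp
    have hp0 : (0 : ℝ) < p := by exact_mod_cast hp.2.pos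
    have hp1 : (1 : ℝ) ≤ p := by exact_mod_cast hp.2.one_lt.le
    have hwp : (w : ℝ) ≤ p := by exact_mod_cast hp.1.1.le
    have hkp : 2 * (A.card : ℝ) ≤ p := le_trans (by exact_mod_cast hk) hwp
    constructor
    · rw [sub_nonneg, div_le_one hp0]
      exact_mod_cast nu_le p hp.2.pos A
    · have h2 : (A.card : ℝ) ≤ nu p A + cpair p A := by exact_mod_cast card_le_nu_add p A
      have h3 := one_add_mul_le_pow (a := -(1 / (p : ℝ))) (by
        have : 1 / (p : ℝ) ≤ 1 := by rw [div_le_one hp0]; exact hp1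
        linarith) A.card
      have h4 : (1 : ℝ) / 2 ≤ 1 + (A.card : ℝ) * -(1 / (p : ℝ)) := by
        have : (A.card : ℝ) * (1 / (p : ℝ)) ≤ 1 / 2 := by
          rw [mul_one_div, div_le_iff₀ hp0]; linarith
        linarith
      have h5 : (1 + -(1 / (p : ℝ))) ^ A.card = (1 - 1 / (p : ℝ)) ^ A.card := by ring
      rw [h5] at h3
      have h6 : 1 - (nu p A : ℝ) / p ≤ (1 - 1 / (p : ℝ)) ^ A.card + (cpair p A : ℝ) / p := by
        have : (A.card : ℝ) / p ≤ (nu p A : ℝ) / p + (cpair p A : ℝ) / p := by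
          rw [← add_div]; exact div_le_div_of_nonneg_right h2 hp0.le
        have h7 : (A.card : ℝ) * -(1 / (p : ℝ)) = -((A.card : ℝ) / p) := by ring
        linarith
      have h8 : 0 ≤ (cpair p A : ℝ) / w := by positivity
      have h9 : (cpair p A : ℝ) / p ≤ (cpair p A : ℝ) / w :=
        div_le_div_of_nonneg_left (Nat.cast_nonneg _) hw0 hwp
      have h10 : 1 + 2 * (cpair p A : ℝ) / w ≤ exp (2 * (cpair p A : ℝ) / w) := by
        have := add_one_le_exp (2 * (cpair p A : ℝ) / w)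
        linarith
      have h11 : (1 : ℝ) / 2 ≤ (1 - 1 / (p : ℝ)) ^ A.card := le_trans h4 h3
      calc 1 - (nu p A : ℝ) / p ≤ (1 - 1 / (p : ℝ)) ^ A.card + (cpair p A : ℝ) / w := by linarith
        _ ≤ (1 - 1 / (p : ℝ)) ^ A.card * (1 + 2 * (cpair p A : ℝ) / w) := by
            have : 2 * (cpair p A : ℝ) / w = 2 * ((cpair p A : ℝ) / w) := by ring
            rw [this]; nlinarith
        _ ≤ _ := mul_le_mul_of_nonneg_left h10 (by linarith)
  refine le_trans (prod_le_prod (fun p hp => (h1 p hp).1) (fun p hp => (h1 p hp).2)) ?_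
  rw [prod_mul_distrib, mul_comm]
  apply mul_le_mul_of_nonneg_right
  · rw [← exp_sum, ← exp_nat_mul, mul_one]
    apply exp_le_exp.2
    rw [← sum_div, ← mul_sum, div_le_iff₀ hw0]
    have h2 := sum_cpair w z A D hD hA
    nlinarith [(Nat.cast_nonneg A.card : (0 : ℝ) ≤ A.card)]
  · refine prod_nonneg fun p hp => pow_nonneg ?_ _
    rw [mem_prm] at hp
    have hp1 : (1 : ℝ) ≤ p := by exact_mod_cast hp.2.one_lt.le
    have : 1 / (p : ℝ) ≤ 1 := by rw [div_le_one (by linarith)]; exact hp1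
    linarith

lemma basicW (θ γ ε ω : ℝ) (hP : Par θ γ ε ω) : ∀ᶠ ℓ : ℝ in atTop,
    1 ≤ ℓ ∧ 2 ≤ Wn ω ℓ ∧ Wn ω ℓ ≤ Zn θ ℓ ∧ (Wn ω ℓ : ℝ) ≤ ℓ ^ ω ∧ ℓ ^ ω ≤ 2 * Wn ω ℓ ∧
    ℓ ^ θ ≤ 2 * log (Zn θ ℓ) ∧ log (Wn ω ℓ) ≤ log ℓ := by
  have hε := hP.hε
  have hγ := hP.hγ
  have hγθ := hP.hγθ
  have hω := hP.hω
  have hω1 := hP.hω1
  have hω0 : 0 < ω := by linarith
  have hθ0 : 0 < θ := by linarith
  have a1 : Tendsto (fun ℓ : ℝ => ℓ ^ ω) atTop atTop := tendsto_rpow_atTop hω0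
  have a2 : Tendsto (fun ℓ : ℝ => ℓ ^ θ) atTop atTop := tendsto_rpow_atTop hθ0
  have a3 : ∀ᶠ ℓ : ℝ in atTop, ℓ ^ ω ≤ exp (ℓ ^ θ) := by
    have b2 := (isLittleO_pow_exp_atTop (n := ⌈ω / θ⌉₊)).bound (by norm_num : (0 : ℝ) < 1)
    filter_upwards [a2.eventually b2, a2.eventually_ge_atTop 1, eventually_ge_atTop 1]
      with l hl hl1 hl2
    have hl0 : (0 : ℝ) ≤ l := by linarith
    rw [norm_of_nonneg (by positivity), norm_of_nonneg (by positivity), one_mul] at hl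
    refine le_trans ?_ hl
    rw [← rpow_natCast, ← rpow_mul hl0]
    apply rpow_le_rpow_of_exponent_le hl2
    have b4 := Nat.le_ceil (ω / θ)
    rw [div_le_iff₀ hθ0] at b4
    linarith
  filter_upwards [a1.eventually_ge_atTop 4, a2.eventually_ge_atTop 4, a3, eventually_ge_atTop 1]
    with ℓ h1 h2 h3 h4
  have hℓ0 : 0 < ℓ := by linarith
  have f1 := Nat.floor_le (by positivity : 0 ≤ ℓ ^ ω)
  have f2 := Nat.lt_floor_add_one (ℓ ^ ω)
  have g1 := Nat.floor_le (by positivity : 0 ≤ exp (ℓ ^ θ))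
  have g2 := Nat.lt_floor_add_one (exp (ℓ ^ θ))
  have hW2 : 2 ≤ Wn ω ℓ := by
    unfold Wn
    exact Nat.le_floor (by push_cast; linarith)
  have hWZ : Wn ω ℓ ≤ Zn θ ℓ := Nat.floor_le_floor h3
  have hW0 : (0 : ℝ) < Wn ω ℓ := by exact_mod_cast (by omega : 0 < Wn ω ℓ)
  refine ⟨h4, hW2, hWZ, f1, ?_, ?_, ?_⟩
  · have : (Wn ω ℓ : ℝ) = (⌊ℓ ^ ω⌋₊ : ℝ) := rfl
    rw [this]; linarith
  · have e1 : (Zn θ ℓ : ℝ) = (⌊exp (ℓ ^ θ)⌋₊ : ℝ) := rfl
    have e2 : exp (ℓ ^ θ) / 2 ≤ Zn θ ℓ := by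
      have : (2 : ℝ) ≤ exp (ℓ ^ θ) := by linarith [add_one_le_exp (ℓ ^ θ)]
      rw [e1]; linarith
    have e3 : exp (ℓ ^ θ / 2) ≤ exp (ℓ ^ θ) / 2 := by
      have e4 : exp (ℓ ^ θ) = exp (ℓ ^ θ / 2) * exp (ℓ ^ θ / 2) := by
        rw [← exp_add]; congr 1; ring
      have e5 : 2 ≤ exp (ℓ ^ θ / 2) := by linarith [add_one_le_exp (ℓ ^ θ / 2)]
      rw [e4]
      have e6 : exp (ℓ ^ θ / 2) * 2 ≤ exp (ℓ ^ θ / 2) * exp (ℓ ^ θ / 2) :=
        mul_le_mul_of_nonneg_left e5 (exp_pos _).le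
      linarith only [e6]
    have e6 : ℓ ^ θ / 2 ≤ log (Zn θ ℓ) := by
      rw [le_log_iff_exp_le (by linarith [exp_pos (ℓ ^ θ / 2)])]
      linarith
    linarith
  · apply log_le_log hW0
    refine le_trans f1 ?_
    calc ℓ ^ ω ≤ ℓ ^ (1 : ℝ) := rpow_le_rpow_of_exponent_le h4 (by linarith)
      _ = ℓ := rpow_one ℓ

lemma sigma_le (θ γ ε ω : ℝ) (hP : Par θ γ ε ω) : ∃ C : ℝ, 0 < C ∧ ∀ᶠ ℓ : ℝ in atTop,
    pr (plist (Wn ω ℓ) (Zn θ ℓ)) ≤ C * (log ℓ / ℓ ^ θ) := by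
  obtain ⟨c, C, hc, hC, h⟩ := pr_bounds
  refine ⟨2 * C, by linarith, ?_⟩
  filter_upwards [basicW θ γ ε ω hP, eventually_gt_atTop 1] with ℓ h1 hℓ
  obtain ⟨h1, h2, h3, h4, h5, h6, h7⟩ := h1
  have hℓ0 : 0 < ℓ := by linarith
  have hθ : 0 < ℓ ^ θ := rpow_pos_of_pos hℓ0 _
  refine le_trans (h _ _ h2 h3).2 ?_
  rw [mul_assoc, mul_comm 2, mul_assoc]
  apply mul_le_mul_of_nonneg_left _ hC.le
  have hlZ : 0 < log (Zn θ ℓ) := by linarith
  have hlog : 0 < log ℓ := log_pos hℓ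
  rw [div_mul_eq_mul_div, div_le_div_iff₀ hlZ hθ]
  calc log (Wn ω ℓ) * ℓ ^ θ ≤ log ℓ * (2 * log (Zn θ ℓ)) :=
        mul_le_mul h7 h6 hθ.le hlog.le
    _ = _ := by ring

lemma hL_le (θ γ ε ℓ : ℝ) (hε : 0 ≤ θ + γ - ε) (hℓ : 1 ≤ ℓ) :
    (hL θ γ ε ℓ : ℝ) ≤ 2 * ℓ ^ (θ + γ - ε) := by
  unfold hL
  have h1 : 1 ≤ ℓ ^ (θ + γ - ε) := one_le_rpow hℓ hε
  have f1 := Nat.floor_le (by linarith : 0 ≤ ℓ ^ (θ + γ - ε))
  push_cast
  linarith

lemma pr_nonneg' (w z : ℕ) (hwz : w ≤ z) : 0 ≤ pr (plist w z) := by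
  unfold pr
  rw [prod_plist _ _ _ hwz]
  refine prod_nonneg fun p hp => ?_
  rw [mem_prm] at hp
  have hp1 : (1 : ℝ) ≤ p := by exact_mod_cast hp.2.one_lt.le
  have : 1 / (p : ℝ) ≤ 1 := by rw [div_le_one (by linarith)]; exact hp1
  linarith

theorem tailP (θ γ ε ω : ℝ) (hP : Par θ γ ε ω) : ∀ᶠ ℓ : ℝ in atTop,
    ∀ (i j a Y : ℕ), i ≤ j → j < RL γ ε ℓ → exp (ℓ / 2) ≤ Y →
    ∀ T ⊆ win θ γ ε ℓ i ∪ win θ γ ε ℓ j,
    |(((range Y).filter (fun n => ∀ t ∈ T, ∃ p ∈ prm (Wn ω ℓ) (Zn θ ℓ),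
        p ∣ a + t + PP 0 (Wn ω ℓ) * n)).card : ℝ) / Y - U 0 (plist (Wn ω ℓ) (Zn θ ℓ)) T| ≤
      exp (-ℓ ^ (γ - 2 * ε / 3)) := by
  have hε := hP.hε
  have hγ := hP.hγ
  have hγθ := hP.hγθ
  have hω := hP.hω
  have hω1 := hP.hω1
  have hω0 : 0 < ω := by linarith
  have hθ0 : 0 < θ := by linarith
  obtain ⟨C, hC, hσ⟩ := sigma_le θ γ ε ω hP
  have t1 := eta_bound θ γ ε ω hP
  -- k sizes
  have s1 : ∀ᶠ ℓ : ℝ in atTop, 4 * ℓ ^ (γ - ε / 2) ≤ ℓ ^ (γ + ε) := by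
    have := asy0 (γ - ε / 2) (γ + ε) 4 (by linarith)
    exact this
  have s2 : ∀ᶠ ℓ : ℝ in atTop, (4 * C * exp 3) * ℓ ^ (γ - ε) * (log ℓ) ^ 1 ≤ ℓ ^ (γ - ε / 2) :=
    asy (γ - ε) (γ - ε / 2) _ 1 (by linarith)
  have s3 : ∀ᶠ ℓ : ℝ in atTop, (128 / log 2) * ℓ ^ (2 * γ - ε / 2 - ε / 3) ≤ ℓ ^ ω :=
    asy0 _ _ _ (by linarith)
  have s4 : ∀ᶠ ℓ : ℝ in atTop, (8 : ℝ) * ℓ ^ (γ + ε) * (log ℓ) ^ 1 ≤ ℓ ^ (γ + 3 * ε / 2) :=
    asy _ _ _ 1 (by linarith)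
  have s5 : ∀ᶠ ℓ : ℝ in atTop, (2 : ℝ) * ℓ ^ (γ - 2 * ε / 3) ≤ ℓ ^ (γ - ε / 2) :=
    asy0 _ _ _ (by linarith)
  have s6 : ∀ᶠ ℓ : ℝ in atTop, (2 : ℝ) * ℓ ^ (γ - 2 * ε / 3) ≤ ℓ ^ (γ + ε) :=
    asy0 _ _ _ (by linarith)
  have s7 : Tendsto (fun ℓ : ℝ => ℓ ^ (γ - 2 * ε / 3)) atTop atTop :=
    tendsto_rpow_atTop (by linarith)
  have s8 : ∀ᶠ ℓ : ℝ in atTop, (32 : ℝ) * ℓ ^ (γ - ε / 2) ≤ ℓ ^ ω :=
    asy0 _ _ _ (by linarith)
  have s9 : ∀ᶠ ℓ : ℝ in atTop, (1 : ℝ) * ℓ ^ (0 : ℝ) * (log ℓ) ^ 1 ≤ ℓ ^ (γ - ε / 3) :=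
    asy _ _ _ 1 (by linarith)
  filter_upwards [t1, hσ, basicW θ γ ε ω hP, s1, s2, s3, s4, s5, s6, s7.eventually_ge_atTop 2,
    s8, s9, eventually_ge_atTop 16] with ℓ t1 hσ hb s1 s2 s3 s4 s5 s6 s7 s8 s9 hℓ16
  obtain ⟨hℓ1, hW2, hWZ, hW, hW', hZ, hlogW⟩ := hb
  intro i j a Y hij hj hY T hT
  set W := Wn ω ℓ with hWdef
  set Z := Zn θ ℓ with hZdef
  have hℓ0 : 0 < ℓ := by linarith
  have hlog0 : 0 ≤ log ℓ := log_nonneg hℓ1
  have hlog2 : 0 < log 2 := log_pos (by norm_num)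
  have hY0 : 0 < Y := by
    have : (0 : ℝ) < Y := lt_of_lt_of_le (exp_pos _) hY
    exact_mod_cast this
  have hσ0 := pr_nonneg' W Z hWZ
  -- the number k
  obtain ⟨k0, hk0⟩ : ∃ k0, k0 = ⌈ℓ ^ (γ - ε / 2)⌉₊ := ⟨_, rfl⟩
  have hg1 : 1 ≤ ℓ ^ (γ - ε / 2) := one_le_rpow hℓ1 (by linarith)
  have hk1 : ℓ ^ (γ - ε / 2) ≤ k0 := by rw [hk0]; exact Nat.le_ceil _
  have hk2 : (k0 : ℝ) < ℓ ^ (γ - ε / 2) + 1 := by
    rw [hk0]; exact Nat.ceil_lt_add_one (by positivity)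
  have hk0pos : 0 < k0 := by
    have : (0 : ℝ) < k0 := by linarith
    exact_mod_cast this
  have hkU : ((2 * k0 + 1 : ℕ) : ℝ) ≤ 8 * ℓ ^ (γ - ε / 2) := by push_cast; linarith
  -- the size of T
  have hh := hL_le θ γ ε ℓ (by linarith) hℓ1
  have hwin : ∀ i, (win θ γ ε ℓ i).card = hL θ γ ε ℓ := by
    intro i
    unfold win
    rw [Nat.card_Ico]
    have : (i + 1) * hL θ γ ε ℓ = i * hL θ γ ε ℓ + hL θ γ ε ℓ := by ring
    omega
  have hTc : (T.card : ℝ) ≤ 4 * ℓ ^ (θ + γ - ε) := by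
    have h1 : T.card ≤ hL θ γ ε ℓ + hL θ γ ε ℓ := by
      calc T.card ≤ (win θ γ ε ℓ i ∪ win θ γ ε ℓ j).card := card_le_card hT
        _ ≤ _ := (card_union_le _ _).trans (by rw [hwin, hwin])
    have h2 : (T.card : ℝ) ≤ hL θ γ ε ℓ + hL θ γ ε ℓ := by exact_mod_cast h1
    linarith
  -- differences
  obtain ⟨D, hD⟩ : ∃ D : ℝ, D = exp (ℓ ^ (γ - ε / 3)) * (2 * ℓ ^ (θ + γ - ε)) := ⟨_, rfl⟩
  have hg2 : 1 ≤ ℓ ^ (θ + γ - ε) := one_le_rpow hℓ1 (by linarith)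
  have hD1 : 1 ≤ D := by
    have : 1 ≤ exp (ℓ ^ (γ - ε / 3)) := one_le_exp (by positivity)
    rw [hD]
    exact one_le_mul_of_one_le_of_one_le this (by linarith only [hg2])
  have hlogD : log D ≤ 4 * ℓ ^ (γ - ε / 3) := by
    rw [hD, log_mul (exp_pos _).ne' (by positivity), log_exp, log_mul (by norm_num) (by positivity),
      log_rpow hℓ0]
    have h1 : log 2 ≤ log ℓ := log_le_log (by norm_num) (by linarith)
    rw [rpow_zero, one_mul, one_mul, pow_one] at s9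
    have h2 : (θ + γ - ε) * log ℓ ≤ 1 * log ℓ := mul_le_mul_of_nonneg_right (by linarith) hlog0
    linarith
  have hTd : ∀ t ∈ T, ∀ u ∈ T, t < u → ((u - t : ℕ) : ℝ) ≤ D := by
    intro t ht u hu htu
    have hmem : ∀ x ∈ T, RL γ ε ℓ ≤ x ∧ x < RL γ ε ℓ + RL γ ε ℓ * hL θ γ ε ℓ := by
      intro x hx
      have h1 := hT hx
      rw [mem_union] at h1
      have h2 : ∀ i, i < RL γ ε ℓ → x ∈ win θ γ ε ℓ i →
          RL γ ε ℓ ≤ x ∧ x < RL γ ε ℓ + RL γ ε ℓ * hL θ γ ε ℓ := by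
        intro i hi hx
        unfold win at hx
        rw [mem_Ico] at hx
        have h3 : (i + 1) * hL θ γ ε ℓ ≤ RL γ ε ℓ * hL θ γ ε ℓ :=
          Nat.mul_le_mul_right _ (by omega)
        exact ⟨le_trans (Nat.le_add_right _ _) hx.1, by omega⟩
      rcases h1 with h1 | h1
      · exact h2 i (by omega) h1
      · exact h2 j hj h1
    have h1 := hmem t ht
    have h2 := hmem u hu
    have h3 : u - t ≤ RL γ ε ℓ * hL θ γ ε ℓ := by omega
    calc ((u - t : ℕ) : ℝ) ≤ (RL γ ε ℓ * hL θ γ ε ℓ : ℕ) := by exact_mod_cast h3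
      _ = (RL γ ε ℓ : ℝ) * hL θ γ ε ℓ := by push_cast; ring
      _ ≤ D := by
          rw [hD]
          apply mul_le_mul _ hh (Nat.cast_nonneg _) (exp_pos _).le
          unfold RL
          exact Nat.floor_le (exp_pos _).le
  -- rho bound
  have hrho : ∀ A ⊆ T, A.card ≤ 2 * k0 + 1 → rho (plist W Z) A ≤ (exp 1 * pr (plist W Z)) ^ A.card := by
    intro A hA hAk
    have hAr : (A.card : ℝ) ≤ 8 * ℓ ^ (γ - ε / 2) := le_trans (by exact_mod_cast hAk) hkU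
    refine rho_le W Z hWZ (by omega) A D hD1
      (fun t ht u hu h => hTd t (hA ht) u (hA hu) h) ?_ ?_
    · have : (2 * (A.card : ℝ)) ≤ W := by linarith
      exact_mod_cast this
    · have hgg : ℓ ^ (γ - ε / 2) * ℓ ^ (γ - ε / 3) = ℓ ^ (2 * γ - ε / 2 - ε / 3) := by
        rw [← rpow_add hℓ0]; congr 1; ring
      have hd0 : 0 ≤ log D := log_nonneg hD1
      calc 2 * (A.card : ℝ) * (log D / log 2) ≤ 2 * (8 * ℓ ^ (γ - ε / 2)) *
            (4 * ℓ ^ (γ - ε / 3) / log 2) := by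
            apply mul_le_mul (by linarith) (div_le_div_of_nonneg_right hlogD hlog2.le)
              (by positivity) (by positivity)
        _ = (64 / log 2) * (ℓ ^ (γ - ε / 2) * ℓ ^ (γ - ε / 3)) := by ring
        _ ≤ W := by
            rw [hgg]
            have : (128 / log 2) * ℓ ^ (2 * γ - ε / 2 - ε / 3) =
              2 * ((64 / log 2) * ℓ ^ (2 * γ - ε / 2 - ε / 3)) := by ring
            linarith
  have hsig : exp 2 * T.card * (exp 1 * pr (plist W Z)) ≤ 2 * k0 := by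
    have h1 : pr (plist W Z) ≤ C * (log ℓ / ℓ ^ θ) := hσ
    have hθp : 0 < ℓ ^ θ := rpow_pos_of_pos hℓ0 _
    have h2 : ℓ ^ (θ + γ - ε) = ℓ ^ θ * ℓ ^ (γ - ε) := by
      rw [← rpow_add hℓ0]; congr 1; ring
    calc exp 2 * T.card * (exp 1 * pr (plist W Z)) ≤
          exp 2 * (4 * ℓ ^ (θ + γ - ε)) * (exp 1 * (C * (log ℓ / ℓ ^ θ))) := by
          apply mul_le_mul _ _ (by positivity) (by positivity)
          · exact mul_le_mul_of_nonneg_left hTc (exp_pos _).le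
          · exact mul_le_mul_of_nonneg_left h1 (exp_pos _).le
      _ = (4 * C * exp 3) * ℓ ^ (γ - ε) * (log ℓ) ^ 1 := by
          have : exp 3 = exp 2 * exp 1 := by rw [← exp_add]; norm_num
          rw [h2, this, pow_one]
          field_simp
      _ ≤ 2 * k0 := by linarith
  have hB1 := tail_le W Z hWZ T (2 * k0) (by omega) (exp 1 * pr (plist W Z)) (by positivity)
    (fun A hA hc => by rw [← hc]; exact hrho A hA (by omega)) (by push_cast; linarith)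
  have hB2 := tail_le W Z hWZ T (2 * k0 + 1) (by omega) (exp 1 * pr (plist W Z)) (by positivity)
    (fun A hA hc => by rw [← hc]; exact hrho A hA (by omega)) (by push_cast; linarith)
  have hB2' : ∑ A ∈ T.powersetCard (2 * k0 + 1), rho (plist W Z) A ≤
      exp (-((2 * k0 : ℕ) : ℝ)) := by
    refine le_trans hB2 (exp_le_exp.2 ?_)
    push_cast; linarith
  have hmain := transfer W Z hWZ (PP 0 W) a T Y hY0 (2 * k0) (even_two_mul k0) (by omega)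
    (exp (-ℓ ^ (γ + 3 * ε / 2))) (exp_pos _).le
    (fun A hA hc => t1 a Y A (by
      have h1 : (A.card : ℝ) ≤ ((2 * k0 + 1 : ℕ) : ℝ) := by exact_mod_cast (by omega)
      linarith [rpow_pos_of_pos hℓ0 (γ + ε)]) hY)
    (exp (-((2 * k0 : ℕ) : ℝ))) hB1 hB2'
  refine le_trans hmain ?_
  have hE1 : exp (-((2 * k0 : ℕ) : ℝ)) ≤ exp (-ℓ ^ (γ - 2 * ε / 3)) / 2 := by
    have h1 : exp (-ℓ ^ (γ - 2 * ε / 3)) / 2 = exp (-ℓ ^ (γ - 2 * ε / 3) - log 2) := by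
      rw [exp_sub, exp_log (by norm_num)]
    rw [h1]
    apply exp_le_exp.2
    have h2 : log 2 ≤ 1 := by linarith [log_two_lt_d9]
    push_cast
    linarith
  have hE2 : exp (-ℓ ^ (γ + 3 * ε / 2)) * ((T.card : ℝ) + 1) ^ (2 * k0) ≤
      exp (-ℓ ^ (γ - 2 * ε / 3)) / 2 := by
    have h1 : exp (-ℓ ^ (γ - 2 * ε / 3)) / 2 = exp (-ℓ ^ (γ - 2 * ε / 3) - log 2) := by
      rw [exp_sub, exp_log (by norm_num)]
    have h3 : (T.card : ℝ) + 1 ≤ ℓ ^ 2 := by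
      have h4 : ℓ ^ (θ + γ - ε) ≤ ℓ := by
        calc ℓ ^ (θ + γ - ε) ≤ ℓ ^ (1 : ℝ) := rpow_le_rpow_of_exponent_le hℓ1 (by linarith)
          _ = ℓ := rpow_one ℓ
      have h5 : 16 * ℓ ≤ ℓ * ℓ := mul_le_mul_of_nonneg_right hℓ16 hℓ0.le
      rw [pow_two]
      linarith only [hTc, h4, h5, hℓ16]
    have h5 : ((T.card : ℝ) + 1) ^ (2 * k0) ≤ exp ((2 * k0 : ℕ) * (2 * log ℓ)) := by
      rw [exp_nat_mul]
      apply pow_le_pow_left₀ (by positivity)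
      refine le_trans h3 (le_of_eq ?_)
      rw [two_mul, exp_add, exp_log hℓ0]; ring
    calc exp (-ℓ ^ (γ + 3 * ε / 2)) * ((T.card : ℝ) + 1) ^ (2 * k0)
        ≤ exp (-ℓ ^ (γ + 3 * ε / 2)) * exp ((2 * k0 : ℕ) * (2 * log ℓ)) :=
          mul_le_mul_of_nonneg_left h5 (exp_pos _).le
      _ = exp (-ℓ ^ (γ + 3 * ε / 2) + (2 * k0 : ℕ) * (2 * log ℓ)) := by rw [exp_add]
      _ ≤ _ := by
          rw [h1]
          apply exp_le_exp.2
          have h2 : log 2 ≤ 1 := by linarith [log_two_lt_d9]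
          have h6 : ((2 * k0 : ℕ) : ℝ) * (2 * log ℓ) ≤ (2 * ℓ ^ (γ + ε)) * (2 * log ℓ) := by
            apply mul_le_mul_of_nonneg_right _ (by positivity)
            push_cast; linarith
          rw [pow_one] at s4
          have h7 : 1 ≤ log ℓ := by
            rw [le_log_iff_exp_le hℓ0]
            linarith [exp_one_lt_d9]
          have h8 : 0 < ℓ ^ (γ + ε) := rpow_pos_of_pos hℓ0 _
          have h9 : ℓ ^ (γ + ε) * 1 ≤ ℓ ^ (γ + ε) * log ℓ := mul_le_mul_of_nonneg_left h7 h8.le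
          linarith only [h2, h6, s4, h9, s6, s7]
  linarith

end Pool.Agent.RG
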