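import Pool.Agent.RG.Defs

/-!
# RG / ULow: lower bound for `U 0` without collisions

`f(l, m) ≥ q_l^m - C(m,2) q_l^(m-2) τ_l` by induction from large to small primes, for all `m` at
once (without collisions `U 0 l T` depends only on `m = |T|`; the hypothesis is inherited by
subsets).  For `m ≤ 1` it is an equality (`C(m,2) = 0`).  Step for `m ≥ 2`: `a = 1/p`, `q` = value for
the larger primes, `b = a (1 - q)`, `q' = q + b`, `f' = (1 - m a) f(m) + m a f(m-1)` (note `m ≤ p`, as
there are no collisions).  With `f ≥ q^m - C(m,2) q^(m-2) τ`: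
* main terms: `(1 - ma) q^m + m a q^(m-1) = q^m + m b q^(m-1)` and
  `q'^m = (q + b)^m ≤ q^m + m b q^(m-1) + C(m,2) b^2 q'^(m-2)` (because `C(m,i+2) ≤ C(m,2) C(m-2,i)`,
  or by induction on `m`);
* error terms: `(1 - ma) C(m,2) q^(m-2) + m a C(m-1,2) q^(m-3) ≤ C(m,2) q'^(m-2)`, because
  `m C(m-1,2) = (m-2) C(m,2)` and `q'^(m-2) ≥ q^(m-2) + (m-2) b q^(m-3)` (for `m = 2` the term with
  `C(1,2) = 0` vanishes).
So `f' ≥ q'^m - C(m,2) q'^(m-2) (τ + b^2)`, `b^2 = ((1-q)/p)^2`.
-/

set_option autoImplicit false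

namespace Pool.Agent.RG

open Finset

/-- the main terms -/
private lemma ulow_main (q b : ℝ) (hq : 0 ≤ q) (hb : 0 ≤ b) (n : ℕ) :
    (q + b) ^ (n + 2) ≤ q ^ (n + 2) + ((n : ℝ) + 2) * b * q ^ (n + 1) +
      ((n + 2).choose 2 : ℝ) * b ^ 2 * (q + b) ^ n := by
  induction n with
  | zero =>
    norm_num
    nlinarith
  | succ n ih =>
    have h1 : (q + b) * (q + b) ^ (n + 2) ≤ (q + b) * (q ^ (n + 2) +
        ((n : ℝ) + 2) * b * q ^ (n + 1) + ((n + 2).choose 2 : ℝ) * b ^ 2 * (q + b) ^ n) :=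
      mul_le_mul_of_nonneg_left ih (by positivity)
    have h2 : (((n + 3).choose 2 : ℕ) : ℝ) = ((n + 2).choose 2 : ℝ) + ((n : ℝ) + 2) := by
      have h3 : (n + 3).choose 2 = (n + 2).choose 1 + (n + 2).choose 2 :=
        Nat.choose_succ_succ (n + 2) 1
      rw [h3, Nat.choose_one_right]
      push_cast
      ring
    have h4 : q ^ (n + 1) ≤ (q + b) ^ (n + 1) := pow_le_pow_left₀ hq (by linarith) _
    have h5 : ((n : ℝ) + 2) * b ^ 2 * q ^ (n + 1) ≤
        ((n : ℝ) + 2) * b ^ 2 * (q + b) ^ (n + 1) :=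
      mul_le_mul_of_nonneg_left h4 (by positivity)
    rw [show n + 1 + 2 = n + 3 by omega, h2]
    push_cast
    calc (q + b) ^ (n + 3) = (q + b) * (q + b) ^ (n + 2) := by ring
      _ ≤ _ := h1
      _ = q ^ (n + 3) + ((n : ℝ) + 1 + 2) * b * q ^ (n + 1 + 1) +
          ((n : ℝ) + 2) * b ^ 2 * q ^ (n + 1) +
          ((n + 2).choose 2 : ℝ) * b ^ 2 * (q + b) ^ (n + 1) := by ring
      _ ≤ q ^ (n + 3) + ((n : ℝ) + 1 + 2) * b * q ^ (n + 1 + 1) +
          ((n : ℝ) + 2) * b ^ 2 * (q + b) ^ (n + 1) +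
          ((n + 2).choose 2 : ℝ) * b ^ 2 * (q + b) ^ (n + 1) := by linarith
      _ = _ := by ring

/-- Bernoulli -/
private lemma ulow_bern (q b : ℝ) (hq : 0 ≤ q) (hb : 0 ≤ b) (n : ℕ) :
    q ^ (n + 1) + ((n : ℝ) + 1) * b * q ^ n ≤ (q + b) ^ (n + 1) := by
  induction n with
  | zero =>
    norm_num
  | succ n ih =>
    have h1 := mul_le_mul_of_nonneg_left ih (by positivity : 0 ≤ q + b)
    have h2 : 0 ≤ ((n : ℝ) + 1) * b ^ 2 * q ^ n := by positivity
    push_cast
    calc q ^ (n + 1 + 1) + ((n : ℝ) + 1 + 1) * b * q ^ (n + 1)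
        ≤ (q + b) * (q ^ (n + 1) + ((n : ℝ) + 1) * b * q ^ n) := by
          have e : (q + b) * (q ^ (n + 1) + ((n : ℝ) + 1) * b * q ^ n) =
            q ^ (n + 1 + 1) + ((n : ℝ) + 1 + 1) * b * q ^ (n + 1) +
              ((n : ℝ) + 1) * b ^ 2 * q ^ n := by ring
          rw [e]
          linarith
      _ ≤ (q + b) * (q + b) ^ (n + 1) := h1
      _ = _ := by ring

/-- the error terms -/
private lemma ulow_err (q a : ℝ) (hq : 0 ≤ q) (hq1 : q ≤ 1) (ha : 0 ≤ a) (n : ℕ) :
    (1 - ((n : ℝ) + 2) * a) * (((n + 2).choose 2 : ℕ) : ℝ) * q ^ n +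
      ((n : ℝ) + 2) * a * (((n + 1).choose 2 : ℕ) : ℝ) * q ^ (n - 1) ≤
      (((n + 2).choose 2 : ℕ) : ℝ) * (q + a * (1 - q)) ^ n := by
  rcases n with _ | n
  · norm_num
    linarith
  · have hb : 0 ≤ a * (1 - q) := mul_nonneg ha (by linarith)
    have h1 := ulow_bern q (a * (1 - q)) hq hb n
    have h2 : ((n : ℝ) + 3) * (((n + 2).choose 2 : ℕ) : ℝ) =
        ((n : ℝ) + 1) * (((n + 3).choose 2 : ℕ) : ℝ) := by
      have h3 : (n + 3) * (n + 2).choose 2 = (n + 1) * (n + 3).choose 2 := by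
        have h4 := Nat.add_one_mul_choose_eq (n + 2) 2
        have h5 := Nat.choose_succ_right_eq (n + 3) 2
        have h6 : (n + 3) - 2 = n + 1 := by omega
        rw [h6] at h5
        have h7 : n + 2 + 1 = n + 3 := rfl
        rw [h7] at h4
        rw [h4, h5]
        ring
      exact_mod_cast h3
    have h3 : (0 : ℝ) ≤ (((n + 3).choose 2 : ℕ) : ℝ) := by positivity
    have h4 : 0 ≤ q ^ (n + 1) := by positivity
    rw [show n + 1 + 2 = n + 3 by omega, show n + 1 + 1 = n + 2 by omega,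
      show n + 1 - 1 = n by omega]
    push_cast
    have h5 : ((n : ℝ) + 1 + 2) * a * (((n + 2).choose 2 : ℕ) : ℝ) * q ^ n =
        a * q ^ n * (((n : ℝ) + 1) * (((n + 3).choose 2 : ℕ) : ℝ)) := by
      rw [← h2]
      ring
    rw [h5]
    have h6 : (1 - ((n : ℝ) + 1 + 2) * a) * (((n + 3).choose 2 : ℕ) : ℝ) * q ^ (n + 1) +
        a * q ^ n * (((n : ℝ) + 1) * (((n + 3).choose 2 : ℕ) : ℝ)) =
        (((n + 3).choose 2 : ℕ) : ℝ) * (q ^ (n + 1) + ((n : ℝ) + 1) * (a * (1 - q)) * q ^ n -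
          2 * a * q ^ (n + 1)) := by ring
    rw [h6]
    apply mul_le_mul_of_nonneg_left _ h3
    nlinarith [mul_nonneg ha h4]

/-- the lower bound, as a function of `m` -/
private noncomputable def ulowf (q t : ℝ) (m : ℕ) : ℝ :=
  q ^ m - ((m.choose 2 : ℕ) : ℝ) * q ^ (m - 2) * t

private lemma ulow_step (q a t : ℝ) (hq : 0 ≤ q) (hq1 : q ≤ 1) (ha : 0 ≤ a) (ht : 0 ≤ t)
    (m : ℕ) :
    ulowf (q + a * (1 - q)) (t + (a * (1 - q)) ^ 2) m ≤
      ulowf q t m + m * a * (ulowf q t (m - 1) - ulowf q t m) := by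
  rcases m with _ | _ | n
  · simp [ulowf]
  · simp [ulowf]
  · have hb : 0 ≤ a * (1 - q) := mul_nonneg ha (by linarith)
    have h1 := ulow_main q (a * (1 - q)) hq hb n
    have h2 := ulow_err q a hq hq1 ha n
    have h3 := mul_le_mul_of_nonneg_left h2 ht
    unfold ulowf
    rw [show n + 1 + 1 = n + 2 by omega, show n + 2 - 2 = n by omega,
      show n + 2 - 1 = n + 1 by omega, show n + 1 - 2 = n - 1 by omega]
    push_cast
    linear_combination h1 + h3

private lemma ulow_pr (a b : ℕ) (hab : a ≤ b) : 0 ≤ pr (plist a b) ∧ pr (plist a b) ≤ 1 := by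
  unfold pr
  rw [prod_plist (fun p : ℕ => 1 - 1 / (p : ℝ)) a b hab]
  have h : ∀ p ∈ prm a b, 0 ≤ 1 - 1 / (p : ℝ) ∧ 1 - 1 / (p : ℝ) ≤ 1 := by
    intro p hp
    have hp' : p.Prime := (mem_prm.1 hp).2
    have h1 : (1 : ℝ) ≤ p := by exact_mod_cast hp'.one_lt.le
    have h2 : 1 / (p : ℝ) ≤ 1 := by
      rw [div_le_one (by linarith)]
      exact h1
    have h3 : 0 ≤ 1 / (p : ℝ) := by positivity
    constructor <;> linarith
  exact ⟨Finset.prod_nonneg fun p hp => (h p hp).1,
    Finset.prod_le_one (fun p hp => (h p hp).1) fun p hp => (h p hp).2⟩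

theorem U_ge_range (T : Finset ℕ) (a b : ℕ) (hab : a ≤ b)
    (h : ∀ p ∈ prm a b, ∀ c ∈ range p, cl p c T ≤ 1) :
    qq 0 (plist a b) ^ T.card - (T.card.choose 2 : ℝ) * qq 0 (plist a b) ^ (T.card - 2) *
      ∑ p ∈ prm a b, ((1 - qq 0 (plist p b)) / p) ^ 2 ≤ U 0 (plist a b) T := by
  have key : ∀ a, a ≤ b → (a ≤ b ∧ ∀ T : Finset ℕ, (∀ p ∈ prm a b, ∀ c ∈ range p, cl p c T ≤ 1) →
      ulowf (qq 0 (plist a b)) (∑ p ∈ prm a b, ((1 - qq 0 (plist p b)) / p) ^ 2) T.card ≤
        U 0 (plist a b) T) := by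
    intro a hab
    refine prm_induction (b := b) (P := fun a => a ≤ b ∧ ∀ T : Finset ℕ,
      (∀ p ∈ prm a b, ∀ c ∈ range p, cl p c T ≤ 1) →
      ulowf (qq 0 (plist a b)) (∑ p ∈ prm a b, ((1 - qq 0 (plist p b)) / p) ^ 2) T.card ≤
        U 0 (plist a b) T) a hab ?_ ?_ ?_
    · refine ⟨le_refl _, fun T _ => ?_⟩
      rw [plist_self, prm_self]
      simp [ulowf, U, qq, pr]
    · intro a hab hp ih
      refine ⟨hab.le, fun T hT => ?_⟩
      obtain ⟨hab', ih⟩ := ih
      set p := a + 1 with hpdef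
      have hnm : p ∉ prm p b := by
        rw [mem_prm]
        omega
      have hp0 : (0 : ℝ) < p := by exact_mod_cast hp.pos
      rw [plist_rec a b hab, prm_rec a b hab, if_pos hp, if_pos hp, Finset.sum_insert hnm]
      rw [prm_rec a b hab, if_pos hp] at hT
      set q := qq 0 (plist p b) with hq
      set t := ∑ r ∈ prm p b, ((1 - qq 0 (plist r b)) / r) ^ 2 with ht
      obtain ⟨hpr0, hpr1⟩ := ulow_pr p b hab'
      have hqe : q = 1 - pr (plist p b) := by
        rw [hq, qq]
        ring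
      have hq0 : 0 ≤ q := by rw [hqe]; linarith
      have hq1 : q ≤ 1 := by rw [hqe]; linarith
      have ht0 : 0 ≤ t := Finset.sum_nonneg fun r _ => sq_nonneg _
      have hqq : qq 0 (p :: plist p b) = q + 1 / p * (1 - q) := by
        rw [hqe]
        unfold qq pr
        rw [List.map_cons, List.prod_cons]
        ring
      rw [hqq]
      have hU : U 0 (p :: plist p b) T = (1 / (p : ℝ)) * ∑ c ∈ range p,
          U 0 (plist p b) (T.filter (fun t => t % p ≠ c)) := rfl
      rw [hU]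
      have hTp : ∀ c ∈ range p, cl p c T ≤ 1 := hT p (Finset.mem_insert_self _ _)
      have hterm : ∀ c ∈ range p, ulowf q t T.card +
          (cl p c T : ℝ) * (ulowf q t (T.card - 1) - ulowf q t T.card) ≤
          U 0 (plist p b) (T.filter (fun t => t % p ≠ c)) := by
        intro c hc
        have h1 := ih (T.filter (fun t => t % p ≠ c)) (by
          intro r hr c' hc'
          refine le_trans ?_ (hT r (Finset.mem_insert_of_mem hr) c' hc')
          unfold cl
          apply Finset.card_le_card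
          exact Finset.filter_subset_filter _ (Finset.filter_subset _ _))
        have h2 : cl p c T + (T.filter (fun t => t % p ≠ c)).card = T.card :=
          Finset.card_filter_add_card_filter_not _
        have h3 := hTp c hc
        refine le_trans (le_of_eq ?_) h1
        rcases Nat.lt_or_ge (cl p c T) 1 with h4 | h4
        · have h5 : cl p c T = 0 := by omega
          rw [h5] at h2 ⊢
          rw [zero_add] at h2
          rw [h2]
          simp
        · have h5 : cl p c T = 1 := by omega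
          rw [h5] at h2 ⊢
          have h6 : (T.filter (fun t => t % p ≠ c)).card = T.card - 1 := by omega
          rw [h6]
          push_cast
          ring
      have hsumcl : ∑ c ∈ range p, (cl p c T : ℝ) = T.card := by
        have h1 := Finset.card_eq_sum_card_fiberwise (s := T) (t := range p)
          (f := fun t => t % p) (fun x _ => by
            simp only [Finset.coe_range, Set.mem_Iio]
            exact Nat.mod_lt _ hp.pos)
        rw [h1]
        push_cast
        rfl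
      have hsum := Finset.sum_le_sum hterm
      rw [Finset.sum_add_distrib, ← Finset.sum_mul, hsumcl, Finset.sum_const,
        Finset.card_range, nsmul_eq_mul] at hsum
      have hstep := ulow_step q (1 / p) t hq0 hq1 (by positivity) ht0 T.card
      have e1 : ((1 - q) / p) ^ 2 + t = t + (1 / p * (1 - q)) ^ 2 := by ring
      rw [e1]
      refine hstep.trans ?_
      have h5 := mul_le_mul_of_nonneg_left hsum (by positivity : 0 ≤ 1 / (p : ℝ))
      refine le_trans (le_of_eq ?_) h5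
      field_simp
    · intro a hab hp ih
      refine ⟨hab.le, fun T hT => ?_⟩
      rw [plist_rec a b hab, prm_rec a b hab, if_neg hp, if_neg hp]
      rw [prm_rec a b hab, if_neg hp] at hT
      exact ih.2 T hT
  exact (key a hab).2 T h

end Pool.Agent.RG
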