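import Pool.Agent.RG.St1A
import Pool.Agent.RG.St2

/-!
# RG / Upper: the upper half

`ℓ = log X`, `Q = PP 0 W ≤ 4^W ≤ exp (ℓ/4)` (`PP_le`), `split_count`, `Y = X/Q + 1 ≥ exp (ℓ/2)`,
`Q Y ≤ 2 X`.  If `Dens` fails for `N = a + Q n`, then one of the windows
`T_j = Ico (j h) ((j+1) h)`, `j ≤ J = ⌈exp (c ℓ^γ)/h⌉ + 1`, `h = hU`, has no `t` with `N + t` rough.
Either `a` is bad for `j` (`stage1`: fewer than `mU` survivors `t ∈ T_j` of the primes `≤ W`), or a
subset of `mU` survivors is killed by `(W, Z]` (`stage2`).  Total proportion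
`≤ 2 (J+1) * 2 exp (-ℓ^(γ+ε/5)) → 0`.  (`Rough (exp (ℓ^θ)) m ↔ ∀ p ∈ prm 0 (Zn θ ℓ), ¬ p ∣ m`.)
-/

set_option autoImplicit false

namespace Pool.Agent.RG

open Finset Real Filter Topology

private lemma up_PP_pos (W : ℕ) : 0 < PP 0 W := by
  unfold PP
  exact prod_pos fun p hp => (mem_prm.1 hp).2.pos

private lemma up_scale (ω : ℝ) (hω0 : 0 < ω) (hω1 : ω < 1) : ∀ᶠ X : ℕ in atTop, 1 ≤ X ∧
    PP 0 (Wn ω (log X)) * (X / PP 0 (Wn ω (log X)) + 1) ≤ 2 * X ∧
    exp (log X / 2) ≤ ((X / PP 0 (Wn ω (log X)) + 1 : ℕ) : ℝ) := by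
  have hlog : Tendsto (fun X : ℕ => log (X : ℝ)) atTop atTop :=
    tendsto_log_atTop.comp tendsto_natCast_atTop_atTop
  have h1 := hlog.eventually (asy0 ω 1 (4 * log 4) hω1)
  filter_upwards [h1, eventually_ge_atTop 1] with X hX hX1
  have hX0 : (0 : ℝ) < X := by exact_mod_cast hX1
  set l := log (X : ℝ) with hl
  have hl0 : 0 ≤ l := log_nonneg (by exact_mod_cast hX1)
  have hXe : exp l = X := exp_log hX0
  set Q := PP 0 (Wn ω l) with hQ
  have hQ0 : 0 < Q := up_PP_pos _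
  have hQ1 : (Q : ℝ) ≤ exp (l / 4) := by
    have e1 : (Q : ℝ) ≤ (4 : ℝ) ^ (Wn ω l) := by exact_mod_cast PP_le (Wn ω l)
    refine e1.trans ?_
    have e2 : (4 : ℝ) ^ (Wn ω l) = exp (Wn ω l * log 4) := by
      rw [mul_comm, exp_mul, exp_log (by norm_num), rpow_natCast]
    rw [e2]
    apply exp_le_exp.2
    have e3 : (Wn ω l : ℝ) ≤ l ^ ω := Nat.floor_le (by positivity)
    have e4 : 0 < log 4 := log_pos (by norm_num)
    rw [rpow_one] at hX
    nlinarith
  have hQX : Q ≤ X := by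
    have : (Q : ℝ) ≤ X := by
      rw [← hXe]
      exact hQ1.trans (exp_le_exp.2 (by linarith))
    exact_mod_cast this
  refine ⟨hX1, ?_, ?_⟩
  · have := Nat.mul_div_le X Q
    rw [mul_add, mul_one]
    omega
  · have h2 : (X : ℝ) ≤ Q * ((X / Q + 1 : ℕ) : ℝ) := by
      exact_mod_cast (Nat.lt_mul_div_succ X hQ0).le
    rw [← hXe] at h2
    have h3 : exp l ≤ exp (l / 4) * ((X / Q + 1 : ℕ) : ℝ) :=
      h2.trans (mul_le_mul_of_nonneg_right hQ1 (by positivity))
    have h4 : exp (l / 4) * exp (l / 2) ≤ exp l := by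
      rw [← exp_add]
      exact exp_le_exp.2 (by linarith)
    exact le_of_mul_le_mul_left (h4.trans h3) (exp_pos _)

/-- A number that is not rough is killed by a small prime (then `a + t` is) or by a large one. -/
private lemma up_killed (z : ℝ) (W Z : ℕ) (hz : ∀ p : ℕ, (p : ℝ) ≤ z → p ≤ Z) (a n t : ℕ)
    (h : ¬ Rough z (a + PP 0 W * n + t)) :
    (∃ p ∈ prm 0 W, p ∣ a + t) ∨ ∃ p ∈ prm W Z, p ∣ a + t + PP 0 W * n := by
  unfold Rough at h
  push Not at h
  obtain ⟨p, hp, hpz, hd⟩ := h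
  have hd' : p ∣ a + t + PP 0 W * n := by
    rwa [show a + t + PP 0 W * n = a + PP 0 W * n + t by ring]
  rcases le_or_gt p W with h1 | h1
  · left
    have hm : p ∈ prm 0 W := mem_prm.2 ⟨⟨hp.pos, h1⟩, hp⟩
    refine ⟨p, hm, ?_⟩
    have h2 : p ∣ PP 0 W := dvd_prod_of_mem _ hm
    exact (Nat.dvd_add_left (h2.mul_right n)).1 hd'
  · right
    exact ⟨p, mem_prm.2 ⟨⟨h1, hz p hpz⟩, hp⟩, hd'⟩

open Classical in
private lemma up_core (W Z X Y J h m : ℕ) (z L g η : ℝ) (hη : 0 ≤ η) (hh : 0 < h)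
    (hY : Y = X / PP 0 W + 1)
    (hz : ∀ p : ℕ, (p : ℝ) ≤ z → p ≤ Z) (hg : 2 * (h : ℝ) ≤ g)
    (hJ : ∀ s : ℕ, (s : ℝ) ≤ L → s + 1 < J)
    (h1 : ∀ s0 : ℕ, (((range (PP 0 W)).filter (fun a =>
      ((Ico s0 (s0 + h)).filter (fun t => ∀ p ∈ prm 0 W, ¬ p ∣ a + t)).card < m)).card : ℝ) ≤
      η * PP 0 W)
    (h2 : ∀ (s0 a : ℕ) (T : Finset ℕ), T ⊆ Ico s0 (s0 + h) → T.card = m →
      (((range Y).filter (fun n => ∀ t ∈ T, ∃ p ∈ prm W Z,
        p ∣ a + t + PP 0 W * n)).card : ℝ) ≤ η * Y) :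
    (((Icc 1 X).filter (fun n : ℕ => ¬ Dens z L g n)).card : ℝ) ≤ 2 * J * η * (PP 0 W * Y) := by
  have hQ0 : 0 < PP 0 W := up_PP_pos _
  have hc := split_count (PP 0 W) X hQ0 (fun n : ℕ => ¬ Dens z L g n)
  rw [← hY] at hc
  -- one window
  have hwin : ∀ n : ℕ, ¬ Dens z L g n → ∃ j ∈ range J, ∀ t ∈ Ico (j * h) (j * h + h),
      ¬ Rough z (n + t) := by
    intro n hn
    unfold Dens at hn
    push Not at hn
    obtain ⟨s, hs, hs'⟩ := hn
    refine ⟨s / h + 1, mem_range.2 ?_, ?_⟩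
    · have := hJ s hs
      have := Nat.div_le_self s h
      omega
    · intro t ht
      rw [mem_Ico] at ht
      have e1 : s < (s / h + 1) * h := by
        rw [mul_comm]; exact Nat.lt_mul_div_succ s hh
      have e2 : s / h * h ≤ s := Nat.div_mul_le_self s h
      refine hs' t (by omega) ?_
      have e3 : t < s + 2 * h := by
        have : (s / h + 1) * h = s / h * h + h := by ring
        omega
      have e4 : (t : ℝ) < s + 2 * h := by exact_mod_cast e3
      linarith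
  -- the count for a and j
  set F : ℕ → ℕ → Finset ℕ := fun a j => (range Y).filter (fun n => ∀ t ∈ Ico (j * h) (j * h + h),
    ¬ Rough z (a + PP 0 W * n + t)) with hF
  set B : ℕ → Finset ℕ := fun j => (range (PP 0 W)).filter (fun a =>
      ((Ico (j * h) (j * h + h)).filter (fun t => ∀ p ∈ prm 0 W, ¬ p ∣ a + t)).card < m) with hB
  have hFle : ∀ a ∈ range (PP 0 W), ∀ j, ((F a j).card : ℝ) ≤
      (if a ∈ B j then (Y : ℝ) else 0) + η * Y := by
    intro a ha j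
    by_cases hb : a ∈ B j
    · rw [if_pos hb]
      have e1 : ((F a j).card : ℝ) ≤ Y := by
        have : (F a j).card ≤ (range Y).card := card_filter_le _ _
        rw [card_range] at this
        exact_mod_cast this
      have : 0 ≤ η * Y := by positivity
      linarith
    · rw [if_neg hb, zero_add]
      have hb' : m ≤ ((Ico (j * h) (j * h + h)).filter
          (fun t => ∀ p ∈ prm 0 W, ¬ p ∣ a + t)).card := by
        by_contra hcon
        exact hb (mem_filter.2 ⟨ha, not_le.1 hcon⟩)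
      obtain ⟨T, hT, hTc⟩ := exists_subset_card_eq hb'
      refine le_trans ?_ (h2 (j * h) a T (hT.trans (filter_subset _ _)) hTc)
      have : F a j ⊆ (range Y).filter (fun n => ∀ t ∈ T, ∃ p ∈ prm W Z,
          p ∣ a + t + PP 0 W * n) := by
        intro n hn
        rw [mem_filter] at hn ⊢
        refine ⟨hn.1, fun t ht => ?_⟩
        have ht' := mem_filter.1 (hT ht)
        rcases up_killed z W Z hz a n t (hn.2 t ht'.1) with ⟨p, hp, hd⟩ | h
        · exact absurd hd (ht'.2 p hp)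
        · exact h
      exact_mod_cast card_le_card this
  have hsub : ∀ a ∈ range (PP 0 W), (((range Y).filter
      (fun n => ¬ Dens z L g (a + PP 0 W * n))).card : ℝ) ≤ ∑ j ∈ range J, ((F a j).card : ℝ) := by
    intro a _
    have : (range Y).filter (fun n => ¬ Dens z L g (a + PP 0 W * n)) ⊆
        (range J).biUnion (F a) := by
      intro n hn
      rw [mem_filter] at hn
      obtain ⟨j, hj, hj'⟩ := hwin _ hn.2
      rw [mem_biUnion]
      exact ⟨j, hj, mem_filter.2 ⟨hn.1, hj'⟩⟩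
    exact_mod_cast (card_le_card this).trans card_biUnion_le
  calc (((Icc 1 X).filter (fun n : ℕ => ¬ Dens z L g n)).card : ℝ)
      ≤ ∑ a ∈ range (PP 0 W), (((range Y).filter
          (fun n => ¬ Dens z L g (a + PP 0 W * n))).card : ℝ) := by exact_mod_cast hc
    _ ≤ ∑ a ∈ range (PP 0 W), ∑ j ∈ range J, ((F a j).card : ℝ) := sum_le_sum hsub
    _ ≤ ∑ a ∈ range (PP 0 W), ∑ j ∈ range J, ((if a ∈ B j then (Y : ℝ) else 0) + η * Y) :=
        sum_le_sum fun a ha => sum_le_sum fun j _ => hFle a ha j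
    _ = ∑ j ∈ range J, ∑ a ∈ range (PP 0 W), ((if a ∈ B j then (Y : ℝ) else 0) + η * Y) :=
        sum_comm
    _ ≤ ∑ _j ∈ range J, 2 * η * (PP 0 W * Y) := by
        refine sum_le_sum fun j _ => ?_
        rw [sum_add_distrib, sum_const, card_range, nsmul_eq_mul]
        have e1 : ∑ a ∈ range (PP 0 W), (if a ∈ B j then (Y : ℝ) else 0) = (B j).card * Y := by
          rw [← sum_filter, sum_const, nsmul_eq_mul]
          congr 3
          ext a
          rw [mem_filter]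
          exact ⟨fun h => h.2, fun h => ⟨(mem_filter.1 h).1, h⟩⟩
        have e2 : ((B j).card : ℝ) * Y ≤ η * PP 0 W * Y :=
          mul_le_mul_of_nonneg_right (h1 (j * h)) (by positivity)
        rw [e1]
        linarith
    _ = 2 * J * η * (PP 0 W * Y) := by
        rw [sum_const, card_range, nsmul_eq_mul]
        ring

open Classical in
theorem upper_half (θ γ ε ω : ℝ) (hP : Par θ γ ε ω) (c : ℝ) (hc : 0 < c) :
    Tendsto (fun X : ℕ => (((Icc 1 X).filter (fun n : ℕ =>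
      ¬ Dens (exp (log X ^ θ)) (exp (c * log X ^ γ)) (2 * log X ^ (θ + γ + ε)) n)).card : ℝ) / X)
      atTop (𝓝 0) := by
  obtain ⟨hε, hγ, hγθ, hω, hω1⟩ := id hP
  have hγ0 : 0 < γ := by linarith
  have hlog : Tendsto (fun X : ℕ => log (X : ℝ)) atTop atTop :=
    tendsto_log_atTop.comp tendsto_natCast_atTop_atTop
  have hlim : Tendsto (fun X : ℕ => 12 * exp (-(log (X : ℝ)) ^ γ)) atTop (𝓝 0) := by
    have e1 : Tendsto (fun x : ℝ => 12 * exp (-x ^ γ)) atTop (𝓝 0) := by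
      have := (tendsto_exp_neg_atTop_nhds_zero.comp (tendsto_rpow_atTop hγ0)).const_mul 12
      simpa using this
    exact e1.comp hlog
  have k1 := hlog.eventually (stage1 θ γ ε ω hP)
  have k2 := hlog.eventually (stage2 θ γ ε ω hP)
  have k3 := up_scale ω (by linarith) hω1
  have k4 := hlog.eventually (asy0 γ (γ + ε / 5) (c + 1) (by linarith))
  have k5 := hlog.eventually_ge_atTop 1
  refine squeeze_zero' (Eventually.of_forall fun X => by positivity) ?_ hlim
  filter_upwards [k1, k2, k3, k4, k5] with X k1 k2 k3 k4 k5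
  obtain ⟨hX1, hX2, hX3⟩ := k3
  have hX0 : (0 : ℝ) < X := by exact_mod_cast hX1
  set l := log (X : ℝ) with hl
  have hl0 : 0 ≤ l := by linarith
  have hcore := up_core (Wn ω l) (Zn θ l) X _ (⌊exp (c * l ^ γ)⌋₊ + 2) (hU θ γ ε l) (mU θ γ ε l)
    (exp (l ^ θ)) (exp (c * l ^ γ)) (2 * l ^ (θ + γ + ε)) (exp (-l ^ (γ + ε / 5)))
    (exp_pos _).le ?_ rfl ?_ ?_ ?_ k1 (fun s0 a T h1 h2 => k2 s0 a _ T h1 h2 hX3)
  · rw [div_le_iff₀ hX0]
    refine hcore.trans ?_
    have hX2' : ((PP 0 (Wn ω l) : ℝ) * ((X / PP 0 (Wn ω l) + 1 : ℕ) : ℝ)) ≤ 2 * X := by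
      exact_mod_cast hX2
    have e1 : 1 ≤ exp (c * l ^ γ) := one_le_exp (by positivity)
    have e2 : ((⌊exp (c * l ^ γ)⌋₊ + 2 : ℕ) : ℝ) ≤ 3 * exp (c * l ^ γ) := by
      push_cast
      have := Nat.floor_le (exp_pos (c * l ^ γ)).le
      linarith
    have e3 : exp (c * l ^ γ) * exp (-l ^ (γ + ε / 5)) ≤ exp (-l ^ γ) := by
      rw [← exp_add]
      exact exp_le_exp.2 (by linarith)
    have e4 : 0 < exp (-l ^ (γ + ε / 5)) := exp_pos _
    calc 2 * ((⌊exp (c * l ^ γ)⌋₊ + 2 : ℕ) : ℝ) * exp (-l ^ (γ + ε / 5)) *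
          ((PP 0 (Wn ω l) : ℝ) * ((X / PP 0 (Wn ω l) + 1 : ℕ) : ℝ))
        ≤ 2 * (3 * exp (c * l ^ γ)) * exp (-l ^ (γ + ε / 5)) * (2 * X) := by
          gcongr
      _ = 12 * (exp (c * l ^ γ) * exp (-l ^ (γ + ε / 5))) * X := by ring
      _ ≤ 12 * exp (-l ^ γ) * X := by gcongr
  · unfold hU
    exact Nat.floor_pos.2 (one_le_rpow k5 (by linarith))
  · intro p hp
    unfold Zn
    exact Nat.le_floor hp
  · unfold hU
    have := Nat.floor_le (show 0 ≤ l ^ (θ + γ + ε) by positivity)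
    linarith
  · intro s hs
    have := Nat.le_floor hs
    omega

end Pool.Agent.RG
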